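import Pool.Agent.Lib.MP_d437ed.Hit.Basics

/-!
Module BAS: iterated dissection, the chain in terms of cells.
-/

noncomputable section

open MeasureTheory Complex

namespace Pool.Agent.Lib.MP_d437ed.Hit

namespace BasM

theorem child_ne (hD : SpecDiss) {T : Tile} (hT : T.e ≠ 0) (i : Fin 5) : (T.child i).e ≠ 0 :=
  ((hD T hT).1 i).2.1

theorem vol_iter (hD : SpecDiss) (T : Tile) (t : ℕ) (X : Set ℂ) (hT : T.e ≠ 0)
    (hX : MeasurableSet X) : volume (T.set ∩ X) = ∑ w ∈ wd t, volume ((T.desc w).set ∩ X) := by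
  induction t generalizing T with
  | zero => rw [sum_wd_zero]; rfl
  | succ t ih =>
    rw [sum_wd_succ, (hD T hT).2 X hX]
    exact Finset.sum_congr rfl (fun i _ => ih (T.child i) (child_ne hD hT i))

theorem desc_facts (hD : SpecDiss) (T : Tile) (w : List (Fin 5)) (hT : T.e ≠ 0) :
    (T.desc w).e ≠ 0 ∧ ‖(T.desc w).e‖ * √5 ^ w.length = ‖T.e‖ ∧ (T.desc w).set ⊆ T.set := by
  induction w generalizing T with
  | nil => exact ⟨hT, by simp, subset_rfl⟩
  | cons i w ih =>
    obtain ⟨h1, h2, h3⟩ := ih (T.child i) (child_ne hD hT i)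
    refine ⟨h1, ?_, h3.trans ((hD T hT).1 i).1⟩
    rw [desc_cons, List.length_cons, pow_succ, ← mul_assoc, h2]
    exact ((hD T hT).1 i).2.2

theorem vol_ne_top (hG : SpecGeo) {T : Tile} (hT : T.e ≠ 0) (X : Set ℂ) :
    volume (T.set ∩ X) ≠ ⊤ := by
  apply ne_top_of_le_ne_top _ (measure_mono Set.inter_subset_left)
  rw [(hG T hT).2.2.2.1]
  exact ENNReal.ofReal_ne_top

theorem null_inter (hG : SpecGeo) (hD : SpecDiss) (T : Tile) (t : ℕ) (hT : T.e ≠ 0)
    (w : List (Fin 5)) (hw : w ∈ wd t) (v : List (Fin 5)) (hv : v ∈ wd t) (hwv : w ≠ v) :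
    volume ((T.desc w).set ∩ (T.desc v).set) = 0 := by
  obtain ⟨hv1, -, hv3⟩ := desc_facts hD T v hT
  have h1 := vol_iter hD T t (T.desc v).set hT (hG _ hv1).1
  rw [Set.inter_eq_right.2 hv3, ← Finset.add_sum_erase _ _ hv, Set.inter_self] at h1
  have hfin : volume (T.desc v).set ≠ ⊤ := by
    have := vol_ne_top hG hv1 Set.univ
    rwa [Set.inter_univ] at this
  have h2 : ∑ x ∈ (wd t).erase v, volume ((T.desc x).set ∩ (T.desc v).set) = 0 := by
    have h3 : volume (T.desc v).set + 0 = volume (T.desc v).set +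
      ∑ x ∈ (wd t).erase v, volume ((T.desc x).set ∩ (T.desc v).set) := by
      rw [add_zero]; exact h1
    exact ((ENNReal.add_right_inj hfin).1 h3).symm
  exact (Finset.sum_eq_zero_iff.1 h2) w (Finset.mem_erase.2 ⟨hwv, hw⟩)

theorem ar_iter (hG : SpecGeo) (hD : SpecDiss) (A B : Tile) (t : ℕ) (hA : A.e ≠ 0) (hB : B.e ≠ 0) :
    ar A B = ∑ w ∈ wd t, ∑ v ∈ wd t, ar (A.desc w) (B.desc v) := by
  unfold ar
  rw [vol_iter hD A t B.set hA (hG B hB).1,
    ENNReal.toReal_sum (fun w _ => vol_ne_top hG (desc_facts hD A w hA).1 _)]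
  refine Finset.sum_congr rfl (fun w _ => ?_)
  have hw := (desc_facts hD A w hA).1
  rw [Set.inter_comm, vol_iter hD B t (A.desc w).set hB (hG _ hw).1,
    ENNReal.toReal_sum (fun v _ => vol_ne_top hG (desc_facts hD B v hB).1 _)]
  exact Finset.sum_congr rfl (fun v _ => by rw [Set.inter_comm])

theorem ar_mono (hG : SpecGeo) {A B A' B' : Tile} (hA : A.e ≠ 0) (h : A'.set ⊆ A.set)
    (h' : B'.set ⊆ B.set) : ar A' B' ≤ ar A B :=
  ENNReal.toReal_mono (vol_ne_top hG hA _) (measure_mono (Set.inter_subset_inter h h'))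

theorem cells (hG : SpecGeo) (hD : SpecDiss) (t : ℕ) (F : St → ℝ) (s : St) (hs : s.ok) :
    ExN t F s = ∑ w ∈ wd t, ∑ v ∈ wd t, ar (s.A.desc w) (s.B.desc v) / ar s.A s.B *
      F ⟨s.A.desc w, s.B.desc v, s.j + np s.B v - np s.A w⟩ := by
  induction t generalizing s with
  | zero =>
    rw [sum_wd_zero, sum_wd_zero]
    simp only [desc_nil, np_nil, Nat.cast_zero, add_zero, sub_zero]
    rw [div_self hs.2.2.ne', one_mul]
    rfl
  | succ t ih =>
    have hB' : s.B.e ≠ 0 := ok_B hs
    rw [sum_wd_succ]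
    simp only [sum_wd_succ]
    show Ex (ExN t F) s = _
    unfold Ex
    refine Finset.sum_congr rfl (fun i _ => ?_)
    rw [Finset.sum_comm]
    refine Finset.sum_congr rfl (fun k _ => ?_)
    rcases (ar_nonneg (s.A.child i) (s.B.child k)).eq_or_lt with h0 | h0
    · rw [← h0, zero_div, zero_mul]
      symm
      refine Finset.sum_eq_zero (fun w _ => Finset.sum_eq_zero (fun v _ => ?_))
      have h1 : ar (s.A.desc (i :: w)) (s.B.desc (k :: v)) = 0 := by
        refine le_antisymm ?_ (ar_nonneg _ _)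
        rw [h0]
        exact ar_mono hG (child_ne hD hs.1 i)
          (desc_facts hD (s.A.child i) w (child_ne hD hs.1 i)).2.2
          (desc_facts hD (s.B.child k) v (child_ne hD hB' k)).2.2
      rw [h1, zero_div, zero_mul]
    · have h5 : (0 : ℝ) < √5 := by positivity
      have hok : (s.ch i k).ok := by
        refine ⟨child_ne hD hs.1 i, ?_, h0⟩
        have e1 := ((hD s.A hs.1).1 i).2.2
        have e2 := ((hD s.B hB').1 k).2.2
        exact mul_right_cancel₀ h5.ne' (by
          show ‖(s.A.child i).e‖ * √5 = ‖(s.B.child k).e‖ * √5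
          rw [e1, e2, hs.2.1])
      rw [ih _ hok, Finset.mul_sum]
      refine Finset.sum_congr rfl (fun w _ => ?_)
      rw [Finset.mul_sum]
      refine Finset.sum_congr rfl (fun v _ => ?_)
      have e3 : (⟨(s.ch i k).A.desc w, (s.ch i k).B.desc v,
          (s.ch i k).j + np (s.ch i k).B v - np (s.ch i k).A w⟩ : St) =
          ⟨s.A.desc (i :: w), s.B.desc (k :: v), s.j + np s.B (k :: v) - np s.A (i :: w)⟩ := by
        ext1
        · rfl
        · rfl
        · show s.j + (if s.B.c then 1 else 0) - (if s.A.c then 1 else 0) +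
            (np (s.B.child k) v : ℤ) - np (s.A.child i) w = _
          rw [np_cons, np_cons]
          push_cast
          ring
      rw [e3, ← mul_assoc]
      congr 1
      show ar (s.A.child i) (s.B.child k) / ar s.A s.B *
        (ar (s.A.desc (i :: w)) (s.B.desc (k :: v)) / ar (s.A.child i) (s.B.child k)) = _
      have h1 := h0.ne'
      have h2 := hs.2.2.ne'
      field_simp

theorem eta_bds (hG : SpecGeo) (s : St) (hs : s.ok) : 0 < s.eta ∧ s.eta ≤ 1 := by
  have he : 0 < ‖s.A.e‖ := norm_pos_iff.2 hs.1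
  refine ⟨div_pos hs.2.2 (by positivity), ?_⟩
  rw [St.eta, div_le_one (by positivity)]
  have h := ENNReal.toReal_mono (b := volume s.A.set) (by
    rw [(hG _ hs.1).2.2.2.1]; exact ENNReal.ofReal_ne_top)
    (measure_mono (Set.inter_subset_left (s := s.A.set) (t := s.B.set)))
  rw [(hG _ hs.1).2.2.2.1, ENNReal.toReal_ofReal (by positivity)] at h
  exact h

end BasM

/-- **BAS**. -/
theorem specBas (hG : SpecGeo) (hD : SpecDiss) : SpecBas :=
  ⟨BasM.vol_iter hD, BasM.desc_facts hD,
    fun T t hT w hw v hv hwv => BasM.null_inter hG hD T t hT w hw v hv hwv,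
    fun A B t hA hB => BasM.ar_iter hG hD A B t hA hB,
    fun s t F hs => BasM.cells hG hD t F s hs, fun s hs => BasM.eta_bds hG s hs⟩

end Pool.Agent.Lib.MP_d437ed.Hit
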