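import Pool.Agent.Lib.MP_d437ed.Hit.Lat

/-!
CAN: the always-right descendants of a (+)-tile.
-/

noncomputable section

open Complex

namespace Pool.Agent.Lib.MP_d437ed.Hit

namespace CanM

/-- `w₀ = 0.14 - 0.02 i` -/
def w0 : ℂ := ⟨14 / 100, -(2 / 100)⟩
/-- `z₀ = 1/(2+i) = 0.4 - 0.2 i` -/
def z0 : ℂ := ⟨4 / 10, -(2 / 10)⟩

/-- displacement of `g` along an always-right word (in units of `e`) -/
def DD : List (Fin 5) → ℂ
  | [] => 0
  | i :: u => if i = 3 then w0 - z0 * DD u else -(w0 - z0 * DD u)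

theorem z0_eq : z0 = (2 + I)⁻¹ := by
  rw [eq_comm, inv_eq_iff_eq_inv, eq_comm]
  have : z0 * (2 + I) = 1 := by
    apply Complex.ext <;> simp [z0] <;> norm_num
  exact (eq_inv_of_mul_eq_one_right this).symm ▸ rfl

theorem z0_mul : z0 * (2 + I) = 1 := by
    apply Complex.ext <;> simp [z0] <;> norm_num

theorem div_two_add (x : ℂ) : x / (2 + I) = x * z0 := by
  rw [div_eq_iff DlM.two_add_ne, mul_assoc, z0_mul, mul_one]

theorem mem_wr {k : ℕ} {u : List (Fin 5)} : u ∈ wr k ↔ u.length = k ∧ ∀ i ∈ u, i = 3 ∨ i = 4 := by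
  constructor
  · intro h
    obtain ⟨v, -, rfl⟩ := Finset.mem_image.1 h
    refine ⟨by simp, ?_⟩
    intro i hi
    rw [List.mem_ofFn] at hi
    obtain ⟨j, rfl⟩ := hi
    cases v j <;> simp
  · rintro ⟨h1, h2⟩
    subst h1
    refine Finset.mem_image.2 ⟨fun i => decide (u[i] = 3), Finset.mem_univ _, ?_⟩
    apply List.ext_getElem
    · simp
    · intro n hn hn'
      simp only [List.getElem_ofFn, Fin.getElem_fin, decide_eq_true_eq]
      rcases h2 u[n] (List.getElem_mem hn') with h | h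
      · rw [if_pos h, h]
      · rw [h]; simp

theorem nil_mem : ([] : List (Fin 5)) ∈ wr 0 := mem_wr.2 ⟨rfl, by simp⟩

theorem cons_mem {k : ℕ} {i : Fin 5} {u : List (Fin 5)} :
    i :: u ∈ wr (k + 1) ↔ (i = 3 ∨ i = 4) ∧ u ∈ wr k := by
  rw [mem_wr, mem_wr]
  simp only [List.length_cons, Nat.add_right_cancel_iff, List.mem_cons, forall_eq_or_imp]
  tauto

theorem exists_mem (k : ℕ) : ∃ u, u ∈ wr k := by
  induction k with
  | zero => exact ⟨_, nil_mem⟩
  | succ k ih => obtain ⟨u, hu⟩ := ih; exact ⟨3 :: u, cons_mem.2 ⟨Or.inl rfl, hu⟩⟩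

theorem mem_succ {k : ℕ} {u : List (Fin 5)} (hu : u ∈ wr (k + 1)) :
    ∃ v ∈ wr k, u = 3 :: v ∨ u = 4 :: v := by
  match u, hu with
  | [], h => have := (mem_wr.1 h).1; simp at this
  | i :: v, h =>
    obtain ⟨h1, h2⟩ := cons_mem.1 h
    exact ⟨v, h2, by rcases h1 with rfl | rfl <;> simp⟩

theorem mem_zero {u : List (Fin 5)} (hu : u ∈ wr 0) : u = [] :=
  List.length_eq_zero_iff.1 (mem_wr.1 hu).1

theorem DD_three (u : List (Fin 5)) : DD (3 :: u) = w0 - z0 * DD u := by simp [DD]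
theorem DD_four (u : List (Fin 5)) : DD (4 :: u) = -(w0 - z0 * DD u) := by
  have : (4 : Fin 5) ≠ 3 := by decide
  simp [DD, this]

/-! ### geometry of the children -/

theorem child_three (T : Tile) (hT : T.c = true) : (T.child 3).c = true ∧
    (T.child 3).e = -(T.e / (2 + I)) ∧ gT (T.child 3) = gT T + w0 * T.e := by
  have hpc : pc T.c = 2 + I := by rw [pc, if_pos hT]
  have hoff : off T.c 3 = 2 + 2 * I := by
    rw [hT]; simp only [off, oM]; apply Complex.ext <;> simp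
  have hdir : dir T.c 3 = -1 := by
    rw [hT]; simp [dir, dM]
  have h1 : (T.child 3).e = -(T.e / (2 + I)) := by
    simp only [Tile.child, hpc, hdir]; ring
  refine ⟨?_, h1, ?_⟩
  · simp [Tile.child, chi, hT, cM]
  · simp only [gT, h1]
    simp only [Tile.child, hpc, hoff, div_two_add]
    have h2 : (7 / 10 + 4 / 10 * I : ℂ) = ⟨7 / 10, 4 / 10⟩ := by apply Complex.ext <;> simp
    have h3 : z0 * (2 + 2 * I) - (7 / 10 + 4 / 10 * I) * z0 = (7 / 10 + 4 / 10 * I) + w0 := by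
      rw [h2]; apply Complex.ext <;> simp [z0, w0] <;> norm_num
    linear_combination T.e * h3

theorem child_four (T : Tile) (hT : T.c = true) : (T.child 4).c = true ∧
    (T.child 4).e = T.e / (2 + I) ∧ gT (T.child 4) = gT T - w0 * T.e := by
  have hpc : pc T.c = 2 + I := by rw [pc, if_pos hT]
  have hoff : off T.c 4 = I := by
    rw [hT]; simp [off, oM]
  have hdir : dir T.c 4 = 1 := by
    rw [hT]; simp [dir, dM]
  have h1 : (T.child 4).e = T.e / (2 + I) := by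
    simp only [Tile.child, hpc, hdir]; ring
  refine ⟨?_, h1, ?_⟩
  · simp [Tile.child, chi, hT, cM]
  · simp only [gT, h1]
    simp only [Tile.child, hpc, hoff, div_two_add]
    have h2 : (7 / 10 + 4 / 10 * I : ℂ) = ⟨7 / 10, 4 / 10⟩ := by apply Complex.ext <;> simp
    have h3 : z0 * I + (7 / 10 + 4 / 10 * I) * z0 = (7 / 10 + 4 / 10 * I) - w0 := by
      rw [h2]; apply Complex.ext <;> simp [z0, w0] <;> norm_num
    linear_combination T.e * h3

theorem desc_wr (k : ℕ) : ∀ (T : Tile), T.c = true → ∀ u ∈ wr k, (T.desc u).c = true ∧ np T u = k ∧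
    gT (T.desc u) = gT T + DD u * T.e := by
  induction k with
  | zero =>
    intro T hT u hu
    rw [mem_zero hu]
    exact ⟨hT, rfl, by simp [DD]⟩
  | succ k ih =>
    intro T hT u hu
    obtain ⟨v, hv, hu'⟩ := mem_succ hu
    rcases hu' with rfl | rfl
    · obtain ⟨h1, h2, h3⟩ := child_three T hT
      obtain ⟨g1, g2, g3⟩ := ih _ h1 v hv
      refine ⟨g1, ?_, ?_⟩
      · rw [np_cons, if_pos hT, g2]; omega
      · rw [desc_cons, g3, h2, h3, DD_three, div_two_add]; ring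
    · obtain ⟨h1, h2, h3⟩ := child_four T hT
      obtain ⟨g1, g2, g3⟩ := ih _ h1 v hv
      refine ⟨g1, ?_, ?_⟩
      · rw [np_cons, if_pos hT, g2]; omega
      · rw [desc_cons, g3, h2, h3, DD_four, div_two_add]; ring

/-! ### bounds for the displacements -/

theorem norm_le_iff (z : ℂ) (r : ℝ) (hr : 0 ≤ r) : ‖z‖ ≤ r ↔ z.re * z.re + z.im * z.im ≤ r ^ 2 := by
  rw [← Complex.normSq_apply, Complex.normSq_eq_norm_sq]
  exact (sq_le_sq₀ (norm_nonneg _) hr).symm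

theorem le_norm_iff (z : ℂ) (r : ℝ) (hr : 0 ≤ r) : r ≤ ‖z‖ ↔ r ^ 2 ≤ z.re * z.re + z.im * z.im := by
  rw [← Complex.normSq_apply, Complex.normSq_eq_norm_sq]
  exact (sq_le_sq₀ hr (norm_nonneg _)).symm

theorem norm_w0 : ‖w0‖ ≤ 14143 / 100000 := by
  rw [norm_le_iff _ _ (by norm_num)]; simp [w0]; norm_num

theorem norm_z0 : ‖z0‖ ≤ 44722 / 100000 := by
  rw [norm_le_iff _ _ (by norm_num)]; simp [z0]; norm_num

theorem norm_z0_sq : ‖z0‖ * ‖z0‖ = 1 / 5 := by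
  rw [← sq, ← Complex.normSq_eq_norm_sq, Complex.normSq_apply]; simp [z0]; norm_num

/-- every reachable displacement satisfies these bounds -/
structure Bd (z : ℂ) : Prop where
  n : ‖z‖ ≤ 256 / 1000
  b3 : |12 / 100 * z.im - 16 / 100 * z.re| ≤ 478 / 10000
  b2 : |4 / 10 * z.im - 2 / 10 * z.re| ≤ 838 / 10000
  b1 : |z.im| ≤ 1038 / 10000
  b0 : |z.re + 2 * z.im| ≤ 2038 / 10000

theorem Bd.neg {z : ℂ} (h : Bd z) : Bd (-z) := by
  obtain ⟨h1, h2, h3, h4, h5⟩ := h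
  refine ⟨by rwa [norm_neg], ?_, ?_, ?_, ?_⟩
  · rw [abs_le] at *; simp only [neg_re, neg_im]; constructor <;> linarith [h2.1, h2.2]
  · rw [abs_le] at *; simp only [neg_re, neg_im]; constructor <;> linarith [h3.1, h3.2]
  · rw [abs_le] at *; simp only [neg_im]; constructor <;> linarith [h4.1, h4.2]
  · rw [abs_le] at *; simp only [neg_re, neg_im]; constructor <;> linarith [h5.1, h5.2]

theorem Bd.step {z : ℂ} (h : Bd z) : Bd (w0 - z0 * z) := by
  obtain ⟨h1, h2, h3, h4, h5⟩ := h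
  have h6 : |16 / 1000 * z.im - 88 / 1000 * z.re| ≤ 229 / 10000 := by
    have hs := (norm_le_iff _ _ (by norm_num)).1 h1
    apply abs_le_of_sq_le_sq _ (by norm_num)
    nlinarith [sq_nonneg (16 / 1000 * z.re + 88 / 1000 * z.im)]
  have hre : (w0 - z0 * z).re = 14 / 100 - (4 / 10 * z.re + 2 / 10 * z.im) := by
    simp [w0, z0]
  have him : (w0 - z0 * z).im = -(2 / 100) - (4 / 10 * z.im - 2 / 10 * z.re) := by
    simp [w0, z0]; ring
  refine ⟨?_, ?_, ?_, ?_, ?_⟩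
  · calc ‖w0 - z0 * z‖ ≤ ‖w0‖ + ‖z0 * z‖ := norm_sub_le _ _
      _ = ‖w0‖ + ‖z0‖ * ‖z‖ := by rw [norm_mul]
      _ ≤ 14143 / 100000 + 44722 / 100000 * (256 / 1000) := by
          apply add_le_add norm_w0
          exact mul_le_mul norm_z0 h1 (norm_nonneg _) (by norm_num)
      _ ≤ 256 / 1000 := by norm_num
  · rw [hre, him]; rw [abs_le] at *; constructor <;> linarith [h6.1, h6.2]
  · rw [hre, him]; rw [abs_le] at *; constructor <;> linarith [h2.1, h2.2]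
  · rw [him]; rw [abs_le] at *; constructor <;> linarith [h3.1, h3.2]
  · rw [hre, him]; rw [abs_le] at *; constructor <;> linarith [h4.1, h4.2]

theorem bd_zero : Bd 0 := ⟨by simp; norm_num, by simp; norm_num, by simp; norm_num, by simp; norm_num, by simp; norm_num⟩

theorem bd (k : ℕ) : ∀ u ∈ wr k, Bd (DD u) := by
  induction k with
  | zero => intro u hu; rw [mem_zero hu]; exact bd_zero
  | succ k ih =>
    intro u hu
    obtain ⟨v, hv, hu'⟩ := mem_succ hu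
    rcases hu' with rfl | rfl
    · rw [DD_three]; exact (ih v hv).step
    · rw [DD_four]; exact (ih v hv).step.neg

/-- the ball around an always-right point is in the tile -/
theorem ball_sub (T : Tile) (hT : T.c = true) (he : T.e ≠ 0) (k : ℕ) (u : List (Fin 5)) (hu : u ∈ wr k) :
    Metric.ball (gT (T.desc u)) (13 / 100 * ‖T.e‖) ⊆ T.set := by
  intro z hz
  rw [Metric.mem_ball, dist_eq_norm] at hz
  obtain ⟨-, -, h3⟩ := desc_wr k T hT u hu
  have hb := bd k u hu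
  set δ : ℂ := (z - gT (T.desc u)) / T.e with hδ
  have hδn : ‖δ‖ ≤ 13 / 100 := by
    rw [hδ, norm_div, div_le_iff₀ (norm_pos_iff.mpr he)]
    exact hz.le
  have hw : T.w z = (7 / 10 + 4 / 10 * I) + DD u + δ := by
    simp only [Tile.w, hδ]
    rw [h3, gT]
    field_simp
    ring
  have hc : (7 / 10 + 4 / 10 * I : ℂ) = ⟨7 / 10, 4 / 10⟩ := by apply Complex.ext <;> simp
  have hre : (T.w z).re = 7 / 10 + (DD u).re + δ.re := by rw [hw, hc]; simp
  have him : (T.w z).im = 4 / 10 + (DD u).im + δ.im := by rw [hw, hc]; simp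
  have d1 := abs_le.mp ((Complex.abs_re_le_norm δ).trans hδn)
  have d2 := abs_le.mp ((Complex.abs_im_le_norm δ).trans hδn)
  have d3 : |δ.re + 2 * δ.im| ≤ 2907 / 10000 := by
    have hs := (norm_le_iff _ _ (by norm_num)).1 hδn
    apply abs_le_of_sq_le_sq _ (by norm_num)
    nlinarith [sq_nonneg (2 * δ.re - δ.im)]
  have d3' := abs_le.mp d3
  have e1 := abs_le.mp ((Complex.abs_re_le_norm (DD u)).trans hb.n)
  have e2 := abs_le.mp hb.b1
  have e3 := abs_le.mp hb.b0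
  have hsg : sg T.c = 1 := by rw [hT]; simp [sg]
  refine ⟨?_, ?_, ?_⟩
  · rw [hre]; linarith [d1.1, e1.1]
  · rw [him, hsg]; linarith [d2.1, e2.1]
  · rw [hre, him, hsg]; linarith [d3'.2, e3.2]

/-! ### large distance -/

/-- one of the two signs does not decrease the norm -/
theorem sign_large (x y : ℂ) : ‖x‖ ≤ ‖x + y‖ ∨ ‖x‖ ≤ ‖x - y‖ := by
  by_contra hcon
  push Not at hcon
  have h1 : ‖x + y‖ ^ 2 < ‖x‖ ^ 2 := pow_lt_pow_left₀ hcon.1 (norm_nonneg _) two_ne_zero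
  have h2 : ‖x - y‖ ^ 2 < ‖x‖ ^ 2 := pow_lt_pow_left₀ hcon.2 (norm_nonneg _) two_ne_zero
  rw [← Complex.normSq_eq_norm_sq, ← Complex.normSq_eq_norm_sq, Complex.normSq_apply,
    Complex.normSq_apply] at h1 h2
  simp only [add_re, add_im, sub_re, sub_im] at h1 h2
  nlinarith [sq_nonneg y.re, sq_nonneg y.im]

theorem far (k : ℕ) (hk : 2 ≤ k) : ∃ v ∈ wr (k - 1), 2 / 10 ≤ ‖w0 - z0 * DD v‖ := by
  obtain ⟨m, rfl⟩ : ∃ m, k = m + 2 := ⟨k - 2, by omega⟩
  have hx : 2 / 10 ≤ ‖w0 + z0 * w0‖ := by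
    rw [le_norm_iff _ _ (by norm_num)]; simp [w0, z0]; norm_num
  obtain ⟨u, hu⟩ : ∃ u ∈ wr m, ‖w0 + z0 * w0‖ ≤ ‖w0 + z0 * w0 - z0 * z0 * DD u‖ := by
    rcases Nat.eq_zero_or_pos m with rfl | hm
    · exact ⟨[], nil_mem, by simp [DD]⟩
    · obtain ⟨n, rfl⟩ : ∃ n, m = n + 1 := ⟨m - 1, by omega⟩
      obtain ⟨v, hv⟩ := exists_mem n
      rcases sign_large (w0 + z0 * w0) (z0 * z0 * (w0 - z0 * DD v)) with h | h
      · refine ⟨4 :: v, cons_mem.2 ⟨Or.inr rfl, hv⟩, ?_⟩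
        rw [DD_four]
        have : w0 + z0 * w0 - z0 * z0 * -(w0 - z0 * DD v) = w0 + z0 * w0 + z0 * z0 * (w0 - z0 * DD v) := by
          ring
        rw [this]; exact h
      · refine ⟨3 :: v, cons_mem.2 ⟨Or.inl rfl, hv⟩, ?_⟩
        rw [DD_three]; exact h
  refine ⟨4 :: u, ?_, ?_⟩
  · have : m + 2 - 1 = m + 1 := by omega
    rw [this]
    exact cons_mem.2 ⟨Or.inr rfl, hu.1⟩
  · rw [DD_four]
    have : w0 - z0 * -(w0 - z0 * DD u) = w0 + z0 * w0 - z0 * z0 * DD u := by ring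
    rw [this]
    exact hx.trans hu.2

/-! ### chains -/

/-- the constant `c = 0.2 + 0.4 i` of the joining step -/
theorem join (m : ℕ) (hm : 1 ≤ m) : ∃ u ∈ wr m, ‖(w0 - z0 * w0) + z0 * z0 * DD u‖ ≤ 9 / 100 := by
  obtain ⟨n, rfl⟩ : ∃ n, m = n + 1 := ⟨m - 1, by omega⟩
  -- `u = 4 :: v`, `DD u = -w0 + z0 DD v`; the sign of `DD v` is chosen
  set x : ℂ := (w0 - z0 * w0) - z0 * z0 * w0 with hx
  have hxn : x.re * x.re + x.im * x.im ≤ 72 / 10000 := by
    rw [hx]; simp [w0, z0]; norm_num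
  have key : ∀ y : ℂ, ‖y‖ ≤ 256 / 1000 → x.re * (z0 * z0 * z0 * y).re + x.im * (z0 * z0 * z0 * y).im ≤ 0 →
      ‖x + z0 * z0 * z0 * y‖ ≤ 9 / 100 := by
    intro y hy h
    rw [norm_le_iff _ _ (by norm_num)]
    have h2 : (z0 * z0 * z0 * y).re * (z0 * z0 * z0 * y).re + (z0 * z0 * z0 * y).im * (z0 * z0 * z0 * y).im
        ≤ 6 / 10000 := by
      rw [← Complex.normSq_apply, Complex.normSq_eq_norm_sq, norm_mul, norm_mul, norm_mul]
      have : (‖z0‖ * ‖z0‖ * ‖z0‖ * ‖y‖) ^ 2 = (‖z0‖ * ‖z0‖) ^ 3 * ‖y‖ ^ 2 := by ring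
      rw [this, norm_z0_sq]
      have := pow_le_pow_left₀ (norm_nonneg _) hy 2
      nlinarith
    simp only [add_re, add_im]
    nlinarith
  have hbd : ∃ v ∈ wr n, x.re * (z0 * z0 * z0 * DD v).re + x.im * (z0 * z0 * z0 * DD v).im ≤ 0 := by
    rcases Nat.eq_zero_or_pos n with rfl | hn
    · exact ⟨[], nil_mem, by simp [DD]⟩
    · obtain ⟨l, rfl⟩ : ∃ l, n = l + 1 := ⟨n - 1, by omega⟩
      obtain ⟨v, hv⟩ := exists_mem l
      rcases le_total (x.re * (z0 * z0 * z0 * DD (3 :: v)).re + x.im * (z0 * z0 * z0 * DD (3 :: v)).im) 0 with h | h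
      · exact ⟨3 :: v, cons_mem.2 ⟨Or.inl rfl, hv⟩, h⟩
      · refine ⟨4 :: v, cons_mem.2 ⟨Or.inr rfl, hv⟩, ?_⟩
        have e : z0 * z0 * z0 * DD (4 :: v) = -(z0 * z0 * z0 * DD (3 :: v)) := by
          rw [DD_three, DD_four]; ring
        rw [e, neg_re, neg_im]
        linarith
  obtain ⟨v, hv, hv2⟩ := hbd
  refine ⟨4 :: v, cons_mem.2 ⟨Or.inr rfl, hv⟩, ?_⟩
  have e : (w0 - z0 * w0) + z0 * z0 * DD (4 :: v) = x + z0 * z0 * z0 * DD v := by
    rw [DD_four, hx]; ring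
  rw [e]
  exact key _ (bd n v hv).n hv2

/-- connectedness of the displacements on the scale `r` -/
def Conn (k : ℕ) (r : ℝ) : Prop := ∀ Q : List (Fin 5) → Prop, (∃ u ∈ wr k, Q u) → (∃ u ∈ wr k, ¬ Q u) →
  ∃ u ∈ wr k, ∃ u' ∈ wr k, Q u ∧ ¬ Q u' ∧ ‖DD u - DD u'‖ ≤ r

/-- contraction of the halves: connectedness of `wr k` on the scale `r` gives it on the scale `‖z0‖ r` for the halves -/
theorem conn_succ' (k : ℕ) (r r' : ℝ) (hrr : ‖z0‖ * r ≤ r') (h : Conn k r)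
    (v : List (Fin 5)) (hv : v ∈ wr k)
    (hj : 2 * ‖w0 - z0 * DD v‖ ≤ r') : Conn (k + 1) r' := by
  intro Q h1 h2
  classical
  have half : ∀ i : Fin 5, (i = 3 ∨ i = 4) → (∃ u ∈ wr k, Q (i :: u)) → (∃ u ∈ wr k, ¬ Q (i :: u)) →
      ∃ u ∈ wr (k + 1), ∃ u' ∈ wr (k + 1), Q u ∧ ¬ Q u' ∧ ‖DD u - DD u'‖ ≤ r' := by
    intro i hi a1 a2
    obtain ⟨u, hu, u', hu', q1, q2, q3⟩ := h (fun w => Q (i :: w)) a1 a2
    refine ⟨i :: u, cons_mem.2 ⟨hi, hu⟩, i :: u', cons_mem.2 ⟨hi, hu'⟩, q1, q2, ?_⟩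
    have e : ‖DD (i :: u) - DD (i :: u')‖ = ‖z0‖ * ‖DD u - DD u'‖ := by
      rcases hi with rfl | rfl
      · rw [DD_three, DD_three, ← norm_mul, ← norm_neg]; congr 1; ring
      · rw [DD_four, DD_four, ← norm_mul]; congr 1; ring
    rw [e]
    exact (mul_le_mul_of_nonneg_left q3 (norm_nonneg _)).trans hrr
  have hd : ‖DD (3 :: v) - DD (4 :: v)‖ ≤ r' := by
    rw [DD_three, DD_four]
    have : w0 - z0 * DD v - -(w0 - z0 * DD v) = 2 * (w0 - z0 * DD v) := by ring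
    rw [this, norm_mul]
    simpa using hj
  have hd' : ‖DD (4 :: v) - DD (3 :: v)‖ ≤ r' := by rw [norm_sub_rev]; exact hd
  by_cases c3 : ∃ u ∈ wr k, ¬ Q (3 :: u)
  · by_cases c3' : ∃ u ∈ wr k, Q (3 :: u)
    · exact half 3 (Or.inl rfl) c3' c3
    · push Not at c3'
      by_cases c4 : ∃ u ∈ wr k, ¬ Q (4 :: u)
      · by_cases c4' : ∃ u ∈ wr k, Q (4 :: u)
        · exact half 4 (Or.inr rfl) c4' c4
        · push Not at c4'
          exfalso
          obtain ⟨u, hu, hq⟩ := h1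
          obtain ⟨w, hw, rfl | rfl⟩ := mem_succ hu
          · exact c3' w hw hq
          · exact c4' w hw hq
      · push Not at c4
        exact ⟨4 :: v, cons_mem.2 ⟨Or.inr rfl, hv⟩, 3 :: v, cons_mem.2 ⟨Or.inl rfl, hv⟩, c4 v hv, c3' v hv, hd'⟩
  · push Not at c3
    by_cases c4 : ∃ u ∈ wr k, ¬ Q (4 :: u)
    · by_cases c4' : ∃ u ∈ wr k, Q (4 :: u)
      · exact half 4 (Or.inr rfl) c4' c4
      · push Not at c4'
        exact ⟨3 :: v, cons_mem.2 ⟨Or.inl rfl, hv⟩, 4 :: v, cons_mem.2 ⟨Or.inr rfl, hv⟩, c3 v hv, c4' v hv, hd⟩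
    · push Not at c4
      exfalso
      obtain ⟨u, hu, hq⟩ := h2
      obtain ⟨w, hw, rfl | rfl⟩ := mem_succ hu
      · exact hq (c3 w hw)
      · exact hq (c4 w hw)

/-- the step on one scale -/
theorem conn_succ (k : ℕ) (r : ℝ) (hr : 0 ≤ r) (h : Conn k r) (v : List (Fin 5)) (hv : v ∈ wr k)
    (hj : 2 * ‖w0 - z0 * DD v‖ ≤ r) : Conn (k + 1) r := by
  refine conn_succ' k r r ?_ h v hv hj
  have hz : ‖z0‖ ≤ 1 := norm_z0.trans (by norm_num)
  calc ‖z0‖ * r ≤ 1 * r := mul_le_mul_of_nonneg_right hz hr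
    _ = r := one_mul r

theorem conn_one : Conn 1 (2 * ‖w0‖) := by
  have h0 : Conn 0 (2 * ‖w0‖) := by
    intro Q h1 h2
    obtain ⟨u, hu, q⟩ := h1
    obtain ⟨u', hu', q'⟩ := h2
    rw [mem_zero hu] at q
    rw [mem_zero hu'] at q'
    exact absurd q q'
  refine conn_succ 0 _ (by positivity) h0 [] nil_mem ?_
  simp [DD]

theorem conn_two : Conn 2 (18 / 100) := by
  refine conn_succ' 1 (2 * ‖w0‖) _ ?_ conn_one [3] (cons_mem.2 ⟨Or.inl rfl, nil_mem⟩) ?_
  · calc ‖z0‖ * (2 * ‖w0‖) ≤ 44722 / 100000 * (2 * (14143 / 100000)) :=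
          mul_le_mul norm_z0 (by linarith [norm_w0]) (by positivity) (by norm_num)
      _ ≤ 18 / 100 := by norm_num
  · have e : DD [3] = w0 := by rw [DD_three]; simp [DD]
    rw [e]
    have : ‖w0 - z0 * w0‖ ≤ 9 / 100 := by
      rw [norm_le_iff _ _ (by norm_num)]; simp [w0, z0]; norm_num
    linarith

theorem conn (k : ℕ) (hk : 2 ≤ k) : Conn k (18 / 100) := by
  induction k, hk using Nat.le_induction with
  | base => exact conn_two
  | succ k hk ih =>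
    obtain ⟨u, hu, hn⟩ := join (k - 1) (by omega)
    have hu3 : 3 :: u ∈ wr k := by
      have : k = (k - 1) + 1 := by omega
      rw [this]; exact cons_mem.2 ⟨Or.inl rfl, hu⟩
    refine conn_succ k _ (by norm_num) ih (3 :: u) hu3 ?_
    rw [DD_three]
    have : w0 - z0 * (w0 - z0 * DD u) = (w0 - z0 * w0) + z0 * z0 * DD u := by ring
    rw [this]
    linarith

/-! ### averages -/

theorem sum_wr_succ {β : Type*} [AddCommMonoid β] (k : ℕ) (f : List (Fin 5) → β) :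
    ∑ u ∈ wr (k + 1), f u = ∑ u ∈ wr k, (f (3 :: u) + f (4 :: u)) := by
  classical
  rw [Finset.sum_add_distrib]
  have h1 : ∑ u ∈ wr k, f (3 :: u) = ∑ u ∈ (wr k).image (fun u => 3 :: u), f u := by
    rw [Finset.sum_image (fun a _ b _ h => (List.cons.inj h).2)]
  have h2 : ∑ u ∈ wr k, f (4 :: u) = ∑ u ∈ (wr k).image (fun u => 4 :: u), f u := by
    rw [Finset.sum_image (fun a _ b _ h => (List.cons.inj h).2)]
  rw [h1, h2, ← Finset.sum_union]
  · congr 1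
    ext u
    rw [Finset.mem_union, Finset.mem_image, Finset.mem_image]
    constructor
    · intro hu
      obtain ⟨v, hv, rfl | rfl⟩ := mem_succ hu
      · exact Or.inl ⟨v, hv, rfl⟩
      · exact Or.inr ⟨v, hv, rfl⟩
    · rintro (⟨v, hv, rfl⟩ | ⟨v, hv, rfl⟩)
      · exact cons_mem.2 ⟨Or.inl rfl, hv⟩
      · exact cons_mem.2 ⟨Or.inr rfl, hv⟩
  · rw [Finset.disjoint_left]
    intro u hu hu'
    obtain ⟨v, -, rfl⟩ := Finset.mem_image.1 hu
    obtain ⟨v', -, h⟩ := Finset.mem_image.1 hu'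
    have := (List.cons.inj h).1
    exact absurd this (by decide)

theorem wr_zero : wr 0 = {[]} := by
  ext u
  rw [Finset.mem_singleton]
  exact ⟨mem_zero, fun h => h ▸ nil_mem⟩

theorem card_wr (k : ℕ) : (wr k).card = 2 ^ k := by
  induction k with
  | zero => rw [wr_zero]; rfl
  | succ k ih =>
    rw [Finset.card_eq_sum_ones, sum_wr_succ, Finset.sum_const, ih]
    simp [pow_succ]

theorem sum_DD (k : ℕ) : ∑ u ∈ wr k, DD u = 0 := by
  cases k with
  | zero => rw [wr_zero]; simp [DD]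
  | succ k =>
    rw [sum_wr_succ]
    refine Finset.sum_eq_zero fun u _ => ?_
    rw [DD_three, DD_four]; ring

end CanM

theorem specCan : SpecCan := by
  intro T hT he
  have he0 : 0 < ‖T.e‖ := norm_pos_iff.mpr he
  have hdist : ∀ k : ℕ, ∀ u ∈ wr k, ∀ u' ∈ wr k,
      ‖gT (T.desc u) - gT (T.desc u')‖ = ‖CanM.DD u - CanM.DD u'‖ * ‖T.e‖ := by
    intro k u hu u' hu'
    rw [(CanM.desc_wr k T hT u hu).2.2, (CanM.desc_wr k T hT u' hu').2.2, ← norm_mul]
    congr 1; ring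
  refine ⟨?_, ?_, ?_, ?_, ?_⟩
  · intro k u hu
    obtain ⟨h1, h2, h3⟩ := CanM.desc_wr k T hT u hu
    refine ⟨h1, h2, CanM.ball_sub T hT he k u hu, ?_⟩
    rw [h3, add_sub_cancel_left, norm_mul]
    exact mul_le_mul_of_nonneg_right (CanM.bd k u hu).n he0.le
  · intro k hk
    obtain ⟨v, hv, hn⟩ := CanM.far k hk
    have hk1 : k = (k - 1) + 1 := by omega
    have m3 : 3 :: v ∈ wr k := by rw [hk1]; exact CanM.cons_mem.2 ⟨Or.inl rfl, hv⟩
    have m4 : 4 :: v ∈ wr k := by rw [hk1]; exact CanM.cons_mem.2 ⟨Or.inr rfl, hv⟩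
    refine ⟨_, m3, _, m4, ?_⟩
    rw [hdist k _ m3 _ m4]
    apply mul_le_mul_of_nonneg_right _ he0.le
    rw [CanM.DD_three, CanM.DD_four]
    have : CanM.w0 - CanM.z0 * CanM.DD v - -(CanM.w0 - CanM.z0 * CanM.DD v) =
      2 * (CanM.w0 - CanM.z0 * CanM.DD v) := by ring
    rw [this, norm_mul]
    have h2 : ‖(2 : ℂ)‖ = 2 := by simp
    rw [h2]
    linarith
  · intro k hk Q h1 h2
    obtain ⟨u, hu, u', hu', q1, q2, q3⟩ := CanM.conn k hk Q h1 h2
    refine ⟨u, hu, u', hu', q1, q2, ?_⟩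
    rw [hdist k u hu u' hu']
    exact mul_le_mul_of_nonneg_right q3 he0.le
  · intro k
    rw [Finset.sum_congr rfl (fun u hu => (CanM.desc_wr k T hT u hu).2.2), Finset.sum_add_distrib,
      Finset.sum_const, ← Finset.sum_mul, CanM.sum_DD, zero_mul, add_zero, CanM.card_wr, nsmul_eq_mul]
    push_cast
    rfl
  · have hw : CanM.w0 = 14 / 100 - 2 / 100 * I := by
      apply Complex.ext <;> simp [CanM.w0]
    obtain ⟨-, h2, h3⟩ := CanM.child_three T hT
    obtain ⟨-, h5, h6⟩ := CanM.child_four T hT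
    rw [hw] at h3 h6
    exact ⟨h3, h6, h2, h5⟩

end Pool.Agent.Lib.MP_d437ed.Hit
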