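import Pool.Agent.Lib.MP_d437ed.Hit.Basics

/-!
Module COAL of the hitting lemma (MP_d437ed): two compatible tiles in one lattice with positive overlap have an
identical pair of descendants of depth 4.
-/

noncomputable section

open MeasureTheory Complex

namespace Pool.Agent.Lib.MP_d437ed.Hit.COALM

/-- integer tiles -/
structure ZT where
  x : ℤ
  y : ℤ
  a : ℤ
  b : ℤ
  c : Bool
deriving DecidableEq

/-- offsets -/
def offZ (c : Bool) (i : Fin 5) : ℤ × ℤ :=
  match c, i with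
  | false, 0 => (0, -2)
  | false, 1 => (2, -2)
  | false, 2 => (0, -1)
  | false, 3 => (2, -2)
  | false, 4 => (0, -1)
  | true, 0 => (0, 2)
  | true, 1 => (2, 2)
  | true, 2 => (0, 1)
  | true, 3 => (2, 2)
  | true, 4 => (0, 1)

/-- directions -/
def dirZ (c : Bool) (i : Fin 5) : ℤ × ℤ :=
  match c, i with
  | false, 0 => (0, 1)
  | false, 1 => (1, 0)
  | false, 2 => (1, 0)
  | false, 3 => (-1, 0)
  | false, 4 => (1, 0)
  | true, 0 => (0, -1)
  | true, 1 => (1, 0)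
  | true, 2 => (1, 0)
  | true, 3 => (-1, 0)
  | true, 4 => (1, 0)

/-- chiralities -/
def chiZ (c : Bool) (i : Fin 5) : Bool :=
  match c, i with
  | false, 0 => true
  | false, 1 => true
  | false, 2 => true
  | false, 3 => false
  | false, 4 => false
  | true, 0 => false
  | true, 1 => false
  | true, 2 => false
  | true, 3 => true
  | true, 4 => true

/-- imaginary part of the conjugate of `pc c` -/
def qZ (c : Bool) : ℤ := if c then -1 else 1

/-- children, five times enlarged -/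
def ZT.child (T : ZT) (i : Fin 5) : ZT :=
  let f₁ := 2 * T.a - qZ T.c * T.b
  let f₂ := 2 * T.b + qZ T.c * T.a
  let o := offZ T.c i
  let d := dirZ T.c i
  ⟨5 * T.x + (f₁ * o.1 - f₂ * o.2), 5 * T.y + (f₁ * o.2 + f₂ * o.1), f₁ * d.1 - f₂ * d.2,
    f₁ * d.2 + f₂ * d.1, chiZ T.c i⟩

/-- descendants -/
def ZT.desc : ZT → List (Fin 5) → ZT
  | T, [] => T
  | T, i :: w => (T.child i).desc w

/-- powers of `i` -/
def un (l : Fin 4) : ℤ × ℤ :=
  match l with
  | 0 => (1, 0)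
  | 1 => (0, 1)
  | 2 => (-1, 0)
  | 3 => (0, -1)

/-- the table of coalescing pairs -/
def tab : List (Bool × Bool × Fin 4 × ℤ × ℤ × List (Fin 5) × List (Fin 5)) := [
  (true, true, 0, -1, 0, [2, 0, 0, 0], [1, 0, 0, 0]),
  (true, true, 0, 0, 0, [0, 0, 0, 0], [0, 0, 0, 0]),
  (true, true, 0, 1, 0, [1, 0, 0, 0], [2, 0, 0, 0]),
  (true, true, 1, 1, -1, [3, 0, 4, 2], [1, 0, 0, 1]),
  (true, true, 1, 1, 0, [2, 0, 0, 0], [0, 0, 0, 0]),
  (true, true, 1, 2, -1, [1, 1, 3, 1], [3, 0, 1, 2]),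
  (true, true, 1, 2, 0, [1, 0, 0, 0], [0, 0, 0, 0]),
  (true, true, 2, 1, 1, [4, 2, 0, 0], [3, 1, 0, 0]),
  (true, true, 3, 0, 1, [0, 0, 0, 0], [2, 0, 0, 0]),
  (true, true, 3, 0, 2, [0, 0, 0, 0], [1, 0, 0, 0]),
  (true, true, 3, 1, 1, [3, 2, 4, 2], [2, 1, 0, 1]),
  (true, true, 3, 1, 2, [3, 2, 4, 2], [1, 1, 0, 1]),
  (true, false, 0, -1, 1, [0, 4, 2, 0], [1, 0, 1, 0]),
  (true, false, 0, 0, 1, [2, 4, 2, 0], [0, 0, 1, 0]),
  (true, false, 0, 1, 1, [1, 4, 2, 0], [0, 0, 1, 0]),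
  (true, false, 1, 0, -1, [2, 4, 2, 0], [1, 0, 1, 0]),
  (true, false, 1, 0, 0, [2, 3, 1, 0], [0, 1, 2, 0]),
  (true, false, 1, 1, -1, [1, 4, 2, 0], [1, 0, 1, 0]),
  (true, false, 1, 1, 0, [1, 3, 1, 0], [0, 1, 2, 0]),
  (true, false, 2, 1, 0, [2, 3, 1, 0], [2, 1, 2, 0]),
  (true, false, 2, 2, 0, [2, 3, 1, 0], [1, 1, 2, 0]),
  (true, false, 2, 3, 0, [1, 3, 1, 0], [1, 1, 2, 0]),
  (true, false, 3, 1, 1, [0, 4, 2, 0], [0, 0, 1, 0]),
  (true, false, 3, 1, 2, [3, 2, 4, 1], [1, 3, 2, 0]),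
  (true, false, 3, 2, 1, [1, 3, 4, 2], [3, 2, 1, 0]),
  (false, true, 0, -1, -1, [0, 4, 2, 0], [1, 0, 1, 0]),
  (false, true, 0, 0, -1, [2, 4, 2, 0], [0, 0, 1, 0]),
  (false, true, 0, 1, -1, [1, 4, 2, 0], [0, 0, 1, 0]),
  (false, true, 1, 1, -2, [3, 2, 4, 1], [1, 3, 2, 0]),
  (false, true, 1, 1, -1, [0, 4, 2, 0], [0, 0, 1, 0]),
  (false, true, 1, 2, -1, [1, 3, 4, 2], [3, 2, 1, 0]),
  (false, true, 2, 1, 0, [2, 3, 1, 0], [2, 1, 2, 0]),
  (false, true, 2, 2, 0, [2, 3, 1, 0], [1, 1, 2, 0]),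
  (false, true, 2, 3, 0, [1, 3, 1, 0], [1, 1, 2, 0]),
  (false, true, 3, 0, 0, [2, 3, 1, 0], [0, 1, 2, 0]),
  (false, true, 3, 0, 1, [2, 4, 2, 0], [1, 0, 1, 0]),
  (false, true, 3, 1, 0, [1, 3, 1, 0], [0, 1, 2, 0]),
  (false, true, 3, 1, 1, [1, 4, 2, 0], [1, 0, 1, 0]),
  (false, false, 0, -1, 0, [2, 0, 0, 0], [1, 0, 0, 0]),
  (false, false, 0, 0, 0, [0, 0, 0, 0], [0, 0, 0, 0]),
  (false, false, 0, 1, 0, [1, 0, 0, 0], [2, 0, 0, 0]),
  (false, false, 1, 0, -2, [0, 0, 0, 0], [1, 0, 0, 0]),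
  (false, false, 1, 0, -1, [0, 0, 0, 0], [2, 0, 0, 0]),
  (false, false, 1, 1, -2, [3, 2, 4, 2], [1, 1, 0, 1]),
  (false, false, 1, 1, -1, [3, 2, 4, 2], [2, 1, 0, 1]),
  (false, false, 2, 1, -1, [4, 2, 0, 0], [3, 1, 0, 0]),
  (false, false, 3, 1, 0, [2, 0, 0, 0], [0, 0, 0, 0]),
  (false, false, 3, 1, 1, [3, 0, 4, 2], [1, 0, 0, 1]),
  (false, false, 3, 2, 0, [1, 0, 0, 0], [0, 0, 0, 0]),
  (false, false, 3, 2, 1, [1, 1, 3, 1], [3, 0, 1, 2])]

/-- values of a functional at the three corners -/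
def ZT.f0 (T : ZT) (α β : ℤ) : ℤ := α * T.x + β * T.y
def ZT.f1 (T : ZT) (α β : ℤ) : ℤ := α * (T.x + 2 * T.a) + β * (T.y + 2 * T.b)
def ZT.f2 (T : ZT) (α β : ℤ) : ℤ :=
  α * (T.x + qZ T.c * T.b) + β * (T.y - qZ T.c * T.a)

/-- the two triangles are separated by the functional -/
def sepI (T U : ZT) (α β : ℤ) : Bool :=
  let γ := max (max (T.f0 α β) (T.f1 α β)) (T.f2 α β)
  decide (γ ≤ U.f0 α β) && decide (γ ≤ U.f1 α β) && decide (γ ≤ U.f2 α β)

/-- the functionals -/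
def fnl : List (ℤ × ℤ) := [(1, 0), (0, 1), (1, 2), (1, -2), (2, 1), (2, -1), (-1, 0), (0, -1), (-1, -2), (-1, 2),
  (-2, -1), (-2, 1)]

/-- the two integer tiles of a configuration -/
def tA (c : Bool) : ZT := ⟨0, 0, 1, 0, c⟩
def tB (c : Bool) (l : Fin 4) (m n : ℤ) : ZT := ⟨m, n, (un l).1, (un l).2, c⟩

/-- the check of one configuration -/
def chk (c c' : Bool) (l : Fin 4) (m n : ℤ) : Bool :=
  (fnl.any fun p => sepI (tA c) (tB c' l m n) p.1 p.2) ||
  (tab.any fun r => decide (r.1 = c) && decide (r.2.1 = c') && decide (r.2.2.1 = l) && decide (r.2.2.2.1 = m) &&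
    decide (r.2.2.2.2.1 = n) && decide (r.2.2.2.2.2.1.length = 4) && decide (r.2.2.2.2.2.2.length = 4) &&
    decide ((tA c).desc r.2.2.2.2.2.1 = (tB c' l m n).desc r.2.2.2.2.2.2))

theorem chk_all : ∀ c c' : Bool, ∀ l : Fin 4, ∀ m n : Fin 5, chk c c' l ((m : ℕ) - 1) ((n : ℕ) - 2) = true := by
  decide +kernel


theorem off_eq (c : Bool) (i : Fin 5) : off c i = ((offZ c i).1 : ℂ) + (offZ c i).2 * I := by
  cases c <;> fin_cases i <;> simp [off, oM, offZ, Complex.ext_iff]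

theorem dir_eq (c : Bool) (i : Fin 5) : dir c i = ((dirZ c i).1 : ℂ) + (dirZ c i).2 * I := by
  cases c <;> fin_cases i <;> simp [dir, dM, dirZ]

theorem chi_eq (c : Bool) (i : Fin 5) : chi c i = chiZ c i := by
  cases c <;> fin_cases i <;> rfl

theorem div_pc (c : Bool) (z : ℂ) : z / pc c = z * (2 + (qZ c : ℂ) * I) / 5 := by
  have h1 : pc c * (2 + (qZ c : ℂ) * I) = 5 := by
    cases c <;> simp [pc, qZ, Complex.ext_iff] <;> norm_num
  have h2 : pc c ≠ 0 := by
    intro h0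
    rw [h0, zero_mul] at h1
    norm_num at h1
  rw [div_eq_div_iff h2 (by norm_num), mul_assoc, mul_comm _ (pc c), h1]

/-- the real tile of an integer tile -/
def emb (p g : ℂ) (k : ℕ) (T : ZT) : Tile :=
  ⟨p + g * ((T.x : ℂ) + T.y * I) / 5 ^ k, g * ((T.a : ℂ) + T.b * I) / 5 ^ k, T.c⟩

theorem emb_child (p g : ℂ) (k : ℕ) (T : ZT) (i : Fin 5) :
    (emb p g k T).child i = emb p g (k + 1) (T.child i) := by
  have hI : I * I = -1 := I_mul_I
  refine Tile.ext ?_ ?_ (chi_eq _ _)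
  · simp only [emb, Tile.child, div_pc, off_eq, ZT.child]
    push_cast
    generalize (offZ T.c i).1 = o₁
    generalize (offZ T.c i).2 = o₂
    rw [pow_succ]
    field_simp
    linear_combination g * ((T.a : ℂ) * qZ T.c * o₂ + T.b * qZ T.c * o₁ + 2 * T.b * o₂ + I * T.b * qZ T.c * o₂) * hI
  · simp only [emb, Tile.child, div_pc, dir_eq, ZT.child]
    push_cast
    generalize (dirZ T.c i).1 = o₁
    generalize (dirZ T.c i).2 = o₂
    rw [pow_succ]
    field_simp
    linear_combination g * ((T.a : ℂ) * qZ T.c * o₂ + T.b * qZ T.c * o₁ + 2 * T.b * o₂ + I * T.b * qZ T.c * o₂) * hI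

theorem emb_desc (p g : ℂ) (k : ℕ) (T : ZT) (w : List (Fin 5)) :
    (emb p g k T).desc w = emb p g (k + w.length) (T.desc w) := by
  induction w generalizing k T with
  | nil => rfl
  | cons i w ih =>
    rw [desc_cons, emb_child, ih, List.length_cons, ZT.desc]
    congr 1
    omega

/-! ### separated triangles -/

theorem null_line (p g : ℂ) (hg : g ≠ 0) (α β γ : ℝ) (h : α ^ 2 + β ^ 2 ≠ 0) :
    volume {z : ℂ | α * ((z - p) / g).re + β * ((z - p) / g).im = γ} = 0 := by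
  classical
  let L : ℂ →ₗ[ℝ] ℝ :=
    { toFun := fun z => α * (z / g).re + β * (z / g).im
      map_add' := by
        intro z z'
        rw [add_div, add_re, add_im]
        ring
      map_smul' := by
        intro c z
        rw [Complex.real_smul, mul_div_assoc, Complex.re_ofReal_mul, Complex.im_ofReal_mul]
        simp only [RingHom.id_apply, smul_eq_mul]
        ring }
  have hL : ∀ z, L z = α * (z / g).re + β * (z / g).im := fun z => rfl
  have h1 : L (g * (α + β * I)) = α ^ 2 + β ^ 2 := by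
    rw [hL, mul_div_cancel_left₀ _ hg]
    simp
    ring
  have hk : LinearMap.ker L ≠ ⊤ := by
    intro ht
    have : g * (α + β * I) ∈ LinearMap.ker L := by rw [ht]; trivial
    rw [LinearMap.mem_ker, h1] at this
    exact h this
  have h0 := Measure.addHaar_submodule (volume : Measure ℂ) (LinearMap.ker L) hk
  set z₀ : ℂ := p + ((γ / (α ^ 2 + β ^ 2) : ℝ) : ℂ) * (g * (α + β * I)) with hz₀
  have h2 : {z : ℂ | α * ((z - p) / g).re + β * ((z - p) / g).im = γ} =
      (fun z => z + (-z₀)) ⁻¹' (LinearMap.ker L : Set ℂ) := by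
    ext z
    rw [Set.mem_ofPred_eq, Set.mem_preimage, SetLike.mem_coe, LinearMap.mem_ker, ← hL]
    have h3 : L (z + -z₀) = L (z - p) - γ := by
      have h4 : z + -z₀ = (z - p) - (γ / (α ^ 2 + β ^ 2)) • (g * (α + β * I)) := by
        rw [hz₀, Complex.real_smul]
        ring
      rw [h4, map_sub, map_smul, h1, smul_eq_mul, div_mul_cancel₀ _ h]
    rw [h3, sub_eq_zero]
  rw [h2, measure_preimage_add_right, h0]

theorem val_eq (p g : ℂ) (hg : g ≠ 0) (T : ZT) (hT : T.a ≠ 0 ∨ T.b ≠ 0) (α β : ℤ) (z : ℂ) :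
    (α : ℝ) * ((z - p) / g).re + β * ((z - p) / g).im =
      T.f0 α β * (1 - ((emb p g 0 T).w z).re / 2 - sg T.c * ((emb p g 0 T).w z).im) +
      T.f1 α β * (((emb p g 0 T).w z).re / 2) + T.f2 α β * (sg T.c * ((emb p g 0 T).w z).im) := by
  have he : ((T.a : ℂ) + T.b * I) ≠ 0 := by
    intro h0
    have h1 := congrArg Complex.re h0
    have h2 := congrArg Complex.im h0
    simp at h1 h2
    rcases hT with h | h
    · exact h (by exact_mod_cast h1)
    · exact h (by exact_mod_cast h2)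
  have h3 : (z - p) / g = ((T.x : ℂ) + T.y * I) + ((T.a : ℂ) + T.b * I) * (emb p g 0 T).w z := by
    simp only [Tile.w, emb, pow_zero, div_one]
    generalize (T.a : ℂ) + T.b * I = E at he
    generalize (T.x : ℂ) + T.y * I = X
    field_simp
    ring
  rw [h3]
  generalize (emb p g 0 T).w z = w
  have hs : (qZ T.c : ℝ) = - sg T.c := by
    cases T.c <;> simp [qZ, sg]
  have hs2 : sg T.c * sg T.c = 1 := by
    cases T.c <;> simp [sg]
  simp only [ZT.f0, ZT.f1, ZT.f2, add_re, add_im, mul_re, mul_im, I_re, I_im, intCast_re, intCast_im]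
  push_cast
  rw [hs]
  linear_combination (α * T.b - β * T.a) * w.im * hs2

theorem ar_zero (p g : ℂ) (hg : g ≠ 0) (T U : ZT) (hT : T.a ≠ 0 ∨ T.b ≠ 0) (hU : U.a ≠ 0 ∨ U.b ≠ 0)
    (α β : ℤ) (hab : α ≠ 0 ∨ β ≠ 0) (h : sepI T U α β = true) :
    ar (emb p g 0 T) (emb p g 0 U) = 0 := by
  simp only [sepI, Bool.and_eq_true, decide_eq_true_eq] at h
  obtain ⟨⟨h0, h1⟩, h2⟩ := h
  set γ : ℤ := max (max (T.f0 α β) (T.f1 α β)) (T.f2 α β) with hγ
  have a0 : T.f0 α β ≤ γ := (le_max_left _ _).trans (le_max_left _ _)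
  have a1 : T.f1 α β ≤ γ := (le_max_right _ _).trans (le_max_left _ _)
  have a2 : T.f2 α β ≤ γ := le_max_right _ _
  have hne : (α : ℝ) ^ 2 + (β : ℝ) ^ 2 ≠ 0 := by
    rcases hab with h | h
    · have : (α : ℝ) ≠ 0 := by exact_mod_cast h
      positivity
    · have : (β : ℝ) ≠ 0 := by exact_mod_cast h
      positivity
  have hsub : (emb p g 0 T).set ∩ (emb p g 0 U).set ⊆
      {z : ℂ | (α : ℝ) * ((z - p) / g).re + (β : ℝ) * ((z - p) / g).im = (γ : ℝ)} := by
    rintro z ⟨hz, hz'⟩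
    have e1 := val_eq p g hg T hT α β z
    have e2 := val_eq p g hg U hU α β z
    obtain ⟨b1, b2, b3⟩ := hz
    obtain ⟨c1, c2, c3⟩ := hz'
    change 0 ≤ sg T.c * ((emb p g 0 T).w z).im at b2
    change ((emb p g 0 T).w z).re + 2 * (sg T.c * ((emb p g 0 T).w z).im) ≤ 2 at b3
    change 0 ≤ sg U.c * ((emb p g 0 U).w z).im at c2
    change ((emb p g 0 U).w z).re + 2 * (sg U.c * ((emb p g 0 U).w z).im) ≤ 2 at c3
    refine le_antisymm ?_ ?_
    · rw [e1]
      have g0 : (T.f0 α β : ℝ) ≤ γ := by exact_mod_cast a0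
      have g1 : (T.f1 α β : ℝ) ≤ γ := by exact_mod_cast a1
      have g2 : (T.f2 α β : ℝ) ≤ γ := by exact_mod_cast a2
      nlinarith [mul_le_mul_of_nonneg_right g0 (show (0 : ℝ) ≤ 1 - ((emb p g 0 T).w z).re / 2 -
        sg T.c * ((emb p g 0 T).w z).im by linarith), mul_le_mul_of_nonneg_right g1 (show (0 : ℝ) ≤
        ((emb p g 0 T).w z).re / 2 by linarith), mul_le_mul_of_nonneg_right g2 b2]
    · rw [e2]
      have g0 : (γ : ℝ) ≤ U.f0 α β := by exact_mod_cast h0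
      have g1 : (γ : ℝ) ≤ U.f1 α β := by exact_mod_cast h1
      have g2 : (γ : ℝ) ≤ U.f2 α β := by exact_mod_cast h2
      nlinarith [mul_le_mul_of_nonneg_right g0 (show (0 : ℝ) ≤ 1 - ((emb p g 0 U).w z).re / 2 -
        sg U.c * ((emb p g 0 U).w z).im by linarith), mul_le_mul_of_nonneg_right g1 (show (0 : ℝ) ≤
        ((emb p g 0 U).w z).re / 2 by linarith), mul_le_mul_of_nonneg_right g2 c2]
  rw [ar, measure_mono_null hsub (null_line p g hg α β γ hne), ENNReal.toReal_zero]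

theorem un_ne (l : Fin 4) : (un l).1 ≠ 0 ∨ (un l).2 ≠ 0 := by
  fin_cases l <;> simp [un]

theorem un_eq (l : Fin 4) : ((un l).1 : ℂ) + (un l).2 * I = I ^ (l : ℕ) := by
  fin_cases l <;> simp [un]

/-- far away tiles do not overlap -/
theorem far_sep (c c' : Bool) (l : Fin 4) (m n : ℤ) (h : m < -1 ∨ 3 < m ∨ n < -2 ∨ 2 < n) :
    ∃ α β : ℤ, (α ≠ 0 ∨ β ≠ 0) ∧ sepI (tA c) (tB c' l m n) α β = true := by
  rcases h with h | h | h | h
  · refine ⟨-1, 0, by norm_num, ?_⟩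
    cases c <;> cases c' <;> fin_cases l <;>
      simp [sepI, tA, tB, un, ZT.f0, ZT.f1, ZT.f2, qZ] <;> omega
  · refine ⟨1, 0, by norm_num, ?_⟩
    cases c <;> cases c' <;> fin_cases l <;>
      simp [sepI, tA, tB, un, ZT.f0, ZT.f1, ZT.f2, qZ] <;> omega
  · refine ⟨0, -1, by norm_num, ?_⟩
    cases c <;> cases c' <;> fin_cases l <;>
      simp [sepI, tA, tB, un, ZT.f0, ZT.f1, ZT.f2, qZ] <;> omega
  · refine ⟨0, 1, by norm_num, ?_⟩
    cases c <;> cases c' <;> fin_cases l <;>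
      simp [sepI, tA, tB, un, ZT.f0, ZT.f1, ZT.f2, qZ] <;> omega

/-! ### common descendants -/

theorem co_nonneg (n : ℕ) (A B : Tile) : 0 ≤ co n A B := by
  classical
  induction n generalizing A B with
  | zero =>
    simp only [co]
    split_ifs
    · exact ar_nonneg _ _
    · exact le_rfl
  | succ n ih => exact Finset.sum_nonneg (fun i _ => Finset.sum_nonneg (fun k _ => ih _ _))

theorem co_child_le (n : ℕ) (A B : Tile) (i k : Fin 5) : co n (A.child i) (B.child k) ≤ co (n + 1) A B := by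
  refine le_trans ?_ (Finset.single_le_sum (f := fun i => ∑ k : Fin 5, co n (A.child i) (B.child k))
    (fun i _ => Finset.sum_nonneg (fun k _ => co_nonneg _ _ _)) (Finset.mem_univ i))
  exact Finset.single_le_sum (f := fun k => co n (A.child i) (B.child k))
    (fun k _ => co_nonneg _ _ _) (Finset.mem_univ k)

theorem co_desc_le (n : ℕ) (A B : Tile) (w v : List (Fin 5)) (h : w.length = v.length) :
    co n (A.desc w) (B.desc v) ≤ co (w.length + n) A B := by
  induction w generalizing A B v with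
  | nil =>
    have : v = [] := List.length_eq_zero_iff.1 (by simpa using h.symm)
    subst this
    simp
  | cons i w ih =>
    match v, h with
    | k :: v, h =>
      have h' : w.length = v.length := by simpa using h
      have h1 := ih (A.child i) (B.child k) v h'
      have h2 := co_child_le (w.length + n) A B i k
      rw [desc_cons, desc_cons, List.length_cons, show w.length + 1 + n = w.length + n + 1 by omega]
      exact h1.trans h2

theorem le_co_self (hB : SpecBas) (n : ℕ) (A : Tile) (hA : A.e ≠ 0) : ar A A ≤ co n A A := by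
  classical
  induction n generalizing A with
  | zero => simp [co]
  | succ n ih =>
    have h1 : ar A A = ∑ i : Fin 5, ar (A.child i) (A.child i) := by
      rw [ar_children hB hA hA]
      refine Finset.sum_congr rfl (fun i _ => ?_)
      refine Finset.sum_eq_single i (fun k _ hk => ?_) (fun h => absurd (Finset.mem_univ _) h)
      have h3 := hB.2.2.1 A 1 hA [i] (mem_wd.2 rfl) [k] (mem_wd.2 rfl) (by simpa using hk.symm)
      rw [ar]
      have h4 : volume ((A.child i).set ∩ (A.child k).set) = 0 := h3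
      rw [h4, ENNReal.toReal_zero]
    rw [h1]
    simp only [co]
    refine Finset.sum_le_sum (fun i _ => ?_)
    refine (ih _ (norm_child hB hA i).1).trans ?_
    exact Finset.single_le_sum (f := fun k => co n (A.child i) (A.child k))
      (fun k _ => co_nonneg _ _ _) (Finset.mem_univ i)

theorem exists_coord (s : St) (hc : Comp s) (hj : s.j = 0) : ∃ (l : Fin 4) (m n : ℤ), s.A.e ≠ 0 ∧
    s.A = emb s.A.P s.A.e 0 (tA s.A.c) ∧ s.B = emb s.A.P s.A.e 0 (tB s.B.c l m n) := by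
  obtain ⟨g, hg, ⟨k, hk⟩, ⟨l, hl⟩, m, n, hP⟩ := hc
  rw [hj] at hk hl
  simp only [Int.toNat_zero, neg_zero, pow_zero, mul_one] at hk hl
  have hI : (I : ℂ) ^ (3 * k) * I ^ k = 1 := by
    rw [← pow_add, show 3 * k + k = 4 * k by ring, pow_mul, I_pow_four, one_pow]
  have hA : s.A.e ≠ 0 := by
    rw [hk]
    exact mul_ne_zero (pow_ne_zero _ I_ne_zero) hg
  have hgA : g = I ^ (3 * k) * s.A.e := by
    rw [hk, ← mul_assoc, hI, one_mul]
  have hmod : ∀ a : ℕ, (I : ℂ) ^ a = I ^ ((⟨a % 4, Nat.mod_lt _ (by norm_num)⟩ : Fin 4) : ℕ) := by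
    intro a
    exact I_pow_eq_pow_mod a
  set u : Fin 4 := ⟨(3 * k) % 4, Nat.mod_lt _ (by norm_num)⟩ with hu
  set L : Fin 4 := ⟨(l + 3 * k) % 4, Nat.mod_lt _ (by norm_num)⟩ with hL
  have h1 : (I : ℂ) ^ (3 * k) = ((un u).1 : ℂ) + (un u).2 * I := by
    rw [un_eq, hmod (3 * k)]
  have h2 : (I : ℂ) ^ (l + 3 * k) = ((un L).1 : ℂ) + (un L).2 * I := by
    rw [un_eq, hmod (l + 3 * k)]
  refine ⟨L, (un u).1 * m - (un u).2 * n, (un u).1 * n + (un u).2 * m, hA, ?_, ?_⟩
  · refine Tile.ext ?_ ?_ rfl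
    · simp [emb, tA]
    · simp [emb, tA]
  · refine Tile.ext ?_ ?_ rfl
    · simp only [emb, tB, pow_zero, div_one]
      have h3 : s.B.P = s.A.P + g * (m + n * I) := by rw [← hP]; ring
      rw [h3, hgA, h1]
      push_cast
      linear_combination (((un u).2 : ℂ) * n) * s.A.e * I_mul_I
    · simp only [emb, tB, pow_zero, div_one]
      rw [← h2, hl, hgA, pow_add]
      ring

end Pool.Agent.Lib.MP_d437ed.Hit.COALM

namespace Pool.Agent.Lib.MP_d437ed.Hit

open COALM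

/-- COAL -/
theorem specCoal (hG : SpecGeo) (hB : SpecBas) : SpecCoal := by
  refine ⟨1 / 625, by norm_num, ?_⟩
  intro s n hs hc hj hn
  obtain ⟨l, m, k, hA, h1, h2⟩ := exists_coord s hc hj
  have hpos := hs.2.2
  set P := s.A.P with hPd
  set g := s.A.e with hgd
  have hTa : (tA s.A.c).a ≠ 0 ∨ (tA s.A.c).b ≠ 0 := Or.inl (by simp [tA])
  have hUa : (tB s.B.c l m k).a ≠ 0 ∨ (tB s.B.c l m k).b ≠ 0 := un_ne l
  have hsep : ∀ α β : ℤ, (α ≠ 0 ∨ β ≠ 0) → sepI (tA s.A.c) (tB s.B.c l m k) α β = true → False := by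
    intro α β hab h
    have := ar_zero P g hA _ _ hTa hUa α β hab h
    rw [← h1, ← h2] at this
    exact hpos.ne' this
  by_cases hfar : m < -1 ∨ 3 < m ∨ k < -2 ∨ 2 < k
  · obtain ⟨α, β, hab, h⟩ := far_sep s.A.c s.B.c l m k hfar
    exact (hsep α β hab h).elim
  · push Not at hfar
    obtain ⟨f1, f2, f3, f4⟩ := hfar
    have hch : chk s.A.c s.B.c l m k = true := by
      have := chk_all s.A.c s.B.c l ⟨(m + 1).toNat, by omega⟩ ⟨(k + 2).toNat, by omega⟩
      have e1 : (((⟨(m + 1).toNat, by omega⟩ : Fin 5) : ℕ) : ℤ) - 1 = m := by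
        simp only
        omega
      have e2 : (((⟨(k + 2).toNat, by omega⟩ : Fin 5) : ℕ) : ℤ) - 2 = k := by
        simp only
        omega
      rwa [e1, e2] at this
    rw [chk, Bool.or_eq_true] at hch
    rcases hch with hch | hch
    · rw [List.any_eq_true] at hch
      obtain ⟨p, hp, h⟩ := hch
      refine (hsep p.1 p.2 ?_ h).elim
      have hall : ∀ p ∈ fnl, p.1 ≠ 0 ∨ p.2 ≠ 0 := by decide
      exact hall p hp
    · rw [List.any_eq_true] at hch
      obtain ⟨r, -, h⟩ := hch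
      simp only [Bool.and_eq_true, decide_eq_true_eq] at h
      obtain ⟨⟨⟨_, hw⟩, hv⟩, he⟩ := h
      set w := r.2.2.2.2.2.1
      set v := r.2.2.2.2.2.2
      have hD : s.A.desc w = s.B.desc v := by
        rw [h1, h2, emb_desc, emb_desc, he, hw, hv]
      have h3 : co (n - 4) (s.A.desc w) (s.B.desc v) ≤ co n s.A s.B := by
        have := co_desc_le (n - 4) s.A s.B w v (hw.trans hv.symm)
        rwa [hw, show 4 + (n - 4) = n by omega] at this
      obtain ⟨d1, d2, -⟩ := hB.2.1 s.A w hs.1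
      have h4 := le_co_self hB (n - 4) (s.A.desc w) d1
      rw [← hD] at h3
      have h5 : ar (s.A.desc w) (s.A.desc w) = ‖(s.A.desc w).e‖ ^ 2 := by
        rw [ar, Set.inter_self, (hG _ d1).2.2.2.1, ENNReal.toReal_ofReal (by positivity)]
      have h6 : ‖(s.A.desc w).e‖ ^ 2 * 625 = ‖s.A.e‖ ^ 2 := by
        rw [← d2, hw, mul_pow, ← pow_mul, show 4 * 2 = 2 * 4 by norm_num, pow_mul,
          Real.sq_sqrt (by norm_num : (0 : ℝ) ≤ 5)]
        norm_num
      have h7 : ar s.A s.B ≤ ‖s.A.e‖ ^ 2 := by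
        have h8 := (hB.2.2.2.2.2 s hs).2
        rw [St.eta] at h8
        have h9 : 0 < ‖s.A.e‖ ^ 2 := by
          have := norm_pos_iff.2 hs.1
          positivity
        rwa [div_le_one h9] at h8
      calc 1 / 625 * ar s.A s.B ≤ 1 / 625 * ‖s.A.e‖ ^ 2 := by
            exact mul_le_mul_of_nonneg_left h7 (by norm_num)
        _ = ‖(s.A.desc w).e‖ ^ 2 := by rw [← h6]; ring
        _ = ar (s.A.desc w) (s.A.desc w) := h5.symm
        _ ≤ _ := h4.trans h3

end Pool.Agent.Lib.MP_d437ed.Hit
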