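import Pool.Agent.Lib.MP_d437ed.Hit.Basics

/-!
Module DISS: the dissection of a pinwheel triangle in five.
-/

noncomputable section

open MeasureTheory Complex

namespace Pool.Agent.Lib.MP_d437ed.Hit

namespace DissM

/-- The five parts in the coordinates `U = 2 X - Y`, `V = X + 2 Y`. -/
def cond (i : Fin 5) (U V : ℝ) : Prop :=
  (![V ≤ 2 ∧ U ≤ 0 ∧ 0 ≤ 2 * U + V, 2 ≤ U ∧ V ≤ 2 ∧ U ≤ 2 * V, 0 ≤ U ∧ V ≤ 1 ∧ U ≤ 2 * V,
    U ≤ 2 ∧ V ≤ 2 ∧ 4 ≤ U + 2 * V, 0 ≤ U ∧ 1 ≤ V ∧ U + 2 * V ≤ 4] : Fin 5 → Prop) i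

theorem dir_ne (c : Bool) (i : Fin 5) : dir c i ≠ 0 := by
  cases c <;> fin_cases i <;> simp [dir, dM]

theorem norm_dir (c : Bool) (i : Fin 5) : ‖dir c i‖ = 1 := by
  cases c <;> fin_cases i <;> simp [dir, dM]

theorem norm_pc (c : Bool) : ‖pc c‖ = √5 := by
  rw [Complex.norm_def, Complex.normSq_apply]
  congr 1
  cases c <;> simp [pc] <;> norm_num

theorem pc_ne (c : Bool) : pc c ≠ 0 := by
  intro h
  have := norm_pc c
  rw [h, norm_zero] at this
  have h5 : (0 : ℝ) < √5 := by positivity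
  linarith

theorem child_w (T : Tile) (hT : T.e ≠ 0) (i : Fin 5) (z : ℂ) :
    (T.child i).w z = (T.w z * pc T.c - off T.c i) / dir T.c i := by
  have h1 := dir_ne T.c i
  have h2 := pc_ne T.c
  simp only [Tile.w, Tile.child]
  field_simp
  ring

theorem mem_child (T : Tile) (hT : T.e ≠ 0) (i : Fin 5) (z : ℂ) :
    z ∈ (T.child i).set ↔ cond i (2 * (T.w z).re - sg T.c * (T.w z).im)
      ((T.w z).re + 2 * (sg T.c * (T.w z).im)) := by
  have h := child_w T hT i z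
  have hc : (T.child i).c = chi T.c i := rfl
  show (0 ≤ ((T.child i).w z).re ∧ 0 ≤ sg (T.child i).c * ((T.child i).w z).im ∧
    ((T.child i).w z).re + 2 * (sg (T.child i).c * ((T.child i).w z).im) ≤ 2) ↔ _
  rw [h, hc]
  generalize T.w z = w
  generalize T.c = c
  cases c <;> fin_cases i <;>
    simp [cond, off, dir, chi, oM, dM, cM, pc, sg, Complex.div_re, Complex.div_im] <;>
    constructor <;> rintro ⟨h1, h2, h3⟩ <;> refine ⟨?_, ?_, ?_⟩ <;> linarith

theorem mem_set (T : Tile) (z : ℂ) : z ∈ T.set ↔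
    0 ≤ (T.w z).re ∧ 0 ≤ sg T.c * (T.w z).im ∧ (T.w z).re + 2 * (sg T.c * (T.w z).im) ≤ 2 :=
  Iff.rfl

theorem child_sub (T : Tile) (hT : T.e ≠ 0) (i : Fin 5) : (T.child i).set ⊆ T.set := by
  intro z hz
  rw [mem_child T hT] at hz
  rw [mem_set]
  generalize (T.w z).re = x at *
  generalize sg T.c * (T.w z).im = y at *
  fin_cases i <;> (obtain ⟨h1, h2, h3⟩ := hz; refine ⟨?_, ?_, ?_⟩ <;> linarith)

theorem cover (T : Tile) (hT : T.e ≠ 0) (z : ℂ) (hz : z ∈ T.set) : ∃ i, z ∈ (T.child i).set := by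
  rw [mem_set] at hz
  simp only [mem_child T hT]
  generalize (T.w z).re = x at *
  generalize sg T.c * (T.w z).im = y at *
  obtain ⟨h1, h2, h3⟩ := hz
  rcases le_total (2 * x - y) 0 with a1 | a1
  · exact ⟨0, by linarith, a1, by linarith⟩
  rcases le_total (x + 2 * y) 1 with a2 | a2
  · exact ⟨2, a1, a2, by linarith⟩
  rcases le_total 2 (2 * x - y) with a3 | a3
  · exact ⟨1, a3, h3, by linarith⟩
  rcases le_total 4 (2 * x - y + 2 * (x + 2 * y)) with a4 | a4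
  · exact ⟨3, a3, h3, a4⟩
  · exact ⟨4, a1, a2, a4⟩

theorem child_e_ne (T : Tile) (hT : T.e ≠ 0) (i : Fin 5) : (T.child i).e ≠ 0 :=
  mul_ne_zero (div_ne_zero hT (pc_ne _)) (dir_ne _ _)

theorem norm_child_e (T : Tile) (i : Fin 5) : ‖(T.child i).e‖ * √5 = ‖T.e‖ := by
  show ‖T.e / pc T.c * dir T.c i‖ * √5 = _
  have h5 : (√5 : ℝ) ≠ 0 := by positivity
  rw [norm_mul, norm_div, norm_dir, norm_pc]
  field_simp

theorem vol_split (hG : SpecGeo) (T : Tile) (hT : T.e ≠ 0) (X : Set ℂ) (hX : MeasurableSet X) :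
    volume (T.set ∩ X) = ∑ i, volume ((T.child i).set ∩ X) := by
  have hle : ∀ Y : Set ℂ, volume (T.set ∩ Y) ≤ ∑ i, volume ((T.child i).set ∩ Y) := by
    intro Y
    refine (measure_mono (t := ⋃ i : Fin 5, (T.child i).set ∩ Y) ?_).trans
      (measure_iUnion_fintype_le _ _)
    rintro z ⟨hz, hY⟩
    obtain ⟨i, hi⟩ := cover T hT z hz
    exact Set.mem_iUnion.2 ⟨i, hi, hY⟩
  have h1 : ∀ S : Set ℂ, volume (S ∩ X) + volume (S ∩ Xᶜ) = volume S := fun S => by
    rw [← Set.sdiff_eq]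
    exact measure_inter_add_sdiff S hX
  have h5 : (0 : ℝ) < √5 := by positivity
  have h55 : √5 ^ 2 = (5 : ℝ) := Real.sq_sqrt (by norm_num)
  have h2 : ∑ i, volume (T.child i).set = volume T.set := by
    have h3 : ∀ i, volume (T.child i).set = ENNReal.ofReal (‖T.e‖ ^ 2 / 5) := by
      intro i
      rw [(hG _ (child_e_ne T hT i)).2.2.2.1]
      congr 1
      rw [← norm_child_e T i, mul_pow, h55]
      ring
    rw [Finset.sum_congr rfl (fun i _ => h3 i), Finset.sum_const, Finset.card_univ, Fintype.card_fin,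
      (hG T hT).2.2.2.1, nsmul_eq_mul]
    have e5 : ((5 : ℕ) : ENNReal) = ENNReal.ofReal 5 := by
      rw [← ENNReal.ofReal_natCast]; norm_num
    rw [e5, ← ENNReal.ofReal_mul (by norm_num)]
    congr 1
    ring
  have h3 : volume (T.set ∩ X) + volume (T.set ∩ Xᶜ) =
      ∑ i, volume ((T.child i).set ∩ X) + ∑ i, volume ((T.child i).set ∩ Xᶜ) := by
    rw [h1, ← Finset.sum_add_distrib, ← h2]
    exact Finset.sum_congr rfl (fun i _ => (h1 _).symm)
  refine le_antisymm (hle X) ?_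
  by_contra hcon
  push Not at hcon
  have hfin : volume (T.set ∩ Xᶜ) ≠ ⊤ := by
    apply ne_top_of_le_ne_top _ (measure_mono Set.inter_subset_left)
    rw [(hG T hT).2.2.2.1]
    exact ENNReal.ofReal_ne_top
  have h4 : volume (T.set ∩ X) + volume (T.set ∩ Xᶜ) <
      ∑ i, volume ((T.child i).set ∩ X) + ∑ i, volume ((T.child i).set ∩ Xᶜ) :=
    ENNReal.add_lt_add_of_lt_of_le hfin hcon (hle Xᶜ)
  exact absurd h3 h4.ne

end DissM

/-- **DISS**. -/
theorem specDiss (hG : SpecGeo) : SpecDiss := fun T hT =>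
  ⟨fun i => ⟨DissM.child_sub T hT i, DissM.child_e_ne T hT i, DissM.norm_child_e T i⟩,
    DissM.vol_split hG T hT⟩


end Pool.Agent.Lib.MP_d437ed.Hit
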