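import Pool.Agent.Lib.MP_d437ed.Hit.Spec

/-!
DL: distance of `v ^ j` to the units.
-/

noncomputable section

open Complex

namespace Pool.Agent.Lib.MP_d437ed.Hit

namespace DlM

theorem two_add_ne : (2 : ℂ) + I ≠ 0 := by
  intro h
  have := congrArg Complex.re h
  simp at this

theorem two_sub_ne : (2 : ℂ) - I ≠ 0 := by
  intro h
  have := congrArg Complex.re h
  simp at this

theorem vv_ne : vv ≠ 0 := div_ne_zero two_add_ne two_sub_ne

theorem norm_two_add : ‖(2 : ℂ) + I‖ = ‖(2 : ℂ) - I‖ := by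
  have : (2 : ℂ) - I = (starRingEnd ℂ) (2 + I) := by
    simp [Complex.ext_iff]
  rw [this, Complex.norm_conj]

theorem norm_vv : ‖vv‖ = 1 := by
  rw [vv, norm_div, norm_two_add, div_self]
  exact norm_ne_zero_iff.mpr two_sub_ne

theorem norm_vv_zpow (j : ℤ) : ‖vv ^ j‖ = 1 := by rw [norm_zpow, norm_vv, one_zpow]

theorem norm_I_pow (m : ℕ) : ‖(I : ℂ) ^ m‖ = 1 := by rw [norm_pow, Complex.norm_I, one_pow]

theorem I_pow_mod (m : ℕ) : (I : ℂ) ^ m = I ^ (m % 4) := Complex.I_pow_eq_pow_mod m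

theorem dl_le (j : ℤ) (m : ℕ) : dl j ≤ ‖vv ^ j - I ^ m‖ := by
  rw [I_pow_mod m]
  have h4 : m % 4 < 4 := Nat.mod_lt _ (by norm_num)
  have := ciInf_le (f := fun m : Fin 4 => ‖vv ^ j - I ^ (m : ℕ)‖) (Set.finite_range _).bddBelow ⟨m % 4, h4⟩
  exact this

theorem dl_eq (j : ℤ) : ∃ m : ℕ, dl j = ‖vv ^ j - I ^ m‖ := by
  obtain ⟨m, hm⟩ := exists_eq_ciInf_of_finite (f := fun m : Fin 4 => ‖vv ^ j - I ^ (m : ℕ)‖)
  exact ⟨m, hm.symm⟩

theorem dl_nonneg (j : ℤ) : 0 ≤ dl j := by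
  obtain ⟨m, hm⟩ := dl_eq j
  rw [hm]; exact norm_nonneg _

theorem dl_zero : dl 0 = 0 := by
  apply le_antisymm _ (dl_nonneg 0)
  have := dl_le 0 0
  simpa using this

/-- a unit complex number is at distance at most 1 from a unit `i ^ m` -/
theorem dl_le_one (j : ℤ) : dl j ≤ 1 := by
  have hu := norm_vv_zpow j
  set u := vv ^ j with hu'
  have hsq : u.re * u.re + u.im * u.im = 1 := by
    have := Complex.normSq_eq_norm_sq u
    rw [hu, Complex.normSq_apply] at this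
    simpa using this
  have key : ∀ (z : ℂ) (h : Complex.normSq z ≤ 1), ‖z‖ ≤ 1 := by
    intro z h
    rw [Complex.norm_def]
    exact Real.sqrt_le_one.mpr h |>.trans le_rfl
  have hcase : (1 / 2 ≤ u.re ∨ 1 / 2 ≤ u.im ∨ u.re ≤ -(1 / 2) ∨ u.im ≤ -(1 / 2)) := by
    by_contra hcon
    push Not at hcon
    obtain ⟨h1, h2, h3, h4⟩ := hcon
    nlinarith
  rcases hcase with h | h | h | h
  · refine (dl_le j 0).trans (key _ ?_)
    rw [Complex.normSq_apply]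
    simp
    nlinarith
  · refine (dl_le j 1).trans (key _ ?_)
    rw [Complex.normSq_apply]
    simp
    nlinarith
  · refine (dl_le j 2).trans (key _ ?_)
    rw [Complex.normSq_apply]
    simp
    nlinarith
  · refine (dl_le j 3).trans (key _ ?_)
    have h3 : (I : ℂ) ^ 3 = -I := by
      rw [pow_succ, Complex.I_sq]; ring
    rw [h3, Complex.normSq_apply]
    simp
    nlinarith

/-- the ring homomorphism `ℤ[i] → ZMod 5`, `i ↦ 2` -/
def phi : GaussianInt →+* ZMod 5 := Zsqrtd.lift ⟨2, by decide⟩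

theorem phi_apply (a b : ℤ) : phi ⟨a, b⟩ = (a : ZMod 5) + b * 2 := by
  simp [phi, Zsqrtd.lift]

/-- `(2+i)^n ≠ i^m (2-i)^n` for `n ≥ 1` -/
theorem pow_ne (n m : ℕ) (hn : 1 ≤ n) : ((2 : ℂ) + I) ^ n ≠ I ^ m * (2 - I) ^ n := by
  intro h
  have e1 : ((2 : ℂ) + I) = GaussianInt.toComplex ⟨2, 1⟩ := by
    rw [GaussianInt.toComplex_def']; push_cast; ring
  have e2 : ((2 : ℂ) - I) = GaussianInt.toComplex ⟨2, -1⟩ := by
    rw [GaussianInt.toComplex_def']; push_cast; ring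
  have e3 : (I : ℂ) = GaussianInt.toComplex ⟨0, 1⟩ := by
    rw [GaussianInt.toComplex_def']; push_cast; ring
  rw [e1, e2, show (I : ℂ) ^ m = GaussianInt.toComplex ⟨0, 1⟩ ^ m by rw [← e3], ← map_pow, ← map_pow, ← map_pow, ← map_mul] at h
  have h2 := GaussianInt.toComplex_inj.mp h
  have h3 := congrArg phi h2
  rw [map_pow, map_mul, map_pow, map_pow, phi_apply, phi_apply, phi_apply] at h3
  have z1 : ((2 : ℤ) : ZMod 5) + ((-1 : ℤ) : ZMod 5) * 2 = 0 := by decide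
  have z2 : ((2 : ℤ) : ZMod 5) + ((1 : ℤ) : ZMod 5) * 2 = 4 := by decide
  rw [z1, z2, zero_pow (by omega), mul_zero] at h3
  have h4 : (4 : ZMod 5) * 4 = 1 := by decide
  have h5 : (4 : ZMod 5) ^ n * 4 ^ n = 1 := by rw [← mul_pow, h4, one_pow]
  rw [h3, zero_mul] at h5
  exact absurd h5 (by decide)

theorem vv_pow_ne (n m : ℕ) (hn : 1 ≤ n) : vv ^ n ≠ I ^ m := by
  intro h
  apply pow_ne n m hn
  rw [vv, div_pow, div_eq_iff (pow_ne_zero _ two_sub_ne)] at h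
  exact h

theorem dl_neg (j : ℤ) : dl (-j) = dl j := by
  have key : ∀ j : ℤ, dl (-j) ≤ dl j := by
    intro j
    obtain ⟨m, hm⟩ := dl_eq j
    have e : ‖vv ^ (-j) - I ^ (3 * m)‖ = ‖vv ^ j - I ^ m‖ := by
      have h1 : (I : ℂ) ^ (3 * m) * I ^ m = 1 := by
        rw [← pow_add, show 3 * m + m = 4 * m by ring, pow_mul, Complex.I_pow_four, one_pow]
      have h2 : vv ^ (-j) * vv ^ j = 1 := by
        rw [← zpow_add₀ vv_ne]; simp
      have h3 : vv ^ (-j) - I ^ (3 * m) = -(vv ^ (-j) * I ^ (3 * m)) * (vv ^ j - I ^ m) := by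
        linear_combination (I ^ (3 * m)) * h2 - (vv ^ (-j)) * h1
      rw [h3, norm_mul, norm_neg, norm_mul, norm_vv_zpow, norm_I_pow, one_mul, one_mul]
    rw [hm, ← e]
    exact dl_le _ _
  refine le_antisymm (key j) ?_
  have := key (-j)
  rwa [neg_neg] at this

theorem dl_pos (j : ℤ) (hj : j ≠ 0) : 0 < dl j := by
  have key : ∀ n : ℕ, 1 ≤ n → 0 < dl n := by
    intro n hn
    obtain ⟨m, hm⟩ := dl_eq n
    rw [hm, norm_pos_iff, sub_ne_zero, zpow_natCast]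
    exact vv_pow_ne n m hn
  rcases lt_or_gt_of_ne hj with h | h
  · obtain ⟨n, hn⟩ := Int.eq_ofNat_of_zero_le (by omega : 0 ≤ -j)
    rw [← dl_neg, hn]
    exact key n (by omega)
  · obtain ⟨n, hn⟩ := Int.eq_ofNat_of_zero_le h.le
    rw [hn]
    exact key n (by omega)

theorem dl_sub (i j : ℤ) : dl (i - j) ≤ dl i + dl j := by
  rw [← dl_neg j]
  obtain ⟨m, hm⟩ := dl_eq i
  obtain ⟨l, hl⟩ := dl_eq (-j)
  refine (dl_le (i - j) (m + l)).trans ?_
  rw [hm, hl, sub_eq_add_neg i j, zpow_add₀ vv_ne, pow_add]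
  have : vv ^ i * vv ^ (-j) - I ^ m * I ^ l = (vv ^ i - I ^ m) * vv ^ (-j) + I ^ m * (vv ^ (-j) - I ^ l) := by
    ring
  rw [this]
  refine (norm_add_le _ _).trans ?_
  rw [norm_mul, norm_mul, norm_vv_zpow, norm_I_pow, mul_one, one_mul]

end DlM

theorem specDl : SpecDl := ⟨DlM.dl_zero, fun j => ⟨DlM.dl_nonneg j, DlM.dl_le_one j⟩, DlM.dl_pos,
  DlM.dl_neg, DlM.dl_sub, DlM.dl_le, DlM.dl_eq⟩

end Pool.Agent.Lib.MP_d437ed.Hit
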