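import Pool.Agent.Lib.MP_d437ed.Hit.Basics

/-!
Module ETA: small overlaps are rare.
-/

noncomputable section

open MeasureTheory Complex

namespace Pool.Agent.Lib.MP_d437ed.Hit

namespace EtaM

theorem s5 : (0 : ℝ) < √5 := by positivity

theorem s5sq : √5 ^ 2 = (5 : ℝ) := Real.sq_sqrt (by norm_num)

theorem norm_sq_desc (hB : SpecBas) {T : Tile} {w : List (Fin 5)} {t : ℕ} (hT : T.e ≠ 0)
    (hw : w ∈ wd t) : ‖(T.desc w).e‖ ^ 2 = ‖T.e‖ ^ 2 / 5 ^ t := by
  have h := (hB.2.1 T w hT).2.1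
  rw [mem_wd.1 hw] at h
  rw [← h, mul_pow, ← pow_mul, mul_comm t 2, pow_mul, s5sq]
  field_simp

theorem ar_le (hG : SpecGeo) {A : Tile} (hA : A.e ≠ 0) (B : Tile) : ar A B ≤ ‖A.e‖ ^ 2 := by
  have h := ENNReal.toReal_mono (b := volume A.set) (by
    rw [(hG _ hA).2.2.2.1]; exact ENNReal.ofReal_ne_top)
    (measure_mono (Set.inter_subset_left (s := A.set) (t := B.set)))
  rw [(hG _ hA).2.2.2.1, ENNReal.toReal_ofReal (by positivity)] at h
  exact h

open Classical in
/-- At most 80 descendants of `B` of the size of `U` meet `U`. -/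
theorem count (hG : SpecGeo) (hB : SpecBas) {U B : Tile} {t : ℕ} (hU : U.e ≠ 0) (hB' : B.e ≠ 0)
    (hs : ‖U.e‖ * √5 ^ t = ‖B.e‖) :
    (((wd t).filter (fun v => 0 < ar U (B.desc v))).card : ℝ) ≤ 80 := by
  rcases ((wd t).filter (fun v => 0 < ar U (B.desc v))).eq_empty_or_nonempty with h0 | ⟨v0, hv0⟩
  · rw [h0]; norm_num
  have hpos : ∀ v ∈ (wd t).filter (fun v => 0 < ar U (B.desc v)),
      (U.set ∩ (B.desc v).set).Nonempty := by
    intro v hv
    rw [Set.nonempty_iff_ne_empty]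
    intro h
    have h1 := (Finset.mem_filter.1 hv).2
    rw [ar, h, measure_empty, ENNReal.toReal_zero] at h1
    exact lt_irrefl _ h1
  obtain ⟨z0, hz0, -⟩ := hpos v0 hv0
  set r : ℝ := ‖U.e‖ with hr
  have hrpos : 0 < r := norm_pos_iff.2 hU
  have hsz : ∀ v ∈ wd t, ‖(B.desc v).e‖ = r := by
    intro v hv
    have h := (hB.2.1 B v hB').2.1
    rw [mem_wd.1 hv, ← hs] at h
    exact mul_right_cancel₀ (by have := s5; positivity) h
  have hsub : ∀ v ∈ (wd t).filter (fun v => 0 < ar U (B.desc v)),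
      (B.desc v).set ⊆ Metric.closedBall z0 (2 * √5 * r) := by
    intro v hv z hz
    obtain ⟨z1, hz1, hz2⟩ := hpos v hv
    have h1 := (hG U hU).2.2.2.2 z1 hz1 z0 hz0
    have h2 := (hG _ (hB.2.1 B v hB').1).2.2.2.2 z hz z1 hz2
    rw [hsz v (Finset.mem_filter.1 hv).1] at h2
    rw [Metric.mem_closedBall, dist_eq_norm]
    have h3 : ‖z - z0‖ ≤ ‖z - z1‖ + ‖z1 - z0‖ := norm_sub_le_norm_sub_add_norm_sub z z1 z0
    linarith
  have hvol : volume (Metric.closedBall z0 (2 * √5 * r)) = ENNReal.ofReal (20 * Real.pi * r ^ 2) := by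
    have hp : 0 ≤ 2 * √5 * r := by have := s5; positivity
    rw [Complex.volume_closedBall, ← ENNReal.ofReal_pow hp, ← ENNReal.ofReal_coe_nnreal,
      NNReal.coe_real_pi, ← ENNReal.ofReal_mul (by positivity)]
    congr 1
    rw [mul_pow, mul_pow, s5sq]
    ring
  have h1 : ∑ v ∈ (wd t).filter (fun v => 0 < ar U (B.desc v)), ENNReal.ofReal (r ^ 2) ≤
      ENNReal.ofReal (20 * Real.pi * r ^ 2) := by
    calc ∑ v ∈ (wd t).filter (fun v => 0 < ar U (B.desc v)), ENNReal.ofReal (r ^ 2)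
        = ∑ v ∈ (wd t).filter (fun v => 0 < ar U (B.desc v)),
            volume ((B.desc v).set ∩ Metric.closedBall z0 (2 * √5 * r)) := by
          refine Finset.sum_congr rfl (fun v hv => ?_)
          rw [Set.inter_eq_left.2 (hsub v hv), (hG _ (hB.2.1 B v hB').1).2.2.2.1,
            hsz v (Finset.mem_filter.1 hv).1]
      _ ≤ ∑ v ∈ wd t, volume ((B.desc v).set ∩ Metric.closedBall z0 (2 * √5 * r)) :=
          Finset.sum_le_sum_of_subset (Finset.filter_subset _ _)
      _ = volume (B.set ∩ Metric.closedBall z0 (2 * √5 * r)) :=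
          (hB.1 B t _ hB' Metric.isClosed_closedBall.measurableSet).symm
      _ ≤ volume (Metric.closedBall z0 (2 * √5 * r)) := measure_mono Set.inter_subset_right
      _ = _ := hvol
  rw [← ENNReal.ofReal_sum_of_nonneg (fun _ _ => by positivity), Finset.sum_const,
    nsmul_eq_mul] at h1
  have h2 := (ENNReal.ofReal_le_ofReal_iff (by have := Real.pi_pos; positivity)).1 h1
  have h3 : ((((wd t).filter (fun v => 0 < ar U (B.desc v))).card : ℝ)) ≤ 20 * Real.pi := by
    have h4 : 0 < r ^ 2 := by positivity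
    exact le_of_mul_le_mul_right h2 h4
  have := Real.pi_le_four
  linarith

open Classical in
/-- The main estimate. -/
theorem main (hG : SpecGeo) (hB : SpecBas) {s : St} (hs : s.ok) (t : ℕ) {l : ℝ} (hl : 0 ≤ l) {K : ℝ}
    (hK : ((wd t).filter (fun w => ∃ v ∈ wd t, 0 < ar (s.A.desc w) (s.B.desc v))).card *
      (‖s.A.e‖ ^ 2 / 5 ^ t) ≤ K) :
    ExN t (fun s' => if s'.eta ≤ l then 1 else 0) s ≤ 80 * l * K / ar s.A s.B := by
  have hB' := ok_B hs
  have hA := hs.1
  rw [ExN_cells hB t _ hs]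
  set W := (wd t).filter (fun w => ∃ v ∈ wd t, 0 < ar (s.A.desc w) (s.B.desc v)) with hW
  set q : ℝ := ‖s.A.e‖ ^ 2 / 5 ^ t with hq
  have hq0 : 0 ≤ q := by positivity
  have har := hs.2.2
  have h1 : ∀ w ∈ wd t, ∑ v ∈ wd t, ar (s.A.desc w) (s.B.desc v) / ar s.A s.B *
      (if (s.cell w v).eta ≤ l then 1 else 0) ≤
      (if w ∈ W then 80 * (l * q / ar s.A s.B) else 0) := by
    intro w hw
    have hterm : ∀ v ∈ wd t, ar (s.A.desc w) (s.B.desc v) / ar s.A s.B *
        (if (s.cell w v).eta ≤ l then 1 else 0) ≤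
        (if 0 < ar (s.A.desc w) (s.B.desc v) then l * q / ar s.A s.B else 0) := by
      intro v hv
      have hnn := ar_nonneg (s.A.desc w) (s.B.desc v)
      by_cases hp : 0 < ar (s.A.desc w) (s.B.desc v)
      · rw [if_pos hp]
        by_cases he : (s.cell w v).eta ≤ l
        · rw [if_pos he, mul_one]
          have he' : ar (s.A.desc w) (s.B.desc v) / ‖(s.A.desc w).e‖ ^ 2 ≤ l := he
          rw [norm_sq_desc hB hA hw] at he'
          have hq1 : 0 < q := by
            have : 0 < ‖s.A.e‖ := norm_pos_iff.2 hA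
            positivity
          rw [div_le_iff₀ hq1] at he'
          gcongr
        · rw [if_neg he, mul_zero]
          positivity
      · rw [if_neg hp]
        have : ar (s.A.desc w) (s.B.desc v) = 0 := le_antisymm (not_lt.1 hp) hnn
        rw [this, zero_div, zero_mul]
    refine (Finset.sum_le_sum hterm).trans ?_
    rw [← Finset.sum_filter, Finset.sum_const, nsmul_eq_mul]
    by_cases hwW : w ∈ W
    · rw [if_pos hwW]
      refine mul_le_mul_of_nonneg_right ?_ (by positivity)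
      refine count hG hB (hB.2.1 s.A w hA).1 hB' ?_
      have := (hB.2.1 s.A w hA).2.1
      rw [mem_wd.1 hw] at this
      rw [this, hs.2.1]
    · rw [if_neg hwW]
      have : (wd t).filter (fun v => 0 < ar (s.A.desc w) (s.B.desc v)) = ∅ := by
        rw [Finset.filter_eq_empty_iff]
        intro v hv h
        exact hwW (Finset.mem_filter.2 ⟨hw, v, hv, h⟩)
      rw [this, Finset.card_empty, Nat.cast_zero, zero_mul]
  refine (Finset.sum_le_sum h1).trans ?_
  rw [Finset.sum_ite_mem, Finset.inter_eq_right.2 (Finset.filter_subset _ _), Finset.sum_const,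
    nsmul_eq_mul]
  have e1 : (W.card : ℝ) * (80 * (l * q / ar s.A s.B)) = 80 * l * (W.card * q) / ar s.A s.B := by
    ring
  rw [e1]
  gcongr

end EtaM

open EtaM

open Classical in
/-- **ETA**. -/
theorem specEta (hG : SpecGeo) (hB : SpecBas) (hN : SpecBnd) : SpecEta := by
  obtain ⟨C0, hC0, hN⟩ := hN
  refine ⟨160 + C0, by linarith, fun s t l hs hl => ⟨?_, fun hC => ?_⟩⟩
  · have hcard : (((wd t).filter
        (fun w => ∃ v ∈ wd t, 0 < ar (s.A.desc w) (s.B.desc v))).card : ℝ) ≤ 5 ^ t := by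
      have := Finset.card_le_card (Finset.filter_subset
        (fun w => ∃ v ∈ wd t, 0 < ar (s.A.desc w) (s.B.desc v)) (wd t))
      rw [card_wd] at this
      exact_mod_cast this
    have h1 := main hG hB hs t hl (K := ‖s.A.e‖ ^ 2) (by
      calc _ ≤ (5 : ℝ) ^ t * (‖s.A.e‖ ^ 2 / 5 ^ t) := by gcongr
        _ = ‖s.A.e‖ ^ 2 := by field_simp)
    refine h1.trans ?_
    have he : 0 < ‖s.A.e‖ := norm_pos_iff.2 hs.1
    have har := hs.2.2
    have e1 : (160 + C0) * l / s.eta = (160 + C0) * l * ‖s.A.e‖ ^ 2 / ar s.A s.B := by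
      rw [St.eta]
      field_simp
    rw [e1]
    gcongr
    linarith
  · have har := hs.2.2
    have hA := hs.1
    have hB' := ok_B hs
    have he : 0 < ‖s.A.e‖ := norm_pos_iff.2 hs.1
    have h5t : 0 < √5 ^ t := by have := s5; positivity
    have h1 := main hG hB hs t hl (K := ar s.A s.B + C0 * ‖s.A.e‖ ^ 2 / √5 ^ t) (by
      set W := (wd t).filter (fun w => ∃ v ∈ wd t, 0 < ar (s.A.desc w) (s.B.desc v)) with hW
      have hWm : ∀ w ∈ W, w ∈ wd t ∧ ((s.A.desc w).set ∩ s.B.set).Nonempty := by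
        intro w hw
        obtain ⟨hw1, v, hv, hp⟩ := Finset.mem_filter.1 hw
        refine ⟨hw1, ?_⟩
        have h2 : ((s.A.desc w).set ∩ (s.B.desc v).set).Nonempty := by
          rw [Set.nonempty_iff_ne_empty]
          intro h
          rw [ar, h, measure_empty, ENNReal.toReal_zero] at hp
          exact lt_irrefl _ hp
        exact h2.mono (Set.inter_subset_inter_right _ (hB.2.1 s.B v hB').2.2)
      have h2 : (W.card : ℝ) * (‖s.A.e‖ ^ 2 / 5 ^ t) = ∑ w ∈ W, ‖(s.A.desc w).e‖ ^ 2 := by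
        rw [Finset.sum_congr rfl (fun w hw => norm_sq_desc hB hA (hWm w hw).1), Finset.sum_const,
          nsmul_eq_mul]
      rw [h2, ← Finset.sum_filter_add_sum_filter_not W (fun w => (s.A.desc w).set ⊆ s.B.set)]
      have h3 : ∑ w ∈ W.filter (fun w => (s.A.desc w).set ⊆ s.B.set), ‖(s.A.desc w).e‖ ^ 2 ≤
          ar s.A s.B := by
        have h4 : ar s.A s.B = ∑ w ∈ wd t, (volume ((s.A.desc w).set ∩ s.B.set)).toReal := by
          rw [ar, hB.1 s.A t s.B.set hA (hG _ hB').1, ENNReal.toReal_sum]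
          intro w _
          apply ne_top_of_le_ne_top _ (measure_mono Set.inter_subset_left)
          rw [(hG _ (hB.2.1 s.A w hA).1).2.2.2.1]
          exact ENNReal.ofReal_ne_top
        rw [h4]
        refine le_trans (Finset.sum_le_sum (fun w hw => ?_)) (Finset.sum_le_sum_of_subset_of_nonneg
          ((Finset.filter_subset _ _).trans (Finset.filter_subset _ _))
          (fun _ _ _ => ENNReal.toReal_nonneg))
        have h5 := (Finset.mem_filter.1 hw).2
        rw [Set.inter_eq_left.2 h5, (hG _ (hB.2.1 s.A w hA).1).2.2.2.1,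
          ENNReal.toReal_ofReal (by positivity)]
      have h6 : ∑ w ∈ W.filter (fun w => ¬ (s.A.desc w).set ⊆ s.B.set), ‖(s.A.desc w).e‖ ^ 2 ≤
          C0 * ‖s.A.e‖ ^ 2 / √5 ^ t := by
        refine hN s.A s.B t hA hs.2.1 _ (fun w hw => (hWm w (Finset.mem_filter.1 hw).1).1) ?_
        intro w hw
        exact ⟨(Finset.mem_filter.1 hw).2, (hWm w (Finset.mem_filter.1 hw).1).2⟩
      linarith)
    refine h1.trans ?_
    have h7 : C0 * ‖s.A.e‖ ^ 2 / √5 ^ t ≤ ar s.A s.B := by
      rw [div_le_iff₀ h5t]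
      have h8 : (160 + C0) * ‖s.A.e‖ ^ 2 ≤ √5 ^ t * ar s.A s.B := by
        have h9 : √5 ^ t * s.eta * ‖s.A.e‖ ^ 2 = √5 ^ t * ar s.A s.B := by
          rw [St.eta]; field_simp
        rw [← h9]
        gcongr
      nlinarith [sq_nonneg ‖s.A.e‖]
    rw [div_le_iff₀ har]
    have h10 : 80 * l * (ar s.A s.B + C0 * ‖s.A.e‖ ^ 2 / √5 ^ t) ≤ 80 * l * (2 * ar s.A s.B) := by
      gcongr
      linarith
    refine h10.trans ?_
    have h11 : 0 ≤ l * ar s.A s.B := by positivity
    nlinarith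

end Pool.Agent.Lib.MP_d437ed.Hit
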