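import Pool.Agent.Lib.MP_d437ed.Hit.Basics

/-!
FIN: the coalescence theorem.
-/

noncomputable section

open MeasureTheory Complex

namespace Pool.Agent.Lib.MP_d437ed.Hit

namespace FinM

theorem co_nonneg (n : ℕ) (A B : Tile) : 0 ≤ co n A B := by
  classical
  induction n generalizing A B with
  | zero =>
    simp only [co]
    split_ifs
    · exact ar_nonneg _ _
    · exact le_rfl
  | succ n ih => exact Finset.sum_nonneg (fun i _ => Finset.sum_nonneg (fun k _ => ih _ _))

theorem co_comm (n : ℕ) (A B : Tile) : co n A B = co n B A := by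
  classical
  induction n generalizing A B with
  | zero =>
    simp only [co]
    by_cases h : A = B
    · subst h
      rfl
    · rw [if_neg h, if_neg (fun h' => h h'.symm)]
  | succ n ih =>
    simp only [co]
    rw [Finset.sum_comm]
    exact Finset.sum_congr rfl (fun i _ => Finset.sum_congr rfl (fun k _ => ih _ _))

/-- coalescence after `N + 4` steps from the killed chain -/
theorem main (hBas : SpecBas) (hLat : SpecLat) {p1 : ℝ}
    (hCo : ∀ (s : St) (n : ℕ), s.ok → Comp s → s.j = 0 → 4 ≤ n → p1 * ar s.A s.B ≤ co n s.A s.B)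
    (N : ℕ) : ∀ s : St, s.ok → Comp s →
      p1 * (1 - kil N (fun _ => 1) s) * ar s.A s.B ≤ co (N + 4) s.A s.B := by
  induction N with
  | zero =>
    intro s hs hc
    by_cases h : s.j = 0
    · simp only [kil, h, if_true, sub_zero, mul_one]
      exact hCo s (0 + 4) hs hc h (by omega)
    · simp only [kil, h, if_false, sub_self, mul_zero, zero_mul]
      exact co_nonneg _ _ _
  | succ N ih =>
    intro s hs hc
    by_cases h : s.j = 0
    · simp only [kil, h, if_true, sub_zero, mul_one]
      exact hCo s (N + 1 + 4) hs hc h (by omega)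
    · have h1 : N + 1 + 4 = (N + 4) + 1 := by omega
      rw [h1]
      simp only [kil, h, if_false]
      have h2 : co (N + 4 + 1) s.A s.B =
          ∑ i : Fin 5, ∑ k : Fin 5, co (N + 4) (s.A.child i) (s.B.child k) := rfl
      rw [h2]
      have h3 : p1 * (1 - Ex (kil N (fun _ => 1)) s) * ar s.A s.B =
          ∑ i : Fin 5, ∑ k : Fin 5,
            p1 * (1 - kil N (fun _ => 1) (s.ch i k)) * ar (s.A.child i) (s.B.child k) := by
        have h4 : Ex (kil N (fun _ => 1)) s * ar s.A s.B =
            ∑ i : Fin 5, ∑ k : Fin 5, kil N (fun _ => 1) (s.ch i k) * ar (s.A.child i) (s.B.child k) := by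
          rw [Ex, Finset.sum_mul]
          refine Finset.sum_congr rfl (fun i _ => ?_)
          rw [Finset.sum_mul]
          refine Finset.sum_congr rfl (fun k _ => ?_)
          have := hs.2.2.ne'
          field_simp
        have h5 := ar_children hBas hs.1 (ok_B hs)
        calc p1 * (1 - Ex (kil N (fun _ => 1)) s) * ar s.A s.B
            = p1 * ar s.A s.B - p1 * (Ex (kil N (fun _ => 1)) s * ar s.A s.B) := by ring
          _ = p1 * (∑ i : Fin 5, ∑ k : Fin 5, ar (s.A.child i) (s.B.child k)) -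
              p1 * ∑ i : Fin 5, ∑ k : Fin 5,
                kil N (fun _ => 1) (s.ch i k) * ar (s.A.child i) (s.B.child k) := by rw [h4, ← h5]
          _ = _ := by
            rw [Finset.mul_sum, Finset.mul_sum, ← Finset.sum_sub_distrib]
            refine Finset.sum_congr rfl (fun i _ => ?_)
            rw [Finset.mul_sum, Finset.mul_sum, ← Finset.sum_sub_distrib]
            refine Finset.sum_congr rfl (fun k _ => ?_)
            ring
      rw [h3]
      refine Finset.sum_le_sum (fun i _ => Finset.sum_le_sum (fun k _ => ?_))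
      rcases (ar_nonneg (s.A.child i) (s.B.child k)).eq_or_lt with h0 | h0
      · rw [← h0, mul_zero]
        exact co_nonneg _ _ _
      · exact ih (s.ch i k) (ok_ch hBas hs h0) (hLat.2.2.1 s i k hc)

/-- exchange of the two tiles -/
def swap (s : St) : St := ⟨s.B, s.A, -s.j⟩

theorem swap_ok {s : St} (hs : s.ok) : (swap s).ok :=
  ⟨ok_B hs, hs.2.1.symm, by
    change 0 < ar s.B s.A
    rw [ar_comm]
    exact hs.2.2⟩

theorem swap_comp {s : St} (hc : Comp s) : Comp (swap s) := by
  obtain ⟨g, hg, ⟨k, hk⟩, ⟨l, hl⟩, m, n, hmn⟩ := hc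
  refine ⟨g, hg, ⟨l, ?_⟩, ⟨k, ?_⟩, -m, -n, ?_⟩
  · change s.B.e = _
    rw [hl]
    simp only [swap, neg_neg]
    ring
  · change s.A.e = _
    rw [hk]
    simp only [swap, neg_neg]
    ring
  · change s.A.P - s.B.P = _
    have h : s.A.P - s.B.P = -(s.B.P - s.A.P) := by ring
    rw [h, hmn]
    push_cast
    ring

theorem swap_eta {s : St} (hs : s.ok) : (swap s).eta = s.eta := by
  change ar s.B s.A / ‖s.B.e‖ ^ 2 = ar s.A s.B / ‖s.A.e‖ ^ 2
  rw [ar_comm, hs.2.1]

end FinM

open FinM in
theorem specFin (hBas : SpecBas) (hLat : SpecLat) (hHit : SpecHit) (hCoal : SpecCoal) : SpecFin := by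
  obtain ⟨p1, hp1, hCo⟩ := hCoal
  refine ⟨p1 / 2, by positivity, ?_⟩
  intro η1 hη1
  obtain ⟨C, hC, hK⟩ := hHit η1 hη1
  refine ⟨C + 4, by linarith, ?_⟩
  intro K0
  obtain ⟨K, hK0, hKs⟩ := hK (max K0 1)
  refine ⟨K, (le_max_left _ _).trans hK0, ?_⟩
  have hK1 : 1 ≤ K := (le_max_right _ _).trans hK0
  have hK1' : (1 : ℝ) ≤ K := by exact_mod_cast hK1
  have hK2 : (1 : ℝ) ≤ (K : ℝ) ^ 2 := one_le_pow₀ hK1'
  intro s n hs hc hη hj hn
  have hn4 : 4 ≤ n := by
    have h : (4 : ℝ) ≤ n := by
      have h1 : (4 : ℝ) ≤ (C + 4) * (K : ℝ) ^ 2 := by nlinarith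
      linarith
    exact_mod_cast h
  obtain ⟨N, rfl⟩ : ∃ N, n = N + 4 := ⟨n - 4, by omega⟩
  have hN : C * (K : ℝ) ^ 2 ≤ N := by
    push_cast at hn
    nlinarith
  -- positive half gap
  have key : ∀ s : St, s.ok → Comp s → η1 ≤ s.eta → 0 < s.j → 8 * s.j ≤ K →
      p1 / 2 * ar s.A s.B ≤ co (N + 4) s.A s.B := by
    intro s hs hc hη hj0 hjK
    have h1 := hKs s N hs hc hη hj0 hjK hN
    have h2 := main hBas hLat hCo N s hs hc
    refine le_trans ?_ h2
    have h3 : p1 / 2 ≤ p1 * (1 - kil N (fun _ => 1) s) := by nlinarith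
    exact mul_le_mul_of_nonneg_right h3 (ar_nonneg _ _)
  rcases lt_trichotomy s.j 0 with h | h | h
  · have h1 := key (swap s) (swap_ok hs) (swap_comp hc) (by rw [swap_eta hs]; exact hη)
      (by change 0 < -s.j; omega)
      (by
        change 8 * (-s.j) ≤ (K : ℤ)
        rw [abs_of_neg h] at hj
        exact hj)
    have h2 : (swap s).A = s.B := rfl
    have h3 : (swap s).B = s.A := rfl
    rw [h2, h3, ar_comm, co_comm] at h1
    exact h1
  · have h1 := hCo s (N + 4) hs hc h (by omega)
    have h2 := ar_nonneg s.A s.B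
    have h3 : p1 / 2 * ar s.A s.B ≤ p1 * ar s.A s.B :=
      mul_le_mul_of_nonneg_right (by linarith) h2
    linarith
  · exact key s hs hc hη h (by rw [abs_of_pos h] at hj; exact hj)

end Pool.Agent.Lib.MP_d437ed.Hit
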