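import Pool.Agent.Lib.MP_d437ed.Hit.Spec

/-!
GEO and SEC: the pinwheel triangle as a set, and a lower bound for overlaps.
-/

noncomputable section

open MeasureTheory Complex

namespace Pool.Agent.Lib.MP_d437ed.Hit

namespace GeoM

/-- the standard triangle -/
def std (c : Bool) : Set ℂ := {w | 0 ≤ w.re ∧ 0 ≤ sg c * w.im ∧ w.re + 2 * (sg c * w.im) ≤ 2}

theorem sg_sq (c : Bool) : sg c * sg c = 1 := by cases c <;> simp [sg]

theorem vol_std (c : Bool) : volume (std c) = 1 := by
  have h1 : std c = Complex.measurableEquivRealProd ⁻¹'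
      {p : ℝ × ℝ | 0 ≤ p.1 ∧ 0 ≤ sg c * p.2 ∧ p.1 + 2 * (sg c * p.2) ≤ 2} := by
    ext w; rfl
  have hmeas : MeasurableSet {p : ℝ × ℝ | 0 ≤ p.1 ∧ 0 ≤ sg c * p.2 ∧ p.1 + 2 * (sg c * p.2) ≤ 2} := by
    apply IsClosed.measurableSet
    have e : {p : ℝ × ℝ | 0 ≤ p.1 ∧ 0 ≤ sg c * p.2 ∧ p.1 + 2 * (sg c * p.2) ≤ 2} =
        {p : ℝ × ℝ | 0 ≤ p.1} ∩ ({p : ℝ × ℝ | 0 ≤ sg c * p.2} ∩
          {p : ℝ × ℝ | p.1 + 2 * (sg c * p.2) ≤ 2}) := by ext p; rfl
    rw [e]
    exact IsClosed.inter (isClosed_le continuous_const continuous_fst) (IsClosed.inter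
      (isClosed_le continuous_const (by fun_prop)) (isClosed_le (by fun_prop) continuous_const))
  rw [h1, (Complex.volume_preserving_equiv_real_prod).measure_preimage hmeas.nullMeasurableSet,
    Measure.volume_eq_prod, Measure.prod_apply hmeas]
  have hsec : ∀ x : ℝ, volume (Prod.mk x ⁻¹'
      {p : ℝ × ℝ | 0 ≤ p.1 ∧ 0 ≤ sg c * p.2 ∧ p.1 + 2 * (sg c * p.2) ≤ 2}) =
      (Set.Icc (0 : ℝ) 2).indicator (fun x => ENNReal.ofReal ((2 - x) / 2)) x := by
    intro x
    by_cases hx : x ∈ Set.Icc (0 : ℝ) 2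
    · rw [Set.indicator_of_mem hx]
      cases c
      · have : (Prod.mk x ⁻¹' {p : ℝ × ℝ | 0 ≤ p.1 ∧ 0 ≤ sg false * p.2 ∧ p.1 + 2 * (sg false * p.2) ≤ 2}) =
            Set.Icc (-((2 - x) / 2)) 0 := by
          ext y
          simp only [Set.mem_preimage, Set.mem_ofPred_eq, Set.mem_Icc, sg]
          constructor
          · rintro ⟨a, b, d⟩
            constructor <;> simp at b d <;> linarith
          · rintro ⟨a, b⟩
            refine ⟨hx.1, ?_, ?_⟩ <;> simp <;> linarith
        rw [this, Real.volume_Icc]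
        congr 1; ring
      · have : (Prod.mk x ⁻¹' {p : ℝ × ℝ | 0 ≤ p.1 ∧ 0 ≤ sg true * p.2 ∧ p.1 + 2 * (sg true * p.2) ≤ 2}) =
            Set.Icc 0 ((2 - x) / 2) := by
          ext y
          simp only [Set.mem_preimage, Set.mem_ofPred_eq, Set.mem_Icc, sg]
          constructor
          · rintro ⟨a, b, d⟩
            constructor <;> simp at b d <;> linarith
          · rintro ⟨a, b⟩
            refine ⟨hx.1, ?_, ?_⟩ <;> simp <;> linarith
        rw [this, Real.volume_Icc]
        congr 1; ring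
    · rw [Set.indicator_of_notMem hx]
      have : (Prod.mk x ⁻¹' {p : ℝ × ℝ | 0 ≤ p.1 ∧ 0 ≤ sg c * p.2 ∧ p.1 + 2 * (sg c * p.2) ≤ 2}) = ∅ := by
        ext y
        simp only [Set.mem_preimage, Set.mem_ofPred_eq, Set.mem_empty_iff_false, iff_false]
        rintro ⟨a, b, d⟩
        exact hx ⟨a, by linarith⟩
      rw [this, measure_empty]
  simp_rw [hsec]
  rw [lintegral_indicator measurableSet_Icc, ← ofReal_integral_eq_lintegral_ofReal]
  · have : ∫ x in Set.Icc (0 : ℝ) 2, (2 - x) / 2 = 1 := by
      rw [integral_Icc_eq_integral_Ioc, ← intervalIntegral.integral_of_le (by norm_num)]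
      have : ∀ x : ℝ, (2 - x) / 2 = 1 - x / 2 := fun x => by ring
      simp_rw [this]
      rw [intervalIntegral.integral_sub (by simp) (by simp), intervalIntegral.integral_div]
      simp
      norm_num
    rw [this, ENNReal.ofReal_one]
  · apply Continuous.integrableOn_Icc
    fun_prop
  · filter_upwards [ae_restrict_mem measurableSet_Icc] with x hx
    simp only [Pi.zero_apply]
    linarith [hx.2]

theorem set_eq (T : Tile) (hT : T.e ≠ 0) :
    T.set = (fun z => T.P + z) '' ((fun z => T.e * z) '' std T.c) := by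
  ext z
  simp only [Tile.set, std, Set.mem_ofPred_eq, Set.mem_image, exists_exists_and_eq_and]
  constructor
  · intro h
    refine ⟨T.w z, h, ?_⟩
    simp only [Tile.w]
    field_simp
    ring
  · rintro ⟨w, hw, rfl⟩
    have : T.w (T.P + T.e * w) = w := by
      simp only [Tile.w]
      field_simp
      ring
    rw [this]
    exact hw

theorem vol_set (T : Tile) (hT : T.e ≠ 0) : volume T.set = ENNReal.ofReal (‖T.e‖ ^ 2) := by
  rw [set_eq T hT]
  have h1 : volume ((fun z => T.P + z) '' ((fun z => T.e * z) '' std T.c)) =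
      volume ((fun z => T.e * z) '' std T.c) := by
    have := measure_preimage_add (volume : Measure ℂ) (-T.P) ((fun z => T.e * z) '' std T.c)
    rw [← this]
    congr 1
    rw [Set.image_add_left]
  rw [h1]
  have h2 : (fun z => T.e * z) '' std T.c = (Algebra.lmul ℝ ℂ T.e) '' std T.c := by
    ext z; simp [Algebra.lmul]
  rw [h2, Measure.addHaar_image_linearMap, vol_std, mul_one]
  congr 1
  have h3 : LinearMap.det (Algebra.lmul ℝ ℂ T.e) = ‖T.e‖ ^ 2 := by
    rw [← Algebra.norm_apply, Algebra.norm_complex_apply, Complex.normSq_eq_norm_sq]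
  rw [h3, abs_of_nonneg (by positivity)]

theorem w_cont (T : Tile) : Continuous T.w := by
  unfold Tile.w
  fun_prop

theorem closed_set (T : Tile) : IsClosed T.set := by
  have h := w_cont T
  have e : T.set = {z | 0 ≤ (T.w z).re} ∩ ({z | 0 ≤ sg T.c * (T.w z).im} ∩
      {z | (T.w z).re + 2 * (sg T.c * (T.w z).im) ≤ 2}) := by ext z; rfl
  rw [e]
  refine IsClosed.inter (isClosed_le continuous_const (Complex.continuous_re.comp h)) (IsClosed.inter
      (isClosed_le continuous_const ?_) (isClosed_le ?_ continuous_const))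
  · exact continuous_const.mul (Complex.continuous_im.comp h)
  · exact (Complex.continuous_re.comp h).add
      (continuous_const.mul (continuous_const.mul (Complex.continuous_im.comp h)))

theorem w_comb (T : Tile) (z z' : ℂ) (a b : ℝ) (hab : a + b = 1) :
    T.w (a • z + b • z') = a • T.w z + b • T.w z' := by
  simp only [Tile.w, Complex.real_smul]
  have : (b : ℂ) = 1 - a := by
    have : b = 1 - a := by linarith
    rw [this]; push_cast; ring
  rw [this]
  ring

theorem convex_set (T : Tile) : Convex ℝ T.set := by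
  intro z hz z' hz' a b ha hb hab
  obtain ⟨h1, h2, h3⟩ := hz
  obtain ⟨g1, g2, g3⟩ := hz'
  have e := w_comb T z z' a b hab
  have er : (T.w (a • z + b • z')).re = a * (T.w z).re + b * (T.w z').re := by
    rw [e]; simp
  have ei : (T.w (a • z + b • z')).im = a * (T.w z).im + b * (T.w z').im := by
    rw [e]; simp
  refine ⟨?_, ?_, ?_⟩
  · rw [er]; positivity
  · rw [ei]
    have : sg T.c * (a * (T.w z).im + b * (T.w z').im) =
      a * (sg T.c * (T.w z).im) + b * (sg T.c * (T.w z').im) := by ring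
    rw [this]; positivity
  · rw [er, ei]
    have : a * (T.w z).re + b * (T.w z').re + 2 * (sg T.c * (a * (T.w z).im + b * (T.w z').im)) =
      a * ((T.w z).re + 2 * (sg T.c * (T.w z).im)) + b * ((T.w z').re + 2 * (sg T.c * (T.w z').im)) := by
      ring
    rw [this]
    nlinarith

theorem diam_set (T : Tile) (hT : T.e ≠ 0) (z z' : ℂ) (hz : z ∈ T.set) (hz' : z' ∈ T.set) :
    ‖z - z'‖ ≤ √5 * ‖T.e‖ := by
  obtain ⟨h1, h2, h3⟩ := hz
  obtain ⟨g1, g2, g3⟩ := hz'
  have e : z - z' = (T.w z - T.w z') * T.e := by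
    simp only [Tile.w]
    field_simp
    ring
  rw [e, norm_mul]
  apply mul_le_mul_of_nonneg_right _ (norm_nonneg _)
  rw [Complex.norm_def]
  apply Real.sqrt_le_sqrt
  rw [Complex.normSq_apply, Complex.sub_re, Complex.sub_im]
  have hs := sg_sq T.c
  have a1 : ((T.w z).im - (T.w z').im) * ((T.w z).im - (T.w z').im) =
    (sg T.c * (T.w z).im - sg T.c * (T.w z').im) * (sg T.c * (T.w z).im - sg T.c * (T.w z').im) := by
    have : (sg T.c * (T.w z).im - sg T.c * (T.w z').im) * (sg T.c * (T.w z).im - sg T.c * (T.w z').im)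
      = sg T.c * sg T.c * (((T.w z).im - (T.w z').im) * ((T.w z).im - (T.w z').im)) := by ring
    rw [this, hs, one_mul]
  rw [a1]
  generalize (T.w z).re = x at *
  generalize (T.w z').re = x' at *
  generalize sg T.c * (T.w z).im = y at *
  generalize sg T.c * (T.w z').im = y' at *
  have b1 : (x - x') * (x - x') ≤ 4 := by nlinarith
  have b2 : (y - y') * (y - y') ≤ 1 := by nlinarith
  linarith

end GeoM

theorem specGeo : SpecGeo := fun T hT =>
  ⟨(GeoM.closed_set T).measurableSet, GeoM.convex_set T, GeoM.closed_set T, GeoM.vol_set T hT,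
    fun z hz z' hz' => GeoM.diam_set T hT z z' hz hz'⟩

theorem specSec : SpecSec := by
  intro A B z hA hAB hz hball
  have hB : B.e ≠ 0 := by
    intro h0
    rw [h0, norm_zero, norm_eq_zero] at hAB
    exact hA hAB
  have he : 0 < ‖A.e‖ := norm_pos_iff.mpr hA
  have h5 : (0 : ℝ) < √5 := by positivity
  have h55 : √5 * √5 = 5 := Real.mul_self_sqrt (by norm_num)
  have hcb : Metric.closedBall z (13 / 100 * ‖A.e‖) ⊆ A.set := by
    rw [← closure_ball z (by positivity)]
    exact (GeoM.closed_set A).closure_subset_iff.mpr hball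
  set t : ℝ := 13 / 100 / √5 with ht
  have ht0 : 0 ≤ t := by positivity
  have ht1 : t ≤ 1 := by
    rw [ht, div_le_one h5]
    have : (1 : ℝ) ≤ √5 := by rw [Real.one_le_sqrt]; norm_num
    linarith
  have hsub : AffineMap.homothety z t '' B.set ⊆ A.set ∩ B.set := by
    rintro _ ⟨x, hx, rfl⟩
    have e : AffineMap.homothety z t x = t • (x - z) + z := by
      rw [AffineMap.homothety_apply]; rfl
    constructor
    · apply hcb
      rw [Metric.mem_closedBall, dist_eq_norm, e, add_sub_cancel_right, norm_smul, Real.norm_eq_abs,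
        abs_of_nonneg ht0]
      have := GeoM.diam_set B hB x z hx hz
      calc t * ‖x - z‖ ≤ t * (√5 * ‖B.e‖) := mul_le_mul_of_nonneg_left this ht0
        _ = 13 / 100 * ‖A.e‖ := by rw [ht, hAB]; field_simp
    · have e2 : AffineMap.homothety z t x = t • x + (1 - t) • z := by
        rw [e]; simp only [Complex.real_smul]; push_cast; ring
      rw [e2]
      exact GeoM.convex_set B hx hz ht0 (by linarith) (by ring)
  have hfin : volume (A.set ∩ B.set) ≠ ⊤ := by
    apply ne_top_of_le_ne_top _ (measure_mono Set.inter_subset_left)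
    rw [GeoM.vol_set A hA]
    exact ENNReal.ofReal_ne_top
  have hvol : volume (AffineMap.homothety z t '' B.set) = ENNReal.ofReal ((13 / 100) ^ 2 / 5 * ‖A.e‖ ^ 2) := by
    rw [Measure.addHaar_image_homothety, GeoM.vol_set B hB, ← ENNReal.ofReal_mul (by positivity)]
    congr 1
    rw [Complex.finrank_real_complex, abs_of_nonneg (by positivity), hAB, ht, div_pow,
      Real.sq_sqrt (by norm_num)]
  have := ENNReal.toReal_mono hfin (measure_mono hsub)
  rw [hvol, ENNReal.toReal_ofReal (by positivity)] at this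
  exact this

end Pool.Agent.Lib.MP_d437ed.Hit
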