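import Pool.Agent.Lib.MP_d437ed.Hit.Basics

/-!
Module GOOD of the hitting lemma (MP_d437ed): good scales.
-/

noncomputable section

open Complex

namespace Pool.Agent.Lib.MP_d437ed.Hit.GOODM

/-- the rotation number -/
def al : ℝ := 2 * Complex.arg vv / Real.pi

/-- distance of `j α` to the integers -/
def nr (j : ℤ) : ℝ := |(j : ℝ) * al - round ((j : ℝ) * al)|

theorem norm_vv : ‖vv‖ = 1 := by
  have h : (2 - I : ℂ) ≠ 0 := by
    intro h
    have := congrArg Complex.re h
    simp at this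
  rw [vv, norm_div]
  have h1 : ‖(2 + I : ℂ)‖ = ‖(2 - I : ℂ)‖ := by
    rw [← Complex.norm_conj]
    congr 1
    simp [Complex.ext_iff]
  rw [h1, div_self (norm_ne_zero_iff.2 h)]

theorem vv_eq : vv = Complex.exp ((al * Real.pi / 2 : ℝ) * I) := by
  have h := Complex.norm_mul_exp_arg_mul_I vv
  rw [norm_vv, ofReal_one, one_mul] at h
  rw [← h]
  congr 2
  rw [al]
  congr 1
  field_simp

theorem vv_zpow (j : ℤ) : vv ^ j = Complex.exp (((j : ℝ) * al * (Real.pi / 2) : ℝ) * I) := by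
  rw [vv_eq, ← Complex.exp_int_mul]
  congr 1
  push_cast
  ring

theorem I_pow (m : ℕ) : (I : ℂ) ^ m = Complex.exp (((m : ℝ) * (Real.pi / 2) : ℝ) * I) := by
  have h : (I : ℂ) = Complex.exp (((Real.pi / 2) : ℝ) * I) := by
    rw [Complex.exp_mul_I]
    norm_cast
    simp
  conv_lhs => rw [h]
  rw [← Complex.exp_nat_mul]
  congr 1
  push_cast
  ring

theorem nr_le (j : ℤ) (z : ℤ) : nr j ≤ |(j : ℝ) * al - z| := round_le _ _

theorem nr_nonneg (j : ℤ) : 0 ≤ nr j := abs_nonneg _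

theorem nr_neg (j : ℤ) : nr (-j) = nr j := by
  refine le_antisymm ?_ ?_
  · refine (nr_le (-j) (-round ((j : ℝ) * al))).trans (le_of_eq ?_)
    rw [nr, ← abs_neg]
    congr 1
    push_cast
    ring
  · refine (nr_le j (-round (((-j : ℤ) : ℝ) * al))).trans (le_of_eq ?_)
    rw [nr, ← abs_neg]
    congr 1
    push_cast
    ring

theorem nr_le_dl (hD : SpecDl) (j : ℤ) : nr j ≤ dl j := by
  obtain ⟨m, hm⟩ := hD.2.2.2.2.2.2 j
  rw [hm, vv_zpow, I_pow]
  set x : ℝ := (Real.pi / 2) * ((j : ℝ) * al - m) with hx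
  have h1 : ‖Complex.exp (((j : ℝ) * al * (Real.pi / 2) : ℝ) * I) -
      Complex.exp (((m : ℝ) * (Real.pi / 2) : ℝ) * I)‖ = 2 * |Real.sin (x / 2)| := by
    have h2 : Complex.exp (((j : ℝ) * al * (Real.pi / 2) : ℝ) * I) -
      Complex.exp (((m : ℝ) * (Real.pi / 2) : ℝ) * I) =
      Complex.exp (((m : ℝ) * (Real.pi / 2) : ℝ) * I) * (Complex.exp (I * (x : ℝ)) - 1) := by
      rw [mul_sub, mul_one, ← Complex.exp_add]
      congr 2
      rw [hx]
      push_cast
      ring
    rw [h2, norm_mul, Complex.norm_exp_ofReal_mul_I, one_mul, Complex.norm_exp_I_mul_ofReal_sub_one, norm_mul,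
      Real.norm_eq_abs, Real.norm_eq_abs, abs_of_pos (by norm_num : (0 : ℝ) < 2)]
  rw [h1]
  set r : ℤ := round (x / 2 / Real.pi) with hr
  have hpi := Real.pi_pos
  set t : ℝ := x / 2 - r * Real.pi with ht
  have h3 : |t| ≤ Real.pi / 2 := by
    have h4 := abs_sub_round (x / 2 / Real.pi)
    have h5 : t = (x / 2 / Real.pi - r) * Real.pi := by
      rw [ht]
      field_simp
    rw [h5, abs_mul, abs_of_pos hpi, hr]
    calc |x / 2 / Real.pi - round (x / 2 / Real.pi)| * Real.pi ≤ 1 / 2 * Real.pi :=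
          mul_le_mul_of_nonneg_right h4 hpi.le
      _ = Real.pi / 2 := by ring
  have h6 : |Real.sin (x / 2)| = |Real.sin t| := by
    rw [ht, Real.sin_sub_int_mul_pi, abs_mul, abs_zpow]
    simp
  rw [h6]
  have h7 := Real.mul_abs_le_abs_sin h3
  have h8 : |(j : ℝ) * al - ((m + 4 * r : ℤ) : ℝ)| = 2 * (2 / Real.pi * |t|) := by
    have h9 : (j : ℝ) * al - ((m + 4 * r : ℤ) : ℝ) = 4 / Real.pi * t := by
      rw [ht, hx]
      push_cast
      field_simp
      ring
    rw [h9, abs_mul, abs_of_pos (by positivity)]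
    ring
  have h10 := nr_le j (m + 4 * r)
  rw [h8] at h10
  linarith

theorem nr_pos (hD : SpecDl) {j : ℤ} (hj : j ≠ 0) : 0 < nr j := by
  refine lt_of_le_of_ne (nr_nonneg j) (fun h0 => ?_)
  have h1 : (j : ℝ) * al = round ((j : ℝ) * al) := by
    have := abs_eq_zero.1 h0.symm
    linarith
  set k : ℤ := round ((j : ℝ) * al) with hk
  have h2 := hD.2.2.2.2.2.1 j (k % 4).toNat
  have h3 : vv ^ j = I ^ (k % 4).toNat := by
    rw [vv_zpow, I_pow, h1]
    rw [Complex.exp_eq_exp_iff_exists_int]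
    refine ⟨k / 4, ?_⟩
    have h4 : ((k % 4).toNat : ℤ) = k % 4 := Int.toNat_of_nonneg (Int.emod_nonneg _ (by norm_num))
    have h5 : (((k % 4).toNat : ℕ) : ℂ) = ((k % 4 : ℤ) : ℂ) := by
      rw [← h4]
      norm_cast
    have h6 : (k : ℂ) = 4 * ((k / 4 : ℤ) : ℂ) + ((k % 4 : ℤ) : ℂ) := by
      have := Int.mul_ediv_add_emod k 4
      exact_mod_cast this.symm
    push_cast
    rw [h5]
    linear_combination (Real.pi / 2 : ℂ) * I * h6
  rw [h3, sub_self, norm_zero] at h2
  exact absurd (hD.2.2.1 j hj) (not_lt.2 h2)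

/-- good denominators -/
theorem exists_q (hD : SpecDl) (Q0 : ℕ) : ∃ q : ℕ, Q0 ≤ q ∧ 1 ≤ q ∧
    ∀ m : ℕ, 1 ≤ m → m < q → 1 / (2 * q : ℝ) ≤ nr m := by
  classical
  have hpos : ∀ m : ℕ, 1 ≤ m → 0 < nr m := fun m hm => nr_pos hD (by exact_mod_cast (by omega : m ≠ 0))
  obtain ⟨m0, hm0, hmin⟩ := Finset.exists_min_image (Finset.Icc 1 (Q0 + 1)) (fun m : ℕ => nr m) ⟨1, by simp⟩
  rw [Finset.mem_Icc] at hm0
  set μ := nr m0 with hμ
  have hμ0 : 0 < μ := hpos m0 hm0.1
  have hex : ∃ q : ℕ, 1 ≤ q ∧ nr q < μ := by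
    obtain ⟨n, hn⟩ := exists_nat_gt (1 / μ)
    have hn0 : 0 < n := by
      have : (0 : ℝ) < n := lt_trans (by positivity) hn
      exact_mod_cast this
    obtain ⟨j, k, hk, -, h⟩ := Real.exists_int_int_abs_mul_sub_le al hn0
    refine ⟨k.toNat, by omega, ?_⟩
    have h1 : ((k.toNat : ℕ) : ℤ) = k := Int.toNat_of_nonneg hk.le
    rw [h1]
    refine (nr_le k j).trans_lt (h.trans_lt ?_)
    rw [div_lt_iff₀ (by positivity)]
    rw [div_lt_iff₀ hμ0] at hn
    nlinarith
  set q := Nat.find hex with hq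
  obtain ⟨hq1, hq2⟩ := Nat.find_spec hex
  rw [← hq] at hq1 hq2
  have hlow : ∀ m : ℕ, 1 ≤ m → m < q → μ ≤ nr m := by
    intro m h1 h2
    by_contra h3
    exact Nat.find_min hex h2 ⟨h1, not_le.1 h3⟩
  have hQ : Q0 + 1 < q := by
    by_contra h
    exact absurd (hmin q (Finset.mem_Icc.2 ⟨hq1, not_lt.1 h⟩)) (not_le.2 hq2)
  refine ⟨q, by omega, hq1, ?_⟩
  obtain ⟨q', hq', hmin'⟩ := Finset.exists_min_image (Finset.Icc 1 (q - 1)) (fun m : ℕ => nr m)
    ⟨1, Finset.mem_Icc.2 ⟨le_rfl, by omega⟩⟩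
  rw [Finset.mem_Icc] at hq'
  have hlt : nr q < nr q' := hq2.trans_le (hlow q' hq'.1 (by omega))
  have hqr : (1 : ℝ) ≤ q := by exact_mod_cast hq1
  have hq'r : (1 : ℝ) ≤ q' := by exact_mod_cast hq'.1
  have hqq : (q' : ℝ) < q := by exact_mod_cast (by omega : q' < q)
  have hkey : 1 / (2 * q : ℝ) ≤ nr q' := by
    by_contra hc
    push Not at hc
    have hc' : nr q' * (2 * q) < 1 := by rwa [lt_div_iff₀ (by positivity)] at hc
    set p : ℤ := round (((q : ℕ) : ℤ) * al : ℝ) with hp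
    set p' : ℤ := round (((q' : ℕ) : ℤ) * al : ℝ) with hp'
    have e1 : nr q = |(q : ℝ) * al - p| := by
      rw [nr, hp]
      push_cast
      rfl
    have e2 : nr q' = |(q' : ℝ) * al - p'| := by
      rw [nr, hp']
      push_cast
      rfl
    have h1 : |((q * p' - q' * p : ℤ) : ℝ)| < 1 := by
      have h2 : ((q * p' - q' * p : ℤ) : ℝ) = q' * ((q : ℝ) * al - p) - q * ((q' : ℝ) * al - p') := by
        push_cast
        ring
      rw [h2]
      refine (abs_sub _ _).trans_lt ?_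
      rw [abs_mul, abs_mul, ← e1, ← e2, abs_of_pos (by linarith : (0 : ℝ) < q'),
        abs_of_pos (by linarith : (0 : ℝ) < q)]
      have h3 : 0 ≤ nr q := nr_nonneg _
      nlinarith
    have h4 : (q * p' - q' * p : ℤ) = 0 := by
      have : |(q * p' - q' * p : ℤ)| < 1 := by exact_mod_cast h1
      exact Int.abs_lt_one_iff.1 this
    have h5 : (q' : ℝ) * ((q : ℝ) * al - p) = q * ((q' : ℝ) * al - p') := by
      have h6 : ((q * p' - q' * p : ℤ) : ℝ) = 0 := by rw [h4]; norm_num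
      push_cast at h6
      linarith
    have h7 : (q' : ℝ) * nr q = q * nr q' := by
      have := congrArg abs h5
      rwa [abs_mul, abs_mul, ← e1, ← e2, abs_of_pos (by linarith : (0 : ℝ) < q'),
        abs_of_pos (by linarith : (0 : ℝ) < q)] at this
    have h8 : 0 ≤ nr q := nr_nonneg _
    nlinarith
  intro m h1 h2
  exact hkey.trans (hmin' m (Finset.mem_Icc.2 ⟨h1, by omega⟩))

theorem sum_log_le (q : ℕ) (hq : 1 ≤ q) : ∑ i ∈ Finset.Icc 1 q, Real.log (2 * q / i) ≤ 2 * q := by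
  have hq0 : (0 : ℝ) < q := by exact_mod_cast hq
  have h1 : ∑ i ∈ Finset.Icc 1 q, Real.log (2 * q / i) =
      q * Real.log 2 + q * Real.log q - Real.log (q.factorial) := by
    have hfac : ∀ q : ℕ, Real.log (q.factorial) = ∑ i ∈ Finset.Icc 1 q, Real.log i := by
      intro q
      induction q with
      | zero => simp
      | succ q ih =>
        rw [Finset.sum_Icc_succ_top (by omega), ← ih, Nat.factorial_succ]
        push_cast
        rw [Real.log_mul (by positivity) (by positivity)]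
        ring
    rw [hfac q]
    have h2 : ∀ i ∈ Finset.Icc 1 q, Real.log (2 * q / i) = (Real.log 2 + Real.log q) - Real.log i := by
      intro i hi
      rw [Finset.mem_Icc] at hi
      have : (0 : ℝ) < i := by exact_mod_cast hi.1
      rw [Real.log_div (by positivity) this.ne', Real.log_mul (by norm_num) hq0.ne']
    rw [Finset.sum_congr rfl h2, Finset.sum_sub_distrib, Finset.sum_const, Nat.card_Icc, nsmul_eq_mul]
    push_cast
    simp
    ring
  rw [h1]
  have h3 := Real.pow_div_factorial_le_exp (x := (q : ℝ)) hq0.le q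
  have hf : (0 : ℝ) < q.factorial := by exact_mod_cast q.factorial_pos
  have h4 := Real.log_le_log (by positivity) h3
  rw [Real.log_exp, Real.log_div (by positivity) hf.ne', Real.log_pow] at h4
  have h5 : Real.log 2 ≤ 1 := by linarith [Real.log_two_lt_d9]
  nlinarith

theorem half_sum (q n : ℕ) (hq : 1 ≤ q)
    (h : ∀ m : ℕ, 1 ≤ m → m < q → 1 / (2 * q : ℝ) ≤ nr m) (hn : 2 * n < q) (σ : ℝ) (hσ : |σ| = 1) :
    ∑ j ∈ (Finset.Icc (1 : ℤ) n).filter (fun j : ℤ => 0 < σ * ((j : ℝ) * al - round ((j : ℝ) * al))),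
      Real.log (1 / nr j) ≤ 2 * q := by
  classical
  have hq0 : (0 : ℝ) < q := by exact_mod_cast hq
  set S := (Finset.Icc (1 : ℤ) n).filter (fun j : ℤ => 0 < σ * ((j : ℝ) * al - round ((j : ℝ) * al))) with hS
  set d : ℤ → ℝ := fun j => σ * ((j : ℝ) * al - round ((j : ℝ) * al)) with hd
  have hnr : ∀ j ∈ S, nr j = d j := by
    intro j hj
    have h1 : 0 < d j := (Finset.mem_filter.1 hj).2
    rw [← abs_of_pos h1, hd]
    simp only
    rw [abs_mul, hσ, one_mul]
    rfl
  have hz : ∀ x : ℤ, x ≠ 0 → |x| ≤ n → 1 / (2 * q : ℝ) ≤ nr x := by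
    intro x hx hx'
    rcases lt_or_gt_of_ne hx with h0 | h0
    · rw [← nr_neg]
      have h1 : ((-x).toNat : ℤ) = -x := Int.toNat_of_nonneg (by omega)
      rw [← h1]
      rw [abs_of_neg h0] at hx'
      exact h _ (by omega) (by omega)
    · have h1 : (x.toNat : ℤ) = x := Int.toNat_of_nonneg (by omega)
      rw [← h1]
      rw [abs_of_pos h0] at hx'
      exact h _ (by omega) (by omega)
  set F : ℤ → ℕ := fun j => ⌊2 * q * d j⌋₊ with hF
  have hlow : ∀ j ∈ S, 1 ≤ 2 * q * d j := by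
    intro j hj
    have h1 := Finset.mem_Icc.1 (Finset.mem_filter.1 hj).1
    have h2 := hz j (by omega) (by rw [abs_of_pos (by omega)]; exact h1.2)
    rw [hnr j hj, div_le_iff₀ (by positivity)] at h2
    linarith
  have hup : ∀ j ∈ S, 2 * q * d j ≤ q := by
    intro j hj
    have h1 : nr j ≤ 1 / 2 := abs_sub_round _
    rw [hnr j hj] at h1
    nlinarith
  have hinj : Set.InjOn F S := by
    intro i hi j hj hij
    by_contra hne
    have hi1 := Finset.mem_Icc.1 (Finset.mem_filter.1 hi).1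
    have hj1 := Finset.mem_Icc.1 (Finset.mem_filter.1 hj).1
    have h1 := hz (i - j) (sub_ne_zero.2 hne) (by rw [abs_le]; omega)
    have h2 : nr (i - j) ≤ |d i - d j| := by
      have h3 : |d i - d j| = |((i - j : ℤ) : ℝ) * al - ((round ((i : ℝ) * al) - round ((j : ℝ) * al) : ℤ) : ℝ)| := by
        have h4 : d i - d j = σ * (((i - j : ℤ) : ℝ) * al -
            ((round ((i : ℝ) * al) - round ((j : ℝ) * al) : ℤ) : ℝ)) := by
          simp only [hd]
          push_cast
          ring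
        rw [h4, abs_mul, hσ, one_mul]
      rw [h3]
      exact nr_le _ _
    have h5 : 1 ≤ |2 * q * d i - 2 * q * d j| := by
      rw [← mul_sub, abs_mul, abs_of_pos (by positivity : (0 : ℝ) < 2 * q)]
      rw [div_le_iff₀ (by positivity)] at h1
      nlinarith
    have h6 : |2 * q * d i - 2 * q * d j| < 1 := by
      have a1 := Nat.floor_le (show 0 ≤ 2 * q * d i by linarith [hlow i hi])
      have a2 := Nat.lt_floor_add_one (2 * q * d i)
      have a3 := Nat.floor_le (show 0 ≤ 2 * q * d j by linarith [hlow j hj])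
      have a4 := Nat.lt_floor_add_one (2 * q * d j)
      have a5 : ((F i : ℕ) : ℝ) = ((F j : ℕ) : ℝ) := congrArg (Nat.cast (R := ℝ)) hij
      simp only [hF] at a5
      rw [abs_lt]
      constructor <;> linarith
    linarith
  have hmaps : ∀ j ∈ S, F j ∈ Finset.Icc 1 q := by
    intro j hj
    rw [Finset.mem_Icc]
    constructor
    · exact Nat.le_floor (by exact_mod_cast hlow j hj)
    · have := Nat.floor_le_floor (hup j hj)
      rwa [Nat.floor_natCast] at this
  calc ∑ j ∈ S, Real.log (1 / nr j) ≤ ∑ j ∈ S, Real.log (2 * q / F j) := by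
        refine Finset.sum_le_sum (fun j hj => ?_)
        have h1 : (1 : ℝ) ≤ F j := by exact_mod_cast (Finset.mem_Icc.1 (hmaps j hj)).1
        have h2 : (F j : ℝ) ≤ 2 * q * d j := Nat.floor_le (by linarith [hlow j hj])
        have h3 : 0 < d j := (Finset.mem_filter.1 hj).2
        rw [hnr j hj]
        refine Real.log_le_log (by positivity) ?_
        rw [div_le_div_iff₀ h3 (by linarith)]
        linarith
    _ = ∑ i ∈ S.image F, Real.log (2 * q / i) := by
        rw [Finset.sum_image (fun i hi j hj hij => hinj hi hj hij)]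
    _ ≤ ∑ i ∈ Finset.Icc 1 q, Real.log (2 * q / i) := by
        refine Finset.sum_le_sum_of_subset_of_nonneg ?_ ?_
        · intro i hi
          obtain ⟨j, hj, rfl⟩ := Finset.mem_image.1 hi
          exact hmaps j hj
        · intro i hi _
          rw [Finset.mem_Icc] at hi
          have h1 : (0 : ℝ) < i := by exact_mod_cast hi.1
          have h2 : (i : ℝ) ≤ q := by exact_mod_cast hi.2
          refine Real.log_nonneg ?_
          rw [le_div_iff₀ h1]
          linarith
    _ ≤ 2 * q := sum_log_le q hq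

theorem full_sum (hD : SpecDl) (q n : ℕ) (hq : 1 ≤ q)
    (h : ∀ m : ℕ, 1 ≤ m → m < q → 1 / (2 * q : ℝ) ≤ nr m) (hn : 2 * n < q) :
    ∑ j ∈ Finset.Icc (1 : ℤ) n, Real.log (1 / nr j) ≤ 4 * q := by
  classical
  have h1 := half_sum q n hq h hn 1 (by norm_num)
  have h2 := half_sum q n hq h hn (-1) (by norm_num)
  have h3 := Finset.sum_filter_add_sum_filter_not (Finset.Icc (1 : ℤ) n)
    (fun j : ℤ => 0 < (1 : ℝ) * ((j : ℝ) * al - round ((j : ℝ) * al))) (fun j => Real.log (1 / nr j))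
  have h4 : (Finset.Icc (1 : ℤ) n).filter (fun j : ℤ => ¬ 0 < (1 : ℝ) * ((j : ℝ) * al - round ((j : ℝ) * al))) =
      (Finset.Icc (1 : ℤ) n).filter (fun j : ℤ => 0 < (-1 : ℝ) * ((j : ℝ) * al - round ((j : ℝ) * al))) := by
    refine Finset.filter_congr (fun j hj => ?_)
    have h5 : j ≠ 0 := by
      rw [Finset.mem_Icc] at hj
      omega
    have h6 := nr_pos hD h5
    rw [nr, abs_pos] at h6
    constructor
    · intro h7
      have : (j : ℝ) * al - round ((j : ℝ) * al) < 0 := lt_of_le_of_ne (by linarith) h6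
      linarith
    · intro h7
      linarith
  rw [h4] at h3
  linarith

theorem lam_nonneg (hD : SpecDl) (j : ℤ) : 0 ≤ lam j := by
  rw [lam]
  split_ifs with h
  · exact le_rfl
  · have h1 := hD.2.2.1 j h
    refine Real.log_nonneg ?_
    rw [le_div_iff₀ h1]
    linarith [(hD.2.1 j).2]

theorem lam_le (hD : SpecDl) {j : ℤ} (hj : j ≠ 0) : lam j ≤ Real.log (1 / nr j) := by
  rw [lam, if_neg hj]
  have h1 := nr_pos hD hj
  have h2 := nr_le_dl hD j
  exact Real.log_le_log (by have := h1.trans_le h2; positivity) (one_div_le_one_div_of_le h1 h2)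

theorem lam_neg (hD : SpecDl) (j : ℤ) : lam (-j) = lam j := by
  rw [lam, lam, hD.2.2.2.1 j]
  by_cases h : j = 0
  · simp [h]
  · rw [if_neg h, if_neg (by omega)]

theorem lam_max (hD : SpecDl) (q n : ℕ) (hq : 1 ≤ q)
    (h : ∀ m : ℕ, 1 ≤ m → m < q → 1 / (2 * q : ℝ) ≤ nr m) (hn : 2 * n < q) {x : ℤ} (hx : |x| ≤ n) :
    lam x ≤ Real.log (2 * q) := by
  have hqr : (1 : ℝ) ≤ q := by exact_mod_cast hq
  by_cases h0 : x = 0
  · rw [lam, if_pos h0]
    exact Real.log_nonneg (by linarith)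
  · refine (lam_le hD h0).trans ?_
    have h1 : 1 / (2 * q : ℝ) ≤ nr x := by
      rcases lt_or_gt_of_ne h0 with h0 | h0
      · rw [← nr_neg]
        have h1 : ((-x).toNat : ℤ) = -x := Int.toNat_of_nonneg (by omega)
        rw [← h1]
        rw [abs_of_neg h0] at hx
        exact h _ (by omega) (by omega)
      · have h1 : (x.toNat : ℤ) = x := Int.toNat_of_nonneg (by omega)
        rw [← h1]
        rw [abs_of_pos h0] at hx
        exact h _ (by omega) (by omega)
    refine Real.log_le_log (by have := nr_pos hD h0; positivity) ?_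
    have := one_div_le_one_div_of_le (by positivity) h1
    rwa [one_div_one_div] at this

theorem lam_sum (hD : SpecDl) (q n : ℕ) (hq : 1 ≤ q)
    (h : ∀ m : ℕ, 1 ≤ m → m < q → 1 / (2 * q : ℝ) ≤ nr m) (hn : 2 * n < q) :
    ∑ x ∈ Finset.Icc (-(n : ℤ)) n, lam x ≤ 8 * q := by
  have h1 : ∑ j ∈ Finset.Icc (1 : ℤ) n, lam j ≤ 4 * q := by
    refine le_trans (Finset.sum_le_sum (fun j hj => lam_le hD ?_)) (full_sum hD q n hq h hn)
    rw [Finset.mem_Icc] at hj
    omega
  have h2 : ∑ j ∈ Finset.Icc (-(n : ℤ)) (-1), lam j = ∑ j ∈ Finset.Icc (1 : ℤ) n, lam j := by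
    refine Finset.sum_bij (fun j _ => -j) ?_ ?_ ?_ ?_
    · intro j hj
      rw [Finset.mem_Icc] at hj ⊢
      omega
    · intro j _ j' _ h
      simpa using h
    · intro j hj
      rw [Finset.mem_Icc] at hj
      exact ⟨-j, Finset.mem_Icc.2 (by omega), by simp⟩
    · intro j _
      exact (lam_neg hD j).symm
  have h3 : Finset.Icc (-(n : ℤ)) n ⊆ (Finset.Icc (-(n : ℤ)) (-1) ∪ Finset.Icc (1 : ℤ) n) ∪ {0} := by
    intro j hj
    rw [Finset.mem_Icc] at hj
    simp only [Finset.mem_union, Finset.mem_Icc, Finset.mem_singleton]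
    omega
  refine (Finset.sum_le_sum_of_subset_of_nonneg h3 (fun j _ _ => lam_nonneg hD j)).trans ?_
  have hun : ∀ A B : Finset ℤ, ∑ x ∈ A ∪ B, lam x ≤ ∑ x ∈ A, lam x + ∑ x ∈ B, lam x := by
    intro A B
    have h4 := Finset.sum_union_inter (s₁ := A) (s₂ := B) (f := lam)
    have h5 : 0 ≤ ∑ x ∈ A ∩ B, lam x := Finset.sum_nonneg (fun j _ => lam_nonneg hD j)
    linarith
  have h6 := hun (Finset.Icc (-(n : ℤ)) (-1) ∪ Finset.Icc (1 : ℤ) n) {0}
  have h7 := hun (Finset.Icc (-(n : ℤ)) (-1)) (Finset.Icc (1 : ℤ) n)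
  have h8 : lam 0 = 0 := by rw [lam, if_pos rfl]
  rw [Finset.sum_singleton, h8] at h6
  rw [h2] at h7
  linarith

end Pool.Agent.Lib.MP_d437ed.Hit.GOODM

namespace Pool.Agent.Lib.MP_d437ed.Hit

open GOODM

/-- GOOD -/
theorem specGood (hD : SpecDl) : SpecGood := by
  intro C'
  obtain ⟨c, hc⟩ : ∃ c : ℝ, c = (C' : ℝ) := ⟨_, rfl⟩
  have hc0 : 0 ≤ c := by rw [hc]; exact Nat.cast_nonneg _
  refine ⟨8 * (2 * c + 1) * (2 * c + 4), by positivity, ?_⟩
  intro K0
  obtain ⟨q, hq0, hq1, h⟩ := exists_q hD (2 * K0 + 2 * C' + 10)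
  set n : ℕ := (q - 1) / 2 with hn
  set K : ℕ := n - C' with hK
  have hnK : n = K + C' := by omega
  have h2n : 2 * n < q := by omega
  have hqK : q ≤ 2 * (K + C') + 2 := by omega
  have hK1 : 1 ≤ K := by omega
  have hKr : (1 : ℝ) ≤ K := by exact_mod_cast hK1
  have hqr : (q : ℝ) ≤ 2 * (K + c) + 2 := by
    have : (q : ℝ) ≤ ((2 * (K + C') + 2 : ℕ) : ℝ) := by exact_mod_cast hqK
    push_cast at this
    rw [hc]
    exact this
  have hqK' : (q : ℝ) ≤ (2 * c + 4) * K := by nlinarith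
  have hq1r : (1 : ℝ) ≤ q := by exact_mod_cast hq1
  have hcard : ((Finset.Icc (-(C' : ℤ)) C').card : ℝ) = 2 * c + 1 := by
    rw [Int.card_Icc]
    have : ((C' : ℤ) + 1 - -(C' : ℤ)).toNat = 2 * C' + 1 := by omega
    rw [this, hc]
    push_cast
    ring
  refine ⟨K, by omega, ?_, ?_⟩
  · rw [Finset.sum_comm]
    have h1 : ∀ i ∈ Finset.Icc (-(C' : ℤ)) C', ∑ j ∈ Finset.Icc (1 : ℤ) K, lam (j + i) ≤ 8 * q := by
      intro i hi
      rw [Finset.mem_Icc] at hi
      have h2 : ∑ j ∈ Finset.Icc (1 : ℤ) K, lam (j + i) = ∑ x ∈ (Finset.Icc (1 : ℤ) K).image (fun j => j + i), lam x := by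
        rw [Finset.sum_image (fun a _ b _ hab => by simpa using hab)]
      rw [h2]
      refine (Finset.sum_le_sum_of_subset_of_nonneg ?_ (fun j _ _ => lam_nonneg hD j)).trans
        (lam_sum hD q n hq1 h h2n)
      intro x hx
      obtain ⟨j, hj, rfl⟩ := Finset.mem_image.1 hx
      rw [Finset.mem_Icc] at hj ⊢
      omega
    refine (Finset.sum_le_sum h1).trans ?_
    rw [Finset.sum_const, nsmul_eq_mul, hcard]
    have h3 : (2 * c + 1) * (8 * q) ≤ (2 * c + 1) * (8 * ((2 * c + 4) * K)) :=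
      mul_le_mul_of_nonneg_left (by linarith) (by positivity)
    refine h3.trans (le_of_eq ?_)
    ring
  · intro j hj
    rw [Finset.mem_Icc] at hj
    have h1 : ∀ i ∈ Finset.Icc (-(C' : ℤ)) C', lam (j + i) ≤ Real.log (2 * q) := by
      intro i hi
      rw [Finset.mem_Icc] at hi
      refine lam_max hD q n hq1 h h2n ?_
      rw [abs_le]
      omega
    refine (Finset.sum_le_sum h1).trans ?_
    rw [Finset.sum_const, nsmul_eq_mul, hcard]
    have hlK : 0 ≤ Real.log K := Real.log_nonneg hKr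
    have h2 : Real.log (2 * q) ≤ (4 * c + 8) * (1 + Real.log K) := by
      have h3 : Real.log (2 * q) ≤ Real.log ((4 * c + 8) * K) :=
        Real.log_le_log (by positivity) (by nlinarith)
      have h5 : Real.log ((4 * c + 8) * K) = Real.log (4 * c + 8) + Real.log K :=
        Real.log_mul (by positivity) (by positivity)
      have h4 : Real.log (4 * c + 8) ≤ 4 * c + 8 := (Real.log_le_sub_one_of_pos (by positivity)).trans (by linarith)
      nlinarith
    calc (2 * c + 1) * Real.log (2 * q) ≤ (2 * c + 1) * ((4 * c + 8) * (1 + Real.log K)) :=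
          mul_le_mul_of_nonneg_left h2 (by positivity)
      _ ≤ 8 * (2 * c + 1) * (2 * c + 4) * (1 + Real.log K) := by
          have h5 : 0 ≤ (2 * c + 1) * (1 + Real.log K) := by positivity
          nlinarith

end Pool.Agent.Lib.MP_d437ed.Hit
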