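import Pool.Agent.Lib.MP_d437ed.Hit.Basics

/-!
Module HIT of the hitting lemma: the half gap hits 0 before it becomes large.
One strong induction on the horizon with an explicit concave potential.
-/

noncomputable section

open MeasureTheory Complex

namespace Pool.Agent.Lib.MP_d437ed.Hit.HitM

/-! ### the killed chain -/

theorem kil_of_zero {s : St} (h : s.j = 0) (t : ℕ) (F : St → ℝ) : kil t F s = 0 := by
  cases t <;> simp [kil, h]

theorem kil_zero_of {s : St} (h : s.j ≠ 0) (F : St → ℝ) : kil 0 F s = F s := by simp [kil, h]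

theorem kil_succ_of {s : St} (h : s.j ≠ 0) (t : ℕ) (F : St → ℝ) : kil (t + 1) F s = Ex (kil t F) s := by
  simp [kil, h]

theorem kil_add (a b : ℕ) (F : St → ℝ) (s : St) : kil (a + b) F s = kil a (kil b F) s := by
  induction a generalizing s with
  | zero =>
    rw [Nat.zero_add]
    by_cases h : s.j = 0
    · rw [kil_of_zero h, kil_of_zero h]
    · rw [kil_zero_of h]
  | succ a ih =>
    rw [Nat.succ_add]
    by_cases h : s.j = 0
    · rw [kil_of_zero h, kil_of_zero h]
    · rw [kil_succ_of h, kil_succ_of h]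
      congr 1
      funext x
      exact ih x

theorem ch_j (s : St) (i k : Fin 5) : (s.ch i k).j = s.jn := rfl

theorem jn_bd (s : St) : s.j - 1 ≤ s.jn ∧ s.jn ≤ s.j + 1 := by
  simp only [St.jn]
  split_ifs <;> omega

theorem kil_mono (hB : SpecBas) (hL : SpecLat) {F G : St → ℝ}
    (h : ∀ s' : St, s'.ok → Comp s' → 0 < s'.j → F s' ≤ G s') (t : ℕ) {s : St} (hs : s.ok) (hc : Comp s)
    (hj : 0 ≤ s.j) : kil t F s ≤ kil t G s := by
  induction t generalizing s with
  | zero =>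
    by_cases h0 : s.j = 0
    · rw [kil_of_zero h0, kil_of_zero h0]
    · rw [kil_zero_of h0, kil_zero_of h0]
      exact h s hs hc (by omega)
  | succ t ih =>
    by_cases h0 : s.j = 0
    · rw [kil_of_zero h0, kil_of_zero h0]
    · rw [kil_succ_of h0, kil_succ_of h0]
      refine Ex_mono' (fun i k h1 => ih (ok_ch hB hs h1) (hL.2.2.1 s i k hc) ?_)
      rw [ch_j]
      have := jn_bd s
      omega

theorem kil_one_le (hB : SpecBas) (t : ℕ) {s : St} (hs : s.ok) : kil t (fun _ => 1) s ≤ 1 := by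
  induction t generalizing s with
  | zero =>
    by_cases h0 : s.j = 0
    · rw [kil_of_zero h0]; norm_num
    · rw [kil_zero_of h0]
  | succ t ih =>
    by_cases h0 : s.j = 0
    · rw [kil_of_zero h0]; norm_num
    · rw [kil_succ_of h0]
      calc Ex (kil t (fun _ => 1)) s ≤ Ex (fun _ => 1) s := Ex_mono hB hs (fun s' h' => ih h')
        _ = 1 := Ex_const hB hs 1

theorem kil_one_anti (hB : SpecBas) (hL : SpecLat) (a b : ℕ) {s : St} (hs : s.ok) (hc : Comp s)
    (hj : 0 ≤ s.j) : kil (a + b) (fun _ => 1) s ≤ kil a (fun _ => 1) s := by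
  rw [kil_add]
  exact kil_mono hB hL (fun s' h' _ _ => kil_one_le hB b h') a hs hc hj

theorem ExN_ge (hB : SpecBas) {F : St → ℝ} {L : ℤ} {D : ℝ}
    (hF : ∀ s' : St, s'.ok → -L ≤ s'.j → D ≤ F s') (t : ℕ) {s : St} (hs : s.ok) (hj : (t : ℤ) - L ≤ s.j) :
    D ≤ ExN t F s := by
  induction t generalizing s with
  | zero => exact hF s hs (by push_cast at hj; omega)
  | succ t ih =>
    rw [ExN_succ, ← Ex_const hB hs D]
    refine Ex_mono' (fun i k h1 => ih (ok_ch hB hs h1) ?_)
    rw [ch_j]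
    have := jn_bd s
    push_cast at hj
    omega

theorem kil_le_ExN (hB : SpecBas) {F : St → ℝ} {L : ℤ}
    (hF : ∀ s' : St, s'.ok → -L ≤ s'.j → 0 ≤ F s') (t : ℕ) {s : St} (hs : s.ok) (hj : (t : ℤ) - L ≤ s.j) :
    kil t F s ≤ ExN t F s := by
  induction t generalizing s with
  | zero =>
    by_cases h0 : s.j = 0
    · rw [kil_of_zero h0]
      exact hF s hs (by push_cast at hj; omega)
    · rw [kil_zero_of h0]
      rfl
  | succ t ih =>
    by_cases h0 : s.j = 0
    · rw [kil_of_zero h0]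
      exact ExN_ge hB hF (t + 1) hs hj
    · rw [kil_succ_of h0, ExN_succ]
      refine Ex_mono' (fun i k h1 => ih (ok_ch hB hs h1) ?_)
      rw [ch_j]
      have := jn_bd s
      push_cast at hj
      omega

/-! ### Jensen and the two block lemmas -/

/-- concavity in the form of supporting lines -/
def Sup (Θ : ℝ → ℝ) : Prop := ∀ m, ∃ p, ∀ x, Θ x ≤ Θ m + p * (x - m)

theorem ExN_affine (hB : SpecBas) (k r : ℕ) (a p m : ℝ) {s : St} (hs : s.ok) :
    ExN r (fun s' => a + p * (Mh k s' - m)) s = a + p * (Mh (k + r) s - m) := by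
  have h1 : ExN r (fun s' => a + p * (Mh k s' - m)) s =
      ExN r (fun _ => a) s + ExN r (fun s' => p * (Mh k s' - m)) s := ExN_plus r _ _ s
  have h2 : ExN r (fun s' => p * (Mh k s' - m)) s = p * ExN r (fun s' => Mh k s' - m) s := ExN_smul r _ _ s
  have h3 : ExN r (fun s' => Mh k s' - m) s = ExN r (fun s' => Mh k s') s - ExN r (fun _ => m) s :=
    ExN_sub r _ _ s
  rw [h1, h2, h3, ExN_const hB a r hs, ExN_const hB m r hs]
  have h4 : ExN r (fun s' => Mh k s') s = Mh (k + r) s := ExN_Mh r k s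
  rw [h4]

theorem jensen (hB : SpecBas) {Θ : ℝ → ℝ} (hΘ : Sup Θ) (k r : ℕ) {s : St} (hs : s.ok) :
    ExN r (fun s' => Θ (Mh k s')) s ≤ Θ (Mh (k + r) s) := by
  obtain ⟨p, hp⟩ := hΘ (Mh (k + r) s)
  have h1 := ExN_affine hB k r (Θ (Mh (k + r) s)) p (Mh (k + r) s) hs
  rw [sub_self, mul_zero, add_zero] at h1
  rw [← h1]
  refine (ExN_mono hB (fun s' _ => hp (Mh k s')) r hs).trans (le_of_eq ?_)
  rw [h1]

theorem ExN_split (hB : SpecBas) (Θ : ℝ → ℝ) (k r : ℕ) (c : ℝ) (e : St → ℝ) {s : St} (hs : s.ok) :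
    ExN r (fun s' => Θ (Mh k s') + c + e s') s =
      ExN r (fun s' => Θ (Mh k s')) s + c + ExN r e s := by
  have h1 : ExN r (fun s' => Θ (Mh k s') + c + e s') s =
      ExN r (fun s' => Θ (Mh k s') + c) s + ExN r e s := ExN_plus r _ _ s
  have h2 : ExN r (fun s' => Θ (Mh k s') + c) s =
      ExN r (fun s' => Θ (Mh k s')) s + ExN r (fun _ => c) s := ExN_plus r _ _ s
  rw [h1, h2, ExN_const hB c r hs]

theorem blockA (hB : SpecBas) {Θ : ℝ → ℝ} (hΘ : Sup Θ) {k : ℕ} {c : ℝ} {e : St → ℝ} {L : ℤ}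
    (hpos : ∀ s' : St, s'.ok → -L ≤ s'.j → 0 ≤ Θ (Mh k s') + c + e s') (r : ℕ) {s : St} (hs : s.ok)
    (hj : (r : ℤ) - L ≤ s.j) :
    kil r (fun s' => Θ (Mh k s') + c + e s') s ≤ Θ (Mh (k + r) s) + c + ExN r e s := by
  refine (kil_le_ExN hB hpos r hs hj).trans ?_
  rw [ExN_split hB Θ k r c e hs]
  have := jensen hB hΘ k r hs
  linarith

theorem pr_zero_not {G : ℕ → St → Prop} {k : ℕ} {s : St} (h : ¬ G k s) : pr G k 0 s = 0 := by
  classical
  simp only [pr]
  exact if_neg h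

theorem blockB (hB : SpecBas) {Θ : ℝ → ℝ} (hΘ : Sup Θ) {k : ℕ} {c : ℝ} {e : St → ℝ} {L : ℤ} {D g : ℝ}
    (hgD : g ≤ D) (hD : 0 ≤ D) (hpos : ∀ s' : St, s'.ok → -L ≤ s'.j → D ≤ Θ (Mh k s') + c + e s')
    {m0 p : ℝ} (hp : ∀ x, Θ x ≤ Θ m0 + p * (x - m0))
    (hp' : ∀ x, 1 / 2 ≤ |x - m0| → Θ x ≤ Θ m0 + p * (x - m0) - g) (r : ℕ) {s : St} (hs : s.ok)
    (hj : (r : ℤ) - L ≤ s.j) :
    kil r (fun s' => Θ (Mh k s') + c + e s') s ≤
      Θ m0 + p * (Mh (k + r) s - m0) + c + ExN r e s - g * pr (GZ m0 (1 / 2)) k r s := by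
  have hpos0 : ∀ s' : St, s'.ok → -L ≤ s'.j → 0 ≤ Θ (Mh k s') + c + e s' :=
    fun s' h1 h2 => hD.trans (hpos s' h1 h2)
  induction r generalizing s with
  | zero =>
    by_cases hG : GZ m0 (1 / 2) k s
    · rw [pr_zero_of hG, mul_one]
      rcases hG with h1 | h1
      · have h2 := blockA hB hΘ hpos0 0 hs hj
        have h3 := hp' (Mh (k + 0) s) h1
        linarith
      · rw [kil_of_zero h1]
        have h2 := hpos s hs (by push_cast at hj; omega)
        have h3 := hp (Mh (k + 0) s)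
        have h4 : ExN 0 e s = e s := rfl
        rw [h4]
        have h5 : Θ (Mh (k + 0) s) = Θ (Mh k s) := rfl
        linarith
    · rw [pr_zero_not hG, mul_zero, sub_zero]
      have h2 := blockA hB hΘ hpos0 0 hs hj
      have h3 := hp (Mh (k + 0) s)
      linarith
  | succ r ih =>
    by_cases hG : GZ m0 (1 / 2) (k + (r + 1)) s
    · rw [pr_of (k := k) (t := r + 1) hG, mul_one]
      rcases hG with h1 | h1
      · have h2 := blockA hB hΘ hpos0 (r + 1) hs hj
        have h3 := hp' (Mh (k + (r + 1)) s) h1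
        linarith
      · rw [kil_of_zero h1]
        have h2 := ExN_ge hB hpos (r + 1) hs hj
        rw [ExN_split hB Θ k (r + 1) c e hs] at h2
        have h6 := jensen hB hΘ k (r + 1) hs
        have h3 := hp (Mh (k + (r + 1)) s)
        linarith
    · have hj0 : s.j ≠ 0 := fun h0 => hG (Or.inr h0)
      rw [pr_succ_of_not hG, kil_succ_of hj0]
      have h1 : Ex (kil r (fun s' => Θ (Mh k s') + c + e s')) s ≤
          Ex (fun s' => (Θ m0 + p * (Mh (k + r) s' - m0)) + c + ExN r e s' -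
            g * pr (GZ m0 (1 / 2)) k r s') s := by
        refine Ex_mono' (fun i k' h1 => ?_)
        refine ih (ok_ch hB hs h1) ?_
        rw [ch_j]
        have := jn_bd s
        push_cast at hj
        omega
      refine h1.trans (le_of_eq ?_)
      rw [Ex_sub s _ _, Ex_smul s, Ex_add s _ (ExN r e), Ex_add s _ (fun _ => c), Ex_const hB hs c]
      have h2 := ExN_affine hB (k + r) 1 (Θ m0) p m0 hs
      have h3 : ExN 1 (fun s' => Θ m0 + p * (Mh (k + r) s' - m0)) s =
        Ex (fun s' => Θ m0 + p * (Mh (k + r) s' - m0)) s := rfl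
      rw [h3] at h2
      rw [h2]
      rfl

/-! ### tails of the overlap -/

/-- `log (1 / eta)` -/
def lg (s : St) : ℝ := Real.log (1 / s.eta)

theorem lg_nonneg (hB : SpecBas) {s : St} (hs : s.ok) : 0 ≤ lg s := by
  obtain ⟨h1, h2⟩ := hB.2.2.2.2.2 s hs
  refine Real.log_nonneg ?_
  rw [le_div_iff₀ h1]
  linarith

open Classical in
/-- `1 + log (1 / eta)` on small overlaps -/
def tl (l : ℝ) (s : St) : ℝ := if s.eta ≤ l then 1 + lg s else 0

open Classical in
/-- indicator of small overlaps -/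
def ind (l : ℝ) (s : St) : ℝ := if s.eta ≤ l then 1 else 0

theorem tl_nonneg (hB : SpecBas) (l : ℝ) {s : St} (hs : s.ok) : 0 ≤ tl l s := by
  have := lg_nonneg hB hs
  unfold tl
  split_ifs <;> linarith

theorem one_add_log_le {x : ℝ} (hx : 0 < x) : 1 + Real.log (1 / x) ≤ 2 / √x := by
  have h1 : 0 < √x := Real.sqrt_pos.2 hx
  have h2 : Real.log (1 / x) = 2 * Real.log (1 / √x) := by
    rw [one_div, one_div, Real.log_inv, Real.log_inv, Real.log_sqrt hx.le]
    ring
  have h3 : Real.log (1 / √x) ≤ 1 / √x - 1 := Real.log_le_sub_one_of_pos (by positivity)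
  rw [h2]
  have h4 : 2 / √x = 2 * (1 / √x) := by ring
  rw [h4]
  linarith

theorem ExN_sum (hB : SpecBas) (t m : ℕ) (c : ℕ → ℝ) (F : ℕ → St → ℝ) {s : St} (hs : s.ok) :
    ExN t (fun x => ∑ k ∈ Finset.range m, c k * F k x) s = ∑ k ∈ Finset.range m, c k * ExN t (F k) s := by
  induction m with
  | zero =>
    simp only [Finset.range_zero, Finset.sum_empty]
    exact ExN_const hB 0 t hs
  | succ m ih =>
    rw [Finset.sum_range_succ, ← ih]
    have h1 : (fun x => ∑ k ∈ Finset.range (m + 1), c k * F k x) =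
        fun x => (∑ k ∈ Finset.range m, c k * F k x) + c m * F m x := by
      funext x
      rw [Finset.sum_range_succ]
    rw [h1]
    have h2 : ExN t (fun x => (∑ k ∈ Finset.range m, c k * F k x) + c m * F m x) s =
      ExN t (fun x => ∑ k ∈ Finset.range m, c k * F k x) s + ExN t (fun x => c m * F m x) s :=
      ExN_plus t _ _ s
    rw [h2]
    congr 1
    exact ExN_smul t _ _ s

theorem tail (hB : SpecBas) {C : ℝ} (hC : 0 ≤ C) {l : ℝ} (hl : 0 < l) (t : ℕ) {s : St} (hs : s.ok)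
    (hE : ∀ l : ℝ, 0 ≤ l → ExN t (ind l) s ≤ C * l) : ExN t (tl l) s ≤ 8 * C * √l := by
  -- all cells of positive weight have overlap > l / 4 ^ m
  have hev : ∀ᶠ m : ℕ in Filter.atTop, ∀ w ∈ wd t, ∀ v ∈ wd t,
      0 < ar (s.A.desc w) (s.B.desc v) → l * (1 / 4) ^ m < (s.cell w v).eta := by
    refine (Filter.eventually_all_finset _).2 (fun w hw => (Filter.eventually_all_finset _).2 (fun v hv => ?_))
    by_cases h0 : 0 < ar (s.A.desc w) (s.B.desc v)
    · have hok := ok_desc hB hs (by rw [mem_wd.1 hw, mem_wd.1 hv]) h0 (s.j + np s.B v - np s.A w)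
      have hpos := (hB.2.2.2.2.2 _ hok).1
      have hlim : Filter.Tendsto (fun m : ℕ => l * (1 / 4 : ℝ) ^ m) Filter.atTop (nhds (l * 0)) :=
        (tendsto_pow_atTop_nhds_zero_of_lt_one (by norm_num) (by norm_num)).const_mul l
      rw [mul_zero] at hlim
      exact ((tendsto_order.1 hlim).2 _ hpos).mono (fun m hm _ => hm)
    · exact Filter.Eventually.of_forall (fun m hm => absurd hm h0)
  obtain ⟨m, hm⟩ := hev.exists
  have hsl : 0 < √l := Real.sqrt_pos.2 hl
  set G : St → ℝ := fun x => ∑ k ∈ Finset.range m, (4 * 2 ^ k / √l) * ind (l * (1 / 4) ^ k) x with hG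
  have hG0 : ∀ x, 0 ≤ G x := by
    intro x
    refine Finset.sum_nonneg (fun k _ => mul_nonneg (by positivity) ?_)
    unfold ind
    split_ifs <;> norm_num
  have hpt : ∀ x : St, x.ok → l * (1 / 4) ^ m < x.eta → tl l x ≤ G x := by
    intro x hx hxm
    by_cases hxl : x.eta ≤ l
    · -- the largest k with eta ≤ l / 4 ^ k
      have hex : ∃ k < m, x.eta ≤ l * (1 / 4) ^ k ∧ l * (1 / 4) ^ (k + 1) < x.eta := by
        by_contra hcon
        push Not at hcon
        have hall : ∀ k ≤ m, x.eta ≤ l * (1 / 4) ^ k := by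
          intro k
          induction k with
          | zero => intro _; simpa using hxl
          | succ k ih =>
            intro hk
            exact hcon k (by omega) (ih (by omega))
        exact absurd (hall m le_rfl) (not_le.2 hxm)
      obtain ⟨k, hk, h1, h2⟩ := hex
      have hxpos := (hB.2.2.2.2.2 x hx).1
      have h3 : tl l x = 1 + Real.log (1 / x.eta) := by
        unfold tl lg
        exact if_pos hxl
      rw [h3]
      refine (one_add_log_le hxpos).trans ?_
      have h4 : 2 / √x.eta ≤ 4 * 2 ^ k / √l := by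
        rw [div_le_div_iff₀ (Real.sqrt_pos.2 hxpos) hsl]
        have h5 : √l ≤ 2 ^ (k + 1) * √x.eta := by
          rw [Real.sqrt_le_left (by positivity), mul_pow, Real.sq_sqrt hxpos.le]
          have h6 : ((2 : ℝ) ^ (k + 1)) ^ 2 * (1 / 4) ^ (k + 1) = 1 := by
            rw [← pow_mul, mul_comm (k + 1) 2, pow_mul, ← mul_pow]
            norm_num
          have h7 : (0 : ℝ) < (2 ^ (k + 1)) ^ 2 := by positivity
          calc l = (2 ^ (k + 1)) ^ 2 * (l * (1 / 4) ^ (k + 1)) := by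
                calc l = l * (((2 : ℝ) ^ (k + 1)) ^ 2 * (1 / 4) ^ (k + 1)) := by rw [h6, mul_one]
                  _ = _ := by ring
            _ ≤ (2 ^ (k + 1)) ^ 2 * x.eta := mul_le_mul_of_nonneg_left h2.le h7.le
        calc 2 * √l ≤ 2 * (2 ^ (k + 1) * √x.eta) := by linarith
          _ = 4 * 2 ^ k * √x.eta := by ring
      refine h4.trans ?_
      have h5 : (4 * 2 ^ k / √l) * ind (l * (1 / 4) ^ k) x ≤ G x := by
        rw [hG]
        refine Finset.single_le_sum (f := fun k => (4 * 2 ^ k / √l) * ind (l * (1 / 4) ^ k) x)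
          (fun k _ => mul_nonneg (by positivity) ?_) (Finset.mem_range.2 hk)
        unfold ind
        split_ifs <;> norm_num
      have h6 : ind (l * (1 / 4) ^ k) x = 1 := by
        unfold ind
        exact if_pos h1
      rwa [h6, mul_one] at h5
    · have : tl l x = 0 := by
        unfold tl
        exact if_neg hxl
      rw [this]
      exact hG0 x
  have hle : ExN t (tl l) s ≤ ExN t G s := by
    rw [ExN_cells hB t _ hs, ExN_cells hB t _ hs]
    refine Finset.sum_le_sum (fun w hw => Finset.sum_le_sum (fun v hv => ?_))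
    rcases (ar_nonneg (s.A.desc w) (s.B.desc v)).eq_or_lt with h0 | h0
    · rw [← h0, zero_div, zero_mul, zero_mul]
    · refine mul_le_mul_of_nonneg_left (hpt _ ?_ (hm w hw v hv h0)) (div_nonneg h0.le (ar_nonneg _ _))
      exact ok_desc hB hs (by rw [mem_wd.1 hw, mem_wd.1 hv]) h0 _
  refine hle.trans ?_
  rw [hG, ExN_sum hB t m _ (fun k => ind (l * (1 / 4) ^ k)) hs]
  have hterm : ∀ k ∈ Finset.range m, (4 * 2 ^ k / √l) * ExN t (ind (l * (1 / 4) ^ k)) s ≤
      4 * C * √l * (1 / 2) ^ k := by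
    intro k _
    have h1 := hE (l * (1 / 4) ^ k) (by positivity)
    have h2 : (4 * 2 ^ k / √l) * ExN t (ind (l * (1 / 4) ^ k)) s ≤
        (4 * 2 ^ k / √l) * (C * (l * (1 / 4) ^ k)) := mul_le_mul_of_nonneg_left h1 (by positivity)
    refine h2.trans (le_of_eq ?_)
    have h3 : l = √l * √l := (Real.mul_self_sqrt hl.le).symm
    have h4 : ((1 : ℝ) / 4) ^ k = (1 / 2) ^ k * (1 / 2) ^ k := by
      rw [← mul_pow]; norm_num
    have h5 : (2 : ℝ) ^ k * (1 / 2) ^ k = 1 := by
      rw [← mul_pow]; norm_num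
    rw [h4]
    calc 4 * 2 ^ k / √l * (C * (l * ((1 / 2) ^ k * (1 / 2) ^ k)))
        = 4 * C * (l / √l) * (2 ^ k * (1 / 2) ^ k) * (1 / 2) ^ k := by ring
      _ = 4 * C * √l * (1 / 2) ^ k := by
          rw [h5, mul_one]
          congr 2
          rw [div_eq_iff hsl.ne']
          exact h3
  refine (Finset.sum_le_sum hterm).trans ?_
  rw [← Finset.mul_sum]
  have hgeo : ∑ k ∈ Finset.range m, ((1 : ℝ) / 2) ^ k ≤ 2 := by
    have := sum_geometric_two_le m
    exact this
  have h0 : 0 ≤ 4 * C * √l := by positivity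
  nlinarith

/-! ### the potential -/

/-- the convex function `x ^ 2`, continued linearly -/
def hub (R s x : ℝ) : ℝ := if |x - s| ≤ R then (x - s) ^ 2 else 2 * R * |x - s| - R ^ 2

theorem hub_ge {R s x p : ℝ} (hp : |p| ≤ 2 * R) : p * (x - s) - p ^ 2 / 4 ≤ hub R s x := by
  unfold hub
  split_ifs with h
  · nlinarith [sq_nonneg (x - s - p / 2)]
  · push Not at h
    have h1 : p * (x - s) ≤ |p| * |x - s| := by
      rw [← abs_mul]
      exact le_abs_self _
    have h2 : p ^ 2 = |p| ^ 2 := (sq_abs p).symm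
    have h3 : 0 ≤ 2 * R - |p| := by linarith
    have h4 : 0 ≤ |x - s| - (2 * R + |p|) / 4 := by linarith
    rw [h2]
    nlinarith [mul_nonneg h3 h4]

theorem hub_le {R s x : ℝ} (hR : 0 ≤ R) : hub R s x ≤ 2 * R * |x - s| := by
  unfold hub
  have h0 := abs_nonneg (x - s)
  split_ifs with h
  · have h2 : (x - s) ^ 2 = |x - s| ^ 2 := (sq_abs _).symm
    rw [h2]
    nlinarith
  · nlinarith [sq_nonneg R]

theorem hub_supp {R s : ℝ} (hR : 0 ≤ R) (m : ℝ) : ∃ p, (∀ x, hub R s m + p * (x - m) ≤ hub R s x) ∧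
    (|m - s| ≤ R - 1 / 2 → ∀ x, 1 / 2 ≤ |x - m| → hub R s m + p * (x - m) + 1 / 4 ≤ hub R s x) := by
  by_cases h : |m - s| ≤ R
  · have hm : hub R s m = (m - s) ^ 2 := by
      unfold hub
      exact if_pos h
    refine ⟨2 * (m - s), ?_, ?_⟩
    · intro x
      have h1 := hub_ge (R := R) (s := s) (x := x) (p := 2 * (m - s)) (by
        rw [abs_mul, abs_two]; linarith)
      rw [hm]
      nlinarith
    · intro h2 x hx
      rw [hm]
      rcases le_total 0 (x - m) with h3 | h3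
      · rw [abs_of_nonneg h3] at hx
        have h1 := hub_ge (R := R) (s := s) (x := x) (p := 2 * (m - s) + 1) (by
          refine (abs_add_le _ _).trans ?_
          rw [abs_mul, abs_two, abs_one]; linarith)
        nlinarith
      · rw [abs_of_nonpos h3] at hx
        have h1 := hub_ge (R := R) (s := s) (x := x) (p := 2 * (m - s) - 1) (by
          refine (abs_sub _ _).trans ?_
          rw [abs_mul, abs_two, abs_one]; linarith)
        nlinarith
  · have hm : hub R s m = 2 * R * |m - s| - R ^ 2 := by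
      unfold hub
      exact if_neg h
    push Not at h
    rcases le_total 0 (m - s) with h3 | h3
    · refine ⟨2 * R, ?_, fun h4 => absurd h4 (by linarith)⟩
      intro x
      have h1 := hub_ge (R := R) (s := s) (x := x) (p := 2 * R) (by
        rw [abs_of_nonneg (by linarith)])
      rw [hm, abs_of_nonneg h3]
      nlinarith
    · refine ⟨-(2 * R), ?_, fun h4 => absurd h4 (by linarith)⟩
      intro x
      have h1 := hub_ge (R := R) (s := s) (x := x) (p := -(2 * R)) (by
        rw [abs_neg, abs_of_nonneg (by linarith)])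
      rw [hm, abs_of_nonpos h3]
      nlinarith

theorem exists_theta {K N : ℕ} {R : ℝ} (hR : 0 ≤ R) (hK : 1 ≤ K) (hN : 1 ≤ N) (κ : ℤ → ℝ)
    (hκ : ∀ j, 0 ≤ κ j) (hsum : 2 * R * ∑ j ∈ Finset.Ico (1 : ℤ) K, κ j ≤ N / (16 * K)) :
    ∃ Θ : ℝ → ℝ, Sup Θ ∧ (∀ x, Θ x ≤ x / K + |x| / (16 * K)) ∧ (∀ x, x / K - |x| / (16 * K) - 1 / 16 ≤ Θ x) ∧
      ∀ j ∈ Finset.Ico (1 : ℤ) K, ∀ m : ℝ, |m - j| ≤ R - 1 / 2 → ∃ p, (∀ x, Θ x ≤ Θ m + p * (x - m)) ∧
        ∀ x, 1 / 2 ≤ |x - m| → Θ x ≤ Θ m + p * (x - m) - κ j / (4 * N) := by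
  have hKr : (1 : ℝ) ≤ K := by exact_mod_cast hK
  have hNr : (1 : ℝ) ≤ N := by exact_mod_cast hN
  have hw : ∀ j, 0 ≤ κ j / N := fun j => div_nonneg (hκ j) (by linarith)
  set Θ : ℝ → ℝ := fun x => x / K - ∑ j ∈ Finset.Ico (1 : ℤ) K, κ j / N * hub R j x with hΘ
  have hhub0 : ∀ (s x : ℝ), 0 ≤ hub R s x := by
    intro s x
    have := hub_ge (R := R) (s := s) (x := x) (p := 0) (by rw [abs_zero]; linarith)
    simpa using this
  have hkey : ∀ m : ℝ, ∃ p, (∀ x, Θ x ≤ Θ m + p * (x - m)) ∧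
      ∀ j ∈ Finset.Ico (1 : ℤ) K, |m - j| ≤ R - 1 / 2 → ∀ x, 1 / 2 ≤ |x - m| →
        Θ x ≤ Θ m + p * (x - m) - κ j / (4 * N) := by
    intro m
    choose q hq hq' using fun j : ℤ => hub_supp (R := R) (s := (j : ℝ)) hR m
    have hdiff : ∀ x, Θ m + (1 / K - ∑ j ∈ Finset.Ico (1 : ℤ) K, κ j / N * q j) * (x - m) - Θ x =
        ∑ j ∈ Finset.Ico (1 : ℤ) K, κ j / N * (hub R j x - (hub R j m + q j * (x - m))) := by
      intro x
      rw [hΘ]
      simp only [mul_sub, mul_add, Finset.sum_sub_distrib, Finset.sum_add_distrib]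
      rw [sub_mul, sub_mul, Finset.sum_mul, Finset.sum_mul]
      have h1 : ∀ y : ℝ, ∑ j ∈ Finset.Ico (1 : ℤ) K, κ j / N * (q j * y) =
          ∑ j ∈ Finset.Ico (1 : ℤ) K, κ j / N * q j * y :=
        fun y => Finset.sum_congr rfl (fun j _ => by ring)
      rw [h1 x, h1 m]
      ring
    have hnn : ∀ x, ∀ j ∈ Finset.Ico (1 : ℤ) K, 0 ≤ κ j / N * (hub R j x - (hub R j m + q j * (x - m))) :=
      fun x j _ => mul_nonneg (hw j) (by linarith [hq j x])
    refine ⟨1 / K - ∑ j ∈ Finset.Ico (1 : ℤ) K, κ j / N * q j, ?_, ?_⟩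
    · intro x
      have h1 := Finset.sum_nonneg (hnn x)
      rw [← hdiff x] at h1
      linarith
    · intro j hj hmj x hx
      have h1 := Finset.single_le_sum (hnn x) hj
      rw [← hdiff x] at h1
      have h2 := hq' j hmj x hx
      have h3 : κ j / N * (1 / 4) ≤ κ j / N * (hub R j x - (hub R j m + q j * (x - m))) :=
        mul_le_mul_of_nonneg_left (by linarith) (hw j)
      have h4 : κ j / N * (1 / 4) = κ j / (4 * N) := by
        field_simp
      linarith
  have hup : ∀ x, ∑ j ∈ Finset.Ico (1 : ℤ) K, κ j / N * hub R j x ≤ |x| / (16 * K) + 1 / 16 := by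
    intro x
    have h1 : ∀ j ∈ Finset.Ico (1 : ℤ) K, κ j / N * hub R j x ≤ κ j / N * (2 * R * (|x| + K)) := by
      intro j hj
      refine mul_le_mul_of_nonneg_left ((hub_le hR).trans ?_) (hw j)
      refine mul_le_mul_of_nonneg_left ?_ (by linarith)
      have h2 : |x - (j : ℝ)| ≤ |x| + |(j : ℝ)| := abs_sub _ _
      obtain ⟨h3, h4⟩ := Finset.mem_Ico.1 hj
      have h5 : |(j : ℝ)| ≤ K := by
        rw [abs_of_nonneg (by exact_mod_cast (by omega : (0 : ℤ) ≤ j))]
        exact_mod_cast h4.le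
      linarith
    refine (Finset.sum_le_sum h1).trans ?_
    rw [← Finset.sum_mul, ← Finset.sum_div]
    have h6 : (∑ j ∈ Finset.Ico (1 : ℤ) K, κ j) / N * (2 * R * (|x| + K)) =
        (2 * R * ∑ j ∈ Finset.Ico (1 : ℤ) K, κ j) * ((|x| + K) / N) := by ring
    rw [h6]
    have h7 : 0 ≤ (|x| + K) / N := by positivity
    refine (mul_le_mul_of_nonneg_right hsum h7).trans (le_of_eq ?_)
    have hK0 : (K : ℝ) ≠ 0 := by linarith
    have hN0 : (N : ℝ) ≠ 0 := by linarith
    field_simp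
    try ring
  refine ⟨Θ, fun m => ?_, ?_, ?_, ?_⟩
  · obtain ⟨p, hp, -⟩ := hkey m
    exact ⟨p, hp⟩
  · intro x
    have h1 : 0 ≤ ∑ j ∈ Finset.Ico (1 : ℤ) K, κ j / N * hub R j x :=
      Finset.sum_nonneg (fun j _ => mul_nonneg (hw j) (hhub0 _ _))
    have h2 : 0 ≤ |x| / (16 * K) := by positivity
    rw [hΘ]
    dsimp only
    linarith
  · intro x
    have h1 := hup x
    rw [hΘ]
    dsimp only
    linarith
  · intro j hj m hm
    obtain ⟨p, hp, hp'⟩ := hkey m
    exact ⟨p, hp, fun x hx => hp' j hj hm x hx⟩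

/-! ### the induction -/

theorem main_ind (hB : SpecBas) (hL : SpecLat) {C0 C1 : ℝ} (hC0 : 0 < C0) (hC1 : 0 < C1)
    (hM : ∀ (n : ℕ) (s : St), s.ok → |Mh n s - s.j| ≤ C0 + C1 * lg s)
    {K N Lm : ℕ} (hK : 1 ≤ K) (hKC : 2 * C1 ≤ K) (hN : 1 ≤ N)
    {Θ : ℝ → ℝ} (hΘ : Sup Θ) (hΘl : ∀ x, x / K - |x| / (16 * K) - 1 / 16 ≤ Θ x)
    {η0 ls δ a p0 : ℝ} (hη0 : 0 < η0) (hls : 0 < ls) (hls1 : ls ≤ 1) (hδ : 0 ≤ δ) (ha : 0 < a)
    (hp0 : 0 < p0) (ℓ : ℤ → ℕ)
    (hΘs : ∀ j ∈ Finset.Ico (1 : ℤ) K, ∀ m : ℝ, |m - j| ≤ C0 + C1 * Real.log (1 / η0) →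
      ∃ p, (∀ x, Θ x ≤ Θ m + p * (x - m)) ∧
        ∀ x, 1 / 2 ≤ |x - m| → Θ x ≤ Θ m + p * (x - m) - (ℓ j + a / 4) / (N * p0))
    (hNL : (Lm : ℝ) ≤ N / 16) (hNL' : (Lm + a / 4) / (N * p0) ≤ 1 / 16)
    (hblk : ∀ s : St, s.ok → Comp s → s.j ∈ Finset.Ico (1 : ℤ) K → η0 < s.eta → ∀ k,
      p0 ≤ pr (GZ (Mh (k + ℓ s.j) s) (1 / 2)) k (ℓ s.j) s)
    (hℓ : ∀ j ∈ Finset.Ico (1 : ℤ) K, 1 ≤ ℓ j ∧ ℓ j ≤ Lm)
    (htail : ∀ s : St, s.ok → s.j ∈ Finset.Ico (1 : ℤ) K → η0 < s.eta →
      ExN (ℓ s.j) (tl η0) s ≤ 1 / 4 ∧ 2 * ExN (ℓ s.j) (tl ls) s ≤ δ)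
    (htiny : ∀ s : St, s.ok → s.eta ≤ η0 → ls < s.eta → ∃ t : ℕ, 1 ≤ t ∧ t ≤ Lm ∧
      (t : ℝ) + a / 4 ≤ a * (1 + lg s) ∧ ExN t (tl η0) s ≤ 1 / 4 ∧ 2 * ExN t (tl ls) s ≤ δ) (n : ℕ) :
    n ≤ N → ∀ s : St, s.ok → Comp s → 0 < s.j → kil n (fun _ => 1) s ≤
      Θ (Mh n s) + (3 / 16 + (2 * C0 + 2 * Lm + 2 * C1 * Real.log (1 / ls)) / K + (N - n) / N + n * δ) +
        (a / N * tl η0 s + 2 * tl ls s) := by
  have hKr : (1 : ℝ) ≤ K := by exact_mod_cast hK
  have hNr : (1 : ℝ) ≤ N := by exact_mod_cast hN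
  have hK0 : (0 : ℝ) < K := by linarith
  have hN0 : (0 : ℝ) < N := by linarith
  set e : St → ℝ := fun s => a / N * tl η0 s + 2 * tl ls s with he
  set c : ℕ → ℝ := fun n => 3 / 16 + (2 * C0 + 2 * Lm + 2 * C1 * Real.log (1 / ls)) / K + (N - n) / N + n * δ
    with hc
  have he0 : ∀ s : St, s.ok → 0 ≤ e s := by
    intro s hs
    have h1 := tl_nonneg hB η0 hs
    have h2 := tl_nonneg hB ls hs
    rw [he]
    dsimp only
    positivity
  have hExe : ∀ (t : ℕ) (s : St), ExN t e s = a / N * ExN t (tl η0) s + 2 * ExN t (tl ls) s := by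
    intro t s
    rw [he]
    have h1 : ExN t (fun s => a / N * tl η0 s + 2 * tl ls s) s =
      ExN t (fun s => a / N * tl η0 s) s + ExN t (fun s => 2 * tl ls s) s := ExN_plus t _ _ s
    have h2 : ExN t (fun s => a / N * tl η0 s) s = a / N * ExN t (tl η0) s := ExN_smul t _ _ s
    have h3 : ExN t (fun s => 2 * tl ls s) s = 2 * ExN t (tl ls) s := ExN_smul t _ _ s
    rw [h1, h2, h3]
  -- compensation
  have hlsl : 0 ≤ Real.log (1 / ls) := Real.log_nonneg (by rw [le_div_iff₀ hls]; linarith)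
  have hV : ∀ s : St, s.ok → 2 / K * (C0 + Lm + C1 * lg s) + ind ls s ≤
      (2 * C0 + 2 * Lm + 2 * C1 * Real.log (1 / ls)) / K + e s := by
    intro s hs
    have h1 := lg_nonneg hB hs
    have h2 := tl_nonneg hB η0 hs
    have h3 : 0 ≤ a / N * tl η0 s := by positivity
    have h4 : (2 * C0 + 2 * Lm + 2 * C1 * Real.log (1 / ls)) / K =
      2 / K * (C0 + Lm) + 2 * C1 / K * Real.log (1 / ls) := by ring
    have h5 : 2 / K * (C0 + Lm + C1 * lg s) = 2 / K * (C0 + Lm) + 2 * C1 / K * lg s := by ring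
    have h6 : 2 * C1 / K ≤ 1 := by rw [div_le_one hK0]; exact hKC
    have h7 : 0 ≤ 2 * C1 / K := by positivity
    rw [h4, h5, he]
    dsimp only
    by_cases h8 : s.eta ≤ ls
    · have h9 : ind ls s = 1 := by unfold ind; exact if_pos h8
      have h10 : tl ls s = 1 + lg s := by unfold tl; exact if_pos h8
      rw [h9, h10]
      nlinarith [mul_nonneg h7 hlsl]
    · have h9 : ind ls s = 0 := by unfold ind; exact if_neg h8
      have h10 : tl ls s = 0 := by unfold tl; exact if_neg h8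
      rw [h9, h10]
      have h11 : lg s ≤ Real.log (1 / ls) := by
        push Not at h8
        refine Real.log_le_log (by have := (hB.2.2.2.2.2 s hs).1; positivity) ?_
        exact one_div_le_one_div_of_le hls h8.le
      nlinarith [mul_le_mul_of_nonneg_left h11 h7]
  have hindn : ∀ s : St, 0 ≤ ind ls s := by
    intro s
    unfold ind
    split_ifs <;> norm_num
  -- lower bound of the potential
  have hP : ∀ (n : ℕ) (s : St), s.ok → -(Lm : ℤ) ≤ s.j →
      1 / 16 + (N - n) / N + n * δ + ind ls s + 1 / 16 ≤ Θ (Mh n s) + c n + e s := by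
    intro n s hs hj
    have h1 := hV s hs
    have h2 := abs_le.1 (hM n s hs)
    have h3 := hΘl (Mh n s)
    have h4 : (-(Lm : ℝ)) ≤ s.j := by exact_mod_cast hj
    have h5 := lg_nonneg hB hs
    set q := C0 + Lm + C1 * lg s with hq
    have hq0 : 0 ≤ q := by rw [hq]; positivity
    have h6 : -q ≤ Mh n s := by rw [hq]; linarith [h2.1]
    have h7 : -(2 / K * q) ≤ Mh n s / K - |Mh n s| / (16 * K) := by
      rcases le_total 0 (Mh n s) with h8 | h8
      · rw [abs_of_nonneg h8]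
        have h9 : Mh n s / K - Mh n s / (16 * K) = 15 / 16 * (Mh n s / K) := by field_simp; ring
        rw [h9]
        have h10 : 0 ≤ Mh n s / K := by positivity
        have h11 : 0 ≤ 2 / K * q := by positivity
        linarith
      · rw [abs_of_nonpos h8]
        have h9 : Mh n s / K - -Mh n s / (16 * K) = 17 / 16 * (Mh n s / K) := by field_simp; ring
        rw [h9]
        have h10 : -q / K ≤ Mh n s / K := div_le_div_of_nonneg_right h6 hK0.le
        have h11 : 0 ≤ q / K := by positivity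
        have h12 : -q / K = -(q / K) := by ring
        have h13 : 2 / K * q = 2 * (q / K) := by ring
        rw [h12] at h10
        rw [h13]
        linarith
    rw [hc]
    dsimp only
    linarith
  -- large half gap
  have hU : ∀ (n : ℕ) (s : St), n ≤ N → s.ok → (K : ℤ) ≤ s.j → 1 ≤ Θ (Mh n s) + c n + e s := by
    intro n s hn hs hj
    have h1 := hV s hs
    have h2 := abs_le.1 (hM n s hs)
    have h3 := hΘl (Mh n s)
    have h4 : (K : ℝ) ≤ s.j := by exact_mod_cast hj
    have h5 := lg_nonneg hB hs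
    set q := C0 + Lm + C1 * lg s with hq
    have hq0 : 0 ≤ q := by rw [hq]; positivity
    have hLm0 : (0 : ℝ) ≤ Lm := Nat.cast_nonneg _
    have h6 : K - q ≤ Mh n s := by rw [hq]; linarith [h2.1]
    have h6' : 1 - q / K ≤ Mh n s / K := by
      have := div_le_div_of_nonneg_right h6 hK0.le
      rwa [sub_div, div_self hK0.ne'] at this
    have hqK : 0 ≤ q / K := by positivity
    have h13 : 2 / K * q = 2 * (q / K) := by ring
    have h7 : 15 / 16 - 2 / K * q ≤ Mh n s / K - |Mh n s| / (16 * K) := by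
      rw [h13]
      rcases le_total 0 (Mh n s) with h8 | h8
      · rw [abs_of_nonneg h8]
        have h9 : Mh n s / K - Mh n s / (16 * K) = 15 / 16 * (Mh n s / K) := by field_simp; ring
        rw [h9]
        linarith
      · rw [abs_of_nonpos h8]
        have h9 : Mh n s / K - -Mh n s / (16 * K) = 17 / 16 * (Mh n s / K) := by field_simp; ring
        rw [h9]
        have h10 : Mh n s / K ≤ 0 := div_nonpos_of_nonpos_of_nonneg h8 hK0.le
        linarith
    have h14 : (0 : ℝ) ≤ (N - n) / N := by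
      have : (n : ℝ) ≤ N := by exact_mod_cast hn
      exact div_nonneg (by linarith) hN0.le
    have h15 : 0 ≤ (n : ℝ) * δ := by positivity
    have h16 := hindn s
    rw [hc]
    dsimp only
    linarith
  -- one block
  have hstep : ∀ (k t : ℕ), 1 ≤ t → c k = c (k + t) + t / N - t * δ := by
    intro k t _
    rw [hc]
    dsimp only
    push_cast
    field_simp
    ring
  induction n using Nat.strong_induction_on with
  | _ n ih =>
    intro hn s hs hcs hj
    show kil n (fun _ => 1) s ≤ Θ (Mh n s) + c n + e s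
    have hle1 := kil_one_le hB n hs
    have hnn : (0 : ℝ) ≤ (N - n) / N := by
      have : (n : ℝ) ≤ N := by exact_mod_cast hn
      exact div_nonneg (by linarith) hN0.le
    have hnδ : 0 ≤ (n : ℝ) * δ := by positivity
    -- short horizon
    by_cases hshort : n ≤ Lm
    · refine hle1.trans ?_
      have h1 := hP n s hs (by omega)
      have h2 : (15 : ℝ) / 16 ≤ (N - n) / N := by
        rw [le_div_iff₀ hN0]
        have : (n : ℝ) ≤ Lm := by exact_mod_cast hshort
        linarith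
      have h3 := hindn s
      linarith
    · push Not at hshort
      -- large half gap
      by_cases hjK : (K : ℤ) ≤ s.j
      · exact hle1.trans (hU n s hn hs hjK)
      · push Not at hjK
        have hjI : s.j ∈ Finset.Ico (1 : ℤ) K := Finset.mem_Ico.2 ⟨by omega, hjK⟩
        -- very small overlap
        by_cases hsup : s.eta ≤ ls
        · refine hle1.trans ?_
          have h1 := hP n s hs (by omega)
          have h2 : ind ls s = 1 := by unfold ind; exact if_pos hsup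
          rw [h2] at h1
          linarith
        · push Not at hsup
          have hrec : ∀ k t : ℕ, 1 ≤ t → n = k + t → kil n (fun _ => 1) s ≤
              kil t (fun s' => Θ (Mh k s') + c k + e s') s := by
            intro k t ht hkt
            rw [hkt, Nat.add_comm, kil_add]
            exact kil_mono hB hL (fun s' h1 h2 h3 => ih k (by omega) (by omega) s' h1 h2 h3) t hs hcs hj.le
          have hposk : ∀ k : ℕ, k ≤ N → ∀ s' : St, s'.ok → -(Lm : ℤ) ≤ s'.j →
              1 / 16 ≤ Θ (Mh k s') + c k + e s' := by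
            intro k hk s' h1 h2
            have h3 := hP k s' h1 h2
            have h4 : (0 : ℝ) ≤ (N - k) / N := by
              have : (k : ℝ) ≤ N := by exact_mod_cast hk
              exact div_nonneg (by linarith) hN0.le
            have h5 : 0 ≤ (k : ℝ) * δ := by positivity
            have h6 := hindn s'
            linarith
          by_cases hnor : s.eta ≤ η0
          · -- tiny block
            obtain ⟨t, ht1, htL, hta, hE1, hE2⟩ := htiny s hs hnor hsup
            obtain ⟨k, rfl⟩ : ∃ k, n = k + t := ⟨n - t, by omega⟩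
            refine (hrec k t ht1 rfl).trans ?_
            refine (blockA hB hΘ (L := Lm) (fun s' h1 h2 => by
              have := hposk k (by omega) s' h1 h2
              linarith) t hs (by omega)).trans ?_
            rw [hExe, hstep k t ht1]
            have h1 : e s = a / N * (1 + lg s) + 2 * tl ls s := by
              rw [he]
              dsimp only
              congr 2
              unfold tl
              exact if_pos hnor
            have h2 := tl_nonneg hB ls hs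
            have h3 : a / N * ExN t (tl η0) s ≤ a / N * (1 / 4) :=
              mul_le_mul_of_nonneg_left hE1 (by positivity)
            have h4 : (t : ℝ) / N + a / N * (1 / 4) ≤ a / N * (1 + lg s) := by
              have h5 : (t : ℝ) / N + a / N * (1 / 4) = (t + a / 4) / N := by ring
              have h6 : a / N * (1 + lg s) = (a * (1 + lg s)) / N := by ring
              rw [h5, h6]
              exact div_le_div_of_nonneg_right hta hN0.le
            have h5 : δ ≤ t * δ := by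
              have : (1 : ℝ) ≤ t := by exact_mod_cast ht1
              nlinarith
            rw [h1]
            linarith
          · -- normal block
            push Not at hnor
            obtain ⟨ht1, htL⟩ := hℓ s.j hjI
            set t := ℓ s.j with ht
            obtain ⟨k, rfl⟩ : ∃ k, n = k + t := ⟨n - t, by omega⟩
            obtain ⟨hE1, hE2⟩ := htail s hs hjI hnor
            have hpr := hblk s hs hcs hjI hnor k
            rw [← ht] at hE1 hE2 hpr
            have hMj : |Mh (k + t) s - s.j| ≤ C0 + C1 * Real.log (1 / η0) := by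
              refine (hM (k + t) s hs).trans ?_
              have h11 : lg s ≤ Real.log (1 / η0) := by
                refine Real.log_le_log (by have := (hB.2.2.2.2.2 s hs).1; positivity) ?_
                exact one_div_le_one_div_of_le hη0 hnor.le
              nlinarith
            obtain ⟨p, hp, hp'⟩ := hΘs s.j hjI _ hMj
            have hg : (t + a / 4) / (N * p0) ≤ 1 / 16 := by
              refine le_trans ?_ hNL'
              refine div_le_div_of_nonneg_right ?_ (by positivity)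
              have : (t : ℝ) ≤ Lm := by exact_mod_cast htL
              linarith
            refine (hrec k t ht1 rfl).trans ?_
            refine (blockB hB hΘ (L := Lm) hg (by norm_num) (hposk k (by omega)) hp hp' t hs
              (by omega)).trans ?_
            rw [hExe, hstep k t ht1, sub_self, mul_zero, add_zero]
            have h2 : (t + a / 4) / (N * p0) * p0 ≤
                (t + a / 4) / (N * p0) * pr (GZ (Mh (k + t) s) (1 / 2)) k t s :=
              mul_le_mul_of_nonneg_left hpr (by positivity)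
            have h2' : (t + a / 4) / (N * p0) * p0 = t / N + a / N * (1 / 4) := by
              field_simp
            rw [h2'] at h2
            have h3 : a / N * ExN t (tl η0) s ≤ a / N * (1 / 4) :=
              mul_le_mul_of_nonneg_left hE1 (by positivity)
            have h5 : δ ≤ t * δ := by
              have : (1 : ℝ) ≤ t := by exact_mod_cast ht1
              nlinarith
            have h6 := he0 s hs
            linarith

end Pool.Agent.Lib.MP_d437ed.Hit.HitM

namespace Pool.Agent.Lib.MP_d437ed.Hit.HitM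

theorem exp_le_sqrt_five_pow {x : ℝ} {t : ℕ} (h : 2 * x ≤ t) : Real.exp x ≤ √5 ^ t := by
  have h1 : Real.exp (1 / 2) ≤ √5 := by
    refine Real.le_sqrt_of_sq_le ?_
    rw [← Real.exp_nat_mul]
    have h2 : ((2 : ℕ) : ℝ) * (1 / 2) = 1 := by norm_num
    rw [h2]
    have := Real.exp_one_lt_d9
    linarith
  have h3 : Real.exp x ≤ Real.exp ((t : ℝ) * (1 / 2)) := Real.exp_le_exp.2 (by linarith)
  rw [Real.exp_nat_mul] at h3
  exact h3.trans (pow_le_pow_left₀ (Real.exp_pos _).le h1 t)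

theorem lam_nonneg (hD : SpecDl) (j : ℤ) : 0 ≤ lam j := by
  unfold lam
  split_ifs with h
  · exact le_rfl
  · rw [one_div, Real.log_inv]
    have := Real.log_nonpos (hD.2.1 j).1 (hD.2.1 j).2
    linarith

theorem eventually_log (A : ℝ) (hA : 0 < A) : ∀ᶠ K : ℕ in Filter.atTop, A * (1 + Real.log K) ≤ K := by
  have h1 := Real.isLittleO_log_id_atTop.bound (show (0 : ℝ) < 1 / (2 * A) by positivity)
  have h2 : ∀ᶠ x : ℝ in Filter.atTop, A * (1 + Real.log x) ≤ x := by
    filter_upwards [h1, Filter.eventually_ge_atTop (2 * A), Filter.eventually_ge_atTop (0 : ℝ)] with x hx1 hx2 hx3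
    rw [Real.norm_eq_abs, Real.norm_eq_abs, id, abs_of_nonneg hx3] at hx1
    have h3 := (le_abs_self (Real.log x)).trans hx1
    have h4 : A * Real.log x ≤ x / 2 := by
      calc A * Real.log x ≤ A * (1 / (2 * A) * x) := mul_le_mul_of_nonneg_left h3 hA.le
        _ = x / 2 := by field_simp
    linarith
  exact tendsto_natCast_atTop_atTop.eventually h2

end Pool.Agent.Lib.MP_d437ed.Hit.HitM

namespace Pool.Agent.Lib.MP_d437ed.Hit

open HitM in
theorem specHit (hB : SpecBas) (hE : SpecEta) (hM : SpecMart) (hG : SpecGood) (hW : SpecW)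
    (hL : SpecLat) (hD : SpecDl) : SpecHit := by
  intro η1 hη1
  obtain ⟨Ce, hCe, hEta⟩ := hE
  obtain ⟨C0, C1, hC0, hC1, hMart⟩ := hM
  have hlCe : 0 ≤ Real.log Ce := Real.log_nonneg hCe
  -- constants
  obtain ⟨c, hc⟩ : ∃ c : ℝ, c = 2 * Real.log Ce + 2 := ⟨_, rfl⟩
  obtain ⟨a, ha⟩ : ∃ a : ℝ, a = 2 * c := ⟨_, rfl⟩
  obtain ⟨η0, hη0⟩ : ∃ η0 : ℝ, η0 = (1 / (32 * Ce)) ^ 2 := ⟨_, rfl⟩
  have hc0 : 2 ≤ c := by rw [hc]; linarith
  have ha0 : 0 < a := by rw [ha]; linarith
  have hη0p : 0 < η0 := by rw [hη0]; positivity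
  have hsη0 : √η0 = 1 / (32 * Ce) := by rw [hη0]; exact Real.sqrt_sq (by positivity)
  obtain ⟨p0, C', Cw, hp0, hCw, hW'⟩ := hW η0 hη0p
  obtain ⟨Cg, hCg, hG'⟩ := hG C'
  obtain ⟨w0, hw0⟩ : ∃ w0 : ℕ, Ce ≤ √5 ^ w0 * η0 := by
    have h5 : (1 : ℝ) < √5 := by
      rw [Real.lt_sqrt (by norm_num)]; norm_num
    obtain ⟨n, hn⟩ := pow_unbounded_of_one_lt (Ce / η0) h5
    refine ⟨n, ?_⟩
    rw [div_lt_iff₀ hη0p] at hn
    exact hn.le
  obtain ⟨S, hS⟩ : ∃ S : ℤ → ℝ, S = fun j => ∑ i ∈ Finset.Icc (-(C' : ℤ)) C', lam (j + i) := ⟨_, rfl⟩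
  have hS0 : ∀ j, 0 ≤ S j := by
    intro j
    rw [hS]
    exact Finset.sum_nonneg (fun i _ => lam_nonneg hD _)
  obtain ⟨ℓ, hℓ⟩ : ∃ ℓ : ℤ → ℕ, ℓ = fun j => ⌈Cw * (1 + S j)⌉₊ + w0 + 1 := ⟨_, rfl⟩
  have hℓle : ∀ j, (ℓ j : ℝ) ≤ Cw * (1 + S j) + w0 + 2 := by
    intro j
    rw [hℓ]
    push_cast
    have h1 : 0 ≤ Cw * (1 + S j) := mul_nonneg hCw.le (by linarith [hS0 j])
    have := (Nat.ceil_lt_add_one h1).le
    linarith
  have hℓge : ∀ j, Cw * (1 + S j) ≤ ℓ j := by
    intro j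
    rw [hℓ]
    push_cast
    have := Nat.le_ceil (Cw * (1 + S j))
    have h2 : (0 : ℝ) ≤ w0 := Nat.cast_nonneg _
    linarith
  have hℓw : ∀ j, w0 ≤ ℓ j ∧ 1 ≤ ℓ j := by
    intro j
    rw [hℓ]
    dsimp only
    omega
  have hlη0 : 0 ≤ Real.log (1 / η0) := by
    refine Real.log_nonneg ?_
    rw [le_div_iff₀ hη0p, one_mul, hη0]
    refine pow_le_one₀ (by positivity) ?_
    rw [div_le_one (by positivity)]
    linarith
  obtain ⟨R, hR⟩ : ∃ R : ℝ, R = C0 + C1 * Real.log (1 / η0) + 1 / 2 := ⟨_, rfl⟩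
  have hR0 : 0 < R := by rw [hR]; positivity
  obtain ⟨A0, hA0⟩ : ∃ A0 : ℝ, A0 = Cw + w0 + 2 + a / 4 := ⟨_, rfl⟩
  obtain ⟨Ck, hCk⟩ : ∃ Ck : ℝ, Ck = 4 / p0 * (A0 + Cw * Cg) := ⟨_, rfl⟩
  have hA00 : 0 < A0 := by rw [hA0]; positivity
  have hCk0 : 0 < Ck := by rw [hCk]; positivity
  obtain ⟨C, hC⟩ : ∃ C : ℝ, C = 32 * R * Ck + 1 := ⟨_, rfl⟩
  have hC1' : 1 ≤ C := by
    rw [hC]
    have : 0 < 32 * R * Ck := by positivity
    linarith
  obtain ⟨B1, hB1⟩ : ∃ B1 : ℝ, B1 = Cw + Cw * Cg + w0 + 2 + 8 * c := ⟨_, rfl⟩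
  have hB10 : 0 < B1 := by rw [hB1]; positivity
  obtain ⟨Le, hLe⟩ : ∃ Le : ℝ, Le = |Real.log (1 / η1)| := ⟨_, rfl⟩
  have hLe0 : 0 ≤ Le := by rw [hLe]; exact abs_nonneg _
  obtain ⟨A, hA⟩ : ∃ A : ℝ, A = 2 * C1 + 16 * (B1 + 1) + 16 * (B1 + 1 + a / 4) / p0 +
    64 * (C0 + B1 + 1 + 8 * C1) + 64 * (C0 + C1 * Le) + 512 * Ce * (C + 1) + 32 * a * (1 + Le) + 2 / η1 :=
    ⟨_, rfl⟩
  have q1 : 0 < 2 * C1 := by positivity
  have q2 : 0 < 16 * (B1 + 1) := by positivity
  have q3 : 0 < 16 * (B1 + 1 + a / 4) / p0 := by positivity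
  have q4 : 0 < 64 * (C0 + B1 + 1 + 8 * C1) := by positivity
  have q5 : 0 < 64 * (C0 + C1 * Le) := by positivity
  have q6 : 0 < 512 * Ce * (C + 1) := by positivity
  have q7 : 0 < 32 * a * (1 + Le) := by positivity
  have q8 : 0 < 2 / η1 := by positivity
  have hApos : 0 < A := by rw [hA]; positivity
  refine ⟨C, by linarith, ?_⟩
  intro K0
  obtain ⟨K1, hK1⟩ := Filter.eventually_atTop.1 (eventually_log A hApos)
  obtain ⟨K, hKge, hGsum, hGmax⟩ := hG' (max K0 (max K1 1))
  have hK0 : K0 ≤ K := (le_max_left _ _).trans hKge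
  have hKK1 : K1 ≤ K := ((le_max_left _ _).trans (le_max_right _ _)).trans hKge
  have hK1' : 1 ≤ K := ((le_max_right _ _).trans (le_max_right _ _)).trans hKge
  refine ⟨K, hK0, ?_⟩
  intro s N hs hcs hη hj hj8 hN
  have hAK := hK1 K hKK1
  have hKr : (1 : ℝ) ≤ K := by exact_mod_cast hK1'
  have hKp : (0 : ℝ) < K := by linarith
  obtain ⟨X, hX⟩ : ∃ X : ℝ, X = 1 + Real.log K := ⟨_, rfl⟩
  have hX1 : 1 ≤ X := by
    rw [hX]
    have := Real.log_nonneg hKr
    linarith
  rw [← hX] at hAK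
  -- the horizon
  obtain ⟨N', hN'⟩ : ∃ N' : ℕ, N' = ⌈C * (K : ℝ) ^ 2⌉₊ := ⟨_, rfl⟩
  have hN'ge : C * (K : ℝ) ^ 2 ≤ N' := by rw [hN']; exact Nat.le_ceil _
  have hN'le : (N' : ℝ) ≤ C * (K : ℝ) ^ 2 + 1 := by
    rw [hN']
    exact (Nat.ceil_lt_add_one (by positivity)).le
  have hN'N : N' ≤ N := by rw [hN']; exact Nat.ceil_le.2 hN
  have hK2 : (K : ℝ) ≤ (K : ℝ) ^ 2 := le_self_pow₀ hKr two_ne_zero
  have hNK2 : (K : ℝ) ^ 2 ≤ N' := (le_mul_of_one_le_left (sq_nonneg _) hC1').trans hN'ge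
  have hNK : (K : ℝ) ≤ N' := hK2.trans hNK2
  have hAXN : A * X ≤ N' := hAK.trans hNK
  have hN'1 : 1 ≤ N' := by
    have : (1 : ℝ) ≤ N' := hKr.trans hNK
    exact_mod_cast this
  have hN'p : (0 : ℝ) < N' := by linarith
  have hAge : ∀ y : ℝ, 0 ≤ y → y ≤ A → y * X ≤ K := fun y h0 hy =>
    (mul_le_mul_of_nonneg_right hy (by linarith)).trans hAK
  have hAge1 : ∀ y : ℝ, 0 ≤ y → y ≤ A → y ≤ K := fun y h0 hy => by
    exact (le_mul_of_one_le_right h0 hX1).trans (hAge y h0 hy)
  -- Lm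
  obtain ⟨Lm, hLm⟩ : ∃ Lm : ℕ, Lm = ⌈B1 * X⌉₊ := ⟨_, rfl⟩
  have hLmge : B1 * X ≤ Lm := by rw [hLm]; exact Nat.le_ceil _
  have hLmle : (Lm : ℝ) ≤ (B1 + 1) * X := by
    have h1 : (Lm : ℝ) ≤ B1 * X + 1 := by
      rw [hLm]
      exact (Nat.ceil_lt_add_one (by positivity)).le
    linarith
  -- small overlaps
  obtain ⟨ls, hls⟩ : ∃ ls : ℝ, ls = ((1 / (K : ℝ)) ^ 4) ^ 2 := ⟨_, rfl⟩
  have hlsp : 0 < ls := by rw [hls]; positivity
  have hsls : √ls = (1 / (K : ℝ)) ^ 4 := by rw [hls]; exact Real.sqrt_sq (by positivity)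
  have hKinv : 1 / (K : ℝ) ≤ 1 := by rw [div_le_one hKp]; exact hKr
  have hls1 : ls ≤ 1 := by
    rw [hls]
    exact pow_le_one₀ (by positivity) (pow_le_one₀ (by positivity) hKinv)
  have hlslog : Real.log (1 / ls) = 8 * Real.log K := by
    rw [hls, one_div, Real.log_inv, Real.log_pow, Real.log_pow, one_div, Real.log_inv]
    push_cast
    ring
  obtain ⟨δ, hδ⟩ : ∃ δ : ℝ, δ = 2 * (8 * Ce * √ls) := ⟨_, rfl⟩
  have hδ0 : 0 ≤ δ := by rw [hδ]; positivity
  -- the weights
  obtain ⟨κ, hκ⟩ : ∃ κ : ℤ → ℝ, κ = fun j => 4 / p0 * (ℓ j + a / 4) := ⟨_, rfl⟩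
  have hκ0 : ∀ j, 0 ≤ κ j := by
    intro j
    rw [hκ]
    positivity
  have hκsum : ∑ j ∈ Finset.Ico (1 : ℤ) K, κ j ≤ Ck * K := by
    have h1 : ∀ j ∈ Finset.Ico (1 : ℤ) K, κ j ≤ 4 / p0 * A0 + 4 / p0 * Cw * S j := by
      intro j _
      rw [hκ]
      dsimp only
      have h2 : (ℓ j : ℝ) + a / 4 ≤ A0 + Cw * S j := by
        have := hℓle j
        rw [hA0]
        linarith
      calc 4 / p0 * ((ℓ j : ℝ) + a / 4) ≤ 4 / p0 * (A0 + Cw * S j) :=
            mul_le_mul_of_nonneg_left h2 (by positivity)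
        _ = _ := by ring
    refine (Finset.sum_le_sum h1).trans ?_
    rw [Finset.sum_add_distrib, Finset.sum_const, nsmul_eq_mul, Int.card_Ico, ← Finset.mul_sum]
    have h2 : ∑ j ∈ Finset.Ico (1 : ℤ) K, S j ≤ Cg * K := by
      refine le_trans ?_ hGsum
      rw [hS]
      exact Finset.sum_le_sum_of_subset_of_nonneg
        (fun j hj => Finset.mem_Icc.2 ⟨(Finset.mem_Ico.1 hj).1, (Finset.mem_Ico.1 hj).2.le⟩)
        (fun j _ _ => Finset.sum_nonneg (fun i _ => lam_nonneg hD _))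
    have h3 : (((K : ℤ) - 1).toNat : ℝ) ≤ K := by
      have : ((K : ℤ) - 1).toNat ≤ K := by omega
      exact_mod_cast this
    have h4 : 0 < 4 / p0 * A0 := by positivity
    have h5 : 0 < 4 / p0 * Cw := by positivity
    calc (((K : ℤ) - 1).toNat : ℝ) * (4 / p0 * A0) + 4 / p0 * Cw * ∑ j ∈ Finset.Ico (1 : ℤ) K, S j
        ≤ K * (4 / p0 * A0) + 4 / p0 * Cw * (Cg * K) :=
          add_le_add (mul_le_mul_of_nonneg_right h3 h4.le) (mul_le_mul_of_nonneg_left h2 h5.le)
      _ = Ck * K := by rw [hCk]; ring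
  have hsum : 2 * R * ∑ j ∈ Finset.Ico (1 : ℤ) K, κ j ≤ N' / (16 * K) := by
    rw [le_div_iff₀ (by positivity)]
    calc 2 * R * (∑ j ∈ Finset.Ico (1 : ℤ) K, κ j) * (16 * K)
        ≤ 2 * R * (Ck * K) * (16 * K) := by
          refine mul_le_mul_of_nonneg_right (mul_le_mul_of_nonneg_left hκsum (by positivity)) (by positivity)
      _ = 32 * R * Ck * (K : ℝ) ^ 2 := by ring
      _ ≤ C * (K : ℝ) ^ 2 := by
          refine mul_le_mul_of_nonneg_right ?_ (by positivity)
          rw [hC]; linarith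
      _ ≤ N' := hN'ge
  obtain ⟨Θ, hΘ, hΘu, hΘl, hΘs⟩ := exists_theta hR0.le hK1' hN'1 κ hκ0 hsum
  -- tails after a block
  have htl : ∀ (t : ℕ) (s : St), s.ok → Ce ≤ √5 ^ t * s.eta →
      ExN t (tl η0) s ≤ 1 / 4 ∧ 2 * ExN t (tl ls) s ≤ δ := by
    intro t s hs ht
    have hE : ∀ l : ℝ, 0 ≤ l → ExN t (ind l) s ≤ Ce * l := fun l hl => (hEta s t l hs hl).2 ht
    have h1 := tail hB (by linarith) hη0p t hs hE
    have h2 := tail hB (by linarith) hlsp t hs hE
    constructor
    · rw [hsη0] at h1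
      have h3 : 8 * Ce * (1 / (32 * Ce)) = 1 / 4 := by
        have : Ce ≠ 0 := by linarith
        field_simp
        norm_num
      rw [h3] at h1
      exact h1
    · rw [hδ]
      linarith
  -- the induction
  have hmain := main_ind hB hL hC0 hC1 hMart (K := K) (N := N') (Lm := Lm) hK1'
    (hAge1 _ q1.le (by rw [hA]; linarith)) hN'1 hΘ hΘl hη0p hlsp hls1 hδ0 ha0 hp0 ℓ
    (by
      intro j hj m hm
      obtain ⟨p, hp, hp'⟩ := hΘs j hj m (by rw [hR]; linarith)
      refine ⟨p, hp, fun x hx => (hp' x hx).trans (le_of_eq ?_)⟩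
      rw [hκ]
      dsimp only
      congr 1
      field_simp)
    (by
      have h1 : 16 * (B1 + 1) * X ≤ N' := (hAge _ q2.le (by rw [hA]; linarith)).trans hNK
      linarith)
    (by
      rw [div_le_iff₀ (by positivity)]
      have h1 : 16 * (B1 + 1 + a / 4) / p0 * X ≤ N' := (hAge _ q3.le (by rw [hA]; linarith)).trans hNK
      have h2 : 16 * (B1 + 1 + a / 4) * X ≤ N' * p0 := by
        calc 16 * (B1 + 1 + a / 4) * X = 16 * (B1 + 1 + a / 4) / p0 * X * p0 := by field_simp
          _ ≤ N' * p0 := mul_le_mul_of_nonneg_right h1 hp0.le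
      have h3 : a / 4 ≤ a / 4 * X := le_mul_of_one_le_right (by positivity) hX1
      linarith only [h2, h3, hLmle])
    (by
      intro s hs hcs hjI hη k
      refine hW' k (ℓ s.j) s hs hcs hη.le ?_ ?_
      · have := (Finset.mem_Ico.1 hjI).1
        omega
      · have := hℓge s.j
        rw [hS] at this
        exact this)
    (by
      intro j hj
      refine ⟨(hℓw j).2, ?_⟩
      have h1 := hℓle j
      obtain ⟨hj1, hj2⟩ := Finset.mem_Ico.1 hj
      have h2 : S j ≤ Cg * X := by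
        rw [hS, hX]
        exact hGmax j (Finset.mem_Icc.2 ⟨hj1, hj2.le⟩)
      have h3 : (ℓ j : ℝ) ≤ Lm := by
        refine h1.trans (le_trans ?_ hLmge)
        have h4 : Cw * S j ≤ Cw * (Cg * X) := mul_le_mul_of_nonneg_left h2 hCw.le
        have h5 : (w0 : ℝ) ≤ w0 * X := le_mul_of_one_le_right (Nat.cast_nonneg _) hX1
        have h6 : Cw ≤ Cw * X := le_mul_of_one_le_right hCw.le hX1
        have h7 : 0 ≤ 8 * c * X := by positivity
        rw [hB1]
        linarith only [h4, h5, h6, h7, hX1]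
      exact_mod_cast h3)
    (by
      intro s hs _ hη
      refine htl _ s hs ?_
      have h5 : (1 : ℝ) ≤ √5 := by
        rw [Real.one_le_sqrt]; norm_num
      calc Ce ≤ √5 ^ w0 * η0 := hw0
        _ ≤ √5 ^ (ℓ s.j) * s.eta :=
          mul_le_mul (pow_le_pow_right₀ h5 (hℓw _).1) hη.le hη0p.le (by positivity))
    (by
      intro s hs hη hls'
      have hlg := lg_nonneg hB hs
      have hep := (hB.2.2.2.2.2 s hs).1
      refine ⟨⌈2 * (Real.log Ce + lg s)⌉₊ + 1, by omega, ?_, ?_, ?_⟩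
      · have h1 : ((⌈2 * (Real.log Ce + lg s)⌉₊ + 1 : ℕ) : ℝ) ≤ Lm := by
          push_cast
          have h2 := (Nat.ceil_lt_add_one (show 0 ≤ 2 * (Real.log Ce + lg s) by positivity)).le
          have h3 : lg s ≤ 8 * Real.log K := by
            rw [← hlslog]
            refine Real.log_le_log (by positivity) ?_
            exact one_div_le_one_div_of_le hlsp hls'.le
          have h4 : 8 * c * X ≤ Lm := by
            refine le_trans ?_ hLmge
            rw [hB1]
            have h5 : 0 ≤ (Cw + Cw * Cg + w0 + 2) * X := by positivity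
            linarith only [h5]
          rw [hX] at h4
          have h6 := Real.log_nonneg hKr
          have h7 : 16 * Real.log K ≤ 8 * c * Real.log K :=
            mul_le_mul_of_nonneg_right (by linarith only [hc0]) h6
          have h8 : 2 * Real.log Ce + 2 ≤ 8 * c := by linarith only [hc, hlCe]
          linarith only [h2, h3, h4, h7, h8]
        exact_mod_cast h1
      · push_cast
        have h2 := (Nat.ceil_lt_add_one (show 0 ≤ 2 * (Real.log Ce + lg s) by positivity)).le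
        rw [ha]
        have h3 : 2 * lg s ≤ 2 * c * lg s := mul_le_mul_of_nonneg_right (by linarith only [hc0]) hlg
        linarith only [h2, h3, hc, hc0, hlg]
      · refine htl _ s hs ?_
        have h1 : Real.exp (Real.log Ce + lg s) ≤ √5 ^ (⌈2 * (Real.log Ce + lg s)⌉₊ + 1) := by
          refine exp_le_sqrt_five_pow ?_
          push_cast
          have := Nat.le_ceil (2 * (Real.log Ce + lg s))
          linarith
        rw [Real.exp_add, Real.exp_log (by linarith)] at h1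
        have h2 : Real.exp (lg s) = 1 / s.eta := Real.exp_log (by positivity)
        rw [h2] at h1
        calc Ce = Ce * (1 / s.eta) * s.eta := by field_simp
          _ ≤ _ := mul_le_mul_of_nonneg_right h1 hep.le)
    N' le_rfl s hs hcs hj
  -- conclusion
  obtain ⟨d, rfl⟩ : ∃ d, N = N' + d := ⟨N - N', by omega⟩
  refine (kil_one_anti hB hL N' d hs hcs hj.le).trans (hmain.trans ?_)
  have hlg := lg_nonneg hB hs
  have hlg1 : lg s ≤ Le := by
    rw [hLe]
    refine le_trans ?_ (le_abs_self _)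
    refine Real.log_le_log (by have := (hB.2.2.2.2.2 s hs).1; positivity) ?_
    exact one_div_le_one_div_of_le hη1 hη
  have hMb := abs_le.1 (hMart N' s hs)
  have hj8r : (8 : ℝ) * s.j ≤ K := by exact_mod_cast hj8
  have hjr : (0 : ℝ) < s.j := by exact_mod_cast hj
  have e1 : Θ (Mh N' s) ≤ 17 / 128 + 1 / 32 := by
    refine (hΘu _).trans ?_
    obtain ⟨Q, hQ⟩ : ∃ Q : ℝ, Q = K / 8 + (C0 + C1 * Le) := ⟨_, rfl⟩
    have hlgm : C1 * lg s ≤ C1 * Le := mul_le_mul_of_nonneg_left hlg1 hC1.le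
    have h1 : |Mh N' s| ≤ Q := by
      rw [abs_le, hQ]
      change -(C0 + C1 * lg s) ≤ _ ∧ _ ≤ C0 + C1 * lg s at hMb
      constructor
      · linarith [hMb.1]
      · linarith [hMb.2]
    have h2 : Mh N' s ≤ Q := (le_abs_self _).trans h1
    have h3 : Mh N' s / K ≤ Q / K := div_le_div_of_nonneg_right h2 hKp.le
    have h4 : |Mh N' s| / (16 * K) ≤ Q / (16 * K) := div_le_div_of_nonneg_right h1 (by positivity)
    have h5 : Q / K + Q / (16 * K) = 17 / 16 * (Q / K) := by field_simp; ring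
    have h6 : Q / K = 1 / 8 + (C0 + C1 * Le) / K := by rw [hQ]; field_simp
    have h7 : (C0 + C1 * Le) / K ≤ 1 / 64 := by
      rw [div_le_iff₀ hKp]
      have := hAge1 _ q5.le (by rw [hA]; linarith)
      linarith
    linarith
  have e2 : (2 * C0 + 2 * Lm + 2 * C1 * Real.log (1 / ls)) / K ≤ 1 / 32 := by
    rw [div_le_iff₀ hKp, hlslog]
    have h1 := hAge _ q4.le (by rw [hA]; linarith)
    have h2 : Real.log K ≤ X := by rw [hX]; linarith
    have h3 : C1 * Real.log K ≤ C1 * X := mul_le_mul_of_nonneg_left h2 hC1.le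
    have h4 : C0 ≤ C0 * X := le_mul_of_one_le_right hC0.le hX1
    linarith only [h1, h3, h4, hLmle]
  have e3 : (N' : ℝ) * δ ≤ 1 / 32 := by
    rw [hδ, hsls]
    have h1 := hAge1 _ q6.le (by rw [hA]; linarith)
    have h2 : (N' : ℝ) ≤ (C + 1) * (K : ℝ) ^ 2 := by
      have := one_le_pow₀ hKr (n := 2)
      linarith only [this, hN'le]
    have h3 : 0 ≤ 2 * (8 * Ce * (1 / (K : ℝ)) ^ 4) := by positivity
    refine (mul_le_mul_of_nonneg_right h2 h3).trans ?_
    have h4 : (C + 1) * (K : ℝ) ^ 2 * (2 * (8 * Ce * (1 / (K : ℝ)) ^ 4)) =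
        16 * Ce * (C + 1) / (K : ℝ) ^ 2 := by
      field_simp
      ring
    rw [h4, div_le_iff₀ (by positivity)]
    linarith only [h1, hK2]
  have e4 : a / N' * tl η0 s ≤ 1 / 32 := by
    have h1 : tl η0 s ≤ 1 + Le := by
      unfold tl
      split_ifs <;> linarith
    have h2 := (hAge1 _ q7.le (by rw [hA]; linarith)).trans hNK
    have h3 : a / N' * tl η0 s ≤ a / N' * (1 + Le) := mul_le_mul_of_nonneg_left h1 (by positivity)
    refine h3.trans ?_
    have h4 : a / N' * (1 + Le) = a * (1 + Le) / N' := by ring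
    rw [h4, div_le_iff₀ hN'p]
    linarith
  have e5 : tl ls s = 0 := by
    unfold tl
    refine if_neg ?_
    rw [not_le]
    have h1 : 2 / η1 ≤ K := hAge1 _ q8.le (by rw [hA]; linarith)
    have h2 : ls ≤ 1 / K := by
      rw [hls, ← pow_mul]
      calc (1 / (K : ℝ)) ^ (4 * 2) ≤ (1 / (K : ℝ)) ^ 1 := pow_le_pow_of_le_one (by positivity) hKinv (by norm_num)
        _ = 1 / K := pow_one _
    have h3 : 1 / (K : ℝ) < η1 := by
      rw [div_lt_iff₀ hKp]
      rw [div_le_iff₀ hη1] at h1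
      linarith
    linarith
  have e6 : ((N' : ℝ) - N') / N' = 0 := by rw [sub_self, zero_div]
  rw [e5, e6]
  linarith

end Pool.Agent.Lib.MP_d437ed.Hit
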