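import Pool.Agent.Lib.MP_d437ed.Hit.Basics

/-!
INN: a definite overlap contains a (+)-descendant of `A`.
-/

noncomputable section

open MeasureTheory Complex

namespace Pool.Agent.Lib.MP_d437ed.Hit

namespace InnM

/-- some descendant of depth `l` lies inside `B` -/
theorem exists_inner (hGeo : SpecGeo) (hBas : SpecBas) {C : ℝ} {l : ℕ} {η : ℝ}
    (hb : ∀ (A B : Tile) (l : ℕ), A.e ≠ 0 → ‖A.e‖ = ‖B.e‖ →
      ∀ W : Finset (List (Fin 5)), W ⊆ wd l →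
        (∀ w ∈ W, ¬ (A.desc w).set ⊆ B.set ∧ ((A.desc w).set ∩ B.set).Nonempty) →
        ∑ w ∈ W, ‖(A.desc w).e‖ ^ 2 ≤ C * ‖A.e‖ ^ 2 / √5 ^ l)
    (hl : C / √5 ^ l < η) (s : St) (hs : s.ok) (hη : η ≤ s.eta) :
    ∃ w ∈ wd l, (s.A.desc w).set ⊆ s.B.set := by
  classical
  by_contra hcon
  push Not at hcon
  have hBe := ok_B hs
  obtain ⟨W, hW⟩ : ∃ W, W = (wd l).filter (fun w => ((s.A.desc w).set ∩ s.B.set).Nonempty) :=
    ⟨_, rfl⟩
  have hWs : W ⊆ wd l := by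
    rw [hW]
    exact Finset.filter_subset _ _
  have h1 : ∑ w ∈ W, ‖(s.A.desc w).e‖ ^ 2 ≤ C * ‖s.A.e‖ ^ 2 / √5 ^ l := by
    refine hb s.A s.B l hs.1 hs.2.1 W hWs ?_
    intro w hw
    rw [hW, Finset.mem_filter] at hw
    exact ⟨hcon w hw.1, hw.2⟩
  have h2 : volume (s.A.set ∩ s.B.set) ≤ ENNReal.ofReal (C * ‖s.A.e‖ ^ 2 / √5 ^ l) := by
    rw [hBas.1 s.A l s.B.set hs.1 (hGeo s.B hBe).1]
    have h3 : ∑ w ∈ wd l, volume ((s.A.desc w).set ∩ s.B.set) =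
        ∑ w ∈ W, volume ((s.A.desc w).set ∩ s.B.set) := by
      rw [hW]
      symm
      refine Finset.sum_filter_of_ne ?_
      intro w _ hne
      by_contra hemp
      rw [Set.not_nonempty_iff_eq_empty] at hemp
      rw [hemp] at hne
      exact hne measure_empty
    rw [h3]
    have h4 : ∑ w ∈ W, volume ((s.A.desc w).set ∩ s.B.set) ≤
        ∑ w ∈ W, ENNReal.ofReal (‖(s.A.desc w).e‖ ^ 2) := by
      refine Finset.sum_le_sum (fun w _ => ?_)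
      rw [← (hGeo (s.A.desc w) (hBas.2.1 s.A w hs.1).1).2.2.2.1]
      exact measure_mono Set.inter_subset_left
    refine h4.trans ?_
    rw [← ENNReal.ofReal_sum_of_nonneg (fun w _ => by positivity)]
    exact ENNReal.ofReal_le_ofReal h1
  have hApos : 0 < ‖s.A.e‖ ^ 2 := by
    have := norm_pos_iff.2 hs.1
    positivity
  have h5 : ar s.A s.B ≤ C * ‖s.A.e‖ ^ 2 / √5 ^ l := by
    have hR0 : 0 ≤ C * ‖s.A.e‖ ^ 2 / √5 ^ l := le_trans (Finset.sum_nonneg (fun w _ => by positivity)) h1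
    exact ENNReal.toReal_le_of_le_ofReal hR0 h2
  have h6 : η * ‖s.A.e‖ ^ 2 ≤ ar s.A s.B := by
    rw [St.eta, le_div_iff₀ hApos] at hη
    exact hη
  have h7 : C * ‖s.A.e‖ ^ 2 / √5 ^ l = C / √5 ^ l * ‖s.A.e‖ ^ 2 := by ring
  have h8 : C / √5 ^ l * ‖s.A.e‖ ^ 2 < η * ‖s.A.e‖ ^ 2 := mul_lt_mul_of_pos_right hl hApos
  linarith

/-- every tile has a (+)-child -/
theorem exists_plus (T : Tile) : ∃ i : Fin 5, (T.child i).c = true := by
  cases h : T.c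
  · exact ⟨0, by simp [Tile.child, h, chi, cM]⟩
  · exact ⟨3, by simp [Tile.child, h, chi, cM]⟩

end InnM

open InnM in
theorem specInn (hGeo : SpecGeo) (hBas : SpecBas) (hBnd : SpecBnd) : SpecInn := by
  obtain ⟨C, hC, hb⟩ := hBnd
  intro η hη
  have h5 : (1 : ℝ) < √5 := by
    rw [Real.lt_sqrt (by norm_num)]
    norm_num
  have hinv : (√5)⁻¹ < 1 := inv_lt_one_of_one_lt₀ h5
  obtain ⟨l, hl⟩ := exists_pow_lt_of_lt_one (div_pos hη hC) hinv
  have hl' : C / √5 ^ l < η := by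
    rw [inv_pow, lt_div_iff₀ hC] at hl
    rw [div_eq_mul_inv, mul_comm]
    exact hl
  refine ⟨l + 1, ?_⟩
  intro s hs hηs
  obtain ⟨w, hw, hsub⟩ := exists_inner hGeo hBas hb hl' s hs hηs
  obtain ⟨i, hi⟩ := exists_plus (s.A.desc w)
  have hwi : [i] ∈ wd 1 := by
    rw [mem_wd]
    rfl
  refine ⟨w ++ [i], append_mem_wd hw hwi, ?_, ?_⟩
  · rw [desc_append]
    exact hi
  · rw [desc_append]
    exact ((hBas.2.1 (s.A.desc w) [i] (hBas.2.1 s.A w hs.1).1).2.2).trans hsub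

end Pool.Agent.Lib.MP_d437ed.Hit
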