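import Pool.Agent.Lib.MP_d437ed.Hit.Basics
import Pool.Agent.Lib.MP_d437ed.Hit.Dl

/-!
LAT: units and corners of the descendants; compatibility is inherited.
-/

noncomputable section

open Complex

namespace Pool.Agent.Lib.MP_d437ed.Hit

namespace LatM

/-- `z ∈ g ℤ[i]` -/
def InL (g z : ℂ) : Prop := ∃ m n : ℤ, z = g * (m + n * I)

theorem inL_zero (g : ℂ) : InL g 0 := ⟨0, 0, by simp⟩
theorem inL_self (g : ℂ) : InL g g := ⟨1, 0, by simp⟩

theorem InL.add {g z w : ℂ} (hz : InL g z) (hw : InL g w) : InL g (z + w) := by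
  obtain ⟨a, b, rfl⟩ := hz
  obtain ⟨c, d, rfl⟩ := hw
  exact ⟨a + c, b + d, by push_cast; ring⟩

theorem InL.sub {g z w : ℂ} (hz : InL g z) (hw : InL g w) : InL g (z - w) := by
  obtain ⟨a, b, rfl⟩ := hz
  obtain ⟨c, d, rfl⟩ := hw
  exact ⟨a - c, b - d, by push_cast; ring⟩

/-- Gaussian integers -/
def GI (x : ℂ) : Prop := ∃ m n : ℤ, x = m + n * I

theorem gi_mk (m n : ℤ) : GI (m + n * I) := ⟨m, n, rfl⟩

theorem GI.mul {x y : ℂ} (hx : GI x) (hy : GI y) : GI (x * y) := by
  obtain ⟨a, b, rfl⟩ := hx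
  obtain ⟨c, d, rfl⟩ := hy
  refine ⟨a * c - b * d, a * d + b * c, ?_⟩
  push_cast
  linear_combination ((b : ℂ) * d) * Complex.I_sq

theorem gi_one : GI 1 := ⟨1, 0, by simp⟩
theorem gi_I : GI I := ⟨0, 1, by simp⟩

theorem GI.pow {x : ℂ} (hx : GI x) (n : ℕ) : GI (x ^ n) := by
  induction n with
  | zero => rw [pow_zero]; exact gi_one
  | succ n ih => rw [pow_succ]; exact ih.mul hx

theorem gi_add : GI (2 + I) := ⟨2, 1, by push_cast; ring⟩
theorem gi_sub : GI (2 - I) := ⟨2, -1, by push_cast; ring⟩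

theorem InL.mul_gi {g z x : ℂ} (hz : InL g z) (hx : GI x) : InL g (z * x) := by
  obtain ⟨a, b, rfl⟩ := hz
  obtain ⟨c, d, h⟩ := (gi_mk a b).mul hx
  exact ⟨c, d, by rw [mul_assoc, h]⟩

theorem inL_mul (g : ℂ) {x : ℂ} (hx : GI x) : InL g (g * x) := (inL_self g).mul_gi hx

theorem InL.trans {g h z : ℂ} {x : ℂ} (hx : GI x) (hg : g = h * x) (hz : InL g z) : InL h z := by
  obtain ⟨a, b, rfl⟩ := hz
  rw [hg, mul_assoc]
  exact inL_mul h (hx.mul (gi_mk a b))

theorem gi_off (c : Bool) (i : Fin 5) : GI (off c i) := by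
  have h : ∀ i : Fin 5, ∃ m n : ℤ, oM i = m + n * I := by
    intro i
    fin_cases i
    · exact ⟨0, -2, by simp [oM]⟩
    · exact ⟨2, -2, by simp [oM]; ring⟩
    · exact ⟨0, -1, by simp [oM]⟩
    · exact ⟨2, -2, by simp [oM]; ring⟩
    · exact ⟨0, -1, by simp [oM]⟩
  obtain ⟨m, n, hmn⟩ := h i
  unfold off
  split_ifs
  · refine ⟨m, -n, ?_⟩
    rw [hmn]
    simp
  · exact ⟨m, n, hmn⟩

theorem dir_pow (c : Bool) (i : Fin 5) : ∃ k : ℕ, dir c i = I ^ k := by
  have h3 : (I : ℂ) ^ 3 = -I := by rw [pow_succ, Complex.I_sq]; ring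
  unfold dir
  split_ifs
  · fin_cases i
    · exact ⟨3, by simp [dM, h3]⟩
    · exact ⟨0, by simp [dM]⟩
    · exact ⟨0, by simp [dM]⟩
    · exact ⟨2, by simp [dM]⟩
    · exact ⟨0, by simp [dM]⟩
  · fin_cases i
    · exact ⟨1, by simp [dM]⟩
    · exact ⟨0, by simp [dM]⟩
    · exact ⟨0, by simp [dM]⟩
    · exact ⟨2, by simp [dM]⟩
    · exact ⟨0, by simp [dM]⟩

theorem pc_ne (c : Bool) : pc c ≠ 0 := by
  unfold pc
  split_ifs
  · exact DlM.two_add_ne
  · exact DlM.two_sub_ne

theorem gi_pc (c : Bool) : GI (pc c) := by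
  unfold pc
  split_ifs
  · exact gi_add
  · exact gi_sub

theorem child_e (T : Tile) (i : Fin 5) : ∃ k : ℕ, (T.child i).e * pc T.c = I ^ k * T.e := by
  obtain ⟨k, hk⟩ := dir_pow T.c i
  refine ⟨k, ?_⟩
  simp only [Tile.child]
  rw [hk]
  have := pc_ne T.c
  field_simp

theorem I_pow_inv (k : ℕ) : (I : ℂ) ^ (3 * k) * I ^ k = 1 := by
  rw [← pow_add, show 3 * k + k = 4 * k by ring, pow_mul, Complex.I_pow_four, one_pow]

theorem part1 (T : Tile) (w : List (Fin 5)) : ∃ k : ℕ,
    (T.desc w).e * ((2 + I) ^ np T w * (2 - I) ^ (w.length - np T w)) = I ^ k * T.e ∧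
    np T w ≤ w.length := by
  induction w generalizing T with
  | nil => exact ⟨0, by simp⟩
  | cons i w ih =>
    obtain ⟨k, hk, hle⟩ := ih (T.child i)
    obtain ⟨l, hl⟩ := child_e T i
    refine ⟨k + l, ?_, ?_⟩
    · rw [desc_cons, np_cons, List.length_cons]
      by_cases hc : T.c = true
      · rw [if_pos hc]
        have e1 : w.length + 1 - (1 + np (T.child i) w) = w.length - np (T.child i) w := by omega
        rw [e1, pow_add, pow_one]
        have hp : pc T.c = 2 + I := by rw [pc, if_pos hc]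
        rw [hp] at hl
        rw [pow_add]
        linear_combination (2 + I) * hk + I ^ k * hl
      · rw [if_neg hc]
        have e1 : w.length + 1 - (0 + np (T.child i) w) = (w.length - np (T.child i) w) + 1 := by omega
        rw [e1, pow_succ, zero_add]
        have hp : pc T.c = 2 - I := by rw [pc, if_neg hc]
        rw [hp] at hl
        rw [pow_add]
        linear_combination (2 - I) * hk + I ^ k * hl
    · rw [np_cons, List.length_cons]
      split_ifs <;> omega

/-- the corner of a descendant is in the lattice of its unit -/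
theorem corner (T : Tile) (w : List (Fin 5)) :
    InL (T.desc w).e ((T.desc w).P - T.P) ∧ ∃ x : ℂ, GI x ∧ T.e = (T.desc w).e * x := by
  induction w generalizing T with
  | nil => exact ⟨by simpa using inL_zero _, 1, gi_one, by simp⟩
  | cons i w ih =>
    obtain ⟨h1, x, hx, h2⟩ := ih (T.child i)
    obtain ⟨k, hk⟩ := child_e T i
    have h3 : T.e = (T.child i).e * (pc T.c * I ^ (3 * k)) := by
      linear_combination (-(T.e)) * I_pow_inv k - I ^ (3 * k) * hk
    have h4 : (T.child i).P - T.P = (T.child i).e * (I ^ (3 * k) * off T.c i) := by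
      have : (T.child i).P - T.P = T.e / pc T.c * off T.c i := by simp [Tile.child]
      rw [this, h3]
      have := pc_ne T.c
      field_simp
    rw [desc_cons]
    refine ⟨?_, x * (pc T.c * I ^ (3 * k)), hx.mul ((gi_pc _).mul (gi_I.pow _)), ?_⟩
    · have e : ((T.child i).desc w).P - T.P =
        (((T.child i).desc w).P - (T.child i).P) + ((T.child i).P - T.P) := by ring
      rw [e]
      refine h1.add ?_
      rw [h4]
      exact InL.trans hx h2 (inL_mul _ ((gi_I.pow _).mul (gi_off _ _)))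
    · rw [← mul_assoc, ← h2]; exact h3

theorem part2 (T : Tile) (w w' : List (Fin 5)) (hl : w.length = w'.length) (hn : np T w = np T w') :
    (∃ k : ℕ, (T.desc w).e = I ^ k * (T.desc w').e) ∧
    ∃ m n : ℤ, (T.desc w).P - (T.desc w').P = (T.desc w).e * (m + n * I) := by
  obtain ⟨k, hk, -⟩ := part1 T w
  obtain ⟨l, hl', -⟩ := part1 T w'
  rw [← hl, ← hn] at hl'
  have hne : (2 + I : ℂ) ^ np T w * (2 - I) ^ (w.length - np T w) ≠ 0 :=
    mul_ne_zero (pow_ne_zero _ DlM.two_add_ne) (pow_ne_zero _ DlM.two_sub_ne)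
  have h1 : (T.desc w).e = I ^ (k + 3 * l) * (T.desc w').e := by
    apply mul_right_cancel₀ hne
    rw [pow_add]
    linear_combination hk - I ^ k * I ^ (3 * l) * hl' + (-(I ^ k * T.e)) * I_pow_inv l
  refine ⟨⟨_, h1⟩, ?_⟩
  have h2 := (corner T w).1
  have h3 := (corner T w').1
  have h4 : (T.desc w').e = (T.desc w).e * I ^ (3 * (k + 3 * l)) := by
    rw [h1]
    linear_combination (-(T.desc w').e) * I_pow_inv (k + 3 * l)
  have h5 : InL (T.desc w).e ((T.desc w').P - T.P) := InL.trans (gi_I.pow _) h4 h3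
  have h6 := h2.sub h5
  rw [show (T.desc w).P - T.P - ((T.desc w').P - T.P) = (T.desc w).P - (T.desc w').P by ring] at h6
  exact h6

/-- compatibility with given exponents -/
theorem comp_child (s : St) (i k : Fin 5) (g g' : ℂ) (a b a' b' : ℕ) (hg' : g' ≠ 0)
    (hA : ∃ k : ℕ, s.A.e = I ^ k * g * (2 + I) ^ a * (2 - I) ^ b)
    (hB : ∃ l : ℕ, s.B.e = I ^ l * g * (2 - I) ^ a * (2 + I) ^ b)
    (hP : InL g (s.B.P - s.A.P)) (hgg : ∃ x, GI x ∧ g = g' * x)
    (hA' : g * (2 + I) ^ a * (2 - I) ^ b = g' * (2 + I) ^ a' * (2 - I) ^ b' * pc s.A.c)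
    (hB' : g * (2 - I) ^ a * (2 + I) ^ b = g' * (2 - I) ^ a' * (2 + I) ^ b' * pc s.B.c)
    (ha : a' = s.jn.toNat) (hb : b' = (-s.jn).toNat) : Comp (s.ch i k) := by
  obtain ⟨p, hp⟩ := hA
  obtain ⟨q, hq⟩ := hB
  obtain ⟨x, hx, hgx⟩ := hgg
  obtain ⟨r, hr⟩ := dir_pow s.A.c i
  obtain ⟨t, ht⟩ := dir_pow s.B.c k
  have hpA := pc_ne s.A.c
  have hpB := pc_ne s.B.c
  have e1 : s.A.e / pc s.A.c = I ^ p * g' * (2 + I) ^ a' * (2 - I) ^ b' := by
    rw [div_eq_iff hpA, hp]
    linear_combination I ^ p * hA'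
  have e2 : s.B.e / pc s.B.c = I ^ q * g' * (2 - I) ^ a' * (2 + I) ^ b' := by
    rw [div_eq_iff hpB, hq]
    linear_combination I ^ q * hB'
  refine ⟨g', hg', ⟨p + r, ?_⟩, ⟨q + t, ?_⟩, ?_⟩
  · simp only [St.ch, Tile.child]
    rw [e1, hr, pow_add, ← ha, ← hb]
    ring
  · simp only [St.ch, Tile.child]
    rw [e2, ht, pow_add, ← ha, ← hb]
    ring
  · have e3 : (s.ch i k).B.P - (s.ch i k).A.P = (s.B.P - s.A.P) +
        (g' * (I ^ q * (2 - I) ^ a' * (2 + I) ^ b' * off s.B.c k)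
          - g' * (I ^ p * (2 + I) ^ a' * (2 - I) ^ b' * off s.A.c i)) := by
      simp only [St.ch, Tile.child]
      rw [e1, e2]
      ring
    rw [e3]
    have h1 : InL g' (s.B.P - s.A.P) := InL.trans hx hgx hP
    refine h1.add (InL.sub (inL_mul _ ?_) (inL_mul _ ?_))
    · exact (((gi_I.pow _).mul (gi_sub.pow _)).mul (gi_add.pow _)).mul (gi_off _ _)
    · exact (((gi_I.pow _).mul (gi_add.pow _)).mul (gi_sub.pow _)).mul (gi_off _ _)

theorem gi_five : GI 5 := ⟨5, 0, by push_cast; ring⟩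

theorem five : (2 + I : ℂ) * (2 - I) = 5 := by
  linear_combination (-1 : ℂ) * Complex.I_sq

theorem part3 (s : St) (i k : Fin 5) (hs : Comp s) : Comp (s.ch i k) := by
  obtain ⟨g, hg, hA, hB, hP⟩ := hs
  have h1 := DlM.two_add_ne
  have h2 := DlM.two_sub_ne
  cases hAc : s.A.c <;> cases hBc : s.B.c
  · -- both false
    have hj : s.jn = s.j := by simp [St.jn, hAc, hBc]
    refine comp_child s i k g (g / (2 - I)) _ _ s.j.toNat (-s.j).toNat (div_ne_zero hg h2) hA hB hP
      ⟨2 - I, gi_sub, by field_simp⟩ ?_ ?_ (by rw [hj]) (by rw [hj])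
    · rw [hAc]; simp only [pc]; field_simp; simp
    · rw [hBc]; simp only [pc]; field_simp; simp
  · -- A false, B true
    have hj : s.jn = s.j + 1 := by simp [St.jn, hAc, hBc]
    rcases lt_or_ge s.j 0 with hneg | hpos
    · have e1 : s.j.toNat = 0 := by omega
      have e2 : s.jn.toNat = 0 := by omega
      have e3 : (-s.j).toNat = (-s.jn).toNat + 1 := by omega
      refine comp_child s i k g g _ _ s.jn.toNat (-s.jn).toNat hg hA hB hP
        ⟨1, gi_one, by ring⟩ ?_ ?_ rfl rfl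
      · rw [hAc, e1, e2, e3, pow_succ]; simp only [pc]; simp; ring
      · rw [hBc, e1, e2, e3, pow_succ]; simp only [pc]; simp; ring
    · have e1 : (-s.j).toNat = 0 := by omega
      have e2 : (-s.jn).toNat = 0 := by omega
      have e3 : s.jn.toNat = s.j.toNat + 1 := by omega
      refine comp_child s i k g (g / 5) _ _ s.jn.toNat (-s.jn).toNat (div_ne_zero hg (by norm_num)) hA hB hP
        ⟨5, gi_five, by field_simp⟩ ?_ ?_ rfl rfl
      · rw [hAc, e1, e2, e3, pow_succ]; simp only [pc]; simp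
        linear_combination (-(g / 5 * (2 + I) ^ s.j.toNat)) * five
      · rw [hBc, e1, e2, e3, pow_succ]; simp only [pc]; simp
        linear_combination (-(g / 5 * (2 - I) ^ s.j.toNat)) * five
  · -- A true, B false
    have hj : s.jn = s.j - 1 := by simp [St.jn, hAc, hBc]
    rcases lt_or_ge 0 s.j with hpos | hneg
    · have e1 : (-s.j).toNat = 0 := by omega
      have e2 : (-s.jn).toNat = 0 := by omega
      have e3 : s.j.toNat = s.jn.toNat + 1 := by omega
      refine comp_child s i k g g _ _ s.jn.toNat (-s.jn).toNat hg hA hB hP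
        ⟨1, gi_one, by ring⟩ ?_ ?_ rfl rfl
      · rw [hAc, e1, e2, e3, pow_succ]; simp only [pc]; simp; ring
      · rw [hBc, e1, e2, e3, pow_succ]; simp only [pc]; simp; ring
    · have e1 : s.j.toNat = 0 := by omega
      have e2 : s.jn.toNat = 0 := by omega
      have e3 : (-s.jn).toNat = (-s.j).toNat + 1 := by omega
      refine comp_child s i k g (g / 5) _ _ s.jn.toNat (-s.jn).toNat (div_ne_zero hg (by norm_num)) hA hB hP
        ⟨5, gi_five, by field_simp⟩ ?_ ?_ rfl rfl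
      · rw [hAc, e1, e2, e3, pow_succ]; simp only [pc]; simp
        linear_combination (-(g / 5 * (2 - I) ^ (-s.j).toNat)) * five
      · rw [hBc, e1, e2, e3, pow_succ]; simp only [pc]; simp
        linear_combination (-(g / 5 * (2 + I) ^ (-s.j).toNat)) * five
  · -- both true
    have hj : s.jn = s.j := by simp [St.jn, hAc, hBc]
    refine comp_child s i k g (g / (2 + I)) _ _ s.j.toNat (-s.j).toNat (div_ne_zero hg h1) hA hB hP
      ⟨2 + I, gi_add, by field_simp⟩ ?_ ?_ (by rw [hj]) (by rw [hj])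
    · rw [hAc]; simp only [pc]; field_simp; simp
    · rw [hBc]; simp only [pc]; field_simp; simp

theorem part4 (s : St) (hs : Comp s) : s.A.e ≠ 0 ∧ ‖s.A.e‖ = ‖s.B.e‖ ∧
    ∃ k : ℕ, s.A.e = I ^ k * vv ^ s.j * s.B.e := by
  obtain ⟨g, hg, ⟨k, hA⟩, ⟨l, hB⟩, hP⟩ := hs
  have h1 := DlM.two_add_ne
  have h2 := DlM.two_sub_ne
  have hAne : s.A.e ≠ 0 := by
    rw [hA]
    exact mul_ne_zero (mul_ne_zero (mul_ne_zero (pow_ne_zero _ Complex.I_ne_zero) hg)
      (pow_ne_zero _ h1)) (pow_ne_zero _ h2)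
  have key : s.A.e = I ^ (k + 3 * l) * vv ^ s.j * s.B.e := by
    have e1 : vv ^ s.j * ((2 - I) ^ s.j.toNat * (2 + I) ^ (-s.j).toNat) =
        (2 + I) ^ s.j.toNat * (2 - I) ^ (-s.j).toNat := by
      rcases le_total 0 s.j with h | h
      · obtain ⟨n, hn⟩ := Int.eq_ofNat_of_zero_le h
        have : (-s.j).toNat = 0 := by omega
        rw [this, hn]
        simp only [vv, Int.toNat_natCast, zpow_natCast, pow_zero, mul_one, div_pow]
        field_simp
      · obtain ⟨n, hn⟩ := Int.eq_ofNat_of_zero_le (by omega : 0 ≤ -s.j)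
        have : s.j.toNat = 0 := by omega
        have h3 : s.j = -(n : ℤ) := by omega
        rw [this, hn, h3]
        simp only [vv, Int.toNat_natCast, zpow_neg, zpow_natCast, pow_zero, one_mul, div_pow]
        field_simp
    rw [hA, hB, pow_add]
    linear_combination (-(I ^ k * g * ((2 + I) ^ s.j.toNat * (2 - I) ^ (-s.j).toNat))) * I_pow_inv l
      - (I ^ k * g * (I ^ (3 * l) * I ^ l)) * e1
  refine ⟨hAne, ?_, _, key⟩
  rw [key, norm_mul, norm_mul, DlM.norm_vv_zpow, DlM.norm_I_pow, one_mul, one_mul]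

end LatM

theorem specLat : SpecLat := ⟨LatM.part1, LatM.part2, LatM.part3, LatM.part4⟩

end Pool.Agent.Lib.MP_d437ed.Hit
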