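import Pool.Agent.Lib.MP_d437ed.Hit.R2

/-!
Module R of the hitting lemma: rigid pairs have near-coincident descendants.
-/

noncomputable section

open MeasureTheory Complex

namespace Pool.Agent.Lib.MP_d437ed.Hit

open R2M in
theorem specR (h1 : SpecR1) (h2 : SpecR2) (hC : SpecCan) (hS : SpecSec) (hB : SpecBas) : SpecR := by
  intro η hη
  obtain ⟨C2, i0, hR1⟩ := h1 η hη
  refine ⟨C2, i0, ?_⟩
  intro ε hε
  obtain ⟨k1, hk1, hR2⟩ := h2 (min ε (1 / 10)) (lt_min hε (by norm_num))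
  obtain ⟨L, p, hp, hpL, hL, hR⟩ := hR1 k1 hk1
  refine ⟨k1, L, p, hp, ?_, ?_⟩
  · have : (C2 + 1) * k1 = C2 * k1 + k1 := by ring
    omega
  intro k s hs hη' hpr
  obtain ⟨m, q, w, v, hm, hq, hw, hv, hnp, hnpd, hcA, hcB, hex, hall⟩ := hR k s hs hη' hpr
  have hmk : m * k1 ≤ C2 * k1 := Nat.mul_le_mul_right _ hm
  have hLL : (C2 + 1) * k1 = C2 * k1 + k1 := by ring
  obtain ⟨eA, sA, -⟩ := hB.2.1 s.A w hs.1
  obtain ⟨eB, sB, -⟩ := hB.2.1 s.B v (ok_B hs)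
  rw [mem_wd.1 hw] at sA
  rw [mem_wd.1 hv] at sB
  have hAB : ‖(s.A.desc w).e‖ = ‖(s.B.desc v).e‖ := by
    refine mul_right_cancel₀ (b := √5 ^ (i0 + m * k1)) (by positivity) ?_
    rw [sA, sB, hs.2.1]
  obtain ⟨w2, hw2, v2, hv2, hg, he⟩ := hR2 (L - (i0 + m * k1)) (s.A.desc w) (s.B.desc v)
    (by omega) hcA hcB eA hAB hex hall
  rw [← desc_append, ← desc_append] at hg he
  obtain ⟨cA', npA', -, -⟩ := (hC _ hcA eA).1 2 w2 hw2
  obtain ⟨cB', npB', -, -⟩ := (hC _ hcB eB).1 2 v2 hv2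
  rw [← desc_append] at cA' cB'
  obtain ⟨eA', sA', -⟩ := hB.2.1 s.A (w ++ w2) hs.1
  obtain ⟨eB', sB', -⟩ := hB.2.1 s.B (v ++ v2) (ok_B hs)
  have hlA : (w ++ w2).length = i0 + m * k1 + 2 := by
    rw [List.length_append, mem_wd.1 hw, (mem_wr.1 hw2).1]
  have hlB : (v ++ v2).length = i0 + m * k1 + 2 := by
    rw [List.length_append, mem_wd.1 hv, (mem_wr.1 hv2).1]
  rw [hlA] at sA'
  rw [hlB] at sB'
  have hAB' : ‖(s.A.desc (w ++ w2)).e‖ = ‖(s.B.desc (v ++ v2)).e‖ := by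
    refine mul_right_cancel₀ (b := √5 ^ (i0 + m * k1 + 2)) (by positivity) ?_
    rw [sA', sB', hs.2.1]
  have hposA : 0 < ‖(s.A.desc (w ++ w2)).e‖ := norm_pos_iff.2 eA'
  refine ⟨m, q, w ++ w2, v ++ v2, hm, hq, mem_wd.2 hlA, mem_wd.2 hlB, ?_, cA', cB', ?_, ?_, ?_, ?_⟩
  · rw [np_append, npA', hnp]
    ring
  · exact hg.trans (mul_le_mul_of_nonneg_right (min_le_left _ _) hposA.le)
  · rcases he with he | he
    · exact Or.inl (he.trans (mul_le_mul_of_nonneg_right (min_le_left _ _) hposA.le))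
    · exact Or.inr (he.trans (mul_le_mul_of_nonneg_right (min_le_left _ _) hposA.le))
  · rw [np_append, np_append, npA', npB']
    push_cast
    have : ((np s.B v : ℤ) + 2 - ((np s.A w : ℤ) + 2)) = (np s.B v : ℤ) - np s.A w := by ring
    rw [this]
    exact hnpd
  · -- overlap
    have b1 := ((hC _ cA' eA').1 0 [] nil_mem).2.2.1
    have b2 := ((hC _ cB' eB').1 0 [] nil_mem).2.2.1
    rw [desc_nil] at b1 b2
    have hin : gT (s.A.desc (w ++ w2)) ∈ (s.B.desc (v ++ v2)).set := by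
      apply b2
      rw [Metric.mem_ball, dist_eq_norm, ← hAB']
      refine lt_of_le_of_lt hg ?_
      have : min ε (1 / 10) ≤ 1 / 10 := min_le_right _ _
      nlinarith
    have h3 := hS _ _ _ eA' hAB' hin b1
    refine le_trans ?_ h3
    have h4 : ar s.A s.B ≤ ‖s.A.e‖ ^ 2 := by
      have h5 := (hB.2.2.2.2.2 s hs).2
      rw [St.eta, div_le_one (by have := norm_pos_iff.2 hs.1; positivity)] at h5
      exact h5
    have h6 : ‖s.A.e‖ ^ 2 = ‖(s.A.desc (w ++ w2)).e‖ ^ 2 * 5 ^ (i0 + m * k1 + 2) := by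
      rw [← sA', mul_pow, ← pow_mul, mul_comm (i0 + m * k1 + 2) 2, pow_mul, Real.sq_sqrt (by norm_num)]
    have h7 : (5 : ℝ) ^ (i0 + m * k1 + 2) ≤ 5 ^ L := pow_le_pow_right₀ (by norm_num) (by omega)
    have h8 : (0 : ℝ) < 5 ^ L := by positivity
    calc p * ar s.A s.B ≤ p * ‖s.A.e‖ ^ 2 := mul_le_mul_of_nonneg_left h4 hp.le
      _ ≤ (13 / 100) ^ 2 / 5 / 5 ^ L * (‖(s.A.desc (w ++ w2)).e‖ ^ 2 * 5 ^ (i0 + m * k1 + 2)) := by
          rw [h6]
          exact mul_le_mul_of_nonneg_right hpL (by positivity)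
      _ ≤ (13 / 100) ^ 2 / 5 / 5 ^ L * (‖(s.A.desc (w ++ w2)).e‖ ^ 2 * 5 ^ L) := by
          refine mul_le_mul_of_nonneg_left (mul_le_mul_of_nonneg_left h7 (by positivity)) (by positivity)
      _ = (13 / 100) ^ 2 / 5 * ‖(s.A.desc (w ++ w2)).e‖ ^ 2 := by
          field_simp

end Pool.Agent.Lib.MP_d437ed.Hit
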