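import Pool.Agent.Lib.MP_d437ed.Hit.Basics

/-!
# R1: a rigid pair has (+)-descendants whose always-right points agree
-/

noncomputable section

open MeasureTheory Complex

namespace Pool.Agent.Lib.MP_d437ed.Hit

namespace R1M

theorem mem_wr {k : ℕ} {u : List (Fin 5)} :
    u ∈ wr k ↔ u.length = k ∧ ∀ i ∈ u, i = 3 ∨ i = 4 := by
  constructor
  · intro h
    obtain ⟨v, -, rfl⟩ := Finset.mem_image.1 h
    refine ⟨by simp, fun i hi => ?_⟩
    rw [List.mem_ofFn] at hi
    obtain ⟨j, rfl⟩ := hi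
    cases v j <;> simp
  · rintro ⟨rfl, h⟩
    refine Finset.mem_image.2 ⟨fun i => decide (u[i] = 3), Finset.mem_univ _, ?_⟩
    apply List.ext_getElem
    · simp
    · intro i h1 h2
      rw [List.getElem_ofFn]
      rcases h u[i] (List.getElem_mem h2) with h3 | h3
      · simp [h3]
      · simp [h3]

theorem wr_append {a b : ℕ} {u v : List (Fin 5)} (hu : u ∈ wr a) (hv : v ∈ wr b) :
    u ++ v ∈ wr (a + b) := by
  rw [mem_wr] at *
  refine ⟨by rw [List.length_append, hu.1, hv.1], fun i hi => ?_⟩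
  rcases List.mem_append.1 hi with h | h
  · exact hu.2 i h
  · exact hv.2 i h

theorem wr_take {k : ℕ} {u : List (Fin 5)} (hu : u ∈ wr k) {a : ℕ} (ha : a ≤ k) :
    u.take a ∈ wr a := by
  rw [mem_wr] at *
  exact ⟨by rw [List.length_take, hu.1]; omega, fun i hi => hu.2 i (List.mem_of_mem_take hi)⟩

theorem wr_drop {k : ℕ} {u : List (Fin 5)} (hu : u ∈ wr k) (a : ℕ) :
    u.drop a ∈ wr (k - a) := by
  rw [mem_wr] at *
  exact ⟨by rw [List.length_drop, hu.1], fun i hi => hu.2 i (List.mem_of_mem_drop hi)⟩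

theorem wr_wd {k : ℕ} {u : List (Fin 5)} (hu : u ∈ wr k) : u ∈ wd k := by
  rw [mem_wd]; exact (mem_wr.1 hu).1

theorem chi_true {i : Fin 5} (h : chi true i = true) : i = 3 ∨ i = 4 := by
  revert h
  fin_cases i <;> simp [chi, cM]

/-- if all proper ancestors are (+)-tiles then the address consists of letters 3, 4 -/
theorem np_full (x : List (Fin 5)) (i : Fin 5) (T : Tile) (h : x.length + 1 ≤ np T (x ++ [i])) :
    T.c = true ∧ ∀ j ∈ x, j = 3 ∨ j = 4 := by
  induction x generalizing T with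
  | nil =>
    refine ⟨?_, by simp⟩
    by_contra hc
    simp [np_cons, hc] at h
  | cons j x ih =>
    rw [List.cons_append, np_cons, List.length_cons] at h
    have h1 := np_le (T.child j) (x ++ [i])
    rw [List.length_append, List.length_singleton] at h1
    have hc : T.c = true := by
      by_contra hc
      simp only [hc] at h
      simp at h
      omega
    rw [if_pos hc] at h
    obtain ⟨h2, h3⟩ := ih (T.child j) (by omega)
    refine ⟨hc, fun a ha => ?_⟩
    rcases List.mem_cons.1 ha with rfl | ha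
    · have h4 : chi T.c a = true := h2
      rw [hc] at h4
      exact chi_true h4
    · exact h3 a ha

/-- a ball around a point of a tile meets the tile in positive measure -/
theorem pos_ball (hG : SpecGeo) {T : Tile} (hT : T.e ≠ 0) {z : ℂ} (hz : z ∈ T.set) {r : ℝ}
    (hr : 0 < r) : volume (T.set ∩ Metric.ball z r) ≠ 0 := by
  obtain ⟨-, hconv, -, hvol, hdiam⟩ := hG T hT
  have he : 0 < ‖T.e‖ := norm_pos_iff.mpr hT
  have h5 : (0 : ℝ) < √5 := by positivity
  set D : ℝ := √5 * ‖T.e‖ with hD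
  have hD0 : 0 < D := mul_pos h5 he
  set t : ℝ := min 1 (r / (2 * D)) with ht
  have ht0 : 0 < t := lt_min one_pos (by positivity)
  have ht1 : t ≤ 1 := min_le_left _ _
  have htr : t * D < r := by
    have : t ≤ r / (2 * D) := min_le_right _ _
    calc t * D ≤ r / (2 * D) * D := mul_le_mul_of_nonneg_right this hD0.le
      _ = r / 2 := by field_simp
      _ < r := by linarith
  have hsub : (AffineMap.homothety z t) '' T.set ⊆ T.set ∩ Metric.ball z r := by
    rintro _ ⟨y, hy, rfl⟩
    have hexp : AffineMap.homothety z t y = z + t • (y - z) := by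
      rw [AffineMap.homothety_apply, vsub_eq_sub, vadd_eq_add, add_comm]
    rw [hexp]
    constructor
    · have := hconv hz hy (a := 1 - t) (b := t) (by linarith) ht0.le (by ring)
      have h2 : (1 - t) • z + t • y = z + t • (y - z) := by
        rw [sub_smul, one_smul, smul_sub]; abel
      rwa [h2] at this
    · rw [Metric.mem_ball, dist_eq_norm, add_sub_cancel_left, norm_smul, Real.norm_eq_abs,
        abs_of_pos ht0]
      exact lt_of_le_of_lt (mul_le_mul_of_nonneg_left (hdiam y hy z hz) ht0.le) htr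
  intro h0
  have h1 : volume ((AffineMap.homothety z t) '' T.set) = 0 := measure_mono_null hsub h0
  rw [Measure.addHaar_image_homothety, hvol, mul_eq_zero] at h1
  rcases h1 with h1 | h1
  · rw [ENNReal.ofReal_eq_zero] at h1
    have : 0 < |t ^ (Module.finrank ℝ ℂ)| := by positivity
    linarith
  · rw [ENNReal.ofReal_eq_zero] at h1
    have : 0 < ‖T.e‖ ^ 2 := by positivity
    linarith

/-- every point of a tile lies in some descendant of depth `t` -/
theorem cover (hG : SpecGeo) (hB : SpecBas) {T : Tile} (hT : T.e ≠ 0) {z : ℂ} (hz : z ∈ T.set)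
    (t : ℕ) : ∃ x ∈ wd t, z ∈ (T.desc x).set := by
  by_contra hcon
  push Not at hcon
  have hop : IsOpen (⋂ x ∈ wd t, ((T.desc x).set)ᶜ) :=
    isOpen_biInter_finset fun x _ => (hG _ (hB.2.1 T x hT).1).2.2.1.isOpen_compl
  have hmem : z ∈ ⋂ x ∈ wd t, ((T.desc x).set)ᶜ := by
    simp only [Set.mem_iInter]
    exact hcon
  obtain ⟨r, hr, hball⟩ := Metric.isOpen_iff.1 hop z hmem
  have h1 := hB.1 T t (Metric.ball z r) hT Metric.isOpen_ball.measurableSet
  apply pos_ball hG hT hz hr
  rw [h1]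
  refine Finset.sum_eq_zero fun x hx => ?_
  have : (T.desc x).set ∩ Metric.ball z r = ∅ := by
    rw [Set.eq_empty_iff_forall_notMem]
    rintro y ⟨hy1, hy2⟩
    have := hball hy2
    simp only [Set.mem_iInter] at this
    exact this x hx hy1
  rw [this, measure_empty]

theorem desc_sub (hB : SpecBas) {T : Tile} (hT : T.e ≠ 0) (v x : List (Fin 5)) :
    (T.desc (v ++ x)).set ⊆ (T.desc v).set := by
  rw [desc_append]
  exact (hB.2.1 (T.desc v) x (hB.2.1 T v hT).1).2.2

end R1M

theorem specR1 (hG : SpecGeo) (hB : SpecBas) (hM : SpecMart) (hC : SpecCan) (hS : SpecSec)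
    (hI : SpecInn) : SpecR1 := by
  intro η hη
  obtain ⟨C0, C1, hC0, hC1, hMart⟩ := hM
  obtain ⟨i0, hInn⟩ := hI η hη
  set η1 : ℝ := (13 / 100) ^ 2 / 5 with hη1
  have hη1p : 0 < η1 := by rw [hη1]; norm_num
  obtain ⟨N3, hN3⟩ := exists_nat_ge (1 + 2 * C0 + C1 * Real.log (1 / η1) + C1 * Real.log (1 / η))
  refine ⟨2 * N3, i0, fun k1 hk1 => ?_⟩
  set C2 : ℕ := 2 * N3 with hC2
  set L : ℕ := i0 + (C2 + 1) * k1 with hL
  refine ⟨L, η1 / 5 ^ L, by positivity, le_rfl, le_rfl, fun k s hs hse hpr => ?_⟩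
  have hAe : s.A.e ≠ 0 := hs.1
  have hBe : s.B.e ≠ 0 := ok_B hs
  obtain ⟨w0, hw0, hw0c, hw0s⟩ := hInn s hs hse
  have hw0l : w0.length = i0 := mem_wd.1 hw0
  set T : Tile := s.A.desc w0 with hT
  have hTe : T.e ≠ 0 := (hB.2.1 s.A w0 hAe).1
  -- the always-right words: chirality and `np`
  have hcan := hC T hw0c hTe
  -- main estimate: valid cells
  have key : ∀ (u v : List (Fin 5)) (l : ℕ), u ∈ wr (L - i0) → i0 ≤ l → l ≤ L → v ∈ wd l →
      gT (T.desc u) ∈ (s.B.desc v).set →
      |((np s.B v : ℤ) : ℝ) - ((np s.A w0 + (l - i0) : ℕ) : ℝ)| < N3 := by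
    intro u v l hu hl1 hl2 hv hz
    have hu1 : u.take (l - i0) ∈ wr (l - i0) := R1M.wr_take hu (by omega)
    have hu2 : u.drop (l - i0) ∈ wr (L - i0 - (l - i0)) := R1M.wr_drop hu _
    set W : List (Fin 5) := w0 ++ u.take (l - i0) with hW
    have hWd : W ∈ wd l := by
      have := append_mem_wd hw0 (R1M.wr_wd hu1)
      rwa [Nat.add_sub_of_le hl1] at this
    obtain ⟨hc1, hnp1, -, -⟩ := hcan.1 (l - i0) _ hu1
    have hWnp : np s.A W = np s.A w0 + (l - i0) := by
      rw [hW, np_append, hnp1]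
    have hWT : s.A.desc W = T.desc (u.take (l - i0)) := by rw [hW, desc_append]
    have hWe : (s.A.desc W).e ≠ 0 := (hB.2.1 s.A W hAe).1
    have hball : Metric.ball (gT (T.desc u)) (13 / 100 * ‖(s.A.desc W).e‖) ⊆ (s.A.desc W).set := by
      have h1 := (hC (s.A.desc W) (by rw [hWT]; exact hc1) hWe).1 _ _ hu2
      have h2 : (s.A.desc W).desc (u.drop (l - i0)) = T.desc u := by
        rw [hWT, ← desc_append, List.take_append_drop]
      rw [h2] at h1
      exact h1.2.2.1
    have hlen : W.length = v.length := by rw [mem_wd.1 hWd, mem_wd.1 hv]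
    have hn1 := (hB.2.1 s.A W hAe).2.1
    have hn2 := (hB.2.1 s.B v hBe).2.1
    rw [mem_wd.1 hWd] at hn1
    rw [mem_wd.1 hv] at hn2
    have h5 : (0 : ℝ) < √5 ^ l := by positivity
    have hnorm : ‖(s.A.desc W).e‖ = ‖(s.B.desc v).e‖ :=
      mul_right_cancel₀ h5.ne' (by rw [hn1, hn2, hs.2.1])
    have har := hS (s.A.desc W) (s.B.desc v) (gT (T.desc u)) hWe hnorm hz hball
    have hWp : 0 < ‖(s.A.desc W).e‖ := norm_pos_iff.mpr hWe
    have harp : 0 < ar (s.A.desc W) (s.B.desc v) := lt_of_lt_of_le (by positivity) har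
    have hok : (s.cell W v).ok := ok_desc hB hs hlen harp _
    have heta : η1 ≤ (s.cell W v).eta := by
      have : (s.cell W v).eta = ar (s.A.desc W) (s.B.desc v) / ‖(s.A.desc W).e‖ ^ 2 := rfl
      rw [this, le_div_iff₀ (by positivity)]
      exact har
    -- the cell has probability at least `η1 / 5 ^ L`
    have hsq : ‖(s.A.desc W).e‖ ^ 2 * 5 ^ l = ‖s.A.e‖ ^ 2 := by
      have : (√5 ^ l) ^ 2 = (5 : ℝ) ^ l := by
        rw [← pow_mul, mul_comm, pow_mul, Real.sq_sqrt (by norm_num)]
      rw [← hn1, mul_pow, this]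
    have hAp : 0 < ‖s.A.e‖ := norm_pos_iff.mpr hAe
    have harAB : ar s.A s.B ≤ ‖s.A.e‖ ^ 2 := by
      have := (hB.2.2.2.2.2 s hs).2
      have h1 : s.eta = ar s.A s.B / ‖s.A.e‖ ^ 2 := rfl
      rw [h1, div_le_one (by positivity)] at this
      exact this
    have hratio : η1 / 5 ^ L ≤ ar (s.A.desc W) (s.B.desc v) / ar s.A s.B := by
      rw [div_le_div_iff₀ (by positivity) hs.2.2]
      calc η1 * ar s.A s.B ≤ η1 * ‖s.A.e‖ ^ 2 := mul_le_mul_of_nonneg_left harAB hη1p.le
        _ = (η1 * ‖(s.A.desc W).e‖ ^ 2) * 5 ^ l := by rw [← hsq]; ring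
        _ ≤ ar (s.A.desc W) (s.B.desc v) * 5 ^ l := mul_le_mul_of_nonneg_right har (by positivity)
        _ ≤ ar (s.A.desc W) (s.B.desc v) * 5 ^ L :=
            mul_le_mul_of_nonneg_left (pow_le_pow_right₀ (by norm_num) hl2) harp.le
    have hnG : ¬ GM (Mh (k + L) s) 1 (k + (L - l)) (s.cell W v) := by
      intro hGM
      have h1 := cell_pr_le hB (GM (Mh (k + L) s) 1) k l (L - l) hs hWd hv hGM
      rw [Nat.add_sub_of_le hl2] at h1
      exact absurd (lt_of_lt_of_le hpr hratio) (not_lt.mpr h1)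
    have hnG' : |Mh (k + (L - l)) (s.cell W v) - Mh (k + L) s| < 1 := not_le.mp hnG
    have hm1 := hMart (k + (L - l)) (s.cell W v) hok
    have hm2 := hMart (k + L) s hs
    have hl1' : Real.log (1 / (s.cell W v).eta) ≤ Real.log (1 / η1) := by
      apply Real.log_le_log
      · have := lt_of_lt_of_le hη1p heta
        positivity
      · exact one_div_le_one_div_of_le hη1p heta
    have hl2' : Real.log (1 / s.eta) ≤ Real.log (1 / η) := by
      apply Real.log_le_log
      · have := lt_of_lt_of_le hη hse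
        positivity
      · exact one_div_le_one_div_of_le hη hse
    have hm1' := hm1.trans (add_le_add le_rfl (mul_le_mul_of_nonneg_left hl1' hC1.le))
    have hm2' := hm2.trans (add_le_add le_rfl (mul_le_mul_of_nonneg_left hl2' hC1.le))
    have hj : ((s.cell W v).j : ℝ) = s.j + np s.B v - np s.A W := by
      simp [St.cell]
    rw [hj, hWnp] at hm1'
    rw [abs_lt] at hnG' ⊢
    rw [abs_le] at hm1' hm2'
    push_cast at hm1' ⊢
    constructor <;> linarith [hm1'.1, hm1'.2, hm2'.1, hm2'.2, hnG'.1, hnG'.2]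
  -- the counting function
  set F : List (Fin 5) → ℤ := fun v => (v.length : ℤ) - i0 + np s.B (v.take i0) - np s.B v with hF
  have hFle : ∀ (u v : List (Fin 5)) (l : ℕ), u ∈ wr (L - i0) → i0 ≤ l → l ≤ L → v ∈ wd l →
      gT (T.desc u) ∈ (s.B.desc v).set → F v ≤ C2 ∧ |(np s.B v : ℤ) - (np s.A w0 + (l - i0) : ℕ)| ≤ C2 := by
    intro u v l hu hl1 hl2 hv hz
    have h1 := key u v l hu hl1 hl2 hv hz
    have hvl := mem_wd.1 hv
    have h2 := key u (v.take i0) i0 hu le_rfl (hl1.trans hl2)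
      (mem_wd.2 (by rw [List.length_take]; omega)) (by
        have := R1M.desc_sub hB hBe (v.take i0) (v.drop i0)
        rw [List.take_append_drop] at this
        exact this hz)
    have h1' : |(np s.B v : ℤ) - (np s.A w0 + (l - i0) : ℕ)| < N3 := by exact_mod_cast h1
    have h2' : |(np s.B (v.take i0) : ℤ) - (np s.A w0 + (i0 - i0) : ℕ)| < N3 := by
      exact_mod_cast h2
    have hvl' : (v.length : ℤ) = l := by exact_mod_cast hvl
    have hC2' : (C2 : ℤ) = 2 * N3 := by rw [hC2]; push_cast; ring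
    constructor
    · simp only [hF]
      rw [abs_lt] at h1' h2'
      omega
    · rw [abs_lt] at h1'
      rw [abs_le]
      omega
  -- extensions
  have hext : ∀ (u v : List (Fin 5)), gT (T.desc u) ∈ (s.B.desc v).set → ∀ t, ∃ x ∈ wd t,
      gT (T.desc u) ∈ (s.B.desc (v ++ x)).set := by
    intro u v hz t
    obtain ⟨x, hx, hx'⟩ := R1M.cover hG hB (hB.2.1 s.B v hBe).1 hz t
    exact ⟨x, hx, by rw [desc_append]; exact hx'⟩
  have hFapp : ∀ (v x : List (Fin 5)), i0 ≤ v.length →
      F (v ++ x) = F v + x.length - np (s.B.desc v) x := by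
    intro v x hv
    simp only [hF]
    rw [np_append, List.take_append_of_le_length hv, List.length_append]
    push_cast
    ring
  -- pigeonhole
  have hpig : ∃ m ≤ C2, ∃ u0 v0 : List (Fin 5), u0 ∈ wr (L - i0) ∧ v0 ∈ wd (i0 + m * k1) ∧
      gT (T.desc u0) ∈ (s.B.desc v0).set ∧
      ∀ u v : List (Fin 5), u ∈ wr (L - i0) → v ∈ wd (i0 + (m + 1) * k1) →
        gT (T.desc u) ∈ (s.B.desc v).set → F v ≤ F v0 := by
    by_contra hcon
    push Not at hcon
    have hind : ∀ m ≤ C2 + 1, ∃ u v : List (Fin 5), u ∈ wr (L - i0) ∧ v ∈ wd (i0 + m * k1) ∧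
        gT (T.desc u) ∈ (s.B.desc v).set ∧ (m : ℤ) ≤ F v := by
      intro m
      induction m with
      | zero =>
        intro _
        have hrep : List.replicate (L - i0) (3 : Fin 5) ∈ wr (L - i0) :=
          R1M.mem_wr.2 ⟨by simp, fun i hi => Or.inl (List.eq_of_mem_replicate hi)⟩
        set u := List.replicate (L - i0) (3 : Fin 5)
        have hzT : gT (T.desc u) ∈ T.set := by
          have h1 := (hcan.1 _ u hrep).2.2.1
          exact h1 (Metric.mem_ball_self (by
            have := norm_pos_iff.mpr hTe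
            positivity))
        have hzB : gT (T.desc u) ∈ (s.B.desc []).set := hw0s hzT
        obtain ⟨x, hx, hx'⟩ := hext u [] hzB i0
        refine ⟨u, [] ++ x, hrep, by simpa using hx, hx', ?_⟩
        have hxl := mem_wd.1 hx
        simp only [hF, List.nil_append]
        rw [List.take_of_length_le hxl.le, hxl]
        simp
      | succ m ih =>
        intro hm
        obtain ⟨u, v, hu, hv, hz, hFv⟩ := ih (by omega)
        obtain ⟨u', v', hu', hv', hz', hF'⟩ := hcon m (by omega) u v hu hv hz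
        refine ⟨u', v', hu', hv', hz', ?_⟩
        push_cast
        omega
    obtain ⟨u, v, hu, hv, hz, hFv⟩ := hind (C2 + 1) le_rfl
    have := (hFle u v _ hu (Nat.le_add_right _ _) le_rfl hv hz).1
    push_cast at hFv
    omega
  obtain ⟨m, hm, u0, v0, hu0, hv0, hz0, hmax⟩ := hpig
  have hmk : m * k1 ≤ L - i0 := by
    rw [hL, Nat.add_sub_cancel_left]
    exact Nat.mul_le_mul_right _ (by omega)
  have hLm : L - (i0 + m * k1) = L - i0 - m * k1 := by omega
  have hlm1 : i0 + m * k1 ≤ L := by omega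
  have hv0l : v0.length = i0 + m * k1 := mem_wd.1 hv0
  have hut := R1M.wr_take hu0 hmk
  have hud := R1M.wr_drop hu0 (m * k1)
  obtain ⟨hc1, hnp1, -, -⟩ := hcan.1 (m * k1) _ hut
  -- rigidity of the extensions
  have hrig : ∀ u ∈ wr (L - i0), gT (T.desc u) ∈ (s.B.desc v0).set →
      ∃ (x : List (Fin 5)) (i : Fin 5), x.length + 1 = k1 ∧
        gT (T.desc u) ∈ (s.B.desc (v0 ++ (x ++ [i]))).set ∧
        (s.B.desc v0).c = true ∧ ∀ j ∈ x, j = 3 ∨ j = 4 := by
    intro u hu hz
    obtain ⟨x, hx, hx'⟩ := hext u v0 hz k1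
    have hxl := mem_wd.1 hx
    have hv1 : v0 ++ x ∈ wd (i0 + (m + 1) * k1) := by
      have := append_mem_wd hv0 hx
      have h1 : i0 + m * k1 + k1 = i0 + (m + 1) * k1 := by ring
      rwa [h1] at this
    have h1 := hmax u (v0 ++ x) hu hv1 hx'
    rw [hFapp v0 x (by omega), hxl] at h1
    have hxne : x ≠ [] := by
      rintro rfl
      simp at hxl
      omega
    have hdl := List.dropLast_append_getLast hxne
    have hlen : x.dropLast.length + 1 = k1 := by
      rw [List.length_dropLast, hxl]; omega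
    rw [← hdl] at hx' h1
    obtain ⟨h2, h3⟩ := R1M.np_full x.dropLast (x.getLast hxne) (s.B.desc v0) (by
      rw [hlen]; omega)
    exact ⟨x.dropLast, x.getLast hxne, hlen, hx', h2, h3⟩
  have hdesc : ∀ u, (s.A.desc (w0 ++ u0.take (m * k1))).desc u = T.desc (u0.take (m * k1) ++ u) := by
    intro u
    rw [desc_append, desc_append]
  have hnpA : np s.A (w0 ++ u0.take (m * k1)) = np s.A w0 + m * k1 := by
    rw [np_append, hnp1]
  refine ⟨m, np s.A w0, w0 ++ u0.take (m * k1), v0, hm, ?_, append_mem_wd hw0 (R1M.wr_wd hut),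
    hv0, hnpA, ?_, ?_, ?_, ?_, ?_⟩
  · have := np_le s.A w0
    omega
  · have := (hFle u0 v0 _ hu0 (Nat.le_add_right _ _) hlm1 hv0 hz0).2
    rw [Nat.add_sub_cancel_left] at this
    rw [hnpA]
    exact this
  · rw [desc_append]; exact hc1
  · obtain ⟨x, i, -, -, h, -⟩ := hrig u0 hu0 hz0
    exact h
  · refine ⟨u0.drop (m * k1), by rw [hLm]; exact hud, ?_⟩
    rw [hdesc, List.take_append_drop]
    exact hz0
  · intro u hu hz
    rw [hdesc] at hz ⊢
    have hU : u0.take (m * k1) ++ u ∈ wr (L - i0) := by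
      have := R1M.wr_append hut hu
      have h1 : m * k1 + (L - (i0 + m * k1)) = L - i0 := by omega
      rwa [h1] at this
    obtain ⟨x, i, hx1, hx2, -, hx3⟩ := hrig _ hU hz
    refine ⟨x, R1M.mem_wr.2 ⟨by omega, hx3⟩, ?_⟩
    rw [← desc_append]
    rw [← List.append_assoc] at hx2
    exact R1M.desc_sub hB hBe (v0 ++ x) [i] hx2

end Pool.Agent.Lib.MP_d437ed.Hit
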