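import Pool.Agent.Lib.MP_d437ed.Hit.Basics

/-!
Module R2 of the hitting lemma: two (+)-tiles whose always-right points coincide up to depth `k1 - 1`
have near-coincident always-right descendants of depth 2.
-/

noncomputable section

open MeasureTheory Complex

namespace Pool.Agent.Lib.MP_d437ed.Hit.R2M

theorem mem_wr {k : ℕ} {u : List (Fin 5)} : u ∈ wr k ↔ u.length = k ∧ ∀ x ∈ u, x = 3 ∨ x = 4 := by
  constructor
  · intro h
    obtain ⟨v, -, rfl⟩ := Finset.mem_image.1 h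
    refine ⟨by simp, ?_⟩
    intro x hx
    rw [List.mem_ofFn] at hx
    obtain ⟨i, rfl⟩ := hx
    split_ifs
    · left; rfl
    · right; rfl
  · rintro ⟨h1, h2⟩
    subst h1
    refine Finset.mem_image.2 ⟨fun i => decide (u[i] = 3), Finset.mem_univ _, ?_⟩
    apply List.ext_getElem
    · simp
    · intro i h h'
      rw [List.getElem_ofFn]
      rcases h2 u[i] (List.getElem_mem h') with h3 | h3
      · simp [h3]
      · simp [h3]

theorem wr_sub_wd {k : ℕ} {u : List (Fin 5)} (h : u ∈ wr k) : u ∈ wd k := mem_wd.2 (mem_wr.1 h).1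

theorem nil_mem : ([] : List (Fin 5)) ∈ wr 0 := mem_wr.2 ⟨rfl, by simp⟩

theorem append_mem {a b : ℕ} {u v : List (Fin 5)} (hu : u ∈ wr a) (hv : v ∈ wr b) :
    u ++ v ∈ wr (a + b) := by
  rw [mem_wr] at *
  refine ⟨by rw [List.length_append, hu.1, hv.1], ?_⟩
  intro x hx
  rcases List.mem_append.1 hx with h | h
  · exact hu.2 x h
  · exact hv.2 x h

theorem split_mem {a b : ℕ} {u : List (Fin 5)} (hu : u ∈ wr (a + b)) :
    ∃ v ∈ wr a, ∃ v' ∈ wr b, u = v ++ v' := by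
  rw [mem_wr] at hu
  refine ⟨u.take a, mem_wr.2 ⟨?_, fun x hx => hu.2 x (List.mem_of_mem_take hx)⟩, u.drop a,
    mem_wr.2 ⟨?_, fun x hx => hu.2 x (List.mem_of_mem_drop hx)⟩, (List.take_append_drop a u).symm⟩
  · rw [List.length_take, hu.1]; omega
  · rw [List.length_drop, hu.1]; omega

theorem three_mem : ([3] : List (Fin 5)) ∈ wr 1 := mem_wr.2 ⟨rfl, by simp⟩
theorem four_mem : ([4] : List (Fin 5)) ∈ wr 1 := mem_wr.2 ⟨rfl, by simp⟩

theorem wr_one {u : List (Fin 5)} (h : u ∈ wr 1) : u = [3] ∨ u = [4] := by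
  rw [mem_wr] at h
  obtain ⟨h1, h2⟩ := h
  match u, h1 with
  | [a], _ =>
    rcases h2 a (by simp) with h | h
    · left; rw [h]
    · right; rw [h]

theorem exists_mem (k : ℕ) : ∃ u, u ∈ wr k :=
  ⟨List.replicate k 3, mem_wr.2 ⟨by simp, fun x hx => Or.inl (List.eq_of_mem_replicate hx)⟩⟩

/-- two balls in almost disjoint sets -/
theorem two_balls {S S' : Set ℂ} {q q' : ℂ} {ρ : ℝ} (h : Metric.ball q ρ ⊆ S)
    (h' : Metric.ball q' ρ ⊆ S') (h0 : volume (S ∩ S') = 0) : 2 * ρ ≤ ‖q - q'‖ := by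
  by_contra hlt
  push Not at hlt
  have ho : IsOpen (Metric.ball q ρ ∩ Metric.ball q' ρ) := Metric.isOpen_ball.inter Metric.isOpen_ball
  have hn : (Metric.ball q ρ ∩ Metric.ball q' ρ).Nonempty := by
    refine ⟨(q + q') / 2, ?_, ?_⟩
    · rw [Metric.mem_ball, dist_eq_norm]
      have : (q + q') / 2 - q = -((q - q') / 2) := by ring
      rw [this, norm_neg, norm_div, Complex.norm_ofNat]
      linarith
    · rw [Metric.mem_ball, dist_eq_norm]
      have : (q + q') / 2 - q' = ((q - q') / 2) := by ring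
      rw [this, norm_div, Complex.norm_ofNat]
      linarith
  have hpos := ho.measure_pos volume hn
  have hle : volume (Metric.ball q ρ ∩ Metric.ball q' ρ) ≤ volume (S ∩ S') :=
    measure_mono (Set.inter_subset_inter h h')
  rw [h0] at hle
  exact absurd (lt_of_lt_of_le hpos hle) (lt_irrefl _)

section
variable (hC : SpecCan) (hG : SpecGeo) (hB : SpecBas)
include hC hG hB

/-- a point in an always-right descendant of depth `m` is close to its centre point -/
theorem near_g {T : Tile} (hc : T.c = true) (hT : T.e ≠ 0) {m : ℕ} {u : List (Fin 5)} (hu : u ∈ wr m)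
    {z : ℂ} (hz : z ∈ (T.desc u).set) : ‖z - gT (T.desc u)‖ * √5 ^ m ≤ √5 * ‖T.e‖ := by
  obtain ⟨h1, h2, -⟩ := hB.2.1 T u hT
  rw [(mem_wr.1 hu).1] at h2
  have h3 := (hG (T.desc u) h1).2.2.2.2
  have h4 : gT (T.desc u) ∈ (T.desc u).set := by
    have h5 := ((hC (T.desc u) ((hC T hc hT).1 m u hu).1 h1).1 0 [] nil_mem).2.2.1
    rw [desc_nil] at h5
    exact h5 (Metric.mem_ball_self (by
      have := norm_pos_iff.2 h1
      positivity))
  have h6 := h3 z hz _ h4
  have h7 : (0 : ℝ) < √5 ^ m := by positivity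
  calc ‖z - gT (T.desc u)‖ * √5 ^ m ≤ (√5 * ‖(T.desc u).e‖) * √5 ^ m :=
        mul_le_mul_of_nonneg_right h6 h7.le
    _ = √5 * (‖(T.desc u).e‖ * √5 ^ m) := by ring
    _ = √5 * ‖T.e‖ := by rw [h2]

/-- `near_g` for `m ≥ 6` -/
theorem near_g' {T : Tile} (hc : T.c = true) (hT : T.e ≠ 0) {n : ℕ} {u : List (Fin 5)} (hu : u ∈ wr (n + 6))
    {z : ℂ} (hz : z ∈ (T.desc u).set) : ‖z - gT (T.desc u)‖ ≤ 18 / 1000 * ‖T.e‖ := by
  have h := near_g hC hG hB hc hT hu hz
  have h5 : (223 / 100 : ℝ) < √5 := by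
    rw [Real.lt_sqrt (by norm_num)]; norm_num
  have h6 : √5 * √5 = 5 := Real.mul_self_sqrt (by norm_num)
  have h7 : (1 : ℝ) ≤ √5 ^ n := one_le_pow₀ (by linarith)
  have h8 : √5 ^ (n + 6) = √5 ^ n * (25 * √5 * √5) := by
    rw [pow_add]
    have : √5 ^ 6 = 25 * √5 * √5 := by
      calc √5 ^ 6 = (√5 * √5) * (√5 * √5) * (√5 * √5) := by ring
        _ = 25 * √5 * √5 := by rw [h6]; nlinarith
    rw [this]
  rw [h8] at h
  have h0 : 0 ≤ ‖z - gT (T.desc u)‖ := norm_nonneg _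
  have h9 : ‖z - gT (T.desc u)‖ * (25 * √5 * √5) ≤ ‖z - gT (T.desc u)‖ * (√5 ^ n * (25 * √5 * √5)) := by
    refine mul_le_mul_of_nonneg_left ?_ h0
    have : (0 : ℝ) ≤ 25 * √5 * √5 := by positivity
    nlinarith
  have h10 : (‖z - gT (T.desc u)‖ * (25 * √5)) * √5 ≤ ‖T.e‖ * √5 := by nlinarith
  have h11 : ‖z - gT (T.desc u)‖ * (25 * √5) ≤ ‖T.e‖ := le_of_mul_le_mul_right h10 (by positivity)
  nlinarith

/-- all always-right points of `A` are in one of the `U.desc v` -/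
theorem one_label {A U : Tile} {j n D : ℕ} (hA : A.c = true) (hU : U.c = true) (hAe : A.e ≠ 0)
    (hUe : U.e ≠ 0) (hr : ‖A.e‖ * √5 ^ j = ‖U.e‖) (hD : 2 ≤ D)
    (h : ∀ u ∈ wr D, ∃ v ∈ wr j, ∃ u' ∈ wr (n + 6), gT (A.desc u) ∈ ((U.desc v).desc u').set) :
    ∃ v ∈ wr j, ∀ u ∈ wr D, ∃ u' ∈ wr (n + 6), gT (A.desc u) ∈ ((U.desc v).desc u').set := by
  obtain ⟨u1, hu1⟩ := exists_mem D
  obtain ⟨v, hv, u1', hu1', hp1⟩ := h u1 hu1
  refine ⟨v, hv, ?_⟩
  by_contra hcon
  push Not at hcon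
  obtain ⟨u2, hu2, hp2⟩ := hcon
  obtain ⟨a, ha, b, hb, ⟨a', ha', hpa⟩, hQb, hd⟩ := (hC A hA hAe).2.2.1 D hD
    (fun u => ∃ u' ∈ wr (n + 6), gT (A.desc u) ∈ ((U.desc v).desc u').set) ⟨u1, hu1, u1', hu1', hp1⟩
    ⟨u2, hu2, by push Not; exact hp2⟩
  obtain ⟨v', hv', b', hb', hpb⟩ := h b hb
  have hne : v ≠ v' := by
    rintro rfl
    exact hQb ⟨b', hb', hpb⟩
  have hsize : ∀ v ∈ wr j, (U.desc v).c = true ∧ (U.desc v).e ≠ 0 ∧ ‖(U.desc v).e‖ = ‖A.e‖ := by
    intro v hv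
    obtain ⟨h1, h2, -⟩ := hB.2.1 U v hUe
    rw [(mem_wr.1 hv).1, ← hr] at h2
    exact ⟨((hC U hU hUe).1 j v hv).1, h1, mul_right_cancel₀ (by positivity) h2⟩
  obtain ⟨c1, e1, s1⟩ := hsize v hv
  obtain ⟨c2, e2, s2⟩ := hsize v' hv'
  have hApos : 0 < ‖A.e‖ := norm_pos_iff.2 hAe
  have b1 := ((hC (U.desc v) c1 e1).1 _ a' ha').2.2.1
  have b2 := ((hC (U.desc v') c2 e2).1 _ b' hb').2.2.1
  rw [s1] at b1
  rw [s2] at b2
  have hnull := hB.2.2.1 U j hUe v (wr_sub_wd hv) v' (wr_sub_wd hv') hne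
  have hk := two_balls b1 b2 hnull
  have n1 := near_g' hC hG hB c1 e1 ha' hpa
  have n2 := near_g' hC hG hB c2 e2 hb' hpb
  rw [s1] at n1
  rw [s2] at n2
  set q := gT ((U.desc v).desc a')
  set q' := gT ((U.desc v').desc b')
  set p := gT (A.desc a)
  set p' := gT (A.desc b)
  have htri : ‖q - q'‖ ≤ ‖p - q‖ + ‖p - p'‖ + ‖p' - q'‖ := by
    have : q - q' = -(p - q) + (p - p') + (p' - q') := by ring
    rw [this]
    refine (norm_add₃_le).trans ?_
    rw [norm_neg]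
  nlinarith

theorem claim (n : ℕ) : ∀ (D : ℕ) (A U : Tile), n + 2 ≤ D → A.c = true → U.c = true → A.e ≠ 0 →
    ‖A.e‖ = ‖U.e‖ → (∀ u ∈ wr D, ∃ u' ∈ wr (n + 6), gT (A.desc u) ∈ (U.desc u').set) →
    ‖gT A - gT U‖ * √5 ^ n ≤ ‖A.e‖ ∧ (1 ≤ n →
      ‖A.e - U.e‖ * √5 ^ n ≤ 8 * ‖A.e‖ ∨ ‖A.e + U.e‖ * √5 ^ n ≤ 8 * ‖A.e‖) := by
  induction n with
  | zero =>
    intro D A U hD hA hU hAe hr h
    refine ⟨?_, fun h0 => absurd h0 (by norm_num)⟩
    rw [pow_zero, mul_one]
    have hUe : U.e ≠ 0 := by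
      intro h0
      rw [h0, norm_zero, norm_eq_zero] at hr
      exact hAe hr
    obtain ⟨u, hu⟩ := exists_mem D
    obtain ⟨u', hu', hp⟩ := h u hu
    have h1 := ((hC A hA hAe).1 D u hu).2.2.2
    have h2 := ((hC U hU hUe).1 _ u' hu').2.2.2
    have h3 := near_g' hC hG hB hU hUe hu' hp
    have htri : ‖gT A - gT U‖ ≤ ‖gT (A.desc u) - gT A‖ + ‖gT (A.desc u) - gT (U.desc u')‖ +
        ‖gT (U.desc u') - gT U‖ := by
      have : gT A - gT U = -(gT (A.desc u) - gT A) + (gT (A.desc u) - gT (U.desc u')) +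
        (gT (U.desc u') - gT U) := by ring
      rw [this]
      refine (norm_add₃_le).trans ?_
      rw [norm_neg]
    have hpos : 0 < ‖A.e‖ := norm_pos_iff.2 hAe
    rw [← hr] at h2 h3
    linarith
  | succ n ih =>
    intro D A U hD hA hU hAe hr h
    have hUe : U.e ≠ 0 := by
      intro h0
      rw [h0, norm_zero, norm_eq_zero] at hr
      exact hAe hr
    have hpos : 0 < ‖A.e‖ := norm_pos_iff.2 hAe
    obtain ⟨D, rfl⟩ : ∃ D', D = D' + 1 := ⟨D - 1, by omega⟩
    have h5 : (223 / 100 : ℝ) < √5 := by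
      rw [Real.lt_sqrt (by norm_num)]; norm_num
    -- sizes of the always-right children
    have hch : ∀ (T : Tile), T.c = true → T.e ≠ 0 → ∀ i : Fin 5, [i] ∈ wr 1 →
        (T.child i).c = true ∧ (T.child i).e ≠ 0 ∧ ‖(T.child i).e‖ * √5 = ‖T.e‖ := by
      intro T hT hTe i hi
      obtain ⟨h1, h2⟩ := norm_child hB hTe i
      exact ⟨((hC T hT hTe).1 1 [i] hi).1, h1, h2⟩
    -- the label of a child
    have hlab : ∀ i : Fin 5, [i] ∈ wr 1 → ∃ b : Fin 5, [b] ∈ wr 1 ∧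
        ∀ u ∈ wr D, ∃ u' ∈ wr (n + 6), gT ((A.child i).desc u) ∈ ((U.child b).desc u').set := by
      intro i hi
      obtain ⟨c1, e1, s1⟩ := hch A hA hAe i hi
      obtain ⟨v, hv, hall⟩ := one_label hC hG hB (A := A.child i) (U := U) (j := 1) (n := n) (D := D)
        c1 hU e1 hUe (by rw [pow_one, s1, hr]) (by omega) (by
          intro u hu
          obtain ⟨u', hu', hp⟩ := h ([i] ++ u) (by
            have := append_mem hi hu
            rwa [Nat.add_comm 1 D] at this)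
          have e6 : n + 1 + 6 = 1 + (n + 6) := by omega
          rw [e6] at hu'
          obtain ⟨v, hv, v', hv', rfl⟩ := split_mem hu'
          refine ⟨v, hv, v', hv', ?_⟩
          rw [← desc_append]
          exact hp)
      rcases wr_one hv with rfl | rfl
      · exact ⟨3, hv, hall⟩
      · exact ⟨4, hv, hall⟩
    obtain ⟨b3, hb3, h3⟩ := hlab 3 three_mem
    obtain ⟨b4, hb4, h4⟩ := hlab 4 four_mem
    -- the labels differ
    have hne : b3 ≠ b4 := by
      rintro rfl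
      obtain ⟨u, hu, u', hu', hd⟩ := (hC A hA hAe).2.1 (D + 1) (by omega)
      obtain ⟨c1, e1, s1⟩ := hch U hU hUe b3 hb3
      have hkey : ∀ u ∈ wr (D + 1), ‖gT (A.desc u) - gT (U.child b3)‖ ≤ 274 / 1000 * ‖(U.child b3).e‖ := by
        intro u hu
        rw [Nat.add_comm] at hu
        obtain ⟨x, hx, y, hy, rfl⟩ := split_mem hu
        obtain ⟨z, hz, hp⟩ : ∃ u' ∈ wr (n + 6), gT (A.desc (x ++ y)) ∈ ((U.child b3).desc u').set := by
          rcases wr_one hx with rfl | rfl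
          · exact h3 y hy
          · exact h4 y hy
        have k1 := near_g' hC hG hB c1 e1 hz hp
        have k2 := ((hC _ c1 e1).1 _ z hz).2.2.2
        have : gT (A.desc (x ++ y)) - gT (U.child b3) = (gT (A.desc (x ++ y)) - gT ((U.child b3).desc z)) +
          (gT ((U.child b3).desc z) - gT (U.child b3)) := by ring
        rw [this]
        refine (norm_add_le _ _).trans ?_
        linarith
      have k1 := hkey u hu
      have k2 := hkey u' hu'
      have htri : ‖gT (A.desc u) - gT (A.desc u')‖ ≤ ‖gT (A.desc u) - gT (U.child b3)‖ +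
          ‖gT (A.desc u') - gT (U.child b3)‖ := by
        have : gT (A.desc u) - gT (A.desc u') = (gT (A.desc u) - gT (U.child b3)) -
          (gT (A.desc u') - gT (U.child b3)) := by ring
        rw [this]
        exact norm_sub_le _ _
      rw [← hr] at s1
      have hpos' := norm_pos_iff.2 e1
      nlinarith
    -- induction hypotheses
    have hrec : ∀ i b : Fin 5, [i] ∈ wr 1 → [b] ∈ wr 1 →
        (∀ u ∈ wr D, ∃ u' ∈ wr (n + 6), gT ((A.child i).desc u) ∈ ((U.child b).desc u').set) →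
        ‖gT (A.child i) - gT (U.child b)‖ * √5 ^ (n + 1) ≤ ‖A.e‖ := by
      intro i b hi hb hh
      obtain ⟨c1, e1, s1⟩ := hch A hA hAe i hi
      obtain ⟨c2, e2, s2⟩ := hch U hU hUe b hb
      have hrr : ‖(A.child i).e‖ = ‖(U.child b).e‖ := by
        refine mul_right_cancel₀ (b := √5) (by positivity) ?_
        rw [s1, s2, hr]
      have := (ih D (A.child i) (U.child b) (by omega) c1 c2 e1 hrr hh).1
      calc ‖gT (A.child i) - gT (U.child b)‖ * √5 ^ (n + 1)
          = (‖gT (A.child i) - gT (U.child b)‖ * √5 ^ n) * √5 := by ring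
        _ ≤ ‖(A.child i).e‖ * √5 := mul_le_mul_of_nonneg_right this (by positivity)
        _ = ‖A.e‖ := s1
    have r3 := hrec 3 b3 three_mem hb3 h3
    have r4 := hrec 4 b4 four_mem hb4 h4
    obtain ⟨g3, g4, -, -⟩ := (hC A hA hAe).2.2.2.2
    obtain ⟨f3, f4, -, -⟩ := (hC U hU hUe).2.2.2.2
    have hP : (0 : ℝ) < √5 ^ (n + 1) := by positivity
    have hsum : gT (U.child b3) + gT (U.child b4) = 2 * gT U ∧
        (gT (U.child b3) - gT (U.child b4) = 2 * ((14 / 100 - 2 / 100 * I) * U.e) ∨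
          gT (U.child b3) - gT (U.child b4) = -(2 * ((14 / 100 - 2 / 100 * I) * U.e))) := by
      rcases wr_one hb3 with hb | hb <;> rcases wr_one hb4 with hb' | hb' <;>
        simp only [List.cons.injEq, and_true] at hb hb' <;> subst hb <;> subst hb'
      · exact absurd rfl hne
      · rw [f3, f4]
        exact ⟨by ring, Or.inl (by ring)⟩
      · rw [f3, f4]
        exact ⟨by ring, Or.inr (by ring)⟩
      · exact absurd rfl hne
    obtain ⟨hs, hdif⟩ := hsum
    have hw : ‖((14 / 100 - 2 / 100 * I : ℂ))‖ ^ 2 = 2 / 100 := by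
      rw [← Complex.normSq_eq_norm_sq, Complex.normSq_apply]
      norm_num
    have hw' : 14 / 100 < ‖((14 / 100 - 2 / 100 * I : ℂ))‖ := by
      by_contra hle
      push Not at hle
      have := pow_le_pow_left₀ (norm_nonneg _) hle 2
      rw [hw] at this
      norm_num at this
    have hdiff3 : ∀ σ : ℂ, gT (U.child b3) - gT (U.child b4) = 2 * ((14 / 100 - 2 / 100 * I) * (σ * U.e)) →
        ‖A.e - σ * U.e‖ * √5 ^ (n + 1) ≤ 8 * ‖A.e‖ := by
      intro σ hσ
      have h1 : (14 / 100 - 2 / 100 * I) * (A.e - σ * U.e) =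
          (1 / 2 : ℂ) * ((gT (A.child 3) - gT (U.child b3)) - (gT (A.child 4) - gT (U.child b4))) := by
        have : (gT (A.child 3) - gT (U.child b3)) - (gT (A.child 4) - gT (U.child b4)) =
          (gT (A.child 3) - gT (A.child 4)) - (gT (U.child b3) - gT (U.child b4)) := by ring
        rw [this, hσ, g3, g4]
        ring
      have h2 : ‖((14 / 100 - 2 / 100 * I : ℂ))‖ * ‖A.e - σ * U.e‖ ≤
          1 / 2 * (‖gT (A.child 3) - gT (U.child b3)‖ + ‖gT (A.child 4) - gT (U.child b4)‖) := by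
        rw [← norm_mul, h1, norm_mul]
        have : ‖(1 / 2 : ℂ)‖ = 1 / 2 := by norm_num
        rw [this]
        exact mul_le_mul_of_nonneg_left (norm_sub_le _ _) (by norm_num)
      have h3' : (‖((14 / 100 - 2 / 100 * I : ℂ))‖ * ‖A.e - σ * U.e‖) * √5 ^ (n + 1) ≤ ‖A.e‖ := by
        calc (‖((14 / 100 - 2 / 100 * I : ℂ))‖ * ‖A.e - σ * U.e‖) * √5 ^ (n + 1)
            ≤ (1 / 2 * (‖gT (A.child 3) - gT (U.child b3)‖ + ‖gT (A.child 4) - gT (U.child b4)‖)) *
              √5 ^ (n + 1) := mul_le_mul_of_nonneg_right h2 hP.le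
          _ ≤ ‖A.e‖ := by linarith
      have h4' : 0 ≤ ‖A.e - σ * U.e‖ * √5 ^ (n + 1) := by positivity
      nlinarith
    constructor
    · have h1 : gT A - gT U = (1 / 2 : ℂ) * ((gT (A.child 3) - gT (U.child b3)) +
          (gT (A.child 4) - gT (U.child b4))) := by
        have : (gT (A.child 3) - gT (U.child b3)) + (gT (A.child 4) - gT (U.child b4)) =
          (gT (A.child 3) + gT (A.child 4)) - (gT (U.child b3) + gT (U.child b4)) := by ring
        rw [this, hs, g3, g4]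
        ring
      rw [h1, norm_mul]
      have : ‖(1 / 2 : ℂ)‖ = 1 / 2 := by norm_num
      rw [this]
      have h2 := norm_add_le (gT (A.child 3) - gT (U.child b3)) (gT (A.child 4) - gT (U.child b4))
      have h6 := mul_le_mul_of_nonneg_right h2 hP.le
      linarith
    · intro _
      rcases hdif with hd | hd
      · left
        have := hdiff3 1 (by rw [hd]; ring)
        rwa [one_mul] at this
      · right
        have := hdiff3 (-1) (by rw [hd]; ring)
        rwa [neg_one_mul, sub_neg_eq_add] at this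

end

end Pool.Agent.Lib.MP_d437ed.Hit.R2M

namespace Pool.Agent.Lib.MP_d437ed.Hit

open R2M in
theorem specR2 (hC : SpecCan) (hG : SpecGeo) (hB : SpecBas) : SpecR2 := by
  intro ε hε
  -- choose n
  obtain ⟨n, hn1, hn⟩ : ∃ n : ℕ, 1 ≤ n ∧ 8 ≤ ε * √5 ^ n := by
    have h5 : (2 : ℝ) < √5 := by
      rw [Real.lt_sqrt (by norm_num)]; norm_num
    obtain ⟨n, hn⟩ := pow_unbounded_of_one_lt (8 / ε) (show (1 : ℝ) < √5 by linarith)
    refine ⟨n + 1, by omega, ?_⟩
    rw [div_lt_iff₀ hε] at hn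
    have h6 : (0 : ℝ) < √5 ^ n * ε := by positivity
    rw [pow_succ]
    nlinarith
  refine ⟨n + 9, by omega, ?_⟩
  intro D T U hD hT hU hTe hr ⟨u0, hu0, hz0⟩ hall
  have hUe : U.e ≠ 0 := by
    intro h0
    rw [h0, norm_zero, norm_eq_zero] at hr
    exact hTe hr
  have hpos : 0 < ‖T.e‖ := norm_pos_iff.2 hTe
  obtain ⟨D, rfl⟩ : ∃ D', D = 2 + D' := ⟨D - 2, by omega⟩
  have hk : n + 9 - 1 = 2 + n + 6 := by omega
  rw [hk] at hall
  obtain ⟨w, hw, u1, hu1, rfl⟩ := split_mem hu0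
  obtain ⟨y0, hy0, hzy⟩ := hall _ hu0 hz0
  -- the point is close to a centre point of U
  have n0 := near_g' hC hG hB hU hUe hy0 hzy
  have b0 := ((hC U hU hUe).1 _ y0 hy0).2.2.1
  obtain ⟨cA, -, -, -⟩ := (hC T hT hTe).1 2 w hw
  obtain ⟨eA, sA, -⟩ := hB.2.1 T w hTe
  rw [(mem_wr.1 hw).1, Real.sq_sqrt (by norm_num)] at sA
  -- all points of A' are in U
  have hin : ∀ u ∈ wr D, gT ((T.desc w).desc u) ∈ U.set := by
    intro u hu
    apply b0
    rw [Metric.mem_ball, dist_eq_norm]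
    have k1 := ((hC _ cA eA).1 D u hu).2.2.2
    have k2 := ((hC _ cA eA).1 D u1 hu1).2.2.2
    rw [desc_append] at n0
    have : gT ((T.desc w).desc u) - gT (U.desc y0) = (gT ((T.desc w).desc u) - gT (T.desc w)) +
      (-(gT ((T.desc w).desc u1) - gT (T.desc w))) + (gT ((T.desc w).desc u1) - gT (U.desc y0)) := by ring
    rw [this]
    refine lt_of_le_of_lt (norm_add₃_le) ?_
    rw [norm_neg]
    rw [← hr] at n0 ⊢
    nlinarith
  obtain ⟨v, hv, hlab⟩ := one_label hC hG hB (A := T.desc w) (U := U) (j := 2) (n := n) (D := D)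
    cA hU eA hUe (by rw [Real.sq_sqrt (by norm_num), sA, hr]) (by omega) (by
      intro u hu
      obtain ⟨u', hu', hp⟩ := hall (w ++ u) (append_mem hw hu) (by rw [desc_append]; exact hin u hu)
      rw [Nat.add_assoc] at hu'
      obtain ⟨v, hv, v', hv', rfl⟩ := split_mem hu'
      refine ⟨v, hv, v', hv', ?_⟩
      rw [← desc_append, ← desc_append]
      exact hp)
  obtain ⟨cB, -, -, -⟩ := (hC U hU hUe).1 2 v hv
  obtain ⟨eB, sB, -⟩ := hB.2.1 U v hUe
  rw [(mem_wr.1 hv).1, Real.sq_sqrt (by norm_num)] at sB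
  have hAB : ‖(T.desc w).e‖ = ‖(U.desc v).e‖ := by linarith
  obtain ⟨k1, k2⟩ := claim hC hG hB n D (T.desc w) (U.desc v) (by omega) cA cB eA hAB hlab
  have hposA : 0 < ‖(T.desc w).e‖ := norm_pos_iff.2 eA
  have hP : (0 : ℝ) < √5 ^ n := by positivity
  refine ⟨w, hw, v, hv, ?_, ?_⟩
  · refine le_of_mul_le_mul_right ?_ hP
    calc _ ≤ ‖(T.desc w).e‖ := k1
      _ ≤ ε * ‖(T.desc w).e‖ * √5 ^ n := by nlinarith
  · rcases k2 hn1 with h | h
    · left
      refine le_of_mul_le_mul_right ?_ hP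
      calc _ ≤ 8 * ‖(T.desc w).e‖ := h
        _ ≤ ε * ‖(T.desc w).e‖ * √5 ^ n := by nlinarith
    · right
      refine le_of_mul_le_mul_right ?_ hP
      calc _ ≤ 8 * ‖(T.desc w).e‖ := h
        _ ≤ ε * ‖(T.desc w).e‖ * √5 ^ n := by nlinarith

end Pool.Agent.Lib.MP_d437ed.Hit
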