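import Pool.Agent.Lib.MP_d437ed.Hit.Basics

/-!
Module W: the expected half gap moves within time `C (1 + log (1/dl))`.
-/

noncomputable section

open MeasureTheory Complex

namespace Pool.Agent.Lib.MP_d437ed.Hit.WM

/-- Gaussian integers in `ℂ` -/
def GI (z : ℂ) : Prop := ∃ a b : ℤ, z = a + b * I

theorem GI.add {z w : ℂ} (hz : GI z) (hw : GI w) : GI (z + w) := by
  obtain ⟨a, b, rfl⟩ := hz
  obtain ⟨c, d, rfl⟩ := hw
  exact ⟨a + c, b + d, by push_cast; ring⟩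

theorem GI.neg {z : ℂ} (hz : GI z) : GI (-z) := by
  obtain ⟨a, b, rfl⟩ := hz
  exact ⟨-a, -b, by push_cast; ring⟩

theorem GI.sub {z w : ℂ} (hz : GI z) (hw : GI w) : GI (z - w) := by
  rw [sub_eq_add_neg]
  exact hz.add hw.neg

theorem GI.mul {z w : ℂ} (hz : GI z) (hw : GI w) : GI (z * w) := by
  obtain ⟨a, b, rfl⟩ := hz
  obtain ⟨c, d, rfl⟩ := hw
  refine ⟨a * c - b * d, a * d + b * c, ?_⟩
  push_cast
  linear_combination (b * d : ℂ) * I_sq

theorem GI.one : GI 1 := ⟨1, 0, by simp⟩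
theorem GI.I : GI I := ⟨0, 1, by simp⟩

theorem GI.pow {z : ℂ} (hz : GI z) (n : ℕ) : GI (z ^ n) := by
  induction n with
  | zero => rw [pow_zero]; exact GI.one
  | succ n ih => rw [pow_succ]; exact ih.mul hz

theorem GI.eq_zero {z : ℂ} (hz : GI z) (h : ‖z‖ < 1) : z = 0 := by
  obtain ⟨a, b, rfl⟩ := hz
  have h1 : ‖(a + b * Complex.I : ℂ)‖ ^ 2 = (a : ℝ) ^ 2 + (b : ℝ) ^ 2 := by
    rw [Complex.sq_norm, Complex.normSq_apply]
    simp
    ring
  have h2 : (a : ℝ) ^ 2 + (b : ℝ) ^ 2 < 1 := by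
    rw [← h1]
    have := norm_nonneg (a + b * Complex.I : ℂ)
    nlinarith
  have h3 : a ^ 2 + b ^ 2 < 1 := by exact_mod_cast h2
  have ha : a = 0 := by
    by_contra h0
    have : 1 ≤ a ^ 2 := by
      have := pow_pos (abs_pos.2 h0) 2
      rw [sq_abs] at this
      omega
    nlinarith [sq_nonneg b]
  have hb : b = 0 := by
    by_contra h0
    have : 1 ≤ b ^ 2 := by
      have := pow_pos (abs_pos.2 h0) 2
      rw [sq_abs] at this
      omega
    nlinarith [sq_nonneg a]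
  simp [ha, hb]

theorem norm_I_pow (n : ℕ) : ‖(I : ℂ) ^ n‖ = 1 := by rw [norm_pow, norm_I, one_pow]

theorem norm_vv_zpow (j : ℤ) : ‖vv ^ j‖ = 1 := by
  have h : ‖vv‖ = 1 := by
    rw [vv, norm_div]
    have h1 : ‖(2 + I : ℂ)‖ = ‖(2 - I : ℂ)‖ := by
      have : (2 - I : ℂ) = (starRingEnd ℂ) (2 + I) := by
        simp [Complex.ext_iff]
      rw [this, Complex.norm_conj]
    rw [h1]
    refine div_self ?_
    rw [norm_ne_zero_iff]
    intro h
    have := congrArg Complex.re h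
    simp at this
  rw [norm_zpow, h, one_zpow]

/-- the displacement of the centres in units of `e` is a Gaussian integer divided by ten -/
theorem GI_gT {T U : Tile} {k : ℕ} (hk : T.e = I ^ k * U.e)
    (hP : ∃ m n : ℤ, T.P - U.P = T.e * (m + n * I)) :
    ∃ κ : ℂ, GI κ ∧ 10 * (gT T - gT U) = T.e * κ := by
  obtain ⟨m, n, hP⟩ := hP
  have h4 : U.e = I ^ (3 * k) * T.e := by
    rw [hk, ← mul_assoc, ← pow_add]
    have : 3 * k + k = 4 * k := by ring
    rw [this, pow_mul, I_pow_four, one_pow, one_mul]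
  refine ⟨10 * (m + n * I) + (7 + 4 * I) * (1 - I ^ (3 * k)), ?_, ?_⟩
  · refine GI.add (GI.mul ⟨10, 0, by simp⟩ ⟨m, n, rfl⟩) (GI.mul ⟨7, 4, by simp⟩ ?_)
    exact GI.one.sub (GI.I.pow _)
  · have : 10 * (gT T - gT U) = 10 * (T.P - U.P) + (7 + 4 * I) * (T.e - U.e) := by
      simp only [gT]
      ring
    rw [this, hP, h4]
    ring

/-- two near-coincident pairs in the same frames at an intermediate distance are impossible -/
theorem arith (hDl : SpecDl) {A1 A2 B1 B2 : Tile} {j : ℤ} {k k' l : ℕ} {ε : ℝ}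
    (hA0 : A1.e ≠ 0) (hAk : A1.e = I ^ k * A2.e) (hAP : ∃ m n : ℤ, A1.P - A2.P = A1.e * (m + n * I))
    (hBk : B1.e = I ^ k' * B2.e) (hBP : ∃ m n : ℤ, B1.P - B2.P = B1.e * (m + n * I))
    (hAB : A1.e = I ^ l * vv ^ j * B1.e)
    (h1 : ‖gT A1 - gT B1‖ ≤ ε * ‖A1.e‖) (h2 : ‖gT A2 - gT B2‖ ≤ ε * ‖A2.e‖)
    (hx : dl j * (10 * ‖gT A1 - gT A2‖) ≤ 1 / 4 * ‖A1.e‖) (hε : 20 * ε < 3 / 4) :
    dl j * (10 * ‖gT A1 - gT A2‖) ≤ 20 * ε * ‖A1.e‖ := by
  obtain ⟨κ, hκ, hκe⟩ := GI_gT hAk hAP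
  obtain ⟨μ, hμ, hμe⟩ := GI_gT hBk hBP
  have hn2 : ‖A2.e‖ = ‖A1.e‖ := by rw [hAk, norm_mul, norm_I_pow, one_mul]
  have hnB : ‖A1.e‖ = ‖B1.e‖ := by
    rw [hAB, norm_mul, norm_mul, norm_I_pow, norm_vv_zpow, one_mul, one_mul]
  have hpos : 0 < ‖B1.e‖ := by rw [← hnB]; exact norm_pos_iff.2 hA0
  have hκn : 10 * ‖gT A1 - gT A2‖ = ‖A1.e‖ * ‖κ‖ := by
    have := congrArg norm hκe
    rw [norm_mul, norm_mul] at this
    simpa using this
  have hd : ‖A1.e * κ - B1.e * μ‖ ≤ 20 * ε * ‖B1.e‖ := by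
    rw [← hκe, ← hμe]
    have : 10 * (gT A1 - gT A2) - 10 * (gT B1 - gT B2) =
        10 * ((gT A1 - gT B1) - (gT A2 - gT B2)) := by ring
    rw [this, norm_mul]
    have h3 := norm_sub_le (gT A1 - gT B1) (gT A2 - gT B2)
    rw [hn2] at h2
    rw [hnB] at h1 h2
    have h10 : ‖(10 : ℂ)‖ = 10 := by simp
    rw [h10]
    linarith
  have hd2 : ‖I ^ l * vv ^ j * κ - μ‖ ≤ 20 * ε := by
    have : A1.e * κ - B1.e * μ = B1.e * (I ^ l * vv ^ j * κ - μ) := by rw [hAB]; ring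
    rw [this, norm_mul, mul_comm] at hd
    exact le_of_mul_le_mul_right hd hpos
  obtain ⟨m, hm⟩ := hDl.2.2.2.2.2.2 j
  have hd3 : ‖I ^ l * (vv ^ j - I ^ m) * κ‖ = dl j * ‖κ‖ := by
    rw [norm_mul, norm_mul, norm_I_pow, one_mul, ← hm]
  have hdk : dl j * ‖κ‖ ≤ 1 / 4 := by
    rw [hκn, hnB] at hx
    have : dl j * ‖κ‖ * ‖B1.e‖ ≤ 1 / 4 * ‖B1.e‖ := by linarith
    exact le_of_mul_le_mul_right this hpos
  have hz : I ^ l * I ^ m * κ - μ = 0 := by
    refine GI.eq_zero ?_ ?_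
    · exact (((GI.I.pow l).mul (GI.I.pow m)).mul hκ).sub hμ
    · have : I ^ l * I ^ m * κ - μ = (I ^ l * vv ^ j * κ - μ) - I ^ l * (vv ^ j - I ^ m) * κ := by ring
      rw [this]
      have := norm_sub_le (I ^ l * vv ^ j * κ - μ) (I ^ l * (vv ^ j - I ^ m) * κ)
      rw [hd3] at this
      linarith
  have h5 : I ^ l * vv ^ j * κ - μ = I ^ l * (vv ^ j - I ^ m) * κ := by
    have : μ = I ^ l * I ^ m * κ := by linear_combination -hz
    rw [this]
    ring
  rw [h5, hd3] at hd2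
  rw [hκn, hnB]
  nlinarith

/-! ### areas -/

theorem vol_lt_top (hG : SpecGeo) {T : Tile} (hT : T.e ≠ 0) (X : Set ℂ) : volume (T.set ∩ X) < ⊤ := by
  refine lt_of_le_of_lt (measure_mono Set.inter_subset_left) ?_
  rw [(hG T hT).2.2.2.1]
  exact ENNReal.ofReal_lt_top

theorem ar_le (hG : SpecGeo) {A B : Tile} (hA : A.e ≠ 0) : ar A B ≤ ‖A.e‖ ^ 2 := by
  have h : volume (A.set ∩ B.set) ≤ ENNReal.ofReal (‖A.e‖ ^ 2) := by
    rw [← (hG A hA).2.2.2.1]
    exact measure_mono Set.inter_subset_left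
  exact ENNReal.toReal_le_of_le_ofReal (by positivity) h

theorem ar_eq_of_subset (hG : SpecGeo) {A B : Tile} (hA : A.e ≠ 0) (h : A.set ⊆ B.set) :
    ar A B = ‖A.e‖ ^ 2 := by
  rw [ar, Set.inter_eq_left.2 h, (hG A hA).2.2.2.1, ENNReal.toReal_ofReal (by positivity)]

theorem ar_sum_left (hG : SpecGeo) (hB : SpecBas) {A B : Tile} (hA : A.e ≠ 0) (hB' : B.e ≠ 0) (t : ℕ) :
    ar A B = ∑ w ∈ wd t, ar (A.desc w) B := by
  have h := hB.1 A t B.set hA (hG B hB').1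
  rw [ar, h, ENNReal.toReal_sum]
  · rfl
  · intro w _
    exact (vol_lt_top hG (hB.2.1 A w hA).1 _).ne

theorem ar_sum_right (hG : SpecGeo) (hB : SpecBas) {A B : Tile} (hA : A.e ≠ 0) (hB' : B.e ≠ 0) (t : ℕ) :
    ar A B = ∑ v ∈ wd t, ar A (B.desc v) := by
  rw [ar_comm, ar_sum_left hG hB hB' hA t]
  exact Finset.sum_congr rfl (fun v _ => ar_comm _ _)

theorem norm_desc (hB : SpecBas) {T : Tile} (hT : T.e ≠ 0) {t : ℕ} {w : List (Fin 5)} (hw : w ∈ wd t) :
    ‖(T.desc w).e‖ ^ 2 * 5 ^ t = ‖T.e‖ ^ 2 := by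
  have h := (hB.2.1 T w hT).2.1
  rw [mem_wd.1 hw] at h
  rw [← h, mul_pow, ← pow_mul, mul_comm t 2, pow_mul, Real.sq_sqrt (by norm_num)]

/-! ### pigeonholes -/

/-- two translates with a common good address -/
theorem pigeon (hLat : SpecLat) (T : Tile) (i3 h : ℕ) (Y : List (Fin 5) → Finset (List (Fin 5)))
    (hY : ∀ x ∈ wd i3, Y x ⊆ wd h) (hc : (i3 + 1) * 8 * 5 ^ h < ∑ x ∈ wd i3, (Y x).card) :
    ∃ x1 ∈ wd i3, ∃ x2 ∈ wd i3, x1 ≠ x2 ∧ np T x1 = np T x2 ∧ (T.desc x1).e = (T.desc x2).e ∧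
      (T.desc x1).c = (T.desc x2).c ∧ ∃ y, y ∈ Y x1 ∧ y ∈ Y x2 := by
  classical
  choose kk hkk using fun w => (hLat.1 T w)
  let cls : List (Fin 5) → ℕ × ℕ × Bool := fun x => (np T x, kk x % 4, (T.desc x).c)
  let S : Finset (Σ _ : List (Fin 5), List (Fin 5)) := (wd i3).sigma Y
  let R : Finset ((ℕ × ℕ × Bool) × List (Fin 5)) :=
    (Finset.range (i3 + 1) ×ˢ (Finset.range 4 ×ˢ (Finset.univ : Finset Bool))) ×ˢ wd h
  have hcard : R.card < S.card := by
    simp only [R, S, Finset.card_product, Finset.card_range, Finset.card_univ, Fintype.card_bool, card_wd,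
      Finset.card_sigma]
    calc (i3 + 1) * (4 * 2) * 5 ^ h = (i3 + 1) * 8 * 5 ^ h := by ring
      _ < _ := hc
  obtain ⟨p, hp, q, hq, hne, heq⟩ := Finset.exists_ne_map_eq_of_card_lt_of_maps_to hcard
    (f := fun p => (cls p.1, p.2)) (by
      intro p hp
      rw [Finset.mem_coe, Finset.mem_sigma] at hp
      have h1 : np T p.1 ≤ i3 := by
        have := np_le T p.1
        rwa [mem_wd.1 hp.1] at this
      rw [Finset.mem_coe, Finset.mem_product, Finset.mem_product, Finset.mem_product]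
      exact ⟨⟨Finset.mem_range.2 (by simp only [cls]; omega), Finset.mem_range.2 (Nat.mod_lt _ (by norm_num)),
        Finset.mem_univ _⟩, hY _ hp.1 hp.2⟩)
  rw [Finset.mem_sigma] at hp hq
  simp only [Prod.mk.injEq, cls] at heq
  obtain ⟨⟨h1, h2, h3⟩, h4⟩ := heq
  refine ⟨p.1, hp.1, q.1, hq.1, ?_, h1, ?_, h3, p.2, hp.2, ?_⟩
  · intro h0
    exact hne (Sigma.ext h0 (heq_of_eq h4))
  · have e1 := (hkk p.1).1
    have e2 := (hkk q.1).1
    have hl : p.1.length = q.1.length := by rw [mem_wd.1 hp.1, mem_wd.1 hq.1]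
    have hI : (I : ℂ) ^ kk p.1 = I ^ kk q.1 := by
      rw [← Nat.div_add_mod (kk p.1) 4, ← Nat.div_add_mod (kk q.1) 4, h2, pow_add, pow_add, pow_mul,
        pow_mul, I_pow_four, one_pow, one_pow]
    rw [hI, ← e2, h1, hl] at e1
    refine mul_right_cancel₀ ?_ e1
    refine mul_ne_zero (pow_ne_zero _ ?_) (pow_ne_zero _ ?_)
    · intro h
      have := congrArg Complex.re h
      simp at this
    · intro h
      have := congrArg Complex.re h
      simp at this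
  · rw [h4]
    exact hq.2

open Classical in
/-- a depth-`t'` descendant inside the overlap with a definite proportion of good cells, and two good cells
in translated positions inside it -/
theorem select (hG : SpecGeo) (hB : SpecBas) (hLat : SpecLat) {Cb : ℝ}
    (hBnd : ∀ (A B : Tile) (l : ℕ), A.e ≠ 0 → ‖A.e‖ = ‖B.e‖ →
      ∀ W : Finset (List (Fin 5)), W ⊆ wd l →
      (∀ w ∈ W, ¬ (A.desc w).set ⊆ B.set ∧ ((A.desc w).set ∩ B.set).Nonempty) →
      ∑ w ∈ W, ‖(A.desc w).e‖ ^ 2 ≤ Cb * ‖A.e‖ ^ 2 / √5 ^ l)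
    {s : St} (hs : s.ok) {pc : ℝ} (hpc : 0 < pc) {t' i3 h : ℕ}
    (ht' : Cb * ‖s.A.e‖ ^ 2 / √5 ^ t' ≤ pc * ar s.A s.B)
    (hi3 : ((i3 + 1) * 8 : ℝ) < pc * 5 ^ i3)
    (good : List (Fin 5) → List (Fin 5) → Prop)
    (hgood : 2 * pc * ar s.A s.B ≤ ∑ w ∈ wd (t' + (i3 + h)), ∑ v ∈ wd (t' + (i3 + h)),
      (if good w v then ar (s.A.desc w) (s.B.desc v) else 0)) :
    ∃ w' ∈ wd t', ∃ x1 ∈ wd i3, ∃ x2 ∈ wd i3, ∃ y ∈ wd h, x1 ≠ x2 ∧
      np (s.A.desc w') x1 = np (s.A.desc w') x2 ∧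
      ((s.A.desc w').desc x1).e = ((s.A.desc w').desc x2).e ∧
      ((s.A.desc w').desc x1).c = ((s.A.desc w').desc x2).c ∧
      ∃ v1 ∈ wd (t' + (i3 + h)), ∃ v2 ∈ wd (t' + (i3 + h)),
        good (w' ++ (x1 ++ y)) v1 ∧ good (w' ++ (x2 ++ y)) v2 := by
  set tc := t' + (i3 + h) with htc
  have hA := hs.1
  have hB' := ok_B hs
  set a : List (Fin 5) → List (Fin 5) → ℝ := fun w v => if good w v then ar (s.A.desc w) (s.B.desc v) else 0
    with ha
  have ha0 : ∀ w v, 0 ≤ a w v := by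
    intro w v
    simp only [ha]
    split_ifs
    · exact ar_nonneg _ _
    · exact le_rfl
  have ha1 : ∀ w v, a w v ≤ ar (s.A.desc w) (s.B.desc v) := by
    intro w v
    simp only [ha]
    split_ifs
    · exact le_rfl
    · exact ar_nonneg _ _
  set S : List (Fin 5) → ℝ := fun w' => ∑ u ∈ wd (i3 + h), ∑ v ∈ wd tc, a (w' ++ u) v with hS
  have hsum : 2 * pc * ar s.A s.B ≤ ∑ w' ∈ wd t', S w' := by
    refine hgood.trans (le_of_eq ?_)
    rw [htc, sum_wd_add]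
  have hSle : ∀ w' ∈ wd t', S w' ≤ ar (s.A.desc w') s.B := by
    intro w' hw'
    have h1 := (hB.2.1 s.A w' hA).1
    have : ar (s.A.desc w') s.B = ∑ u ∈ wd (i3 + h), ∑ v ∈ wd tc, ar (s.A.desc (w' ++ u)) (s.B.desc v) := by
      rw [ar_sum_left hG hB h1 hB' (i3 + h)]
      refine Finset.sum_congr rfl (fun u hu => ?_)
      rw [desc_append, ar_sum_right hG hB (hB.2.1 _ u h1).1 hB' tc]
    rw [this]
    exact Finset.sum_le_sum (fun u _ => Finset.sum_le_sum (fun v _ => ha1 _ _))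
  -- existence of the inside descendant
  have hex : ∃ w' ∈ wd t', (s.A.desc w').set ⊆ s.B.set ∧ pc * ‖(s.A.desc w').e‖ ^ 2 ≤ S w' := by
    by_contra hcon
    push Not at hcon
    set Iset := (wd t').filter (fun w' => (s.A.desc w').set ⊆ s.B.set) with hI
    set Xset := (wd t').filter (fun w' => ¬ (s.A.desc w').set ⊆ s.B.set ∧
      ((s.A.desc w').set ∩ s.B.set).Nonempty) with hX
    have h1 : ∑ w' ∈ wd t', S w' ≤ ∑ w' ∈ Iset, S w' + ∑ w' ∈ Xset, S w' := by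
      rw [hI, hX, ← Finset.sum_filter_add_sum_filter_not (wd t') (fun w' => (s.A.desc w').set ⊆ s.B.set)]
      refine add_le_add le_rfl ?_
      rw [← Finset.sum_filter_add_sum_filter_not ((wd t').filter (fun w' => ¬ (s.A.desc w').set ⊆ s.B.set))
        (fun w' => ((s.A.desc w').set ∩ s.B.set).Nonempty), Finset.filter_filter]
      have h2 : ∑ w' ∈ ((wd t').filter (fun w' => ¬ (s.A.desc w').set ⊆ s.B.set)).filter
          (fun w' => ¬ ((s.A.desc w').set ∩ s.B.set).Nonempty), S w' ≤ 0 := by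
        refine Finset.sum_nonpos (fun w' hw' => ?_)
        rw [Finset.mem_filter, Finset.mem_filter] at hw'
        refine (hSle w' hw'.1.1).trans (le_of_eq ?_)
        rw [ar, Set.not_nonempty_iff_eq_empty.1 hw'.2, measure_empty, ENNReal.toReal_zero]
      linarith
    have h2 : ∑ w' ∈ Xset, S w' ≤ pc * ar s.A s.B := by
      refine le_trans ?_ ht'
      refine le_trans (Finset.sum_le_sum (fun w' hw' => ?_))
        (hBnd s.A s.B t' hA hs.2.1 Xset (Finset.filter_subset _ _) (fun w' hw' => (Finset.mem_filter.1 hw').2))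
      exact (hSle w' (Finset.mem_filter.1 hw').1).trans (ar_le hG (hB.2.1 s.A w' hA).1)
    have h3 : ∑ w' ∈ Iset, ‖(s.A.desc w').e‖ ^ 2 ≤ ar s.A s.B := by
      rw [ar_sum_left hG hB hA hB' t']
      refine le_trans (le_of_eq ?_) (Finset.sum_le_sum_of_subset_of_nonneg (hI ▸ Finset.filter_subset _ _ : Iset ⊆ wd t')
        (fun w' _ _ => ar_nonneg _ _))
      refine Finset.sum_congr rfl (fun w' hw' => ?_)
      exact (ar_eq_of_subset hG (hB.2.1 s.A w' hA).1 (Finset.mem_filter.1 hw').2).symm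
    rcases Iset.eq_empty_or_nonempty with h0 | h0
    · rw [h0, Finset.sum_empty, zero_add] at h1
      have := hs.2.2
      nlinarith
    · have h4 : ∑ w' ∈ Iset, S w' < ∑ w' ∈ Iset, pc * ‖(s.A.desc w').e‖ ^ 2 := by
        refine Finset.sum_lt_sum_of_nonempty h0 (fun w' hw' => ?_)
        exact hcon w' (Finset.mem_filter.1 hw').1 (Finset.mem_filter.1 hw').2
      rw [← Finset.mul_sum] at h4
      nlinarith
  obtain ⟨w', hw', -, hS'⟩ := hex
  have hw0 := (hB.2.1 s.A w' hA).1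
  -- good addresses
  let Y : List (Fin 5) → Finset (List (Fin 5)) := fun x =>
    (wd h).filter (fun y => ∃ v ∈ wd tc, good (w' ++ (x ++ y)) v)
  have hSY : S w' ≤ ∑ x ∈ wd i3, ((Y x).card : ℝ) * (‖(s.A.desc w').e‖ ^ 2 / 5 ^ (i3 + h)) := by
    simp only [hS]
    rw [sum_wd_add]
    refine Finset.sum_le_sum (fun x hx => ?_)
    have h1 : ∀ y ∈ wd h, ∑ v ∈ wd tc, a (w' ++ (x ++ y)) v ≤
        if (∃ v ∈ wd tc, good (w' ++ (x ++ y)) v) then ‖(s.A.desc w').e‖ ^ 2 / 5 ^ (i3 + h) else 0 := by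
      intro y hy
      split_ifs with hv
      · have h2 : (s.A.desc (w' ++ (x ++ y))).e ≠ 0 := (hB.2.1 s.A _ hA).1
        calc ∑ v ∈ wd tc, a (w' ++ (x ++ y)) v ≤ ∑ v ∈ wd tc, ar (s.A.desc (w' ++ (x ++ y))) (s.B.desc v) :=
              Finset.sum_le_sum (fun v _ => ha1 _ _)
          _ = ar (s.A.desc (w' ++ (x ++ y))) s.B := (ar_sum_right hG hB h2 hB' tc).symm
          _ ≤ ‖(s.A.desc (w' ++ (x ++ y))).e‖ ^ 2 := ar_le hG h2
          _ = ‖(s.A.desc w').e‖ ^ 2 / 5 ^ (i3 + h) := by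
              rw [desc_append, eq_div_iff (by positivity)]
              exact norm_desc hB hw0 (append_mem_wd hx hy)
      · push Not at hv
        refine le_of_eq (Finset.sum_eq_zero (fun v hv' => ?_))
        simp only [ha]
        exact if_neg (hv v hv')
    refine (Finset.sum_le_sum h1).trans (le_of_eq ?_)
    rw [← Finset.sum_filter, Finset.sum_const, nsmul_eq_mul]
  rw [← Finset.sum_mul] at hSY
  have hn : 0 < ‖(s.A.desc w').e‖ ^ 2 := by positivity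
  have hcard : ((i3 + 1) * 8 * 5 ^ h : ℝ) < ∑ x ∈ wd i3, ((Y x).card : ℝ) := by
    have h1 : pc * ‖(s.A.desc w').e‖ ^ 2 ≤
        (∑ x ∈ wd i3, ((Y x).card : ℝ)) * (‖(s.A.desc w').e‖ ^ 2 / 5 ^ (i3 + h)) := hS'.trans hSY
    have h2 : pc * 5 ^ (i3 + h) ≤ ∑ x ∈ wd i3, ((Y x).card : ℝ) := by
      rw [mul_div_assoc', le_div_iff₀ (by positivity)] at h1
      have h3 : pc * 5 ^ (i3 + h) * ‖(s.A.desc w').e‖ ^ 2 ≤
          (∑ x ∈ wd i3, ((Y x).card : ℝ)) * ‖(s.A.desc w').e‖ ^ 2 := by linarith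
      exact le_of_mul_le_mul_right h3 hn
    refine lt_of_lt_of_le ?_ h2
    rw [pow_add, ← mul_assoc]
    exact mul_lt_mul_of_pos_right hi3 (by positivity)
  have hcard' : (i3 + 1) * 8 * 5 ^ h < ∑ x ∈ wd i3, (Y x).card := by exact_mod_cast hcard
  obtain ⟨x1, hx1, x2, hx2, hne, hnp, he, hc, y, hy1, hy2⟩ :=
    pigeon hLat (s.A.desc w') i3 h Y (fun x _ => Finset.filter_subset _ _) hcard'
  obtain ⟨hy, v1, hv1, hg1⟩ := Finset.mem_filter.1 hy1
  obtain ⟨-, v2, hv2, hg2⟩ := Finset.mem_filter.1 hy2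
  exact ⟨w', hw', x1, hx1, x2, hx2, y, hy, hne, hnp, he, hc, v1, hv1, v2, hv2, hg1, hg2⟩

/-! ### compatibility of cells -/

theorem cell_cons (s : St) (i k : Fin 5) (w v : List (Fin 5)) :
    s.cell (i :: w) (k :: v) = (s.ch i k).cell w v := by
  simp only [St.cell, St.ch, St.jn, desc_cons, np_cons]
  congr 1
  push_cast
  ring

theorem comp_cell (hLat : SpecLat) {s : St} (hs : Comp s) {w v : List (Fin 5)} (hl : w.length = v.length) :
    Comp (s.cell w v) := by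
  induction w generalizing s v with
  | nil =>
    have : v = [] := List.length_eq_zero_iff.1 hl.symm
    rw [this, cell_nil]
    exact hs
  | cons i w ih =>
    match v, hl with
    | k :: v, hl =>
      rw [cell_cons]
      exact ih (hLat.2.2.1 s i k hs) (by simpa using hl)

theorem dl_le (hLat : SpecLat) (hDl : SpecDl) {s : St} (hs : Comp s) {ε : ℝ}
    (h : ‖s.A.e - s.B.e‖ ≤ ε * ‖s.A.e‖ ∨ ‖s.A.e + s.B.e‖ ≤ ε * ‖s.A.e‖) : dl s.j ≤ ε := by
  obtain ⟨hA, hn, k, hk⟩ := hLat.2.2.2 s hs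
  have hpos : 0 < ‖s.B.e‖ := by rw [← hn]; exact norm_pos_iff.2 hA
  rcases h with h | h
  · have h1 : s.A.e - s.B.e = I ^ k * (vv ^ s.j - I ^ (3 * k)) * s.B.e := by
      have : (I : ℂ) ^ k * I ^ (3 * k) = 1 := by
        rw [← pow_add]
        have : k + 3 * k = 4 * k := by ring
        rw [this, pow_mul, I_pow_four, one_pow]
      rw [mul_sub, this, hk]
      ring
    rw [h1, norm_mul, norm_mul, norm_I_pow, one_mul, hn] at h
    exact (hDl.2.2.2.2.2.1 s.j (3 * k)).trans (le_of_mul_le_mul_right h hpos)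
  · have h1 : s.A.e + s.B.e = I ^ k * (vv ^ s.j - I ^ (3 * k + 2)) * s.B.e := by
      have : (I : ℂ) ^ k * I ^ (3 * k + 2) = -1 := by
        rw [← pow_add]
        have : k + (3 * k + 2) = 4 * k + 2 := by ring
        rw [this, pow_add, pow_mul, I_pow_four, one_pow, one_mul, I_sq]
      rw [mul_sub, this, hk]
      ring
    rw [h1, norm_mul, norm_mul, norm_I_pow, one_mul, hn] at h
    exact (hDl.2.2.2.2.2.1 s.j (3 * k + 2)).trans (le_of_mul_le_mul_right h hpos)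

theorem gT_mem {T : Tile} (hT : T.e ≠ 0) (hc : T.c = true) : gT T ∈ T.set := by
  have h : T.w (gT T) = 7 / 10 + 4 / 10 * I := by
    simp only [Tile.w, gT]
    field_simp
    ring
  show 0 ≤ (T.w (gT T)).re ∧ 0 ≤ sg T.c * (T.w (gT T)).im ∧
    (T.w (gT T)).re + 2 * (sg T.c * (T.w (gT T)).im) ≤ 2
  rw [h, sg, hc]
  norm_num

theorem norm_cell (hB : SpecBas) {T : Tile} (hT : T.e ≠ 0) {t : ℕ} {w : List (Fin 5)} (hw : w ∈ wd t) :
    ‖(T.desc w).e‖ * √5 ^ t = ‖T.e‖ := by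
  have h := (hB.2.1 T w hT).2.1
  rwa [mem_wd.1 hw] at h

/-- the address of a near-coincident descendant pair -/
def Near (ε : ℝ) (i0 k1 : ℕ) (j' : ℤ) (σ : St) (m q : ℕ) : Prop :=
  ∃ w ∈ wd (i0 + m * k1 + 2), ∃ v ∈ wd (i0 + m * k1 + 2), np σ.A w = q + (m * k1 + 2) ∧
    (σ.A.desc w).c = true ∧ ‖gT (σ.A.desc w) - gT (σ.B.desc v)‖ ≤ ε * ‖(σ.A.desc w).e‖ ∧
    (σ.cell w v).j = j'

/-- the contradiction from two near-coincident pairs in translated cells -/
theorem two (hG : SpecGeo) (hB : SpecBas) (hLat : SpecLat) (hDl : SpecDl) {s : St} (hs : s.ok) (hC : Comp s)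
    {ε : ℝ} {i0 k1 m q : ℕ} {j' : ℤ} {t' i3 h : ℕ} (hh : 3 ≤ h)
    (hε : 800 * ε * √5 ^ i3 < 1) (hε0 : 0 < ε)
    (hθ1 : 10 * √5 * dl j' * √5 ^ (i3 + h + (i0 + m * k1 + 2)) ≤ 1 / 4)
    (hθ2 : 1 / 4 < 10 * √5 * dl j' * √5 ^ (i3 + h + (i0 + m * k1 + 2) + 1))
    {w' x1 x2 y v1 v2 : List (Fin 5)} (hw' : w' ∈ wd t') (hx1 : x1 ∈ wd i3) (hx2 : x2 ∈ wd i3) (hy : y ∈ wd h)
    (hne : x1 ≠ x2) (hnp : np (s.A.desc w') x1 = np (s.A.desc w') x2)
    (he : ((s.A.desc w').desc x1).e = ((s.A.desc w').desc x2).e)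
    (hc : ((s.A.desc w').desc x1).c = ((s.A.desc w').desc x2).c)
    (hv1 : v1 ∈ wd (t' + (i3 + h))) (hv2 : v2 ∈ wd (t' + (i3 + h)))
    (h1 : Near ε i0 k1 j' (s.cell (w' ++ (x1 ++ y)) v1) m q)
    (h2 : Near ε i0 k1 j' (s.cell (w' ++ (x2 ++ y)) v2) m q) : False := by
  obtain ⟨a1, ha1, b1, hb1, hp1, hc1, hg1, hj1⟩ := h1
  obtain ⟨a2, ha2, b2, hb2, hp2, hc2, hg2, hj2⟩ := h2
  rw [cell_append] at hj1 hj2
  simp only [St.cell] at hp1 hc1 hg1 hj1 hp2 hc2 hg2 hj2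
  rw [← desc_append] at hc1 hg1 hc2 hg2
  rw [← desc_append] at hg1 hg2
  set i' := i0 + m * k1 + 2 with hi'
  set A0 := s.A.desc w' with hA0
  have hA0e : A0.e ≠ 0 := (hB.2.1 s.A w' hs.1).1
  set T1 := A0.desc x1 with hT1
  set T2 := A0.desc x2 with hT2
  have hT1e : T1.e ≠ 0 := (hB.2.1 A0 x1 hA0e).1
  have hT2e : T2.e ≠ 0 := (hB.2.1 A0 x2 hA0e).1
  set τ := T2.P - T1.P with hτ
  have htr : T2 = ⟨T1.P + τ, T1.e, T1.c⟩ := by
    ext
    · simp [hτ]
    · exact he.symm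
    · rw [← hc]
  set A1 := T1.desc y with hA1
  set A2 := T2.desc y with hA2
  have hA1e : A1.e ≠ 0 := (hB.2.1 T1 y hT1e).1
  have hA2e : A2.e ≠ 0 := (hB.2.1 T2 y hT2e).1
  have hA2t : A2 = ⟨A1.P + τ, A1.e, A1.c⟩ := by rw [hA2, htr, desc_translate]
  have hnpy : np T1 y = np T2 y := by rw [htr, np_translate]
  have hd1 : s.A.desc (w' ++ (x1 ++ y)) = A1 := by rw [desc_append, desc_append]
  have hd2 : s.A.desc (w' ++ (x2 ++ y)) = A2 := by rw [desc_append, desc_append]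
  have hnpA : np s.A (w' ++ (x1 ++ y)) = np s.A (w' ++ (x2 ++ y)) := by
    rw [np_append, np_append, np_append, np_append, ← hA0, hnp, ← hT1, ← hT2, hnpy]
  have hu1 : w' ++ (x1 ++ y) ∈ wd (t' + (i3 + h)) := append_mem_wd hw' (append_mem_wd hx1 hy)
  have hu2 : w' ++ (x2 ++ y) ∈ wd (t' + (i3 + h)) := append_mem_wd hw' (append_mem_wd hx2 hy)
  set P1 := s.A.desc ((w' ++ (x1 ++ y)) ++ a1) with hP1
  set P2 := s.A.desc ((w' ++ (x2 ++ y)) ++ a2) with hP2
  set Q1 := s.B.desc (v1 ++ b1) with hQ1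
  set Q2 := s.B.desc (v2 ++ b2) with hQ2
  have hP1' : P1 = A1.desc a1 := by rw [hP1, desc_append, hd1]
  have hP2' : P2 = A2.desc a2 := by rw [hP2, desc_append, hd2]
  have hl1 : ((w' ++ (x1 ++ y)) ++ a1).length = ((w' ++ (x2 ++ y)) ++ a2).length := by
    rw [mem_wd.1 (append_mem_wd hu1 ha1), mem_wd.1 (append_mem_wd hu2 ha2)]
  have hl2 : (v1 ++ b1).length = (v2 ++ b2).length := by
    rw [mem_wd.1 (append_mem_wd hv1 hb1), mem_wd.1 (append_mem_wd hv2 hb2)]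
  have hn1 : np s.A ((w' ++ (x1 ++ y)) ++ a1) = np s.A ((w' ++ (x2 ++ y)) ++ a2) := by
    rw [np_append s.A (w' ++ (x1 ++ y)) a1, np_append s.A (w' ++ (x2 ++ y)) a2, hnpA, hp1, hp2]
  have hn2 : np s.B (v1 ++ b1) = np s.B (v2 ++ b2) := by
    have : (np s.B (v1 ++ b1) : ℤ) = np s.B (v2 ++ b2) := by
      rw [hn1] at hj1
      linarith
    exact_mod_cast this
  obtain ⟨⟨kA, hkA⟩, hPA⟩ := hLat.2.1 s.A _ _ hl1 hn1
  obtain ⟨⟨kB, hkB⟩, hPB⟩ := hLat.2.1 s.B _ _ hl2 hn2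
  have hP1e : P1.e ≠ 0 := (hB.2.1 s.A _ hs.1).1
  have hcomp : Comp (s.cell ((w' ++ (x1 ++ y)) ++ a1) (v1 ++ b1)) := by
    refine comp_cell hLat hC ?_
    rw [mem_wd.1 (append_mem_wd hu1 ha1), mem_wd.1 (append_mem_wd hv1 hb1)]
  obtain ⟨-, -, l, hl⟩ := hLat.2.2.2 _ hcomp
  have hj : (s.cell ((w' ++ (x1 ++ y)) ++ a1) (v1 ++ b1)).j = j' := hj1
  rw [hj] at hl
  have hl' : P1.e = I ^ l * vv ^ j' * Q1.e := hl
  -- sizes
  have hr1 : ‖P1.e‖ * √5 ^ i' = ‖A1.e‖ := by rw [hP1']; exact norm_cell hB hA1e ha1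
  have hr2 : ‖A1.e‖ * √5 ^ h = ‖T1.e‖ := norm_cell hB hT1e hy
  have hr3 : ‖T1.e‖ * √5 ^ i3 = ‖A0.e‖ := norm_cell hB hA0e hx1
  have hPn : 0 < ‖P1.e‖ := norm_pos_iff.2 hP1e
  have hP2e : P2.e ≠ 0 := (hB.2.1 s.A _ hs.1).1
  -- the centres
  have hm1 : gT P1 ∈ A1.set := by
    rw [hP1']
    refine (hB.2.1 A1 a1 hA1e).2.2 (gT_mem (hB.2.1 A1 a1 hA1e).1 ?_)
    rw [← hP1']
    exact hc1
  have hm2 : gT P2 ∈ A2.set := by
    rw [hP2']
    refine (hB.2.1 A2 a2 hA2e).2.2 (gT_mem (hB.2.1 A2 a2 hA2e).1 ?_)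
    rw [← hP2']
    exact hc2
  have hm1' : gT P1 ∈ A0.set := (hB.2.1 A0 x1 hA0e).2.2 ((hB.2.1 T1 y hT1e).2.2 hm1)
  have hm2' : gT P2 ∈ A0.set := (hB.2.1 A0 x2 hA0e).2.2 ((hB.2.1 T2 y hT2e).2.2 hm2)
  have hup : ‖gT P1 - gT P2‖ ≤ √5 * (‖P1.e‖ * √5 ^ (i3 + h + i')) := by
    have h0 := (hG A0 hA0e).2.2.2.2 _ hm1' _ hm2'
    have h3 : ‖A0.e‖ = ‖P1.e‖ * √5 ^ (i3 + h + i') := by
      rw [← hr3, ← hr2, ← hr1, pow_add, pow_add]
      ring
    rwa [h3] at h0
  have hdl0 := (hDl.2.1 j').1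
  have hx : dl j' * (10 * ‖gT P1 - gT P2‖) ≤ 1 / 4 * ‖P1.e‖ := by
    calc dl j' * (10 * ‖gT P1 - gT P2‖) ≤ dl j' * (10 * (√5 * (‖P1.e‖ * √5 ^ (i3 + h + i')))) := by gcongr
      _ = (10 * √5 * dl j' * √5 ^ (i3 + h + i')) * ‖P1.e‖ := by ring
      _ ≤ 1 / 4 * ‖P1.e‖ := by gcongr
  have h1i3 : (1 : ℝ) ≤ √5 ^ i3 := one_le_pow₀ (by rw [Real.one_le_sqrt]; norm_num)
  have hfin := arith hDl hP1e hkA hPA hkB hPB hl' hg1 hg2 hx (by nlinarith)
  -- lower bound
  have hτne : ‖T1.e‖ ≤ ‖τ‖ := by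
    obtain ⟨-, a, b, hab⟩ := hLat.2.1 A0 x1 x2 (by rw [mem_wd.1 hx1, mem_wd.1 hx2]) hnp
    have hτ' : ‖τ‖ = ‖T1.e‖ * ‖(a + b * I : ℂ)‖ := by
      rw [← norm_mul, ← hab, hτ, norm_sub_rev]
    rw [hτ']
    refine le_mul_of_one_le_right (norm_nonneg _) ?_
    by_contra hlt
    push Not at hlt
    have h0 : (a + b * I : ℂ) = 0 := GI.eq_zero ⟨a, b, rfl⟩ hlt
    rw [h0, mul_zero] at hab
    have hTT : T1 = T2 := by
      ext
      · exact sub_eq_zero.1 hab
      · exact he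
      · rw [← hc]
    have h3 := hB.2.2.1 A0 i3 hA0e x1 hx1 x2 hx2 hne
    rw [← hT1, ← hT2, ← hTT, Set.inter_self, (hG T1 hT1e).2.2.2.1] at h3
    rw [ENNReal.ofReal_eq_zero] at h3
    have : 0 < ‖T1.e‖ := norm_pos_iff.2 hT1e
    nlinarith
  have hlow : ‖T1.e‖ - √5 * ‖A1.e‖ ≤ ‖gT P1 - gT P2‖ := by
    have hm3 : gT P2 - τ ∈ A1.set := by
      rw [hA2t, mem_set_translate] at hm2
      exact hm2
    have h3 := (hG A1 hA1e).2.2.2.2 _ hm1 _ hm3
    have h4 : τ = (gT P1 - (gT P2 - τ)) - (gT P1 - gT P2) := by ring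
    have h5 := norm_sub_le (gT P1 - (gT P2 - τ)) (gT P1 - gT P2)
    rw [← h4] at h5
    linarith
  have hs5 : √5 * √5 = (5 : ℝ) := Real.mul_self_sqrt (by norm_num)
  have hs2 : (2 : ℝ) ≤ √5 := by
    rw [show (2 : ℝ) = √4 by rw [show (4 : ℝ) = 2 ^ 2 by norm_num]; simp]
    exact Real.sqrt_le_sqrt (by norm_num)
  have hhalf : 1 / 2 * ‖T1.e‖ ≤ ‖gT P1 - gT P2‖ := by
    refine le_trans ?_ hlow
    have h3 : 2 * √5 ≤ √5 ^ h := by
      calc 2 * √5 ≤ √5 ^ 3 := by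
            have : √5 ^ 3 = 5 * √5 := by rw [pow_succ, pow_two, hs5]
            rw [this]
            nlinarith
        _ ≤ √5 ^ h := pow_le_pow_right₀ (by linarith) hh
    have h4 : 0 < ‖A1.e‖ := norm_pos_iff.2 hA1e
    rw [← hr2]
    nlinarith
  have hT1P : ‖T1.e‖ = ‖P1.e‖ * √5 ^ (h + i') := by
    rw [← hr2, ← hr1, pow_add]
    ring
  rw [hT1P] at hhalf
  have h6 : dl j' * (10 * (1 / 2 * (‖P1.e‖ * √5 ^ (h + i')))) ≤ 20 * ε * ‖P1.e‖ := by
    refine le_trans ?_ hfin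
    gcongr
  have h7 : dl j' * √5 ^ (h + i') ≤ 4 * ε := by
    have : (dl j' * √5 ^ (h + i')) * (5 * ‖P1.e‖) ≤ 4 * ε * (5 * ‖P1.e‖) := by linarith
    exact le_of_mul_le_mul_right this (by positivity)
  have h8 : dl j' * √5 ^ (i3 + h + i') ≤ 4 * ε * √5 ^ i3 := by
    calc dl j' * √5 ^ (i3 + h + i') = dl j' * √5 ^ (h + i') * √5 ^ i3 := by rw [add_assoc, pow_add]; ring
      _ ≤ 4 * ε * √5 ^ i3 := by gcongr
  have h9 : 10 * √5 * dl j' * √5 ^ (i3 + h + i' + 1) = 50 * (dl j' * √5 ^ (i3 + h + i')) := by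
    rw [pow_succ]
    have : 10 * √5 * dl j' * (√5 ^ (i3 + h + i') * √5) =
      10 * (√5 * √5) * (dl j' * √5 ^ (i3 + h + i')) := by ring
    rw [this, hs5]
    ring
  rw [h9] at hθ2
  linarith

/-! ### masses -/

open Classical in
theorem mass (hB : SpecBas) {s : St} (hs : s.ok) {η' p Ce : ℝ}
    (hEta : ∀ (s : St) (t : ℕ) (l : ℝ), s.ok → 0 ≤ l →
      ExN t (fun s' => if s'.eta ≤ l then 1 else 0) s ≤ Ce * l / s.eta)
    {k L tc : ℕ} {G : ℕ → St → Prop} (hp : 0 < p) (hη' : 0 ≤ η') (h1 : Ce * η' / s.eta ≤ 1 / 16)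
    (h2 : pr G k (tc + L) s ≤ p / 4) (good : List (Fin 5) → List (Fin 5) → Prop)
    (hgood : ∀ w ∈ wd tc, ∀ v ∈ wd tc, 0 < ar (s.A.desc w) (s.B.desc v) → η' < (s.cell w v).eta →
      pr G k L (s.cell w v) < p → good w v) :
    1 / 2 * ar s.A s.B ≤ ∑ w ∈ wd tc, ∑ v ∈ wd tc, if good w v then ar (s.A.desc w) (s.B.desc v) else 0 := by
  have ha : 0 < ar s.A s.B := hs.2.2
  have e1 := hEta s tc η' hs hη'
  have e2 := ExN_pr_le hB G k tc L hs
  rw [ExN_cells hB _ _ hs] at e1 e2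
  have e3 := hB.2.2.2.1 s.A s.B tc hs.1 (ok_B hs)
  have key : ∀ w ∈ wd tc, ∀ v ∈ wd tc, ar (s.A.desc w) (s.B.desc v) ≤
      ar s.A s.B * (ar (s.A.desc w) (s.B.desc v) / ar s.A s.B *
        (if (s.cell w v).eta ≤ η' then 1 else 0)) +
      ar s.A s.B / p * (ar (s.A.desc w) (s.B.desc v) / ar s.A s.B * pr G k L (s.cell w v)) +
      (if good w v then ar (s.A.desc w) (s.B.desc v) else 0) := by
    intro w hw v hv
    rcases (ar_nonneg (s.A.desc w) (s.B.desc v)).eq_or_lt with h0 | h0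
    · rw [← h0]
      simp
    · have hok : (s.cell w v).ok := ok_desc hB hs (by rw [mem_wd.1 hw, mem_wd.1 hv]) h0 _
      have hpr := pr_nonneg hB G k L hok
      have hA : ar s.A s.B * (ar (s.A.desc w) (s.B.desc v) / ar s.A s.B *
          (if (s.cell w v).eta ≤ η' then 1 else 0)) =
          ar (s.A.desc w) (s.B.desc v) * (if (s.cell w v).eta ≤ η' then 1 else 0) := by
        field_simp
      have hF : ar s.A s.B / p * (ar (s.A.desc w) (s.B.desc v) / ar s.A s.B * pr G k L (s.cell w v)) =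
          ar (s.A.desc w) (s.B.desc v) * (pr G k L (s.cell w v) / p) := by
        field_simp
      rw [hA, hF]
      have hg0 : 0 ≤ (if good w v then ar (s.A.desc w) (s.B.desc v) else 0) := by
        split_ifs
        · exact h0.le
        · exact le_rfl
      have hF0 : 0 ≤ ar (s.A.desc w) (s.B.desc v) * (pr G k L (s.cell w v) / p) := by positivity
      by_cases c1 : (s.cell w v).eta ≤ η'
      · rw [if_pos c1, mul_one]
        linarith
      · rw [if_neg c1, mul_zero, zero_add]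
        by_cases c2 : pr G k L (s.cell w v) < p
        · rw [if_pos (hgood w hw v hv h0 (not_le.1 c1) c2)]
          linarith
        · have : 1 ≤ pr G k L (s.cell w v) / p := by
            rw [le_div_iff₀ hp, one_mul]
            exact not_lt.1 c2
          nlinarith
  have hsum := Finset.sum_le_sum (fun w hw => Finset.sum_le_sum (fun v hv => key w hw v hv))
  simp only [Finset.sum_add_distrib, ← Finset.mul_sum] at hsum
  rw [← e3] at hsum
  have e1' := mul_le_mul_of_nonneg_left (e1.trans h1) ha.le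
  have e2' := mul_le_mul_of_nonneg_left (e2.trans h2) (div_nonneg ha.le hp.le)
  have e4 : ar s.A s.B / p * (p / 4) = ar s.A s.B / 4 := by field_simp
  rw [e4] at e2'
  linarith

open Classical in
theorem classes {ι : Type*} (F : Finset ι) (N : ℝ) (hN : (F.card : ℝ) = N) (hN0 : 0 < N) {tc : ℕ} {s : St}
    (ha : 0 < ar s.A s.B) (g : ι → List (Fin 5) → List (Fin 5) → Prop) (g' : List (Fin 5) → List (Fin 5) → Prop)
    (hg' : ∀ w v, g' w v → ∃ c ∈ F, g c w v)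
    (h : 1 / 2 * ar s.A s.B ≤ ∑ w ∈ wd tc, ∑ v ∈ wd tc,
      if g' w v then ar (s.A.desc w) (s.B.desc v) else 0) :
    ∃ c ∈ F, 2 * (1 / (4 * N)) * ar s.A s.B ≤ ∑ w ∈ wd tc, ∑ v ∈ wd tc,
      if g c w v then ar (s.A.desc w) (s.B.desc v) else 0 := by
  by_contra hcon
  push Not at hcon
  have h1 : ∑ w ∈ wd tc, ∑ v ∈ wd tc, (if g' w v then ar (s.A.desc w) (s.B.desc v) else 0) ≤
      ∑ c ∈ F, ∑ w ∈ wd tc, ∑ v ∈ wd tc, if g c w v then ar (s.A.desc w) (s.B.desc v) else 0 := by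
    rw [Finset.sum_comm (s := F)]
    refine Finset.sum_le_sum (fun w _ => ?_)
    rw [Finset.sum_comm (s := F)]
    refine Finset.sum_le_sum (fun v _ => ?_)
    have h0 : ∀ c ∈ F, 0 ≤ (if g c w v then ar (s.A.desc w) (s.B.desc v) else 0) := by
      intro c _
      split_ifs
      · exact ar_nonneg _ _
      · exact le_rfl
    split_ifs with hc
    · obtain ⟨c, hcF, hgc⟩ := hg' _ _ hc
      refine le_trans (le_of_eq ?_) (Finset.single_le_sum h0 hcF)
      rw [if_pos hgc]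
    · exact Finset.sum_nonneg h0
  have hne : F.Nonempty := by
    rw [← Finset.card_pos]
    have : (0 : ℝ) < F.card := by rw [hN]; exact hN0
    exact_mod_cast this
  have h2 := Finset.sum_lt_sum_of_nonempty hne hcon
  rw [Finset.sum_const, nsmul_eq_mul, hN] at h2
  have h3 : N * (2 * (1 / (4 * N)) * ar s.A s.B) = 1 / 2 * ar s.A s.B := by
    field_simp
    norm_num
  rw [h3] at h2
  linarith

/-! ### constants -/

theorem lam_nonneg (hDl : SpecDl) (j : ℤ) : 0 ≤ lam j := by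
  rw [lam]
  split_ifs with h
  · exact le_rfl
  · refine Real.log_nonneg ?_
    rw [le_div_iff₀ (hDl.2.2.1 j h), one_mul]
    exact (hDl.2.1 j).2

theorem exists_sep (hDl : SpecDl) (N : ℕ) : ∃ ε : ℝ, 0 < ε ∧ ∀ m : ℤ, m ≠ 0 → |m| ≤ N → ε ≤ dl m := by
  induction N with
  | zero =>
    refine ⟨1, one_pos, fun m h0 h1 => ?_⟩
    exfalso
    apply h0
    have : |m| ≤ 0 := by exact_mod_cast h1
    exact abs_eq_zero.1 (le_antisymm this (abs_nonneg _))
  | succ N ih =>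
    obtain ⟨ε, hε, h⟩ := ih
    refine ⟨min ε (dl (N + 1)), lt_min hε (hDl.2.2.1 _ (by omega)), fun m h0 h1 => ?_⟩
    rcases lt_or_ge (|m|) (N + 1) with h2 | h2
    · exact (min_le_left _ _).trans (h m h0 (by omega))
    · refine (min_le_right _ _).trans (le_of_eq ?_)
      have h3 : |m| = N + 1 := le_antisymm (by exact_mod_cast h1) h2
      have h5 : m = N + 1 ∨ m = -(N + 1) := by
        rcases abs_choice m with h6 | h6
        · left; rw [← h6, h3]
        · right; rw [← h3, h6, neg_neg]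
      rcases h5 with h4 | h4
      · rw [h4]
      · rw [h4, hDl.2.2.2.1]

theorem exists_i3 {c : ℝ} (hc : 0 < c) : ∃ i : ℕ, ((i + 1) * 8 : ℝ) < c * 5 ^ i := by
  obtain ⟨i, hi⟩ := pow_unbounded_of_one_lt (8 / c) (by norm_num : (1 : ℝ) < 5 / 2)
  refine ⟨i, ?_⟩
  have h1 : ((i + 1 : ℕ) : ℝ) ≤ 2 ^ i := by exact_mod_cast Nat.lt_two_pow_self
  push_cast at h1
  rw [div_lt_iff₀ hc, div_pow, div_mul_eq_mul_div, lt_div_iff₀ (by positivity)] at hi
  nlinarith

theorem exists_D {δ : ℝ} (h0 : 0 < δ) (h1 : δ ≤ 1) : ∃ D : ℕ, 1 ≤ δ * √5 ^ D ∧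
    (D : ℝ) ≤ 2 * Real.log (1 / δ) + 1 := by
  have hlog : 0 ≤ Real.log (1 / δ) := Real.log_nonneg (by rw [le_div_iff₀ h0, one_mul]; exact h1)
  have hlog5 : 1 ≤ Real.log 5 := by
    rw [Real.le_log_iff_exp_le (by norm_num)]
    have := Real.exp_one_lt_d9
    linarith
  refine ⟨⌈2 * Real.log (1 / δ) / Real.log 5⌉₊, ?_, ?_⟩
  · have h2 := Nat.le_ceil (2 * Real.log (1 / δ) / Real.log 5)
    set D := ⌈2 * Real.log (1 / δ) / Real.log 5⌉₊
    rw [div_le_iff₀ (by linarith)] at h2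
    have h3 : 1 / δ ≤ √5 ^ D := by
      rw [← Real.log_le_log_iff (by positivity) (by positivity), Real.log_pow, Real.log_sqrt (by norm_num)]
      linarith
    rw [div_le_iff₀ h0] at h3
    linarith
  · have h2 := Nat.ceil_lt_add_one (by positivity : 0 ≤ 2 * Real.log (1 / δ) / Real.log 5)
    refine h2.le.trans ?_
    gcongr
    exact div_le_self (by positivity) hlog5

end Pool.Agent.Lib.MP_d437ed.Hit.WM

namespace Pool.Agent.Lib.MP_d437ed.Hit

open WM in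
theorem specW (hG : SpecGeo) (hB : SpecBas) (hBnd : SpecBnd) (hMart : SpecMart) (hEta : SpecEta)
    (hLat : SpecLat) (hDl : SpecDl) (hR : SpecR) : SpecW := by
  classical
  obtain ⟨Cb, hCb, hBnd⟩ := hBnd
  obtain ⟨C0, C1, hC0, hC1, hMart⟩ := hMart
  obtain ⟨Ce, hCe, hEta⟩ := hEta
  have hEta1 : ∀ (s : St) (t : ℕ) (l : ℝ), s.ok → 0 ≤ l →
      ExN t (fun s' => if s'.eta ≤ l then 1 else 0) s ≤ Ce * l / s.eta := fun s t l h1 h2 => (hEta s t l h1 h2).1
  intro η0 hη0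
  obtain ⟨η', hη'⟩ : ∃ η' : ℝ, η' = η0 / (16 * Ce) := ⟨_, rfl⟩
  have hη'0 : 0 < η' := by rw [hη']; positivity
  have hη'le : η' ≤ η0 := by
    rw [hη']
    exact div_le_self hη0.le (by linarith)
  obtain ⟨C2, i0, hR⟩ := hR η' hη'0
  obtain ⟨C3, hC3⟩ := exists_nat_ge (2 * C0 + C1 * Real.log (1 / η') + C1 * Real.log (1 / η0) + 1)
  obtain ⟨ε0, hε0, hsep⟩ := exists_sep hDl (C3 + 2 * C2)
  obtain ⟨F, hF⟩ : ∃ F : Finset (ℕ × ℕ), F = Finset.range (C2 + 1) ×ˢ Finset.range (i0 + 1) := ⟨_, rfl⟩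
  obtain ⟨N, hN⟩ : ∃ N : ℝ, N = F.card := ⟨_, rfl⟩
  have hN0 : 0 < N := by
    rw [hN, hF, Finset.card_product, Finset.card_range, Finset.card_range]
    positivity
  obtain ⟨pc, hpc⟩ : ∃ pc : ℝ, pc = 1 / (4 * N) := ⟨_, rfl⟩
  have hpc0 : 0 < pc := by rw [hpc]; positivity
  obtain ⟨i3, hi3⟩ := exists_i3 hpc0
  have h5 : (0 : ℝ) < √5 := by positivity
  have h51 : (1 : ℝ) ≤ √5 := by rw [Real.one_le_sqrt]; norm_num
  obtain ⟨ε, hε⟩ : ∃ ε : ℝ, ε = min (ε0 / 4) (1 / (1600 * √5 ^ i3)) := ⟨_, rfl⟩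
  have hεpos : 0 < ε := by rw [hε]; exact lt_min (by positivity) (by positivity)
  have hε1 : 2 * ε < ε0 := by
    have : ε ≤ ε0 / 4 := by rw [hε]; exact min_le_left _ _
    linarith
  have hε2 : 800 * ε * √5 ^ i3 < 1 := by
    have : ε ≤ 1 / (1600 * √5 ^ i3) := by rw [hε]; exact min_le_right _ _
    rw [le_div_iff₀ (by positivity)] at this
    linarith
  obtain ⟨k1, L, p, hp, hL, hR1⟩ := hR ε hεpos
  obtain ⟨p1, hp1⟩ : ∃ p1 : ℝ, p1 = min p 1 := ⟨_, rfl⟩
  have hp10 : 0 < p1 := by rw [hp1]; exact lt_min hp one_pos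
  obtain ⟨δs, hδs⟩ : ∃ δs : ℝ, δs = 1 / (40 * √5 * √5 ^ (i3 + 3 + (i0 + C2 * k1 + 2))) := ⟨_, rfl⟩
  have hδs0 : 0 < δs := by rw [hδs]; positivity
  obtain ⟨ε', hε'⟩ : ∃ ε' : ℝ, ε' = min ε δs := ⟨_, rfl⟩
  have hε'0 : 0 < ε' := by rw [hε']; exact lt_min hεpos hδs0
  obtain ⟨k1', L', p', hp', hL', hR2⟩ := hR ε' hε'0
  obtain ⟨tm, htm⟩ := pow_unbounded_of_one_lt (Cb / (pc * η0)) (by
    rw [Real.lt_sqrt (by norm_num)]; norm_num : (1 : ℝ) < √5)
  have htm' : Cb ≤ pc * η0 * √5 ^ tm := by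
    rw [div_lt_iff₀ (by positivity)] at htm
    linarith
  refine ⟨min p' (p1 / 4), C2, L' + tm + L + 3, lt_min hp' (by positivity), by positivity, ?_⟩
  intro k l s hs hC hη hj hl
  by_contra hcon
  push Not at hcon
  obtain ⟨G, hG'⟩ : ∃ G : ℕ → St → Prop, G = GZ (Mh (k + l) s) (1 / 2) := ⟨_, rfl⟩
  rw [← hG'] at hcon
  obtain ⟨S, hS⟩ : ∃ S : ℝ, S = ∑ i ∈ Finset.Icc (-(C2 : ℤ)) C2, lam (s.j + i) := ⟨_, rfl⟩
  rw [← hS] at hl
  have hS0 : 0 ≤ S := by rw [hS]; exact Finset.sum_nonneg (fun i _ => lam_nonneg hDl _)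
  by_cases hcase : ∃ j' : ℤ, j' ≠ 0 ∧ |j' - s.j| ≤ C2 ∧ dl j' ≤ ε'
  · -- Case 2
    obtain ⟨j', hj'0, hj'w, hj'd⟩ := hcase
    have hδ0 := hDl.2.2.1 j' hj'0
    have hδ1 := (hDl.2.1 j').2
    have hδε : dl j' ≤ ε := hj'd.trans (by rw [hε']; exact min_le_left _ _)
    have hδδ : dl j' ≤ δs := hj'd.trans (by rw [hε']; exact min_le_right _ _)
    obtain ⟨D, hD1, hD2⟩ := exists_D hδ0 hδ1
    have hlam : Real.log (1 / dl j') ≤ S := by
      have h1 : lam j' = Real.log (1 / dl j') := by rw [lam, if_neg hj'0]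
      rw [← h1, hS]
      have h2 : lam j' = lam (s.j + (j' - s.j)) := by congr 1; ring
      rw [h2]
      refine Finset.single_le_sum (f := fun i => lam (s.j + i)) (fun i _ => lam_nonneg hDl _) ?_
      rw [Finset.mem_Icc]
      exact abs_le.1 hj'w
    have hlen : tm + D + L ≤ l := by
      have h0 : ((tm + D + L : ℕ) : ℝ) ≤ l := by
        refine le_trans ?_ hl
        push_cast
        have h1 : (0 : ℝ) ≤ L' := Nat.cast_nonneg _
        have h2 : (0 : ℝ) ≤ tm := Nat.cast_nonneg _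
        have h3 : (0 : ℝ) ≤ L := Nat.cast_nonneg _
        nlinarith
      exact_mod_cast h0
    obtain ⟨r, hr⟩ : ∃ r : ℕ, r = l - (tm + D + L) := ⟨_, rfl⟩
    obtain ⟨k'', hk''⟩ : ∃ k'' : ℕ, k'' = k + r := ⟨_, rfl⟩
    have hprs : pr G k'' (tm + D + L) s ≤ p1 / 4 := by
      have h1 := pr_mono_time hB G k r (tm + D + L) hs
      have h2 : tm + D + L + r = l := by omega
      rw [h2, ← hk''] at h1
      exact h1.trans (hcon.le.trans (min_le_right _ _))
    have hM0 : Mh (k'' + L + (tm + D)) s = Mh (k + l) s := by congr 1; omega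
    have hmass := mass hB hs hEta1 (k := k'') (L := L) (tc := tm + D) (G := G) hp10 hη'0.le (by
      rw [div_le_iff₀ (lt_of_lt_of_le hη0 hη), hη']
      have : Ce * (η0 / (16 * Ce)) = 1 / 16 * η0 := by
        have : Ce ≠ 0 := by positivity
        field_simp
      rw [this]
      linarith) hprs (fun w v => ∃ c ∈ F, Near ε i0 k1 j' (s.cell w v) c.1 c.2) (by
      intro w hw v hv har heta hpr
      have hl1 : w.length = v.length := by rw [mem_wd.1 hw, mem_wd.1 hv]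
      have hok : (s.cell w v).ok := ok_desc hB hs hl1 har _
      have hcomp : Comp (s.cell w v) := comp_cell hLat hC hl1
      have hMs : |Mh (k'' + L) (s.cell w v) - Mh (k + l) s| < 1 / 2 := by
        by_contra h0
        push Not at h0
        have : G (k'' + L) (s.cell w v) := by rw [hG']; exact Or.inl h0
        rw [pr_of this] at hpr
        have : p1 ≤ 1 := by rw [hp1]; exact min_le_right _ _
        linarith
      have hpr2 : pr (GM (Mh (k'' + L) (s.cell w v)) 1) k'' L (s.cell w v) < p := by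
        refine lt_of_le_of_lt ?_ (lt_of_lt_of_le hpr (by rw [hp1]; exact min_le_left _ _))
        refine pr_mono hB ?_ _ _ hok
        intro n s' _ hs'
        rw [hG']
        left
        have h1 : (1 : ℝ) ≤ |Mh n s' - Mh (k'' + L) (s.cell w v)| := hs'
        have h2 := abs_sub_abs_le_abs_sub (Mh n s' - Mh (k'' + L) (s.cell w v))
          (-(Mh (k'' + L) (s.cell w v) - Mh (k + l) s))
        have h3 : Mh n s' - Mh (k'' + L) (s.cell w v) - -(Mh (k'' + L) (s.cell w v) - Mh (k + l) s) =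
          Mh n s' - Mh (k + l) s := by ring
        rw [h3, abs_neg] at h2
        linarith
      obtain ⟨m, q, w1, v1, hm, hq, hw1, hv1, hnp, hcA, hcB, hg, he, hd, har1⟩ :=
        hR1 k'' (s.cell w v) hok heta.le hpr2
      refine ⟨(m, q), ?_, w1, hw1, v1, hv1, hnp, hcA, hg, ?_⟩
      · rw [hF, Finset.mem_product, Finset.mem_range, Finset.mem_range]
        exact ⟨by omega, by omega⟩
      · have hl2 : w1.length = v1.length := by rw [mem_wd.1 hw1, mem_wd.1 hv1]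
        have hcomp' : Comp ((s.cell w v).cell w1 v1) := comp_cell hLat hcomp hl2
        have hdl := dl_le hLat hDl hcomp' he
        have hj1 : |((s.cell w v).cell w1 v1).j - (s.cell w v).j| ≤ C2 := by
          have : ((s.cell w v).cell w1 v1).j - (s.cell w v).j =
            (np (s.cell w v).B v1 : ℤ) - np (s.cell w v).A w1 := by
            simp only [St.cell]
            ring
          rw [this]
          exact hd
        have hj2 : |(s.cell w v).j - s.j| ≤ C3 := by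
          have h1 := hMart (k'' + L) (s.cell w v) hok
          have h2 := hMart (k + l) s hs
          have h3 : Real.log (1 / (s.cell w v).eta) ≤ Real.log (1 / η') := by
            refine Real.log_le_log (by have := lt_trans hη'0 heta; positivity) ?_
            exact one_div_le_one_div_of_le hη'0 heta.le
          have h4 : Real.log (1 / s.eta) ≤ Real.log (1 / η0) := by
            refine Real.log_le_log (by have := lt_of_lt_of_le hη0 hη; positivity) ?_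
            exact one_div_le_one_div_of_le hη0 hη
          have h5 : |(((s.cell w v).j - s.j : ℤ) : ℝ)| ≤ C3 := by
            push_cast
            refine le_trans ?_ hC3
            have h6 : ((s.cell w v).j : ℝ) - s.j = -(Mh (k'' + L) (s.cell w v) - (s.cell w v).j) +
              (Mh (k'' + L) (s.cell w v) - Mh (k + l) s) + (Mh (k + l) s - s.j) := by ring
            rw [h6]
            refine (abs_add_three _ _ _).trans ?_
            rw [abs_neg]
            have h7 := mul_le_mul_of_nonneg_left h3 hC1.le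
            have h8 := mul_le_mul_of_nonneg_left h4 hC1.le
            linarith
          exact_mod_cast h5
        by_contra hne
        have h1 := hsep (((s.cell w v).cell w1 v1).j - j') (sub_ne_zero.2 hne) (by
          have h2 : ((s.cell w v).cell w1 v1).j - j' = (((s.cell w v).cell w1 v1).j - (s.cell w v).j) +
            ((s.cell w v).j - s.j) + -(j' - s.j) := by ring
          rw [h2]
          refine (abs_add_three _ _ _).trans ?_
          rw [abs_neg]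
          push_cast
          linarith)
        have h2 := hDl.2.2.2.2.1 ((s.cell w v).cell w1 v1).j j'
        linarith)
    obtain ⟨⟨m, q⟩, hmq, hsel⟩ := classes F N hN.symm hN0 hs.2.2
      (fun c w v => Near ε i0 k1 j' (s.cell w v) c.1 c.2) _ (fun w v h => h) hmass
    rw [← hpc] at hsel
    have hm : m ≤ C2 := by
      rw [hF, Finset.mem_product, Finset.mem_range, Finset.mem_range] at hmq
      have := hmq.1
      simp only at this
      omega
    -- the scale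
    have hex : ∃ n : ℕ, 1 / 4 < 10 * √5 * dl j' * √5 ^ (i3 + (3 + n) + (i0 + m * k1 + 2)) := by
      refine ⟨D, ?_⟩
      have h1 : √5 ^ D ≤ √5 ^ (i3 + (3 + D) + (i0 + m * k1 + 2)) :=
        pow_le_pow_right₀ h51 (by omega)
      have h2 := mul_le_mul_of_nonneg_left h1 hδ0.le
      have h3 : 10 * √5 * dl j' * √5 ^ (i3 + (3 + D) + (i0 + m * k1 + 2)) =
        10 * √5 * (dl j' * √5 ^ (i3 + (3 + D) + (i0 + m * k1 + 2))) := by ring
      rw [h3]
      nlinarith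
    have hex0 : ¬ (1 / 4 < 10 * √5 * dl j' * √5 ^ (i3 + (3 + 0) + (i0 + m * k1 + 2))) := by
      push Not
      have h1 : √5 ^ (i3 + (3 + 0) + (i0 + m * k1 + 2)) ≤ √5 ^ (i3 + 3 + (i0 + C2 * k1 + 2)) := by
        refine pow_le_pow_right₀ h51 ?_
        have := Nat.mul_le_mul_right k1 hm
        omega
      calc 10 * √5 * dl j' * √5 ^ (i3 + (3 + 0) + (i0 + m * k1 + 2)) ≤
          10 * √5 * δs * √5 ^ (i3 + 3 + (i0 + C2 * k1 + 2)) := by gcongr
        _ = 1 / 4 := by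
          rw [hδs]
          field_simp
          norm_num
    obtain ⟨n1, hn1, hn2⟩ : ∃ n1 : ℕ,
        10 * √5 * dl j' * √5 ^ (i3 + (3 + n1) + (i0 + m * k1 + 2)) ≤ 1 / 4 ∧
        1 / 4 < 10 * √5 * dl j' * √5 ^ (i3 + (3 + n1) + (i0 + m * k1 + 2) + 1) := by
      have h1 := Nat.find_spec hex
      have h0 : Nat.find hex ≠ 0 := by
        intro h0
        rw [h0] at h1
        exact hex0 h1
      obtain ⟨n1, hn1⟩ := Nat.exists_eq_succ_of_ne_zero h0
      refine ⟨n1, ?_, ?_⟩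
      · exact not_lt.1 (Nat.find_min hex (by omega))
      · rw [hn1] at h1
        have h2 : i3 + (3 + n1) + (i0 + m * k1 + 2) + 1 = i3 + (3 + (n1 + 1)) + (i0 + m * k1 + 2) := by omega
        rw [h2]
        exact h1
    have hlt : i3 + (3 + n1) ≤ D := by
      by_contra h0
      push Not at h0
      have h1 : √5 ^ D ≤ √5 ^ (i3 + (3 + n1) + (i0 + m * k1 + 2)) := pow_le_pow_right₀ h51 (by omega)
      have h2 := mul_le_mul_of_nonneg_left h1 hδ0.le
      have h3 : 10 * √5 * dl j' * √5 ^ (i3 + (3 + n1) + (i0 + m * k1 + 2)) =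
        10 * √5 * (dl j' * √5 ^ (i3 + (3 + n1) + (i0 + m * k1 + 2))) := by ring
      rw [h3] at hn1
      nlinarith
    obtain ⟨t', ht'⟩ : ∃ t' : ℕ, t' = tm + (D - (i3 + (3 + n1))) := ⟨_, rfl⟩
    have htc : tm + D = t' + (i3 + (3 + n1)) := by omega
    rw [htc] at hsel
    have harea : Cb * ‖s.A.e‖ ^ 2 / √5 ^ t' ≤ pc * ar s.A s.B := by
      have hA0 : 0 < ‖s.A.e‖ ^ 2 := by
        have := norm_pos_iff.2 hs.1
        positivity
      have h1 : η0 * ‖s.A.e‖ ^ 2 ≤ ar s.A s.B := by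
        have h2 := hη
        rw [St.eta, le_div_iff₀ hA0] at h2
        exact h2
      have h2 : √5 ^ tm ≤ √5 ^ t' := pow_le_pow_right₀ h51 (by omega)
      rw [div_le_iff₀ (by positivity)]
      calc Cb * ‖s.A.e‖ ^ 2 ≤ (pc * η0 * √5 ^ tm) * ‖s.A.e‖ ^ 2 := by gcongr
        _ = pc * (η0 * ‖s.A.e‖ ^ 2) * √5 ^ tm := by ring
        _ ≤ pc * ar s.A s.B * √5 ^ t' :=
          mul_le_mul (mul_le_mul_of_nonneg_left h1 hpc0.le) h2 (by positivity)
            (mul_nonneg hpc0.le hs.2.2.le)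
    obtain ⟨w', hw', x1, hx1, x2, hx2, y, hy, hne, hnp, he, hc, v1, hv1, v2, hv2, hn1', hn2'⟩ :=
      select hG hB hLat hBnd hs hpc0 harea hi3 (fun w v => Near ε i0 k1 j' (s.cell w v) m q) hsel
    exact two hG hB hLat hDl hs hC (by omega) hε2 hεpos hn1 hn2 hw' hx1 hx2 hy hne hnp he hc hv1 hv2 hn1' hn2'
  · -- Case 1
    push Not at hcase
    have hlL : L' ≤ l := by
      have h0 : (L' : ℝ) ≤ l := by
        refine le_trans ?_ hl
        have h1 : (0 : ℝ) ≤ L' := Nat.cast_nonneg _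
        have h2 : (0 : ℝ) ≤ tm := Nat.cast_nonneg _
        have h3 : (0 : ℝ) ≤ L := Nat.cast_nonneg _
        nlinarith
      exact_mod_cast h0
    obtain ⟨r, hr⟩ : ∃ r : ℕ, r = l - L' := ⟨_, rfl⟩
    have hkl : k + r + L' = k + l := by omega
    have h1 := pr_mono_time hB G k r L' hs
    have hLr : L' + r = l := by omega
    rw [hLr] at h1
    have h2 : pr (GM (Mh (k + r + L') s) 1) (k + r) L' s ≤ pr G (k + r) L' s := by
      refine pr_mono hB ?_ _ _ hs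
      intro n s' _ hs'
      rw [hG', ← hkl]
      left
      have : (1 : ℝ) ≤ |Mh n s' - Mh (k + r + L') s| := hs'
      linarith
    have hpp : pr G (k + r) L' s < p' := lt_of_le_of_lt h1 (lt_of_lt_of_le hcon (min_le_left _ _))
    obtain ⟨m, q, w, v, hm, hq, hw, hv, hnp, hcA, hcB, hg, he, hd, har⟩ :=
      hR2 (k + r) s hs (hη'le.trans hη) (lt_of_le_of_lt h2 hpp)
    have hl2 : w.length = v.length := by rw [mem_wd.1 hw, mem_wd.1 hv]
    have hcomp : Comp (s.cell w v) := comp_cell hLat hC hl2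
    have hdl := dl_le hLat hDl hcomp he
    have hjc : (s.cell w v).j = 0 := by
      by_contra h0
      have h3 := hcase _ h0 (by
        have : (s.cell w v).j - s.j = (np s.B v : ℤ) - np s.A w := by
          simp only [St.cell]
          ring
        rw [this]
        exact hd)
      linarith
    obtain ⟨r', hr'⟩ : ∃ r' : ℕ, r' = L' - (i0 + m * k1' + 2) := ⟨_, rfl⟩
    have hmk : m * k1' ≤ C2 * k1' := Nat.mul_le_mul_right k1' hm
    have hLr' : i0 + m * k1' + 2 + r' = L' := by omega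
    have h3 := cell_pr_le hB G (k + r) (i0 + m * k1' + 2) r' hs hw hv (by
      rw [hG']
      exact Or.inr hjc)
    rw [hLr'] at h3
    have h4 : p' ≤ ar (s.A.desc w) (s.B.desc v) / ar s.A s.B := by
      rw [le_div_iff₀ hs.2.2]
      exact har
    linarith

end Pool.Agent.Lib.MP_d437ed.Hit
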