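import Pool.Agent.Lib.MP_d437ed.Hit.BND
import Pool.Agent.Lib.MP_d437ed.Hit.Bas
import Pool.Agent.Lib.MP_d437ed.Hit.Can
import Pool.Agent.Lib.MP_d437ed.Hit.Coal
import Pool.Agent.Lib.MP_d437ed.Hit.Diss
import Pool.Agent.Lib.MP_d437ed.Hit.Dl
import Pool.Agent.Lib.MP_d437ed.Hit.Eta
import Pool.Agent.Lib.MP_d437ed.Hit.Fin
import Pool.Agent.Lib.MP_d437ed.Hit.Geo
import Pool.Agent.Lib.MP_d437ed.Hit.Good
import Pool.Agent.Lib.MP_d437ed.Hit.Inn
import Pool.Agent.Lib.MP_d437ed.Hit.Lat
import Pool.Agent.Lib.MP_d437ed.Hit.MART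
import Pool.Agent.Lib.MP_d437ed.Hit.R1
import Pool.Agent.Lib.MP_d437ed.Hit.R2
import Pool.Agent.Lib.MP_d437ed.Hit.R
import Pool.Agent.Lib.MP_d437ed.Hit.Hitting
import Pool.Agent.Lib.MP_d437ed.Hit.W

namespace Pool.Agent.Lib.MP_d437ed.Hit

theorem bas : SpecBas := specBas specGeo (specDiss specGeo)
theorem bnd : SpecBnd := specBnd specGeo bas
theorem mart : SpecMart := specMart specGeo bas bnd
theorem eta : SpecEta := specEta specGeo bas bnd
theorem inn : SpecInn := specInn specGeo bas bnd
theorem r1 : SpecR1 := specR1 specGeo bas mart specCan specSec inn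
theorem r2 : SpecR2 := specR2 specCan specGeo bas
theorem good : SpecGood := specGood specDl
theorem coal : SpecCoal := specCoal specGeo bas

theorem w_of (hR : SpecR) : SpecW := specW specGeo bas bnd mart eta specLat specDl hR

theorem fin_of (hHit : SpecHit) : SpecFin := specFin bas specLat hHit coal

theorem r : SpecR := specR r1 r2 specCan specSec bas
theorem w : SpecW := w_of r
theorem hit : SpecHit := specHit bas eta mart good w specLat specDl

/-- the coalescence theorem, without hypotheses -/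
theorem fin : SpecFin := fin_of hit

end Pool.Agent.Lib.MP_d437ed.Hit
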