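import Pool.Agent.Lib.MP_d437ed.Hit.Basics

/-!
Module BND (helper7): descendants of `A` crossing the boundary of `B` have small total area.
-/

noncomputable section

open MeasureTheory Complex

namespace Pool.Agent.Lib.MP_d437ed.Hit

namespace BndM

theorem sg_abs (c : Bool) : |sg c| = 1 := by cases c <;> simp [sg]

theorem sg_sq (c : Bool) : sg c * sg c = 1 := by cases c <;> simp [sg]

/-- centres in the frame of `B` -/
def cen (c : Bool) (δ : ℝ) : Fin 3 → ℤ → ℂ := fun k j =>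
  if k = 0 then (j * δ : ℝ) * I
  else if k = 1 then ((j * δ : ℝ) : ℂ)
  else ((2 - 2 * (j * δ) : ℝ) : ℂ) + ((sg c * (j * δ) : ℝ) : ℂ) * I

theorem norm_le_of (z : ℂ) {a b : ℝ} (h1 : |z.re| ≤ a) (h2 : |z.im| ≤ b) : ‖z‖ ≤ a + b := by
  have := Complex.norm_le_abs_re_add_abs_im z
  linarith

theorem round_bound {δ y : ℝ} (hδ : 0 < δ) {N : ℝ} (hN : |y| ≤ N) :
    |y - round (y / δ) * δ| ≤ δ / 2 ∧ |(round (y / δ) : ℝ)| ≤ N / δ + 1 := by
  have h := abs_sub_round (y / δ)
  constructor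
  · have : y - round (y / δ) * δ = (y / δ - round (y / δ)) * δ := by
      field_simp
    rw [this, abs_mul, abs_of_pos hδ]
    nlinarith
  · have h1 : |(round (y / δ) : ℝ)| ≤ |y / δ| + 1 / 2 := by
      have := abs_sub_abs_le_abs_sub (round (y / δ) : ℝ) (y / δ)
      rw [abs_sub_comm] at this
      linarith
    have h2 : |y / δ| ≤ N / δ := by
      rw [abs_div, abs_of_pos hδ]
      gcongr
    linarith

/-- a point near the boundary of the model triangle is near one of the centres -/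
theorem near_cen {c : Bool} {δ : ℝ} (hδ : 0 < δ) {M : ℤ} (hM : (2 + δ) / δ + 1 ≤ M) {u u0 u1 : ℂ}
    (h0 : ‖u - u0‖ ≤ δ) (h1 : ‖u - u1‖ ≤ δ)
    (hu0 : 0 ≤ u0.re ∧ 0 ≤ sg c * u0.im ∧ u0.re + 2 * (sg c * u0.im) ≤ 2)
    (hu1 : ¬ (0 ≤ u1.re ∧ 0 ≤ sg c * u1.im ∧ u1.re + 2 * (sg c * u1.im) ≤ 2)) :
    ∃ k : Fin 3, ∃ j ∈ Finset.Icc (-M) M, ‖u - cen c δ k j‖ ≤ 5 * δ := by
  obtain ⟨a1, a2, a3⟩ := hu0
  have r0 : |u.re - u0.re| ≤ δ := (by simpa using Complex.abs_re_le_norm (u - u0) : |u.re - u0.re| ≤ ‖u - u0‖).trans h0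
  have i0 : |u.im - u0.im| ≤ δ := (by simpa using Complex.abs_im_le_norm (u - u0) : |u.im - u0.im| ≤ ‖u - u0‖).trans h0
  have r1 : |u.re - u1.re| ≤ δ := (by simpa using Complex.abs_re_le_norm (u - u1) : |u.re - u1.re| ≤ ‖u - u1‖).trans h1
  have i1 : |u.im - u1.im| ≤ δ := (by simpa using Complex.abs_im_le_norm (u - u1) : |u.im - u1.im| ≤ ‖u - u1‖).trans h1
  have i0' : |sg c * u.im - sg c * u0.im| ≤ δ := by
    rw [← mul_sub, abs_mul, sg_abs, one_mul]; exact i0
  have i1' : |sg c * u.im - sg c * u1.im| ≤ δ := by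
    rw [← mul_sub, abs_mul, sg_abs, one_mul]; exact i1
  have hs : |sg c * u.im| = |u.im| := by rw [abs_mul, sg_abs, one_mul]
  rw [abs_le] at r0 i0' r1 i1'
  have bre : |u.re| ≤ 2 + δ := by
    rw [abs_le]; constructor <;> linarith
  have bim : |sg c * u.im| ≤ 2 + δ := by
    rw [abs_le]; constructor <;> linarith
  have memM : ∀ y : ℝ, |y| ≤ 2 + δ → round (y / δ) ∈ Finset.Icc (-M) M := by
    intro y hy
    have := (round_bound hδ hy).2
    have h2 : |(round (y / δ) : ℝ)| ≤ (M : ℝ) := this.trans hM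
    rw [Finset.mem_Icc]
    rw [abs_le] at h2
    constructor
    · have := h2.1; exact_mod_cast this
    · have := h2.2; exact_mod_cast this
  by_cases c1 : 0 ≤ u1.re
  · by_cases c2 : 0 ≤ sg c * u1.im
    · have c3 : 2 < u1.re + 2 * (sg c * u1.im) := by
        by_contra hcon
        exact hu1 ⟨c1, c2, not_lt.1 hcon⟩
      refine ⟨2, round (sg c * u.im / δ), memM _ bim, ?_⟩
      have hr := (round_bound hδ bim).1
      rw [abs_le] at hr
      have key : u - cen c δ 2 (round (sg c * u.im / δ)) =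
          ((u.re + 2 * (sg c * u.im) - 2 - 2 * (sg c * u.im - round (sg c * u.im / δ) * δ) : ℝ) : ℂ) +
          ((sg c * (sg c * u.im - round (sg c * u.im / δ) * δ) : ℝ) : ℂ) * I := by
        apply Complex.ext
        · simp [cen]; ring
        · simp [cen]
          have : sg c * (sg c * u.im) = u.im := by rw [← mul_assoc, sg_sq, one_mul]
          linarith [this]
      have hb := norm_le_of (u - cen c δ 2 (round (sg c * u.im / δ))) (a := 4 * δ) (b := δ / 2)
        (by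
          rw [key]
          simp only [add_re, ofReal_re, mul_re, I_re, mul_zero, ofReal_im, I_im, mul_one, sub_self, add_zero]
          rw [abs_le]; constructor <;> linarith)
        (by
          rw [key]
          simp only [add_im, ofReal_im, mul_im, ofReal_re, I_im, mul_one, I_re, mul_zero, add_zero, zero_add]
          rw [abs_mul, sg_abs, one_mul, abs_le]; exact hr)
      linarith
    · push Not at c2
      refine ⟨1, round (u.re / δ), memM _ bre, ?_⟩
      have hr := (round_bound hδ bre).1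
      have hb := norm_le_of (u - cen c δ 1 (round (u.re / δ))) (a := δ / 2) (b := δ)
        (by simpa [cen] using hr)
        (by
          have : |u.im| ≤ δ := by
            rw [← hs, abs_le]; constructor <;> linarith
          simpa [cen] using this)
      linarith
  · push Not at c1
    have bim' : |u.im| ≤ 2 + δ := by rw [← hs]; exact bim
    refine ⟨0, round (u.im / δ), memM _ bim', ?_⟩
    have hr := (round_bound hδ bim').1
    have hb := norm_le_of (u - cen c δ 0 (round (u.im / δ))) (a := δ) (b := δ / 2)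
      (by
        have : |u.re| ≤ δ := by
          rw [abs_le]; constructor <;> linarith
        simpa [cen] using this)
      (by simpa [cen] using hr)
    linarith

/-- the neighbourhood of the boundary of `B` -/
def nb (B : Tile) (δ : ℝ) (M : ℤ) : Set ℂ :=
  ⋃ k : Fin 3, ⋃ j ∈ Finset.Icc (-M) M, Metric.closedBall (B.P + B.e * cen B.c δ k j) (5 * δ * ‖B.e‖)

theorem nb_meas (B : Tile) (δ : ℝ) (M : ℤ) : MeasurableSet (nb B δ M) := by
  unfold nb
  refine MeasurableSet.iUnion fun k => ?_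
  exact Finset.measurableSet_biUnion _ fun j _ => Metric.isClosed_closedBall.measurableSet

theorem nb_vol (B : Tile) {δ : ℝ} (hδ : 0 < δ) {M : ℤ} (hM : 0 ≤ M) :
    volume (nb B δ M) ≤ ENNReal.ofReal (3 * (2 * M + 1) * ((5 * δ * ‖B.e‖) ^ 2 * Real.pi)) := by
  have hb : ∀ (k : Fin 3) (j : ℤ),
      volume (Metric.closedBall (B.P + B.e * cen B.c δ k j) (5 * δ * ‖B.e‖)) =
        ENNReal.ofReal ((5 * δ * ‖B.e‖) ^ 2 * Real.pi) := by
    intro k j
    have hpos : 0 ≤ 5 * δ * ‖B.e‖ := by positivity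
    rw [Complex.volume_closedBall, ENNReal.ofReal_mul (p := (5 * δ * ‖B.e‖) ^ 2) (by positivity),
      ENNReal.ofReal_pow hpos]
    congr 1
    rw [← NNReal.coe_real_pi, ENNReal.ofReal_coe_nnreal]
  have h1 : ∀ k : Fin 3, volume (⋃ j ∈ Finset.Icc (-M) M,
      Metric.closedBall (B.P + B.e * cen B.c δ k j) (5 * δ * ‖B.e‖)) ≤
        (2 * M + 1).toNat * ENNReal.ofReal ((5 * δ * ‖B.e‖) ^ 2 * Real.pi) := by
    intro k
    refine (measure_biUnion_finset_le _ _).trans ?_
    rw [Finset.sum_congr rfl (fun j _ => hb k j), Finset.sum_const, Int.card_Icc]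
    have : (M + 1 - -M) = 2 * M + 1 := by ring
    rw [this, nsmul_eq_mul]
  calc volume (nb B δ M) ≤ ∑ k : Fin 3, volume (⋃ j ∈ Finset.Icc (-M) M,
      Metric.closedBall (B.P + B.e * cen B.c δ k j) (5 * δ * ‖B.e‖)) := measure_iUnion_fintype_le _ _
    _ ≤ ∑ _k : Fin 3, (2 * M + 1).toNat * ENNReal.ofReal ((5 * δ * ‖B.e‖) ^ 2 * Real.pi) :=
        Finset.sum_le_sum fun k _ => h1 k
    _ = ENNReal.ofReal (3 * (2 * M + 1) * ((5 * δ * ‖B.e‖) ^ 2 * Real.pi)) := by
        rw [Finset.sum_const, Finset.card_univ, Fintype.card_fin, nsmul_eq_mul]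
        have e1 : ((2 * M + 1).toNat : ENNReal) = ENNReal.ofReal (2 * M + 1) := by
          rw [← ENNReal.ofReal_natCast]
          congr 1
          have : ((2 * M + 1).toNat : ℤ) = 2 * M + 1 := Int.toNat_of_nonneg (by linarith)
          have h2 : (((2 * M + 1).toNat : ℤ) : ℝ) = ((2 * M + 1 : ℤ) : ℝ) := by rw [this]
          push_cast at h2 ⊢
          exact h2
        have e2 : ((3 : ℕ) : ENNReal) = ENNReal.ofReal 3 := by
          rw [← ENNReal.ofReal_natCast]; norm_num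
        have hM' : (0 : ℝ) ≤ 2 * M + 1 := by
          have : (0 : ℝ) ≤ M := by exact_mod_cast hM
          linarith
        rw [e1, e2, ← ENNReal.ofReal_mul hM', ← ENNReal.ofReal_mul (by norm_num)]
        congr 1
        ring

theorem sqrt5_pos : (0 : ℝ) < √5 := Real.sqrt_pos.2 (by norm_num)

theorem w_sub (B : Tile) (z z' : ℂ) : B.w z - B.w z' = (z - z') / B.e := by
  unfold Tile.w; ring

end BndM

open BndM

/-- **BND**. -/
theorem specBnd (hG : SpecGeo) (hB : SpecBas) : SpecBnd := by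
  obtain ⟨hdis, hsize, -, -, -, -⟩ := hB
  refine ⟨18000, by norm_num, ?_⟩
  intro A B l hA hAB W hW hcross
  have hr : 0 < ‖A.e‖ := norm_pos_iff.2 hA
  have hBe : B.e ≠ 0 := by
    intro h; rw [h, norm_zero] at hAB; linarith
  have h5 := sqrt5_pos
  have h5' : √5 ≤ 5 / 2 := by
    rw [show (5 / 2 : ℝ) = √((5 / 2) ^ 2) by rw [Real.sqrt_sq (by norm_num)]]
    exact Real.sqrt_le_sqrt (by norm_num)
  have h5one : (1 : ℝ) ≤ √5 := by
    rw [show (1 : ℝ) = √1 by rw [Real.sqrt_one]]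
    exact Real.sqrt_le_sqrt (by norm_num)
  have hpow : 0 < √5 ^ l := by positivity
  have hpow1 : 1 ≤ √5 ^ l := one_le_pow₀ h5one
  set δ : ℝ := √5 / √5 ^ l with hδdef
  have hδ : 0 < δ := by positivity
  have hδ5 : δ ≤ √5 := by
    rw [hδdef]; exact div_le_self h5.le hpow1
  set M : ℤ := ⌈(2 + δ) / δ + 1⌉ with hMdef
  have hM1 : (2 + δ) / δ + 1 ≤ M := Int.le_ceil _
  have hM2 : (M : ℝ) < (2 + δ) / δ + 1 + 1 := Int.ceil_lt_add_one _
  have hMpos : 0 ≤ M := by
    have : (0 : ℝ) ≤ M := le_trans (by positivity) hM1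
    exact_mod_cast this
  -- every crossing cell lies in the neighbourhood
  have hin : ∀ w ∈ W, (A.desc w).set ⊆ nb B δ M := by
    intro w hw z hz
    obtain ⟨hn, ⟨z0, hz0⟩⟩ := hcross w hw
    obtain ⟨z1, hz1, hz1B⟩ := Set.not_subset.1 hn
    have hwl : w.length = l := mem_wd.1 (hW hw)
    obtain ⟨hne, hsz, -⟩ := hsize A w hA
    have hdiam := (hG (A.desc w) hne).2.2.2.2
    have hsz' : ‖(A.desc w).e‖ = ‖A.e‖ / √5 ^ l := by
      rw [hwl] at hsz
      field_simp
      linarith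
    have hd : ∀ z' ∈ (A.desc w).set, ‖B.w z - B.w z'‖ ≤ δ := by
      intro z' hz'
      have h1 := hdiam z hz z' hz'
      rw [w_sub, norm_div, div_le_iff₀ (norm_pos_iff.2 hBe), ← hAB]
      calc ‖z - z'‖ ≤ √5 * ‖(A.desc w).e‖ := h1
        _ = δ * ‖A.e‖ := by rw [hsz', hδdef]; ring
    obtain ⟨k, j, hj, hk⟩ := near_cen (c := B.c) hδ hM1 (hd z0 hz0.1) (hd z1 hz1) hz0.2 hz1B
    unfold nb
    rw [Set.mem_iUnion]
    refine ⟨k, ?_⟩
    rw [Set.mem_iUnion₂]
    refine ⟨j, hj, ?_⟩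
    rw [Metric.mem_closedBall, dist_eq_norm]
    have : z - (B.P + B.e * cen B.c δ k j) = B.e * (B.w z - cen B.c δ k j) := by
      unfold Tile.w; field_simp; ring
    rw [this, norm_mul]
    nlinarith [norm_pos_iff.2 hBe]
  -- volumes
  have hvol : ∀ w ∈ W, volume ((A.desc w).set ∩ nb B δ M) = ENNReal.ofReal (‖(A.desc w).e‖ ^ 2) := by
    intro w hw
    rw [Set.inter_eq_left.2 (hin w hw)]
    exact (hG (A.desc w) (hsize A w hA).1).2.2.2.1
  have hsum : ∑ w ∈ W, ENNReal.ofReal (‖(A.desc w).e‖ ^ 2) ≤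
      ENNReal.ofReal (3 * (2 * M + 1) * ((5 * δ * ‖B.e‖) ^ 2 * Real.pi)) := by
    calc ∑ w ∈ W, ENNReal.ofReal (‖(A.desc w).e‖ ^ 2) = ∑ w ∈ W, volume ((A.desc w).set ∩ nb B δ M) :=
          (Finset.sum_congr rfl hvol).symm
      _ ≤ ∑ w ∈ wd l, volume ((A.desc w).set ∩ nb B δ M) :=
          Finset.sum_le_sum_of_subset hW
      _ = volume (A.set ∩ nb B δ M) := (hdis A l _ hA (nb_meas B δ M)).symm
      _ ≤ volume (nb B δ M) := measure_mono Set.inter_subset_right
      _ ≤ _ := nb_vol B hδ hMpos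
  rw [← ENNReal.ofReal_sum_of_nonneg (fun _ _ => by positivity)] at hsum
  have hMr : (0 : ℝ) ≤ M := by exact_mod_cast hMpos
  have hreal := (ENNReal.ofReal_le_ofReal_iff (by positivity)).1 hsum
  refine hreal.trans ?_
  rw [← hAB]
  have hpi : Real.pi ≤ 4 := Real.pi_le_four
  have hpi0 : 0 < Real.pi := Real.pi_pos
  have hM3 : (2 * M + 1) * δ ≤ 4 + 7 * δ := by
    have : (M : ℝ) * δ ≤ ((2 + δ) / δ + 1 + 1) * δ := by
      have := hM2.le
      gcongr
    have e : ((2 + δ) / δ + 1 + 1) * δ = 2 + 3 * δ := by field_simp; ring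
    rw [e] at this
    nlinarith
  have hM4 : (2 * M + 1) * δ ≤ 43 / 2 := by linarith
  have hδl : δ = √5 / √5 ^ l := rfl
  calc 3 * (2 * M + 1) * ((5 * δ * ‖A.e‖) ^ 2 * Real.pi)
      = 75 * ((2 * M + 1) * δ) * Real.pi * (δ * ‖A.e‖ ^ 2) := by ring
    _ ≤ 75 * (43 / 2) * 4 * (δ * ‖A.e‖ ^ 2) := by gcongr
    _ ≤ 18000 * ‖A.e‖ ^ 2 / √5 ^ l := by
        rw [hδl]
        have : √5 / √5 ^ l * ‖A.e‖ ^ 2 = √5 * (‖A.e‖ ^ 2 / √5 ^ l) := by ring
        rw [this]
        have h6 : 0 < ‖A.e‖ ^ 2 / √5 ^ l := by positivity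
        have h7 : 18000 * ‖A.e‖ ^ 2 / √5 ^ l = 18000 * (‖A.e‖ ^ 2 / √5 ^ l) := by ring
        rw [h7]
        nlinarith

end Pool.Agent.Lib.MP_d437ed.Hit
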