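import Pool.Agent.Lib.MP_d437ed.Hit.Spec

/-!
Words, addresses, and the calculus of the pair chain (used by all modules of the hitting lemma).
-/

noncomputable section

open MeasureTheory Complex

namespace Pool.Agent.Lib.MP_d437ed.Hit

theorem mem_wd {l : ℕ} {w : List (Fin 5)} : w ∈ wd l ↔ w.length = l := by
  constructor
  · intro h
    obtain ⟨v, -, rfl⟩ := Finset.mem_image.1 h
    simp
  · intro h
    subst h
    exact Finset.mem_image.2 ⟨fun i => w[i], Finset.mem_univ _, by simp⟩

theorem wd_zero : wd 0 = {[]} := by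
  ext w
  rw [mem_wd, Finset.mem_singleton, List.length_eq_zero_iff]

theorem sum_wd_zero {β : Type*} [AddCommMonoid β] (f : List (Fin 5) → β) :
    ∑ w ∈ wd 0, f w = f [] := by
  rw [wd_zero, Finset.sum_singleton]

theorem sum_wd_succ {β : Type*} [AddCommMonoid β] (l : ℕ) (f : List (Fin 5) → β) :
    ∑ w ∈ wd (l + 1), f w = ∑ i : Fin 5, ∑ w ∈ wd l, f (i :: w) := by
  rw [← Finset.sum_product']
  symm
  refine Finset.sum_bij (fun p _ => p.1 :: p.2) ?_ ?_ ?_ ?_
  · rintro ⟨i, w⟩ h
    rw [Finset.mem_product] at h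
    rw [mem_wd, List.length_cons, mem_wd.1 h.2]
  · rintro ⟨i, w⟩ _ ⟨i', w'⟩ _ h
    simp only [List.cons.injEq] at h
    exact Prod.ext h.1 h.2
  · intro w h
    rw [mem_wd] at h
    match w, h with
    | i :: w, h =>
      exact ⟨(i, w), by
        rw [Finset.mem_product]
        exact ⟨Finset.mem_univ _, mem_wd.2 (by simpa using h)⟩, rfl⟩
  · intros
    rfl

theorem sum_wd_add {β : Type*} [AddCommMonoid β] (a b : ℕ) (f : List (Fin 5) → β) :
    ∑ w ∈ wd (a + b), f w = ∑ u ∈ wd a, ∑ v ∈ wd b, f (u ++ v) := by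
  induction a generalizing f with
  | zero => rw [Nat.zero_add, sum_wd_zero]; rfl
  | succ a ih =>
    rw [Nat.succ_add, sum_wd_succ, sum_wd_succ]
    exact Finset.sum_congr rfl (fun i _ => ih (fun w => f (i :: w)))

theorem card_wd (l : ℕ) : (wd l).card = 5 ^ l := by
  induction l with
  | zero => rw [wd_zero]; rfl
  | succ l ih =>
    rw [Finset.card_eq_sum_ones, sum_wd_succ]
    simp only [← Finset.card_eq_sum_ones, ih]
    rw [Finset.sum_const, Finset.card_univ, Fintype.card_fin, smul_eq_mul]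
    ring

theorem append_mem_wd {a b : ℕ} {u v : List (Fin 5)} (hu : u ∈ wd a) (hv : v ∈ wd b) :
    u ++ v ∈ wd (a + b) := by
  rw [mem_wd] at *
  rw [List.length_append, hu, hv]

@[simp] theorem desc_nil (T : Tile) : T.desc [] = T := rfl
@[simp] theorem desc_cons (T : Tile) (i : Fin 5) (w : List (Fin 5)) :
    T.desc (i :: w) = (T.child i).desc w := rfl
@[simp] theorem np_nil (T : Tile) : np T [] = 0 := rfl
theorem np_cons (T : Tile) (i : Fin 5) (w : List (Fin 5)) :
    np T (i :: w) = (if T.c then 1 else 0) + np (T.child i) w := rfl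

theorem desc_append (T : Tile) (w v : List (Fin 5)) : T.desc (w ++ v) = (T.desc w).desc v := by
  induction w generalizing T with
  | nil => rfl
  | cons i w ih => exact ih _

theorem np_append (T : Tile) (w v : List (Fin 5)) : np T (w ++ v) = np T w + np (T.desc w) v := by
  induction w generalizing T with
  | nil => simp
  | cons i w ih => rw [List.cons_append, np_cons, np_cons, ih, desc_cons, add_assoc]

theorem np_le (T : Tile) (w : List (Fin 5)) : np T w ≤ w.length := by
  induction w generalizing T with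
  | nil => simp
  | cons i w ih =>
    rw [np_cons, List.length_cons]
    have := ih (T.child i)
    split_ifs <;> omega

/-- translating a tile translates its descendants -/
theorem desc_translate (T : Tile) (τ : ℂ) (w : List (Fin 5)) :
    (⟨T.P + τ, T.e, T.c⟩ : Tile).desc w = ⟨(T.desc w).P + τ, (T.desc w).e, (T.desc w).c⟩ := by
  induction w generalizing T with
  | nil => rfl
  | cons i w ih =>
    rw [desc_cons, desc_cons, ← ih (T.child i)]
    congr 1
    simp only [Tile.child]
    congr 1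
    ring

theorem np_translate (T : Tile) (τ : ℂ) (w : List (Fin 5)) :
    np (⟨T.P + τ, T.e, T.c⟩ : Tile) w = np T w := by
  induction w generalizing T with
  | nil => rfl
  | cons i w ih =>
    rw [np_cons, np_cons, ← ih (T.child i)]
    congr 2
    simp only [Tile.child]
    congr 1
    ring

theorem mem_set_translate (T : Tile) (τ z : ℂ) :
    z ∈ (⟨T.P + τ, T.e, T.c⟩ : Tile).set ↔ z - τ ∈ T.set := by
  have h : (⟨T.P + τ, T.e, T.c⟩ : Tile).w z = T.w (z - τ) := by
    simp only [Tile.w]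
    congr 1
    ring
  simp only [Tile.set, Set.mem_setOf_eq, h]

theorem ar_nonneg (A B : Tile) : 0 ≤ ar A B := ENNReal.toReal_nonneg

theorem ar_comm (A B : Tile) : ar A B = ar B A := by
  rw [ar, ar, Set.inter_comm]

/-! ### the chain -/

theorem ar_children (hB : SpecBas) {A B : Tile} (hA : A.e ≠ 0) (hB' : B.e ≠ 0) :
    ar A B = ∑ i : Fin 5, ∑ k : Fin 5, ar (A.child i) (B.child k) := by
  rw [hB.2.2.2.1 A B 1 hA hB', sum_wd_succ]
  simp only [sum_wd_zero, sum_wd_succ 0]
  rfl

theorem ok_B {s : St} (hs : s.ok) : s.B.e ≠ 0 := by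
  intro h0
  have := hs.2.1
  rw [h0, norm_zero, norm_eq_zero] at this
  exact hs.1 this

theorem norm_child (hB : SpecBas) {T : Tile} (hT : T.e ≠ 0) (i : Fin 5) :
    (T.child i).e ≠ 0 ∧ ‖(T.child i).e‖ * √5 = ‖T.e‖ := by
  obtain ⟨h1, h2, -⟩ := hB.2.1 T [i] hT
  exact ⟨h1, by simpa using h2⟩

theorem ok_ch (hB : SpecBas) {s : St} (hs : s.ok) {i k : Fin 5}
    (h : 0 < ar (s.A.child i) (s.B.child k)) : (s.ch i k).ok := by
  refine ⟨(norm_child hB hs.1 i).1, ?_, h⟩
  have h1 := (norm_child hB hs.1 i).2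
  have h2 := (norm_child hB (ok_B hs) k).2
  have h5 : (0 : ℝ) < √5 := by positivity
  have h3 : ‖(s.A.child i).e‖ * √5 = ‖(s.B.child k).e‖ * √5 := by rw [h1, h2, hs.2.1]
  exact mul_right_cancel₀ h5.ne' h3

theorem ok_desc (hB : SpecBas) {s : St} (hs : s.ok) {w v : List (Fin 5)} (hl : w.length = v.length)
    (h : 0 < ar (s.A.desc w) (s.B.desc v)) (j : ℤ) : (⟨s.A.desc w, s.B.desc v, j⟩ : St).ok := by
  obtain ⟨h1, h2, -⟩ := hB.2.1 s.A w hs.1
  obtain ⟨-, h3, -⟩ := hB.2.1 s.B v (ok_B hs)
  refine ⟨h1, ?_, h⟩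
  have h5 : (0 : ℝ) < √5 ^ w.length := by positivity
  rw [← hl] at h3
  exact mul_right_cancel₀ h5.ne' (by rw [h2, h3, hs.2.1])

/-- the total mass of one step is 1 -/
theorem Ex_const (hB : SpecBas) {s : St} (hs : s.ok) (c : ℝ) : Ex (fun _ => c) s = c := by
  have h := ar_children hB hs.1 (ok_B hs)
  simp only [Ex]
  rw [← Finset.sum_congr rfl (fun i _ => Finset.sum_mul _ _ _), ← Finset.sum_mul]
  have : (∑ i : Fin 5, ∑ k : Fin 5, ar (s.A.child i) (s.B.child k) / ar s.A s.B) = 1 := by
    rw [← Finset.sum_congr rfl (fun i _ => Finset.sum_div _ _ _), ← Finset.sum_div, ← h]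
    exact div_self hs.2.2.ne'
  rw [this, one_mul]

theorem Ex_mono' {s : St} {F G : St → ℝ}
    (h : ∀ i k, 0 < ar (s.A.child i) (s.B.child k) → F (s.ch i k) ≤ G (s.ch i k)) :
    Ex F s ≤ Ex G s := by
  refine Finset.sum_le_sum (fun i _ => Finset.sum_le_sum (fun k _ => ?_))
  rcases (ar_nonneg (s.A.child i) (s.B.child k)).eq_or_lt with h0 | h0
  · rw [← h0, zero_div, zero_mul, zero_mul]
  · exact mul_le_mul_of_nonneg_left (h i k h0) (div_nonneg h0.le (ar_nonneg _ _))

theorem Ex_mono (hB : SpecBas) {s : St} (hs : s.ok) {F G : St → ℝ} (h : ∀ s' : St, s'.ok → F s' ≤ G s') :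
    Ex F s ≤ Ex G s := Ex_mono' (fun _ _ h0 => h _ (ok_ch hB hs h0))

theorem Ex_congr (hB : SpecBas) {s : St} (hs : s.ok) {F G : St → ℝ} (h : ∀ s' : St, s'.ok → F s' = G s') :
    Ex F s = Ex G s :=
  le_antisymm (Ex_mono hB hs (fun s' h' => (h s' h').le)) (Ex_mono hB hs (fun s' h' => (h s' h').ge))

theorem Ex_add (s : St) (F G : St → ℝ) : Ex (fun x => F x + G x) s = Ex F s + Ex G s := by
  simp only [Ex, mul_add, Finset.sum_add_distrib]

theorem Ex_smul (s : St) (c : ℝ) (F : St → ℝ) : Ex (fun x => c * F x) s = c * Ex F s := by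
  simp only [Ex, Finset.mul_sum]
  exact Finset.sum_congr rfl (fun i _ => Finset.sum_congr rfl (fun k _ => by ring))

theorem Ex_sub (s : St) (F G : St → ℝ) : Ex (fun x => F x - G x) s = Ex F s - Ex G s := by
  simp only [Ex, mul_sub, Finset.sum_sub_distrib]

@[simp] theorem ExN_zero (F : St → ℝ) : ExN 0 F = F := rfl
theorem ExN_succ (t : ℕ) (F : St → ℝ) : ExN (t + 1) F = Ex (ExN t F) := rfl

theorem ExN_add (a b : ℕ) (F : St → ℝ) : ExN (a + b) F = ExN a (ExN b F) := by
  induction a with
  | zero => rw [Nat.zero_add]; rfl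
  | succ a ih => rw [Nat.succ_add, ExN_succ, ExN_succ, ih]

theorem ExN_mono (hB : SpecBas) {F G : St → ℝ} (h : ∀ s' : St, s'.ok → F s' ≤ G s') (t : ℕ) {s : St}
    (hs : s.ok) : ExN t F s ≤ ExN t G s := by
  induction t generalizing s with
  | zero => exact h s hs
  | succ t ih => exact Ex_mono hB hs (fun s' h' => ih h')

theorem ExN_congr (hB : SpecBas) {F G : St → ℝ} (h : ∀ s' : St, s'.ok → F s' = G s') (t : ℕ) {s : St}
    (hs : s.ok) : ExN t F s = ExN t G s :=
  le_antisymm (ExN_mono hB (fun s' h' => (h s' h').le) t hs) (ExN_mono hB (fun s' h' => (h s' h').ge) t hs)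

theorem ExN_const (hB : SpecBas) (c : ℝ) (t : ℕ) {s : St} (hs : s.ok) : ExN t (fun _ => c) s = c := by
  induction t generalizing s with
  | zero => rfl
  | succ t ih => rw [ExN_succ, Ex_congr hB hs (fun s' h' => ih h'), Ex_const hB hs]

theorem ExN_plus (t : ℕ) (F G : St → ℝ) (s : St) :
    ExN t (fun x => F x + G x) s = ExN t F s + ExN t G s := by
  induction t generalizing s with
  | zero => rfl
  | succ t ih =>
    rw [ExN_succ, ExN_succ, ExN_succ, ← Ex_add]
    congr 1
    funext x
    exact ih x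

theorem ExN_smul (t : ℕ) (c : ℝ) (F : St → ℝ) (s : St) :
    ExN t (fun x => c * F x) s = c * ExN t F s := by
  induction t generalizing s with
  | zero => rfl
  | succ t ih =>
    rw [ExN_succ, ExN_succ, ← Ex_smul]
    congr 1
    funext x
    exact ih x

theorem ExN_sub (t : ℕ) (F G : St → ℝ) (s : St) :
    ExN t (fun x => F x - G x) s = ExN t F s - ExN t G s := by
  induction t generalizing s with
  | zero => rfl
  | succ t ih =>
    rw [ExN_succ, ExN_succ, ExN_succ, ← Ex_sub]
    congr 1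
    funext x
    exact ih x

theorem ExN_nonneg (hB : SpecBas) {F : St → ℝ} (h : ∀ s' : St, s'.ok → 0 ≤ F s') (t : ℕ) {s : St}
    (hs : s.ok) : 0 ≤ ExN t F s := by
  rw [← ExN_const hB 0 t hs]
  exact ExN_mono hB h t hs

/-- the cell with addresses `w`, `v` -/
def St.cell (s : St) (w v : List (Fin 5)) : St := ⟨s.A.desc w, s.B.desc v, s.j + np s.B v - np s.A w⟩

theorem cell_nil (s : St) : s.cell [] [] = s := by
  simp [St.cell]

theorem cell_append (s : St) {w v : List (Fin 5)} (w' v' : List (Fin 5)) :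
    (s.cell w v).cell w' v' = s.cell (w ++ w') (v ++ v') := by
  simp only [St.cell, desc_append, np_append]
  congr 1
  push_cast
  ring

theorem ExN_cells (hB : SpecBas) (t : ℕ) (F : St → ℝ) {s : St} (hs : s.ok) :
    ExN t F s = ∑ w ∈ wd t, ∑ v ∈ wd t, ar (s.A.desc w) (s.B.desc v) / ar s.A s.B * F (s.cell w v) :=
  hB.2.2.2.2.1 s t F hs

/-- a single cell is a lower bound -/
theorem cell_le (hB : SpecBas) (t : ℕ) {F : St → ℝ} (hF : ∀ s' : St, s'.ok → 0 ≤ F s') {s : St} (hs : s.ok)
    {w v : List (Fin 5)} (hw : w ∈ wd t) (hv : v ∈ wd t) :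
    ar (s.A.desc w) (s.B.desc v) / ar s.A s.B * F (s.cell w v) ≤ ExN t F s := by
  rw [ExN_cells hB t F hs]
  have h0 : ∀ w ∈ wd t, ∀ v ∈ wd t,
      0 ≤ ar (s.A.desc w) (s.B.desc v) / ar s.A s.B * F (s.cell w v) := by
    intro w hw v hv
    rcases (ar_nonneg (s.A.desc w) (s.B.desc v)).eq_or_lt with h0 | h0
    · rw [← h0, zero_div, zero_mul]
    · exact mul_nonneg (div_nonneg h0.le (ar_nonneg _ _))
        (hF _ (ok_desc hB hs (by rw [mem_wd.1 hw, mem_wd.1 hv]) h0 _))
  refine le_trans ?_ (Finset.single_le_sum (f := fun w => ∑ v ∈ wd t,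
    ar (s.A.desc w) (s.B.desc v) / ar s.A s.B * F (s.cell w v)) (fun w hw => Finset.sum_nonneg (h0 w hw)) hw)
  exact Finset.single_le_sum (f := fun v => ar (s.A.desc w) (s.B.desc v) / ar s.A s.B * F (s.cell w v))
    (h0 w hw) hv

/-! ### the martingale -/

theorem Mh_succ (n : ℕ) (s : St) : Mh (n + 1) s = Ex (Mh n) s := rfl

theorem ExN_Mh (t n : ℕ) (s : St) : ExN t (Mh n) s = Mh (n + t) s := by
  rw [Mh, Mh, ← ExN_add, Nat.add_comm]

theorem Mh_zero (s : St) : Mh 0 s = s.j := rfl

/-! ### probabilities of events -/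

theorem pr_zero_of {G : ℕ → St → Prop} {k : ℕ} {s : St} (h : G k s) : pr G k 0 s = 1 := by
  classical
  simp only [pr]
  exact if_pos h

theorem pr_of {G : ℕ → St → Prop} {k t : ℕ} {s : St} (h : G (k + t) s) : pr G k t s = 1 := by
  classical
  cases t with
  | zero => exact pr_zero_of h
  | succ t =>
    simp only [pr]
    exact if_pos h

theorem pr_succ_of_not {G : ℕ → St → Prop} {k t : ℕ} {s : St} (h : ¬ G (k + t + 1) s) :
    pr G k (t + 1) s = Ex (pr G k t) s := by
  classical
  simp only [pr]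
  exact if_neg h

theorem pr_nonneg_le (hB : SpecBas) (G : ℕ → St → Prop) (k t : ℕ) {s : St} (hs : s.ok) :
    0 ≤ pr G k t s ∧ pr G k t s ≤ 1 := by
  classical
  induction t generalizing s with
  | zero =>
    simp only [pr]
    split_ifs <;> norm_num
  | succ t ih =>
    by_cases h : G (k + t + 1) s
    · rw [pr_of (k := k) (t := t + 1) h]
      norm_num
    · rw [pr_succ_of_not h]
      constructor
      · rw [← Ex_const hB hs 0]
        exact Ex_mono hB hs (fun s' h' => (ih h').1)
      · rw [← Ex_const hB hs 1]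
        exact Ex_mono hB hs (fun s' h' => (ih h').2)

theorem pr_nonneg (hB : SpecBas) (G : ℕ → St → Prop) (k t : ℕ) {s : St} (hs : s.ok) :
    0 ≤ pr G k t s := (pr_nonneg_le hB G k t hs).1
theorem pr_le_one (hB : SpecBas) (G : ℕ → St → Prop) (k t : ℕ) {s : St} (hs : s.ok) :
    pr G k t s ≤ 1 := (pr_nonneg_le hB G k t hs).2

/-- the event may be enlarged -/
theorem pr_mono (hB : SpecBas) {G G' : ℕ → St → Prop} (h : ∀ n s', s'.ok → G n s' → G' n s') (k t : ℕ) {s : St}
    (hs : s.ok) : pr G k t s ≤ pr G' k t s := by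
  induction t generalizing s with
  | zero =>
    by_cases h' : G' k s
    · rw [pr_zero_of h']
      exact pr_le_one hB _ _ _ hs
    · have h1 : ¬ G k s := fun h0 => h' (h _ _ hs h0)
      classical
      simp only [pr, h1, h']
      exact le_rfl
  | succ t ih =>
    by_cases h' : G' (k + t + 1) s
    · rw [pr_of (k := k) (t := t + 1) h']
      exact pr_le_one hB _ _ _ hs
    · have h1 : ¬ G (k + t + 1) s := fun h0 => h' (h _ _ hs h0)
      rw [pr_succ_of_not h', pr_succ_of_not h1]
      exact Ex_mono hB hs (fun s' hs' => ih hs')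

theorem Ex_pr_le (hB : SpecBas) (G : ℕ → St → Prop) (k t : ℕ) {s : St} (hs : s.ok) :
    Ex (pr G k t) s ≤ pr G k (t + 1) s := by
  by_cases h : G (k + t + 1) s
  · rw [pr_of (k := k) (t := t + 1) h, ← Ex_const hB hs 1]
    exact Ex_mono hB hs (fun s' h' => pr_le_one hB _ _ _ h')
  · rw [pr_succ_of_not h]

/-- restarting after `t` steps -/
theorem ExN_pr_le (hB : SpecBas) (G : ℕ → St → Prop) (k t r : ℕ) {s : St} (hs : s.ok) :
    ExN t (pr G k r) s ≤ pr G k (t + r) s := by
  induction t generalizing s with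
  | zero => rw [Nat.zero_add]; exact le_rfl
  | succ t ih =>
    have h1 : ExN (t + 1) (pr G k r) s ≤ Ex (pr G k (t + r)) s := Ex_mono hB hs (fun s' h' => ih h')
    have h2 := Ex_pr_le hB G k (t + r) hs
    have h3 : t + 1 + r = t + r + 1 := by omega
    rw [h3]
    exact h1.trans h2

/-- more time, more probability (same horizon at the start) -/
theorem pr_mono_time (hB : SpecBas) (G : ℕ → St → Prop) (k r t : ℕ) {s : St} (hs : s.ok) :
    pr G (k + r) t s ≤ pr G k (t + r) s := by
  induction t generalizing s with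
  | zero =>
    by_cases h : G (k + r) s
    · rw [pr_of (k := k) (t := 0 + r) (by rwa [Nat.zero_add])]
      exact pr_le_one hB _ _ _ hs
    · have : pr G (k + r) 0 s = 0 := by
        classical
        simp only [pr, h]
        rfl
      rw [this]
      exact pr_nonneg hB _ _ _ hs
  | succ t ih =>
    by_cases h : G (k + r + t + 1) s
    · have h3 : k + (t + 1 + r) = k + r + t + 1 := by omega
      rw [pr_of (k := k) (t := t + 1 + r) (by rwa [h3])]
      exact pr_le_one hB _ _ _ hs
    · rw [pr_succ_of_not h]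
      have h3 : t + 1 + r = t + r + 1 := by omega
      rw [h3]
      have h4 : ¬ G (k + (t + r) + 1) s := by
        have : k + (t + r) + 1 = k + r + t + 1 := by omega
        rwa [this]
      rw [pr_succ_of_not h4]
      exact Ex_mono hB hs (fun s' h' => ih h')

/-- a cell on which the event happens -/
theorem cell_pr_le (hB : SpecBas) (G : ℕ → St → Prop) (k t r : ℕ) {s : St} (hs : s.ok)
    {w v : List (Fin 5)} (hw : w ∈ wd t) (hv : v ∈ wd t) (hG : G (k + r) (s.cell w v)) :
    ar (s.A.desc w) (s.B.desc v) / ar s.A s.B ≤ pr G k (t + r) s := by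
  refine le_trans ?_ (ExN_pr_le hB G k t r hs)
  refine le_trans ?_ (cell_le hB t (fun s' h' => pr_nonneg hB G k r h') hs hw hv)
  rw [pr_of hG, mul_one]

end Pool.Agent.Lib.MP_d437ed.Hit
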