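import Mathlib

/-!
Pinwheel triangles, their subdivision, overlap areas, the pair chain (MP_d437ed, hitting lemma).
Text: /team-store/MP_d437ed_HIT.md
-/

noncomputable section

open MeasureTheory Complex

namespace Pool.Agent.Lib.MP_d437ed.Hit

/-- A right triangle with legs `2‖e‖` and `‖e‖`: right angle at `P`, corners `P`, `P + 2 e` and `P + i e`
(chirality `true`, written +) or `P - i e` (chirality `false`, written -). -/
@[ext] structure Tile where
  P : ℂ
  e : ℂ
  c : Bool

/-- the sign of a chirality -/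
def sg (c : Bool) : ℝ := if c then 1 else -1

/-- coordinates in the frame of the tile -/
def Tile.w (T : Tile) (z : ℂ) : ℂ := (z - T.P) / T.e

/-- the closed triangle -/
def Tile.set (T : Tile) : Set ℂ :=
  {z | 0 ≤ (T.w z).re ∧ 0 ≤ sg T.c * (T.w z).im ∧ (T.w z).re + 2 * (sg T.c * (T.w z).im) ≤ 2}

/-- offsets of the children of a (-)-tile -/
def oM : Fin 5 → ℂ := ![-2 * I, 2 - 2 * I, -I, 2 - 2 * I, -I]
/-- directions of the children of a (-)-tile -/
def dM : Fin 5 → ℂ := ![I, 1, 1, -1, 1]
/-- chiralities of the children of a (-)-tile -/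
def cM : Fin 5 → Bool := ![true, true, true, false, false]

/-- `true ↦ 2 + i`, `false ↦ 2 - i` -/
def pc (c : Bool) : ℂ := if c then 2 + I else 2 - I

/-- offset of the child `i` of a tile of chirality `c` -/
def off (c : Bool) (i : Fin 5) : ℂ := if c then (starRingEnd ℂ) (oM i) else oM i
/-- direction of the child `i` of a tile of chirality `c` -/
def dir (c : Bool) (i : Fin 5) : ℂ := if c then (starRingEnd ℂ) (dM i) else dM i
/-- chirality of the child `i` of a tile of chirality `c` -/
def chi (c : Bool) (i : Fin 5) : Bool := if c then !(cM i) else cM i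

/-- the `i`-th child -/
def Tile.child (T : Tile) (i : Fin 5) : Tile :=
  ⟨T.P + T.e / pc T.c * off T.c i, T.e / pc T.c * dir T.c i, chi T.c i⟩

/-- the descendant with address `w` -/
def Tile.desc : Tile → List (Fin 5) → Tile
  | T, [] => T
  | T, i :: w => (T.child i).desc w

/-- number of (+)-tiles among the proper ancestors of the descendant with address `w`
(the index of the descendant is `index + 2 * np - length`) -/
def np : Tile → List (Fin 5) → ℕ
  | _, [] => 0
  | T, i :: w => (if T.c then 1 else 0) + np (T.child i) w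

/-- the words of length `l` -/
def wd (l : ℕ) : Finset (List (Fin 5)) := Finset.univ.image (fun v : Fin l → Fin 5 => List.ofFn v)

/-- overlap area -/
def ar (A B : Tile) : ℝ := (volume (A.set ∩ B.set)).toReal

/-- a pair of tiles with its half gap `j = (index of B - index of A) / 2` -/
@[ext] structure St where
  A : Tile
  B : Tile
  j : ℤ

/-- next half gap -/
def St.jn (s : St) : ℤ := s.j + (if s.B.c then 1 else 0) - (if s.A.c then 1 else 0)

/-- pair of children -/
def St.ch (s : St) (i k : Fin 5) : St := ⟨s.A.child i, s.B.child k, s.jn⟩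

/-- relative overlap -/
def St.eta (s : St) : ℝ := ar s.A s.B / ‖s.A.e‖ ^ 2

/-- same size, positive overlap -/
def St.ok (s : St) : Prop := s.A.e ≠ 0 ∧ ‖s.A.e‖ = ‖s.B.e‖ ∧ 0 < ar s.A s.B

/-- one step of the pair chain: `z` uniform in the overlap, descend towards `z` -/
def Ex (F : St → ℝ) (s : St) : ℝ :=
  ∑ i : Fin 5, ∑ k : Fin 5, ar (s.A.child i) (s.B.child k) / ar s.A s.B * F (s.ch i k)

/-- `t` steps -/
def ExN : ℕ → (St → ℝ) → St → ℝ
  | 0, F => F
  | t + 1, F => Ex (ExN t F)

/-- expected half gap after `n` steps -/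
def Mh (n : ℕ) : St → ℝ := ExN n (fun s => (s.j : ℝ))

open Classical in
/-- probability that the event `G` (depending on the remaining horizon) happens at one of the times `0..t`,
when the horizon at time `t` is `k` -/
def pr (G : ℕ → St → Prop) (k : ℕ) : ℕ → St → ℝ
  | 0, s => if G k s then 1 else 0
  | t + 1, s => if G (k + t + 1) s then 1 else Ex (pr G k t) s

/-- expectation of `F` after `t` steps, killed at half gap `0` -/
def kil : ℕ → (St → ℝ) → St → ℝ
  | 0, F, s => if s.j = 0 then 0 else F s
  | t + 1, F, s => if s.j = 0 then 0 else Ex (kil t F) s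

open Classical in
/-- total area of the common descendants of depth `n` -/
def co : ℕ → Tile → Tile → ℝ
  | 0, A, B => if A = B then ar A A else 0
  | n + 1, A, B => ∑ i : Fin 5, ∑ k : Fin 5, co n (A.child i) (B.child k)

/-- `A` and `B` are compatible, with half gap `j`: units `g (2+i)^j`, `g (2-i)^j` for `j ≥ 0` (and symmetric for `j ≤ 0`),
difference of the corners in `g ℤ[i]` -/
def Comp (s : St) : Prop :=
  ∃ g : ℂ, g ≠ 0 ∧ (∃ k : ℕ, s.A.e = I ^ k * g * (2 + I) ^ s.j.toNat * (2 - I) ^ (-s.j).toNat) ∧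
    (∃ l : ℕ, s.B.e = I ^ l * g * (2 - I) ^ s.j.toNat * (2 + I) ^ (-s.j).toNat) ∧
    ∃ m n : ℤ, s.B.P - s.A.P = g * (m + n * I)

/-- `v = (2 + i)/(2 - i) = (3 + 4 i)/5` -/
def vv : ℂ := (2 + I) / (2 - I)

/-- distance of `v ^ j` to the units `1, i, -1, -i` -/
def dl (j : ℤ) : ℝ := ⨅ m : Fin 4, ‖vv ^ j - I ^ (m : ℕ)‖

/-- `log (1 / dl j)` for `j ≠ 0`, `0` for `j = 0` -/
def lam (j : ℤ) : ℝ := if j = 0 then 0 else Real.log (1 / dl j)

/-- centre of the middle rectangle of a (+)-tile -/
def gT (T : Tile) : ℂ := T.P + (7 / 10 + 4 / 10 * I) * T.e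

/-- event: `M` differs from `m0` by at least `ρ` -/
def GM (m0 ρ : ℝ) : ℕ → St → Prop := fun n s => ρ ≤ |Mh n s - m0|

/-- event: `M` differs from `m0` by at least `ρ` or the half gap is `0` -/
def GZ (m0 ρ : ℝ) : ℕ → St → Prop := fun n s => ρ ≤ |Mh n s - m0| ∨ s.j = 0

end Pool.Agent.Lib.MP_d437ed.Hit
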