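import Pool.Agent.Lib.MP_d437ed.Hit.Basics

/-!
Module MART (helper7): the expected half gap is close to the half gap.
-/

noncomputable section

open MeasureTheory Complex

namespace Pool.Agent.Lib.MP_d437ed.Hit

namespace MartM

theorem vol_ne_top (hG : SpecGeo) {T : Tile} (hT : T.e ≠ 0) (X : Set ℂ) : volume (T.set ∩ X) ≠ ⊤ := by
  have h := (hG T hT).2.2.2.1
  have h2 : volume (T.set ∩ X) ≤ volume T.set := measure_mono Set.inter_subset_left
  rw [h] at h2
  exact ne_top_of_le_ne_top ENNReal.ofReal_ne_top h2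

theorem ar_le (hG : SpecGeo) {A : Tile} (hA : A.e ≠ 0) (B : Tile) : ar A B ≤ ‖A.e‖ ^ 2 := by
  have h := (hG A hA).2.2.2.1
  have h2 : volume (A.set ∩ B.set) ≤ volume A.set := measure_mono Set.inter_subset_left
  rw [h] at h2
  have h3 := ENNReal.toReal_mono ENNReal.ofReal_ne_top h2
  rwa [ENNReal.toReal_ofReal (by positivity)] at h3

theorem ar_eq_of_subset (hG : SpecGeo) {A : Tile} (hA : A.e ≠ 0) {B : Tile} (h : A.set ⊆ B.set) :
    ar A B = ‖A.e‖ ^ 2 := by
  rw [ar, Set.inter_eq_left.2 h, (hG A hA).2.2.2.1, ENNReal.toReal_ofReal (by positivity)]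

theorem ar_eq_zero_of_empty {A B : Tile} (h : ¬ (A.set ∩ B.set).Nonempty) : ar A B = 0 := by
  rw [Set.not_nonempty_iff_eq_empty] at h
  rw [ar, h, measure_empty, ENNReal.toReal_zero]

/-- dissect the first tile only -/
theorem ar_desc_left (hG : SpecGeo) (hB : SpecBas) {A B : Tile} (hA : A.e ≠ 0) (hB' : B.e ≠ 0) (t : ℕ) :
    ar A B = ∑ w ∈ wd t, ar (A.desc w) B := by
  have h := hB.1 A t B.set hA (hG B hB').1
  rw [ar, h, ENNReal.toReal_sum]
  · rfl
  · intro w _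
    exact vol_ne_top hG (hB.2.1 A w hA).1 _

theorem ar_child_left (hG : SpecGeo) (hB : SpecBas) {A B : Tile} (hA : A.e ≠ 0) (hB' : B.e ≠ 0) :
    ar A B = ∑ i : Fin 5, ar (A.child i) B := by
  rw [ar_desc_left hG hB hA hB' 1, sum_wd_succ]
  simp only [sum_wd_zero]
  rfl

theorem ar_desc_right (hG : SpecGeo) (hB : SpecBas) {A B : Tile} (hA : A.e ≠ 0) (hB' : B.e ≠ 0) (t : ℕ) :
    ar A B = ∑ v ∈ wd t, ar A (B.desc v) := by
  rw [ar_comm, ar_desc_left hG hB hB' hA t]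
  exact Finset.sum_congr rfl fun v _ => ar_comm _ _

theorem sum_wd_snoc (n : ℕ) (f : List (Fin 5) → ℝ) :
    ∑ w ∈ wd (n + 1), f w = ∑ w ∈ wd n, ∑ i : Fin 5, f (w ++ [i]) := by
  rw [sum_wd_add n 1]
  refine Finset.sum_congr rfl fun w _ => ?_
  rw [sum_wd_succ]
  simp only [sum_wd_zero]

/-- increments of the martingale -/
def dd (T : Tile) (i : Fin 5) : ℝ := sg T.c / 2 + 5 / 12 * (sg (T.child i).c - sg T.c)

theorem dd_sum (T : Tile) : ∑ i : Fin 5, dd T i = 0 := by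
  simp only [dd, Tile.child, Fin.sum_univ_five, chi, cM]
  cases T.c <;> simp [sg] <;> norm_num

theorem sg_le (c : Bool) : |sg c| ≤ 1 := by cases c <;> simp [sg]

theorem dd_abs (T : Tile) (i : Fin 5) : |dd T i| ≤ 1 / 2 := by
  simp only [dd]
  generalize (T.child i).c = c'
  cases T.c <;> cases c' <;> simp [sg] <;> norm_num [abs_le]

/-- the martingale -/
def ff (T : Tile) (w : List (Fin 5)) : ℝ :=
  np T w - w.length / 2 + 5 / 12 * (sg (T.desc w).c - sg T.c)

theorem ff_snoc (T : Tile) (w : List (Fin 5)) (i : Fin 5) :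
    ff T (w ++ [i]) = ff T w + dd (T.desc w) i := by
  simp only [ff, dd, desc_append, np_append, List.length_append, List.length_singleton, desc_cons, desc_nil,
    np_cons, np_nil]
  push_cast
  cases (T.desc w).c <;> simp [sg] <;> ring

/-- the increment at depth `n` -/
def DD (A B : Tile) (n : ℕ) : ℝ := ∑ w ∈ wd n, ∑ i : Fin 5, ar ((A.desc w).child i) B * dd (A.desc w) i

def SS (A B : Tile) (n : ℕ) : ℝ := ∑ w ∈ wd n, ar (A.desc w) B * ff A w

theorem SS_succ (hG : SpecGeo) (hB : SpecBas) {A B : Tile} (hA : A.e ≠ 0) (hB' : B.e ≠ 0) (n : ℕ) :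
    SS A B (n + 1) = SS A B n + DD A B n := by
  rw [SS, SS, DD, sum_wd_snoc, ← Finset.sum_add_distrib]
  refine Finset.sum_congr rfl fun w _ => ?_
  rw [ar_child_left hG hB (hB.2.1 A w hA).1 hB', Finset.sum_mul, ← Finset.sum_add_distrib]
  refine Finset.sum_congr rfl fun i _ => ?_
  rw [ff_snoc, desc_append, desc_cons, desc_nil]
  ring

theorem SS_zero (A B : Tile) : SS A B 0 = 0 := by
  rw [SS, sum_wd_zero]
  simp [ff]

open Classical in
/-- the crossing words -/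
def WW (A B : Tile) (n : ℕ) : Finset (List (Fin 5)) :=
  (wd n).filter fun w => ¬ (A.desc w).set ⊆ B.set ∧ ((A.desc w).set ∩ B.set).Nonempty

theorem DD_abs (hG : SpecGeo) (hB : SpecBas) {A B : Tile} (hA : A.e ≠ 0) (hB' : B.e ≠ 0) (n : ℕ) :
    |DD A B n| ≤ 1 / 2 * ∑ w ∈ WW A B n, ar (A.desc w) B := by
  classical
  have h1 : DD A B n = ∑ w ∈ WW A B n, ∑ i : Fin 5, ar ((A.desc w).child i) B * dd (A.desc w) i := by
    rw [DD]
    symm
    refine Finset.sum_subset (Finset.filter_subset _ _) ?_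
    intro w hw hw2
    have hne := (hB.2.1 A w hA).1
    by_cases c1 : (A.desc w).set ⊆ B.set
    · have : ∀ i : Fin 5, ar ((A.desc w).child i) B = (‖(A.desc w).e‖ / √5) ^ 2 := by
        intro i
        have hch := norm_child hB hne i
        have hsub : ((A.desc w).child i).set ⊆ (A.desc w).set := (hB.2.1 (A.desc w) [i] hne).2.2
        rw [ar_eq_of_subset hG hch.1 (hsub.trans c1), ← hch.2]
        have h5 : (0 : ℝ) < √5 := by positivity
        rw [mul_div_cancel_right₀ _ h5.ne']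
      simp only [this]
      rw [← Finset.mul_sum, dd_sum, mul_zero]
    · have c2 : ¬ ((A.desc w).set ∩ B.set).Nonempty := by
        intro hcon
        exact hw2 (Finset.mem_filter.2 ⟨hw, c1, hcon⟩)
      have : ∀ i : Fin 5, ar ((A.desc w).child i) B = 0 := by
        intro i
        refine ar_eq_zero_of_empty fun ⟨z, hz⟩ => c2 ⟨z, ?_, hz.2⟩
        exact (hB.2.1 (A.desc w) [i] hne).2.2 hz.1
      simp only [this, zero_mul, Finset.sum_const_zero]
  rw [h1, Finset.mul_sum]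
  refine (Finset.abs_sum_le_sum_abs _ _).trans (Finset.sum_le_sum fun w _ => ?_)
  rw [ar_child_left hG hB (hB.2.1 A w hA).1 hB', Finset.mul_sum]
  refine (Finset.abs_sum_le_sum_abs _ _).trans (Finset.sum_le_sum fun i _ => ?_)
  rw [abs_mul, abs_of_nonneg (ar_nonneg _ _), mul_comm]
  exact mul_le_mul_of_nonneg_right (dd_abs _ _) (ar_nonneg _ _)

theorem DD_le (hG : SpecGeo) (hB : SpecBas) {C : ℝ} (hC : ∀ (A B : Tile) (l : ℕ), A.e ≠ 0 → ‖A.e‖ = ‖B.e‖ →
    ∀ W : Finset (List (Fin 5)), W ⊆ wd l →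
    (∀ w ∈ W, ¬ (A.desc w).set ⊆ B.set ∧ ((A.desc w).set ∩ B.set).Nonempty) →
    ∑ w ∈ W, ‖(A.desc w).e‖ ^ 2 ≤ C * ‖A.e‖ ^ 2 / √5 ^ l) {A B : Tile} (hA : A.e ≠ 0) (hAB : ‖A.e‖ = ‖B.e‖)
    (hpos : 0 < ar A B) (n : ℕ) :
    |DD A B n| / ar A B ≤ 1 / 2 * min 1 (C / (ar A B / ‖A.e‖ ^ 2) * (1 / √5) ^ n) := by
  classical
  have hB' : B.e ≠ 0 := by
    intro h0
    rw [h0, norm_zero, norm_eq_zero] at hAB
    exact hA hAB
  have hr : 0 < ‖A.e‖ := norm_pos_iff.2 hA
  have h1 := DD_abs hG hB hA hB' n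
  have h2 : ∑ w ∈ WW A B n, ar (A.desc w) B ≤ ar A B := by
    rw [ar_desc_left hG hB hA hB' n]
    exact Finset.sum_le_sum_of_subset_of_nonneg (Finset.filter_subset _ _) fun w _ _ => ar_nonneg _ _
  have h3 : ∑ w ∈ WW A B n, ar (A.desc w) B ≤ C * ‖A.e‖ ^ 2 / √5 ^ n := by
    refine le_trans (Finset.sum_le_sum fun w _ => ar_le hG (hB.2.1 A w hA).1 B) ?_
    exact hC A B n hA hAB _ (Finset.filter_subset _ _) fun w hw => (Finset.mem_filter.1 hw).2
  rw [div_le_iff₀ hpos]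
  refine h1.trans ?_
  rw [mul_assoc]
  refine mul_le_mul_of_nonneg_left ?_ (by norm_num)
  rw [min_mul_of_nonneg _ _ hpos.le, le_min_iff]
  refine ⟨by rwa [one_mul], h3.trans (le_of_eq ?_)⟩
  have h5 : (0 : ℝ) < √5 := by positivity
  rw [one_div, inv_pow]
  field_simp

/-- geometric sums cut at 1 -/
theorem sum_min_le {K ρ : ℝ} (hρ0 : 0 ≤ ρ) (hρ1 : ρ < 1) (hK : 0 ≤ K) {m : ℕ} (hm : K * ρ ^ m ≤ 1) (n : ℕ) :
    ∑ l ∈ Finset.range n, min 1 (K * ρ ^ l) ≤ m + 1 / (1 - ρ) := by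
  have h1 : ∑ l ∈ Finset.range n, min 1 (K * ρ ^ l) ≤ ∑ l ∈ Finset.range (m + n), min 1 (K * ρ ^ l) := by
    refine Finset.sum_le_sum_of_subset_of_nonneg ?_ fun l _ _ => le_min zero_le_one (by positivity)
    exact Finset.range_subset_range.2 (by omega)
  refine h1.trans ?_
  rw [Finset.sum_range_add]
  refine add_le_add ?_ ?_
  · refine (Finset.sum_le_card_nsmul _ _ 1 fun l _ => min_le_left _ _).trans ?_
    simp
  · have h2 : ∀ l ∈ Finset.range n, min 1 (K * ρ ^ (m + l)) ≤ ρ ^ l := by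
      intro l _
      refine (min_le_right _ _).trans ?_
      rw [pow_add, ← mul_assoc]
      calc K * ρ ^ m * ρ ^ l ≤ 1 * ρ ^ l := mul_le_mul_of_nonneg_right hm (by positivity)
        _ = ρ ^ l := one_mul _
    refine (Finset.sum_le_sum h2).trans ?_
    rw [geom_sum_eq hρ1.ne]
    have h3 : 0 < 1 - ρ := by linarith
    have h4 : (ρ ^ n - 1) / (ρ - 1) = (1 - ρ ^ n) / (1 - ρ) := by
      rw [← neg_sub 1 (ρ ^ n), ← neg_sub 1 ρ, neg_div_neg_eq]
    rw [h4]
    have h5 : 0 ≤ ρ ^ n := by positivity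
    gcongr
    linarith

theorem half (hG : SpecGeo) (hB : SpecBas) (hN : SpecBnd) : ∃ C0 C1 : ℝ, 0 < C0 ∧ 0 < C1 ∧
    ∀ (A B : Tile) (n : ℕ), A.e ≠ 0 → ‖A.e‖ = ‖B.e‖ → 0 < ar A B →
    |(∑ w ∈ wd n, ar (A.desc w) B * np A w) / ar A B - n / 2| ≤
      C0 + C1 * Real.log (1 / (ar A B / ‖A.e‖ ^ 2)) := by
  obtain ⟨C, hC0, hC⟩ := hN
  have h5 : (0 : ℝ) < √5 := by positivity
  have h51 : (1 : ℝ) < √5 := by
    rw [show (1 : ℝ) = √1 by rw [Real.sqrt_one]]
    exact Real.sqrt_lt_sqrt (by norm_num) (by norm_num)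
  have hlog : 0 < Real.log √5 := Real.log_pos h51
  set ρ : ℝ := 1 / √5 with hρ
  have hρ0 : 0 < ρ := by positivity
  have hρ1 : ρ < 1 := by rw [hρ, div_lt_one h5]; exact h51
  have hρ2 : 0 < 1 - ρ := by linarith
  refine ⟨1 / 2 * (|Real.log C| / Real.log √5 + 1 + 1 / (1 - ρ)) + 5 / 6, 1 / 2 * (1 / Real.log √5),
    by positivity, by positivity, ?_⟩
  intro A B n hA hAB hpos
  have hB' : B.e ≠ 0 := by
    intro h0
    rw [h0, norm_zero, norm_eq_zero] at hAB
    exact hA hAB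
  have hr : 0 < ‖A.e‖ := norm_pos_iff.2 hA
  set η : ℝ := ar A B / ‖A.e‖ ^ 2 with hη
  have hη0 : 0 < η := by positivity
  have hη1 : η ≤ 1 := by
    rw [hη, div_le_one (by positivity)]
    exact ar_le hG hA B
  have hlogη : 0 ≤ Real.log (1 / η) := Real.log_nonneg (by rw [le_div_iff₀ hη0]; linarith)
  have hnum : 0 ≤ (|Real.log C| + Real.log (1 / η)) / Real.log √5 := by positivity
  set m : ℕ := ⌈(|Real.log C| + Real.log (1 / η)) / Real.log √5⌉₊ with hm
  have hm1 : (m : ℝ) ≤ (|Real.log C| + Real.log (1 / η)) / Real.log √5 + 1 :=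
    (Nat.ceil_lt_add_one hnum).le
  have hm2 : C / η * ρ ^ m ≤ 1 := by
    have h6 : (|Real.log C| + Real.log (1 / η)) / Real.log √5 ≤ m := Nat.le_ceil _
    rw [div_le_iff₀ hlog] at h6
    have h7 : Real.log (C / η) ≤ Real.log (√5 ^ m) := by
      rw [Real.log_pow, Real.log_div hC0.ne' hη0.ne']
      rw [one_div, Real.log_inv] at h6
      linarith [le_abs_self (Real.log C)]
    have h8 : C / η ≤ √5 ^ m := (Real.log_le_log_iff (by positivity) (by positivity)).1 h7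
    rw [hρ, one_div, inv_pow, ← div_eq_mul_inv, div_le_one (by positivity)]
    exact h8
  have hSS : |SS A B n| / ar A B ≤ 1 / 2 * (m + 1 / (1 - ρ)) := by
    refine le_trans ?_ (mul_le_mul_of_nonneg_left (sum_min_le hρ0.le hρ1 (by positivity) hm2 n) (by norm_num))
    induction n with
    | zero => rw [SS_zero]; simp
    | succ n ih =>
      rw [SS_succ hG hB hA hB', Finset.sum_range_succ, mul_add]
      refine le_trans ?_ (add_le_add ih (DD_le hG hB hC hA hAB hpos n))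
      rw [← add_div]
      exact div_le_div_of_nonneg_right (abs_add_le _ _) hpos.le
  have key : (∑ w ∈ wd n, ar (A.desc w) B * np A w) - n / 2 * ar A B = SS A B n -
      5 / 12 * ∑ w ∈ wd n, ar (A.desc w) B * (sg (A.desc w).c - sg A.c) := by
    rw [ar_desc_left hG hB hA hB' n, Finset.mul_sum, Finset.mul_sum, SS, ← Finset.sum_sub_distrib,
      ← Finset.sum_sub_distrib]
    refine Finset.sum_congr rfl fun w hw => ?_
    rw [ff, mem_wd.1 hw]
    ring
  have hsg : |∑ w ∈ wd n, ar (A.desc w) B * (sg (A.desc w).c - sg A.c)| ≤ 2 * ar A B := by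
    rw [ar_desc_left hG hB hA hB' n, Finset.mul_sum]
    refine (Finset.abs_sum_le_sum_abs _ _).trans (Finset.sum_le_sum fun w _ => ?_)
    rw [abs_mul, abs_of_nonneg (ar_nonneg _ _), mul_comm]
    refine mul_le_mul_of_nonneg_right ?_ (ar_nonneg _ _)
    have e1 := sg_le (A.desc w).c
    have e2 := sg_le A.c
    rw [abs_le] at *
    constructor <;> linarith
  have key2 : (∑ w ∈ wd n, ar (A.desc w) B * np A w) / ar A B - n / 2 = SS A B n / ar A B -
      5 / 12 * ((∑ w ∈ wd n, ar (A.desc w) B * (sg (A.desc w).c - sg A.c)) / ar A B) := by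
    have : (∑ w ∈ wd n, ar (A.desc w) B * np A w) / ar A B - n / 2 =
        ((∑ w ∈ wd n, ar (A.desc w) B * np A w) - n / 2 * ar A B) / ar A B := by
      field_simp
    rw [this, key]
    ring
  have hsg2 : |(∑ w ∈ wd n, ar (A.desc w) B * (sg (A.desc w).c - sg A.c)) / ar A B| ≤ 2 := by
    rw [abs_div, abs_of_pos hpos, div_le_iff₀ hpos]
    exact hsg
  have hSS2 : |SS A B n / ar A B| ≤ 1 / 2 * (m + 1 / (1 - ρ)) := by
    rw [abs_div, abs_of_pos hpos]
    exact hSS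
  rw [key2]
  have hfin : |SS A B n / ar A B -
      5 / 12 * ((∑ w ∈ wd n, ar (A.desc w) B * (sg (A.desc w).c - sg A.c)) / ar A B)| ≤
      1 / 2 * (m + 1 / (1 - ρ)) + 5 / 6 := by
    rw [abs_le] at *
    constructor <;> linarith [hsg2.1, hsg2.2, hSS2.1, hSS2.2]
  refine hfin.trans ?_
  have h9 : (|Real.log C| + Real.log (1 / η)) / Real.log √5 =
      |Real.log C| / Real.log √5 + 1 / Real.log √5 * Real.log (1 / η) := by ring
  rw [h9] at hm1
  linarith

end MartM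

open MartM

/-- **MART**. -/
theorem specMart (hG : SpecGeo) (hB : SpecBas) (hN : SpecBnd) : SpecMart := by
  obtain ⟨C0, C1, h0, h1, h⟩ := half hG hB hN
  refine ⟨2 * C0, 2 * C1, by positivity, by positivity, ?_⟩
  intro n s hs
  have hA := hs.1
  have hB' := ok_B hs
  have hpos := hs.2.2
  have hA1 := h s.A s.B n hA hs.2.1 hpos
  have hB1 := h s.B s.A n hB' hs.2.1.symm (by rw [ar_comm]; exact hpos)
  rw [ar_comm s.B s.A, ← hs.2.1] at hB1
  have e1 : ∀ w ∈ wd n, ar (s.A.desc w) s.B = ∑ v ∈ wd n, ar (s.A.desc w) (s.B.desc v) := fun w _ =>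
    ar_desc_right hG hB (hB.2.1 s.A w hA).1 hB' n
  have e2 : ∀ v ∈ wd n, ar (s.B.desc v) s.A = ∑ w ∈ wd n, ar (s.A.desc w) (s.B.desc v) := fun v _ => by
    rw [ar_comm]
    exact ar_desc_left hG hB hA (hB.2.1 s.B v hB').1 n
  have key : Mh n s - s.j = (∑ v ∈ wd n, ar (s.B.desc v) s.A * np s.B v) / ar s.A s.B -
      (∑ w ∈ wd n, ar (s.A.desc w) s.B * np s.A w) / ar s.A s.B := by
    have h3 : Mh n s = (∑ w ∈ wd n, ∑ v ∈ wd n, ar (s.A.desc w) (s.B.desc v) *
        ((s.j : ℝ) + np s.B v - np s.A w)) / ar s.A s.B := by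
      rw [Mh, ExN_cells hB n _ hs, Finset.sum_div]
      refine Finset.sum_congr rfl fun w _ => ?_
      rw [Finset.sum_div]
      refine Finset.sum_congr rfl fun v _ => ?_
      simp only [St.cell]
      push_cast
      ring
    have h4 : (∑ w ∈ wd n, ∑ v ∈ wd n, ar (s.A.desc w) (s.B.desc v) *
        ((s.j : ℝ) + np s.B v - np s.A w)) = ar s.A s.B * s.j +
        (∑ v ∈ wd n, ar (s.B.desc v) s.A * np s.B v) - ∑ w ∈ wd n, ar (s.A.desc w) s.B * np s.A w := by
      have e1' : ∑ w ∈ wd n, ar (s.A.desc w) s.B * (np s.A w : ℝ) =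
          ∑ w ∈ wd n, ∑ v ∈ wd n, ar (s.A.desc w) (s.B.desc v) * (np s.A w : ℝ) :=
        Finset.sum_congr rfl fun w hw => by rw [e1 w hw, Finset.sum_mul]
      have e2' : ∑ v ∈ wd n, ar (s.B.desc v) s.A * (np s.B v : ℝ) =
          ∑ v ∈ wd n, ∑ w ∈ wd n, ar (s.A.desc w) (s.B.desc v) * (np s.B v : ℝ) :=
        Finset.sum_congr rfl fun v hv => by rw [e2 v hv, Finset.sum_mul]
      rw [e1', e2', hB.2.2.2.1 s.A s.B n hA hB']
      simp only [Finset.sum_mul]
      rw [Finset.sum_comm (s := wd n) (t := wd n) (f := fun v w => ar (s.A.desc w) (s.B.desc v) * (np s.B v : ℝ)),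
        ← Finset.sum_add_distrib, ← Finset.sum_sub_distrib]
      refine Finset.sum_congr rfl fun w _ => ?_
      rw [← Finset.sum_add_distrib, ← Finset.sum_sub_distrib]
      refine Finset.sum_congr rfl fun v _ => ?_
      ring
    rw [h3, h4]
    field_simp
    ring
  rw [key]
  have e3 : s.eta = ar s.A s.B / ‖s.A.e‖ ^ 2 := rfl
  rw [e3]
  rw [abs_le] at *
  constructor <;> linarith [hA1.1, hA1.2, hB1.1, hB1.2]

end Pool.Agent.Lib.MP_d437ed.Hit
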