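import Pool.Agent.Lib.MP_d437ed.Hit.Defs

/-!
Specs of the hitting lemma (MP_d437ed). Proofs module by module: /team-store/MP_d437ed_HIT.md
-/

noncomputable section

open MeasureTheory Complex

namespace Pool.Agent.Lib.MP_d437ed.Hit

/-- GEO: the triangle as a set -/
def SpecGeo : Prop := ∀ T : Tile, T.e ≠ 0 →
  MeasurableSet T.set ∧ Convex ℝ T.set ∧ IsClosed T.set ∧ volume T.set = ENNReal.ofReal (‖T.e‖ ^ 2) ∧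
  (∀ z ∈ T.set, ∀ z' ∈ T.set, ‖z - z'‖ ≤ √5 * ‖T.e‖)

/-- DISS: the dissection -/
def SpecDiss : Prop := ∀ T : Tile, T.e ≠ 0 →
  (∀ i, (T.child i).set ⊆ T.set ∧ (T.child i).e ≠ 0 ∧ ‖(T.child i).e‖ * √5 = ‖T.e‖) ∧
  ∀ X : Set ℂ, MeasurableSet X → volume (T.set ∩ X) = ∑ i, volume ((T.child i).set ∩ X)

/-- BAS: iterated dissection, the chain in terms of cells -/
def SpecBas : Prop :=
  (∀ (T : Tile) (t : ℕ) (X : Set ℂ), T.e ≠ 0 → MeasurableSet X →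
    volume (T.set ∩ X) = ∑ w ∈ wd t, volume ((T.desc w).set ∩ X)) ∧
  (∀ (T : Tile) (w : List (Fin 5)), T.e ≠ 0 →
    (T.desc w).e ≠ 0 ∧ ‖(T.desc w).e‖ * √5 ^ w.length = ‖T.e‖ ∧ (T.desc w).set ⊆ T.set) ∧
  (∀ (T : Tile) (t : ℕ), T.e ≠ 0 → ∀ w ∈ wd t, ∀ v ∈ wd t, w ≠ v →
    volume ((T.desc w).set ∩ (T.desc v).set) = 0) ∧
  (∀ (A B : Tile) (t : ℕ), A.e ≠ 0 → B.e ≠ 0 →
    ar A B = ∑ w ∈ wd t, ∑ v ∈ wd t, ar (A.desc w) (B.desc v)) ∧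
  (∀ (s : St) (t : ℕ) (F : St → ℝ), s.ok → ExN t F s = ∑ w ∈ wd t, ∑ v ∈ wd t,
    ar (s.A.desc w) (s.B.desc v) / ar s.A s.B *
      F ⟨s.A.desc w, s.B.desc v, s.j + np s.B v - np s.A w⟩) ∧
  (∀ s : St, s.ok → 0 < s.eta ∧ s.eta ≤ 1)

/-- BND: descendants of `A` of depth `l` that cross the boundary of `B` have small total area -/
def SpecBnd : Prop := ∃ C : ℝ, 0 < C ∧ ∀ (A B : Tile) (l : ℕ), A.e ≠ 0 → ‖A.e‖ = ‖B.e‖ →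
  ∀ W : Finset (List (Fin 5)), W ⊆ wd l →
    (∀ w ∈ W, ¬ (A.desc w).set ⊆ B.set ∧ ((A.desc w).set ∩ B.set).Nonempty) →
    ∑ w ∈ W, ‖(A.desc w).e‖ ^ 2 ≤ C * ‖A.e‖ ^ 2 / √5 ^ l

/-- MART: the expected half gap is close to the half gap -/
def SpecMart : Prop := ∃ C0 C1 : ℝ, 0 < C0 ∧ 0 < C1 ∧ ∀ (n : ℕ) (s : St), s.ok →
  |Mh n s - s.j| ≤ C0 + C1 * Real.log (1 / s.eta)

open Classical in
/-- ETA: small overlaps are rare -/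
def SpecEta : Prop := ∃ C : ℝ, 1 ≤ C ∧ ∀ (s : St) (t : ℕ) (l : ℝ), s.ok → 0 ≤ l →
  ExN t (fun s' => if s'.eta ≤ l then 1 else 0) s ≤ C * l / s.eta ∧
  (C ≤ √5 ^ t * s.eta → ExN t (fun s' => if s'.eta ≤ l then 1 else 0) s ≤ C * l)

/-- words of length `k` in the letters 3, 4 (the two (+)-children of a (+)-tile) -/
def wr (k : ℕ) : Finset (List (Fin 5)) :=
  Finset.univ.image (fun v : Fin k → Bool => List.ofFn (fun i => if v i then (3 : Fin 5) else 4))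

/-- CAN: the always-right descendants of a (+)-tile -/
def SpecCan : Prop := ∀ T : Tile, T.c = true → T.e ≠ 0 →
  (∀ k, ∀ u ∈ wr k, (T.desc u).c = true ∧ np T u = k ∧
    Metric.ball (gT (T.desc u)) (13 / 100 * ‖T.e‖) ⊆ T.set ∧
    ‖gT (T.desc u) - gT T‖ ≤ 256 / 1000 * ‖T.e‖) ∧
  (∀ k, 2 ≤ k → ∃ u ∈ wr k, ∃ u' ∈ wr k, 4 / 10 * ‖T.e‖ ≤ ‖gT (T.desc u) - gT (T.desc u')‖) ∧
  (∀ k, 2 ≤ k → ∀ Q : List (Fin 5) → Prop, (∃ u ∈ wr k, Q u) → (∃ u ∈ wr k, ¬ Q u) →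
    ∃ u ∈ wr k, ∃ u' ∈ wr k, Q u ∧ ¬ Q u' ∧ ‖gT (T.desc u) - gT (T.desc u')‖ ≤ 18 / 100 * ‖T.e‖) ∧
  (∀ k, ∑ u ∈ wr k, gT (T.desc u) = 2 ^ k * gT T) ∧
  (gT (T.child 3) = gT T + (14 / 100 - 2 / 100 * I) * T.e ∧
    gT (T.child 4) = gT T - (14 / 100 - 2 / 100 * I) * T.e ∧
    (T.child 3).e = -(T.e / (2 + I)) ∧ (T.child 4).e = T.e / (2 + I))

/-- SEC: a point deep inside `A` and in `B` gives a definite overlap -/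
def SpecSec : Prop := ∀ (A B : Tile) (z : ℂ), A.e ≠ 0 → ‖A.e‖ = ‖B.e‖ → z ∈ B.set →
  Metric.ball z (13 / 100 * ‖A.e‖) ⊆ A.set → (13 / 100) ^ 2 / 5 * ‖A.e‖ ^ 2 ≤ ar A B

/-- INN: a definite overlap contains a (+)-descendant of `A` -/
def SpecInn : Prop := ∀ η : ℝ, 0 < η → ∃ i0 : ℕ, ∀ s : St, s.ok → η ≤ s.eta →
  ∃ w ∈ wd i0, (s.A.desc w).c = true ∧ (s.A.desc w).set ⊆ s.B.set

/-- R1: a rigid pair has (+)-descendants `A_w`, `B_v` such that every always-right point of `A_w` in `B_v` is an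
always-right point of `B_v` up to depth `k1 - 1` -/
def SpecR1 : Prop := ∀ η : ℝ, 0 < η → ∃ C2 i0 : ℕ, ∀ k1 : ℕ, 3 ≤ k1 → ∃ (L : ℕ) (p : ℝ),
  0 < p ∧ p ≤ (13 / 100) ^ 2 / 5 / 5 ^ L ∧ i0 + (C2 + 1) * k1 ≤ L ∧ ∀ (k : ℕ) (s : St), s.ok → η ≤ s.eta →
    pr (GM (Mh (k + L) s) 1) k L s < p →
    ∃ (m q : ℕ) (w v : List (Fin 5)), m ≤ C2 ∧ q ≤ i0 ∧ w ∈ wd (i0 + m * k1) ∧ v ∈ wd (i0 + m * k1) ∧
      np s.A w = q + m * k1 ∧ |(np s.B v : ℤ) - np s.A w| ≤ C2 ∧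
      (s.A.desc w).c = true ∧ (s.B.desc v).c = true ∧
      (∃ u ∈ wr (L - (i0 + m * k1)), gT ((s.A.desc w).desc u) ∈ (s.B.desc v).set) ∧
      ∀ u ∈ wr (L - (i0 + m * k1)), gT ((s.A.desc w).desc u) ∈ (s.B.desc v).set →
        ∃ u' ∈ wr (k1 - 1), gT ((s.A.desc w).desc u) ∈ ((s.B.desc v).desc u').set

/-- R2: such a pair of tiles has near-coincident descendants of depth 2 -/
def SpecR2 : Prop := ∀ ε : ℝ, 0 < ε → ∃ k1 : ℕ, 3 ≤ k1 ∧ ∀ (D : ℕ) (T U : Tile), k1 ≤ D →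
  T.c = true → U.c = true → T.e ≠ 0 → ‖T.e‖ = ‖U.e‖ →
  (∃ u ∈ wr D, gT (T.desc u) ∈ U.set) →
  (∀ u ∈ wr D, gT (T.desc u) ∈ U.set → ∃ u' ∈ wr (k1 - 1), gT (T.desc u) ∈ (U.desc u').set) →
  ∃ w ∈ wr 2, ∃ v ∈ wr 2, ‖gT (T.desc w) - gT (U.desc v)‖ ≤ ε * ‖(T.desc w).e‖ ∧
    (‖(T.desc w).e - (U.desc v).e‖ ≤ ε * ‖(T.desc w).e‖ ∨
      ‖(T.desc w).e + (U.desc v).e‖ ≤ ε * ‖(T.desc w).e‖)

/-- R: rigid pairs have near-coincident descendants -/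
def SpecR : Prop := ∀ η : ℝ, 0 < η → ∃ C2 i0 : ℕ, ∀ ε : ℝ, 0 < ε → ∃ (k1 L : ℕ) (p : ℝ),
  0 < p ∧ i0 + C2 * k1 + 2 ≤ L ∧ ∀ (k : ℕ) (s : St), s.ok → η ≤ s.eta →
    pr (GM (Mh (k + L) s) 1) k L s < p →
    ∃ (m q : ℕ) (w v : List (Fin 5)), m ≤ C2 ∧ q ≤ i0 ∧
      w ∈ wd (i0 + m * k1 + 2) ∧ v ∈ wd (i0 + m * k1 + 2) ∧ np s.A w = q + (m * k1 + 2) ∧
      (s.A.desc w).c = true ∧ (s.B.desc v).c = true ∧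
      ‖gT (s.A.desc w) - gT (s.B.desc v)‖ ≤ ε * ‖(s.A.desc w).e‖ ∧
      (‖(s.A.desc w).e - (s.B.desc v).e‖ ≤ ε * ‖(s.A.desc w).e‖ ∨
        ‖(s.A.desc w).e + (s.B.desc v).e‖ ≤ ε * ‖(s.A.desc w).e‖) ∧
      |(np s.B v : ℤ) - np s.A w| ≤ C2 ∧
      p * ar s.A s.B ≤ ar (s.A.desc w) (s.B.desc v)

/-- LAT: units and corners of descendants; compatibility is inherited -/
def SpecLat : Prop :=
  (∀ (T : Tile) (w : List (Fin 5)), ∃ k : ℕ,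
    (T.desc w).e * ((2 + I) ^ np T w * (2 - I) ^ (w.length - np T w)) = I ^ k * T.e ∧
    np T w ≤ w.length) ∧
  (∀ (T : Tile) (w w' : List (Fin 5)), w.length = w'.length → np T w = np T w' →
    (∃ k : ℕ, (T.desc w).e = I ^ k * (T.desc w').e) ∧
    ∃ m n : ℤ, (T.desc w).P - (T.desc w').P = (T.desc w).e * (m + n * I)) ∧
  (∀ (s : St) (i k : Fin 5), Comp s → Comp (s.ch i k)) ∧
  (∀ s : St, Comp s → s.A.e ≠ 0 ∧ ‖s.A.e‖ = ‖s.B.e‖ ∧ ∃ k : ℕ, s.A.e = I ^ k * vv ^ s.j * s.B.e)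

/-- DL: the function `dl` -/
def SpecDl : Prop := dl 0 = 0 ∧ (∀ j, 0 ≤ dl j ∧ dl j ≤ 1) ∧ (∀ j, j ≠ 0 → 0 < dl j) ∧
  (∀ j, dl (-j) = dl j) ∧ (∀ i j, dl (i - j) ≤ dl i + dl j) ∧
  (∀ (j : ℤ) (m : ℕ), dl j ≤ ‖vv ^ j - I ^ m‖) ∧ (∀ j : ℤ, ∃ m : ℕ, dl j = ‖vv ^ j - I ^ m‖)

/-- GOOD: good scales -/
def SpecGood : Prop := ∀ C' : ℕ, ∃ C : ℝ, 0 < C ∧ ∀ K0 : ℕ, ∃ K : ℕ, K0 ≤ K ∧
  (∑ j ∈ Finset.Icc (1 : ℤ) K, ∑ i ∈ Finset.Icc (-(C' : ℤ)) C', lam (j + i)) ≤ C * K ∧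
  ∀ j ∈ Finset.Icc (1 : ℤ) K, ∑ i ∈ Finset.Icc (-(C' : ℤ)) C', lam (j + i) ≤ C * (1 + Real.log K)

/-- W: the expected half gap moves within time `C (1 + log (1/dl))` -/
def SpecW : Prop := ∀ η0 : ℝ, 0 < η0 → ∃ (p0 : ℝ) (C' : ℕ) (C : ℝ), 0 < p0 ∧ 0 < C ∧
  ∀ (k l : ℕ) (s : St), s.ok → Comp s → η0 ≤ s.eta → s.j ≠ 0 →
    C * (1 + ∑ i ∈ Finset.Icc (-(C' : ℤ)) C', lam (s.j + i)) ≤ l →
    p0 ≤ pr (GZ (Mh (k + l) s) (1 / 2)) k l s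

/-- HIT: the half gap hits 0 -/
def SpecHit : Prop := ∀ η1 : ℝ, 0 < η1 → ∃ C : ℝ, 0 < C ∧ ∀ K0 : ℕ, ∃ K : ℕ, K0 ≤ K ∧
  ∀ (s : St) (N : ℕ), s.ok → Comp s → η1 ≤ s.eta → 0 < s.j → 8 * s.j ≤ K → C * K ^ 2 ≤ N →
    kil N (fun _ => 1) s ≤ 1 / 2

/-- COAL: pairs in one lattice coalesce within 4 steps with positive probability -/
def SpecCoal : Prop := ∃ p1 : ℝ, 0 < p1 ∧ ∀ (s : St) (n : ℕ), s.ok → Comp s → s.j = 0 → 4 ≤ n →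
  p1 * ar s.A s.B ≤ co n s.A s.B

/-- FIN: the coalescence theorem -/
def SpecFin : Prop := ∃ c : ℝ, 0 < c ∧ ∀ η1 : ℝ, 0 < η1 → ∃ C : ℝ, 0 < C ∧ ∀ K0 : ℕ, ∃ K : ℕ, K0 ≤ K ∧
  ∀ (s : St) (n : ℕ), s.ok → Comp s → η1 ≤ s.eta → 8 * |s.j| ≤ K → C * K ^ 2 ≤ n →
    c * ar s.A s.B ≤ co n s.A s.B

end Pool.Agent.Lib.MP_d437ed.Hit
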